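import Mathlib

set_option autoImplicit false

/-! The 3-torus, its C^r diffeomorphisms with the C^r topology, stable sets, immersed cells. -/

open Set Filter Topology

namespace Pool.Agent.Helper867.Smale

/-- The 3-torus: the product of three circles `ℝ/ℤ`, with the maximum metric. -/
abbrev T3 : Type := Fin 3 → UnitAddCircle

/-- The covering map from `ℝ³` onto the 3-torus. -/
def pr (p : Fin 3 → ℝ) : T3 := fun i => (p i : UnitAddCircle)

/-- `F` is a `C^r` lift of the self-map `f` of the torus. -/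
def IsLift (r : ℕ∞) (F : (Fin 3 → ℝ) → (Fin 3 → ℝ)) (f : T3 → T3) : Prop :=
  ContDiff ℝ r F ∧ ∀ p, pr (F p) = f (pr p)

/-- `C^r` diffeomorphisms of the 3-torus: bijections which, together with their inverse,
have a `C^r` lift to `ℝ³`. -/
def Dyn (r : ℕ∞) : Type :=
  {f : Equiv.Perm T3 // (∃ F, IsLift r F f) ∧ ∃ G, IsLift r G f.symm}

/-- The open ball about `f` of radius `ε` for the `C^k` norm of the difference of suitable lifts. -/
def ckBall (r : ℕ∞) (f : Dyn r) (k : ℕ) (ε : ℝ) : Set (Dyn r) :=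
  {g | ∃ F G, IsLift r F f.1 ∧ IsLift r G g.1 ∧ ∃ ε' < ε, ∀ j ≤ k, ∀ p,
    ‖iteratedFDeriv ℝ j G p - iteratedFDeriv ℝ j F p‖ ≤ ε'}

/-- The `C^r` topology on the space of `C^r` diffeomorphisms of the torus, generated by the
`C^k` balls with `k` finite and `k ≤ r`. -/
instance dynTop (r : ℕ∞) : TopologicalSpace (Dyn r) :=
  TopologicalSpace.generateFrom
    {U | ∃ (f : Dyn r) (k : ℕ) (ε : ℝ), (k : ℕ∞) ≤ r ∧ 0 < ε ∧ U = ckBall r f k ε}

/-- The stable manifold `W^s(x)`: all points whose forward orbit is asymptotic to that of `x`. -/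
def stableSet (f : T3 → T3) (x : T3) : Set T3 :=
  {y | Tendsto (fun n : ℕ => dist (f^[n] x) (f^[n] y)) atTop (𝓝 0)}

/-- `W` is a smoothly injectively immersed open cell: the image of an injective `C^r` immersion
`ℝ^k → T3` for some `k ≥ 0`. (A `C^r` map from `ℝ^k` to the torus is given by a `C^r` lift `Φ`.) -/
def IsCell (r : ℕ∞) (W : Set T3) : Prop :=
  ∃ (k : ℕ) (Φ : (Fin k → ℝ) → (Fin 3 → ℝ)), ContDiff ℝ r Φ ∧
    (∀ q, Function.Injective (fderiv ℝ Φ q)) ∧ Function.Injective (fun q => pr (Φ q)) ∧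
    range (fun q => pr (Φ q)) = W

/-- Property (C): every stable manifold is a smoothly injectively immersed open cell. -/
def PropC (r : ℕ∞) (f : Dyn r) : Prop := ∀ x : T3, IsCell r (stableSet f.1 x)

end Pool.Agent.Helper867.Smale
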