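import Pool.Agent.Helper867.Smale.Base
import Pool.Agent.Helper867.Smale.Torus

set_option autoImplicit false

open Set Filter Topology

namespace Pool.Agent.Helper867.Smale

/-- coordinates -/
def ee (p : ℝ × ℝ × ℝ) : Fin 3 → ℝ := ![p.1, p.2.1, p.2.2]

/-- central nonlinearity -/
noncomputable def rr (c : ℝ) : ℝ :=
  1 / 10 ^ 4 * (Real.cos (2 * Real.pi * c) - 1 - 2 * Real.sin (2 * Real.pi * c) ^ 3)

/-- central coupling -/
noncomputable def gg (a c : ℝ) : ℝ :=
  nu * (Real.cos (2 * Real.pi * a) + Real.cos (4 * Real.pi * a) * Real.sin (2 * Real.pi * c))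

/-- the model map -/
noncomputable def F0 (p : Fin 3 → ℝ) : Fin 3 → ℝ :=
  ![NN * p 0 - p 1, p 0, p 2 + rr (p 2) + gg (p 0) (p 2)]


end Pool.Agent.Helper867.Smale
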