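import Pool.Agent.Helper867.Smale.Base
import Pool.Agent.Helper867.Smale.Torus
import Pool.Agent.Helper867.Smale.Defs2

set_option autoImplicit false

open Set Filter Topology

namespace Pool.Agent.Helper867.Smale

theorem F0_contDiff : ContDiff ℝ (⊤ : ℕ∞) F0 := by
  rw [contDiff_pi]
  have h : ∀ i : Fin 3, ContDiff ℝ (⊤ : ℕ∞) fun p : Fin 3 → ℝ => p i := fun i =>
    contDiff_apply ℝ ℝ i
  intro i
  fin_cases i
  · show ContDiff ℝ (⊤ : ℕ∞) fun p : Fin 3 → ℝ => NN * p 0 - p 1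
    exact (contDiff_const.mul (h 0)).sub (h 1)
  · show ContDiff ℝ (⊤ : ℕ∞) fun p : Fin 3 → ℝ => p 0
    exact h 0
  · show ContDiff ℝ (⊤ : ℕ∞) fun p : Fin 3 → ℝ => p 2 + rr (p 2) + gg (p 0) (p 2)
    unfold rr gg
    fun_prop

end Pool.Agent.Helper867.Smale
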