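import Pool.Agent.Helper867.Smale.Base
import Pool.Agent.Helper867.Smale.Torus
import Pool.Agent.Helper867.Smale.Defs2

set_option autoImplicit false

open Set Filter Topology

namespace Pool.Agent.Helper867.Smale

theorem gg_props_aux1 (t : ℝ) : |t - Real.sin t| ≤ t ^ 2 := by
  have key : ∀ t : ℝ, 0 ≤ t → |t - Real.sin t| ≤ t ^ 2 := by
    intro t ht
    have h1 : Real.sin t ≤ t := Real.sin_le ht
    rw [abs_of_nonneg (by linarith)]
    rcases le_or_gt t 1 with h | h
    · rcases ht.eq_or_lt with h0 | h0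
      · rw [← h0]; simp
      · have h3 := Real.sin_gt_sub_cube h0
        have h4 : t ^ 3 ≤ t ^ 2 := by nlinarith [sq_nonneg t, mul_nonneg (sq_nonneg t) (sub_nonneg.2 h)]
        have h5 : 0 ≤ t ^ 3 := by positivity
        nlinarith [sq_nonneg t]
    · rcases le_or_gt t Real.pi with h2 | h2
      · have := Real.sin_nonneg_of_nonneg_of_le_pi ht h2
        nlinarith
      · have := Real.neg_one_le_sin t
        have := Real.pi_gt_three
        nlinarith
  rcases le_total 0 t with h | h
  · exact key t h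
  · have h1 := key (-t) (by linarith)
    rw [Real.sin_neg, show -t - -Real.sin t = -(t - Real.sin t) by ring, abs_neg] at h1
    simpa using h1

theorem gg_props_aux2 (x s : ℝ) :
    |Real.cos (x + s) - Real.cos x + s * Real.sin x| ≤ 3 / 2 * s ^ 2 := by
  have e : Real.cos (x + s) - Real.cos x + s * Real.sin x =
      Real.cos x * (Real.cos s - 1) + Real.sin x * (s - Real.sin s) := by
    rw [Real.cos_add]; ring
  rw [e]
  have h1 : |Real.cos s - 1| ≤ s ^ 2 / 2 := by
    rw [abs_le]
    constructor <;> linarith [Real.one_sub_sq_div_two_le_cos (x := s), Real.cos_le_one s, sq_nonneg s]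
  have h2 := gg_props_aux1 s
  calc |Real.cos x * (Real.cos s - 1) + Real.sin x * (s - Real.sin s)|
      ≤ |Real.cos x * (Real.cos s - 1)| + |Real.sin x * (s - Real.sin s)| := abs_add_le _ _
    _ = |Real.cos x| * |Real.cos s - 1| + |Real.sin x| * |s - Real.sin s| := by
        rw [abs_mul, abs_mul]
    _ ≤ 1 * (s ^ 2 / 2) + 1 * s ^ 2 :=
        add_le_add (mul_le_mul (Real.abs_cos_le_one x) h1 (abs_nonneg _) zero_le_one)
          (mul_le_mul (Real.abs_sin_le_one x) h2 (abs_nonneg _) zero_le_one)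
    _ = 3 / 2 * s ^ 2 := by ring

theorem gg_props_aux3 (x s : ℝ) :
    |Real.sin (x + s) - Real.sin x - s * Real.cos x| ≤ 3 / 2 * s ^ 2 := by
  have e : Real.sin (x + s) - Real.sin x - s * Real.cos x =
      Real.sin x * (Real.cos s - 1) + Real.cos x * (-(s - Real.sin s)) := by
    rw [Real.sin_add]; ring
  rw [e]
  have h1 : |Real.cos s - 1| ≤ s ^ 2 / 2 := by
    rw [abs_le]
    constructor <;> linarith [Real.one_sub_sq_div_two_le_cos (x := s), Real.cos_le_one s, sq_nonneg s]
  have h2 := gg_props_aux1 s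
  calc |Real.sin x * (Real.cos s - 1) + Real.cos x * (-(s - Real.sin s))|
      ≤ |Real.sin x * (Real.cos s - 1)| + |Real.cos x * (-(s - Real.sin s))| := abs_add_le _ _
    _ = |Real.sin x| * |Real.cos s - 1| + |Real.cos x| * |s - Real.sin s| := by
        rw [abs_mul, abs_mul, abs_neg]
    _ ≤ 1 * (s ^ 2 / 2) + 1 * s ^ 2 :=
        add_le_add (mul_le_mul (Real.abs_sin_le_one x) h1 (abs_nonneg _) zero_le_one)
          (mul_le_mul (Real.abs_cos_le_one x) h2 (abs_nonneg _) zero_le_one)
    _ = 3 / 2 * s ^ 2 := by ring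

theorem gg_props_aux4 (x y : ℝ) : |Real.cos x - Real.cos y| ≤ |x - y| := by
  have := Real.lipschitzWith_cos.dist_le_mul x y
  simpa [Real.dist_eq] using this

theorem gg_props_aux5 (x y : ℝ) : |Real.sin x - Real.sin y| ≤ |x - y| := by
  have := Real.lipschitzWith_sin.dist_le_mul x y
  simpa [Real.dist_eq] using this

/-- partial derivative in `a` -/
noncomputable def gg_props_auxDa (a c : ℝ) : ℝ :=
  nu * (-(2 * Real.pi) * Real.sin (2 * Real.pi * a) -
    4 * Real.pi * Real.sin (4 * Real.pi * a) * Real.sin (2 * Real.pi * c))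

/-- partial derivative in `c` -/
noncomputable def gg_props_auxDc (a c : ℝ) : ℝ :=
  nu * (2 * Real.pi * Real.cos (4 * Real.pi * a) * Real.cos (2 * Real.pi * c))

theorem gg_props_aux6 (a c α γ M : ℝ) (hα : |α| ≤ M) (hγ : |γ| ≤ M) :
    |gg (a + α) (c + γ) - gg a c - (gg_props_auxDa a c * α + gg_props_auxDc a c * γ)| ≤
      9 / 10 ^ 6 * M ^ 2 := by
  set x := 2 * Real.pi * a with hx
  set y := 2 * Real.pi * c with hy
  set s := 2 * Real.pi * α with hs
  set w := 2 * Real.pi * γ with hw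
  have hM : 0 ≤ M := (abs_nonneg _).trans hα
  have hpi := Real.pi_pos
  have e : gg (a + α) (c + γ) - gg a c - (gg_props_auxDa a c * α + gg_props_auxDc a c * γ) =
      nu * ((Real.cos (x + s) - Real.cos x + s * Real.sin x) +
        (Real.cos (2 * x + 2 * s) - Real.cos (2 * x) + (2 * s) * Real.sin (2 * x)) * Real.sin (y + w) -
        2 * s * Real.sin (2 * x) * (Real.sin (y + w) - Real.sin y) +
        Real.cos (2 * x) * (Real.sin (y + w) - Real.sin y - w * Real.cos y)) := by
    unfold gg gg_props_auxDa gg_props_auxDc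
    have e1 : 2 * Real.pi * (a + α) = x + s := by rw [hx, hs]; ring
    have e2 : 4 * Real.pi * (a + α) = 2 * x + 2 * s := by rw [hx, hs]; ring
    have e3 : 4 * Real.pi * a = 2 * x := by rw [hx]; ring
    have e4 : 2 * Real.pi * (c + γ) = y + w := by rw [hy, hw]; ring
    rw [e1, e2, e3, e4, ← hx, ← hy, hs, hw]
    ring
  have h1 := gg_props_aux2 x s
  have h2 := gg_props_aux2 (2 * x) (2 * s)
  have h3 := gg_props_aux5 (y + w) y
  have h4 := gg_props_aux3 y w
  have hnu : 0 < nu := by unfold nu; norm_num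
  have hs1 : |s| ≤ 2 * Real.pi * M := by
    rw [hs, abs_mul, abs_of_pos (by positivity : (0:ℝ) < 2 * Real.pi)]
    exact mul_le_mul_of_nonneg_left hα (by positivity)
  have hw1 : |w| ≤ 2 * Real.pi * M := by
    rw [hw, abs_mul, abs_of_pos (by positivity : (0:ℝ) < 2 * Real.pi)]
    exact mul_le_mul_of_nonneg_left hγ (by positivity)
  set m := 2 * Real.pi * M with hm
  have hm0 : 0 ≤ m := by positivity
  have hs2 : s ^ 2 ≤ m ^ 2 := by
    rw [← sq_abs s]; exact pow_le_pow_left₀ (abs_nonneg _) hs1 2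
  have hw2 : w ^ 2 ≤ m ^ 2 := by
    rw [← sq_abs w]; exact pow_le_pow_left₀ (abs_nonneg _) hw1 2
  have b2 : |(Real.cos (2 * x + 2 * s) - Real.cos (2 * x) + (2 * s) * Real.sin (2 * x)) *
      Real.sin (y + w)| ≤ 6 * m ^ 2 := by
    rw [abs_mul]
    calc _ ≤ (3 / 2 * (2 * s) ^ 2) * 1 :=
          mul_le_mul h2 (Real.abs_sin_le_one _) (abs_nonneg _) (by positivity)
      _ ≤ 6 * m ^ 2 := by nlinarith
  have b3 : |2 * s * Real.sin (2 * x) * (Real.sin (y + w) - Real.sin y)| ≤ 2 * m ^ 2 := by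
    rw [abs_mul, abs_mul, abs_mul, abs_two]
    have h5 : |Real.sin (y + w) - Real.sin y| ≤ m := by
      refine h3.trans ?_
      rw [show y + w - y = w by ring]; exact hw1
    have h6 : 2 * |s| * |Real.sin (2 * x)| ≤ 2 * m * 1 :=
      mul_le_mul (by linarith) (Real.abs_sin_le_one _) (abs_nonneg _) (by positivity)
    calc _ ≤ (2 * m * 1) * m := mul_le_mul h6 h5 (abs_nonneg _) (by positivity)
      _ = 2 * m ^ 2 := by ring
  have b4 : |Real.cos (2 * x) * (Real.sin (y + w) - Real.sin y - w * Real.cos y)| ≤ 3 / 2 * m ^ 2 := by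
    rw [abs_mul]
    calc _ ≤ 1 * (3 / 2 * w ^ 2) :=
          mul_le_mul (Real.abs_cos_le_one _) h4 (abs_nonneg _) zero_le_one
      _ ≤ 3 / 2 * m ^ 2 := by linarith
  have b1 : |Real.cos (x + s) - Real.cos x + s * Real.sin x| ≤ 3 / 2 * m ^ 2 := by linarith
  rw [e, abs_mul, abs_of_pos hnu]
  have b5 : |(Real.cos (x + s) - Real.cos x + s * Real.sin x) +
        (Real.cos (2 * x + 2 * s) - Real.cos (2 * x) + (2 * s) * Real.sin (2 * x)) * Real.sin (y + w) -
        2 * s * Real.sin (2 * x) * (Real.sin (y + w) - Real.sin y) +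
        Real.cos (2 * x) * (Real.sin (y + w) - Real.sin y - w * Real.cos y)| ≤ 11 * m ^ 2 := by
    rw [abs_le] at b1 b2 b3 b4 ⊢
    constructor <;> linarith [b1.1, b1.2, b2.1, b2.2, b3.1, b3.2, b4.1, b4.2]
  have hpi2 : Real.pi ^ 2 ≤ 10 := by
    have := Real.pi_lt_d2
    nlinarith [Real.pi_pos]
  have hm2 : m ^ 2 ≤ 40 * M ^ 2 := by
    rw [hm]
    have : (2 * Real.pi * M) ^ 2 = 4 * Real.pi ^ 2 * M ^ 2 := by ring
    rw [this]
    have := mul_le_mul_of_nonneg_right hpi2 (sq_nonneg M)
    linarith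
  calc nu * _ ≤ nu * (11 * m ^ 2) := mul_le_mul_of_nonneg_left b5 hnu.le
    _ ≤ nu * (11 * (40 * M ^ 2)) := by
        apply mul_le_mul_of_nonneg_left _ hnu.le
        linarith
    _ ≤ 9 / 10 ^ 6 * M ^ 2 := by
        unfold nu
        nlinarith [sq_nonneg M]

theorem gg_props :
    (Continuous fun p : ℝ × ℝ => gg p.1 p.2) ∧
    (∀ a c, |gg a c| ≤ 2 * nu) ∧
    (∀ a c a' c', |gg a c - gg a' c'| ≤ 1 / 10 ^ 6 * max |a - a'| |c - c'|) ∧
    (∀ a c αy R αz L, 0 < R → 0 < L → |αy| ≤ R → |αz| ≤ L →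
      |(gg a c - gg (a - αz) (c - L)) / L - (gg (a + αy) (c + R) - gg a c) / R|
        ≤ 9 / 10 ^ 6 * (|αz / L - αy / R| + (L + R))) := by
  have hpi := Real.pi_pos
  have hpi4 : Real.pi < 4 := by linarith [Real.pi_lt_d2]
  have hnu : 0 < nu := by unfold nu; norm_num
  refine ⟨?_, ?_, ?_, ?_⟩
  · unfold gg
    fun_prop
  · intro a c
    unfold gg
    rw [abs_mul, abs_of_pos hnu, mul_comm]
    apply mul_le_mul_of_nonneg_right _ hnu.le
    have h1 := Real.abs_cos_le_one (2 * Real.pi * a)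
    have h2 : |Real.cos (4 * Real.pi * a) * Real.sin (2 * Real.pi * c)| ≤ 1 := by
      rw [abs_mul]
      calc _ ≤ (1:ℝ) * 1 := mul_le_mul (Real.abs_cos_le_one _) (Real.abs_sin_le_one _) (abs_nonneg _)
            zero_le_one
        _ = 1 := one_mul 1
    have h3 := abs_add_le (Real.cos (2 * Real.pi * a)) (Real.cos (4 * Real.pi * a) * Real.sin (2 * Real.pi * c))
    linarith
  · intro a c a' c'
    set m := max |a - a'| |c - c'| with hm
    have ha : |a - a'| ≤ m := le_max_left _ _
    have hc : |c - c'| ≤ m := le_max_right _ _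
    have hm0 : 0 ≤ m := (abs_nonneg _).trans ha
    have h1 := gg_props_aux4 (2 * Real.pi * a) (2 * Real.pi * a')
    have h2 := gg_props_aux4 (4 * Real.pi * a) (4 * Real.pi * a')
    have h3 := gg_props_aux5 (2 * Real.pi * c) (2 * Real.pi * c')
    rw [← mul_sub, abs_mul, abs_of_pos (by positivity : (0:ℝ) < 2 * Real.pi)] at h1 h3
    rw [← mul_sub, abs_mul, abs_of_pos (by positivity : (0:ℝ) < 4 * Real.pi)] at h2
    have k1 : 2 * Real.pi * |a - a'| ≤ 2 * Real.pi * m := mul_le_mul_of_nonneg_left ha (by positivity)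
    have k2 : 4 * Real.pi * |a - a'| ≤ 4 * Real.pi * m := mul_le_mul_of_nonneg_left ha (by positivity)
    have k3 : 2 * Real.pi * |c - c'| ≤ 2 * Real.pi * m := mul_le_mul_of_nonneg_left hc (by positivity)
    have e : gg a c - gg a' c' = nu * ((Real.cos (2 * Real.pi * a) - Real.cos (2 * Real.pi * a')) +
        (Real.cos (4 * Real.pi * a) - Real.cos (4 * Real.pi * a')) * Real.sin (2 * Real.pi * c) +
        Real.cos (4 * Real.pi * a') * (Real.sin (2 * Real.pi * c) - Real.sin (2 * Real.pi * c'))) := by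
      unfold gg; ring
    rw [e, abs_mul, abs_of_pos hnu]
    have b2 : |(Real.cos (4 * Real.pi * a) - Real.cos (4 * Real.pi * a')) * Real.sin (2 * Real.pi * c)| ≤
        4 * Real.pi * m := by
      rw [abs_mul]
      calc _ ≤ (4 * Real.pi * m) * 1 :=
            mul_le_mul (h2.trans k2) (Real.abs_sin_le_one _) (abs_nonneg _) (by positivity)
        _ = _ := mul_one _
    have b3 : |Real.cos (4 * Real.pi * a') * (Real.sin (2 * Real.pi * c) - Real.sin (2 * Real.pi * c'))| ≤
        2 * Real.pi * m := by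
      rw [abs_mul]
      calc _ ≤ 1 * (2 * Real.pi * m) :=
            mul_le_mul (Real.abs_cos_le_one _) (h3.trans k3) (abs_nonneg _) zero_le_one
        _ = _ := one_mul _
    have b1 := h1.trans k1
    have b4 : |(Real.cos (2 * Real.pi * a) - Real.cos (2 * Real.pi * a')) +
        (Real.cos (4 * Real.pi * a) - Real.cos (4 * Real.pi * a')) * Real.sin (2 * Real.pi * c) +
        Real.cos (4 * Real.pi * a') * (Real.sin (2 * Real.pi * c) - Real.sin (2 * Real.pi * c'))| ≤
        8 * Real.pi * m := by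
      rw [abs_le] at b1 b2 b3 ⊢
      constructor <;> linarith [b1.1, b1.2, b2.1, b2.2, b3.1, b3.2]
    calc nu * _ ≤ nu * (8 * Real.pi * m) := mul_le_mul_of_nonneg_left b4 hnu.le
      _ ≤ nu * (8 * 4 * m) := by
          apply mul_le_mul_of_nonneg_left _ hnu.le
          apply mul_le_mul_of_nonneg_right _ hm0
          linarith
      _ ≤ 1 / 10 ^ 6 * m := by
          unfold nu
          linarith
  · intro a c αy R αz L hR hL hy hz
    have h1 := gg_props_aux6 a c αy R R hy (by rw [abs_of_pos hR])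
    have h2 := gg_props_aux6 a c (-αz) (-L) L (by rw [abs_neg]; exact hz)
      (by rw [abs_neg, abs_of_pos hL])
    rw [← sub_eq_add_neg, ← sub_eq_add_neg] at h2
    set Da := gg_props_auxDa a c with hDa
    set Dc := gg_props_auxDc a c with hDc
    have hDab : |Da| ≤ 9 / 10 ^ 6 := by
      rw [hDa]
      unfold gg_props_auxDa
      rw [abs_mul, abs_of_pos hnu]
      have b1 : |-(2 * Real.pi) * Real.sin (2 * Real.pi * a)| ≤ 2 * Real.pi := by
        rw [abs_mul, abs_neg, abs_of_pos (by positivity : (0:ℝ) < 2 * Real.pi)]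
        exact mul_le_of_le_one_right (by positivity) (Real.abs_sin_le_one _)
      have b2 : |4 * Real.pi * Real.sin (4 * Real.pi * a) * Real.sin (2 * Real.pi * c)| ≤ 4 * Real.pi := by
        rw [abs_mul, abs_mul, abs_of_pos (by positivity : (0:ℝ) < 4 * Real.pi)]
        have : |Real.sin (4 * Real.pi * a)| * |Real.sin (2 * Real.pi * c)| ≤ 1 * 1 :=
          mul_le_mul (Real.abs_sin_le_one _) (Real.abs_sin_le_one _) (abs_nonneg _) zero_le_one
        rw [mul_assoc]
        calc _ ≤ 4 * Real.pi * (1 * 1) := mul_le_mul_of_nonneg_left this (by positivity)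
          _ = _ := by ring
      have b3 := abs_sub (-(2 * Real.pi) * Real.sin (2 * Real.pi * a))
        (4 * Real.pi * Real.sin (4 * Real.pi * a) * Real.sin (2 * Real.pi * c))
      calc nu * _ ≤ nu * (6 * 4) := by
            apply mul_le_mul_of_nonneg_left _ hnu.le
            linarith
        _ ≤ 9 / 10 ^ 6 := by unfold nu; norm_num
    set ry := gg (a + αy) (c + R) - gg a c - (Da * αy + Dc * R) with hry
    set rz := gg (a - αz) (c - L) - gg a c - (Da * -αz + Dc * -L) with hrz
    have e : (gg a c - gg (a - αz) (c - L)) / L - (gg (a + αy) (c + R) - gg a c) / R =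
        Da * (αz / L - αy / R) - rz / L - ry / R := by
      have e1 : gg (a - αz) (c - L) = rz + gg a c + (Da * -αz + Dc * -L) := by rw [hrz]; ring
      have e2 : gg (a + αy) (c + R) = ry + gg a c + (Da * αy + Dc * R) := by rw [hry]; ring
      rw [e1, e2]
      field_simp
      ring
    have k1 : |rz / L| ≤ 9 / 10 ^ 6 * L := by
      rw [abs_div, abs_of_pos hL, div_le_iff₀ hL]
      calc |rz| ≤ 9 / 10 ^ 6 * L ^ 2 := h2
        _ = _ := by ring
    have k2 : |ry / R| ≤ 9 / 10 ^ 6 * R := by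
      rw [abs_div, abs_of_pos hR, div_le_iff₀ hR]
      calc |ry| ≤ 9 / 10 ^ 6 * R ^ 2 := h1
        _ = _ := by ring
    have k3 : |Da * (αz / L - αy / R)| ≤ 9 / 10 ^ 6 * |αz / L - αy / R| := by
      rw [abs_mul]
      exact mul_le_mul_of_nonneg_right hDab (abs_nonneg _)
    rw [e]
    have k4 := abs_sub (Da * (αz / L - αy / R) - rz / L) (ry / R)
    have k5 := abs_sub (Da * (αz / L - αy / R)) (rz / L)
    linarith

end Pool.Agent.Helper867.Smale
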