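import Pool.Agent.Helper867.Smale.Base
import Pool.Agent.Helper867.Smale.Torus
import Pool.Agent.Helper867.Smale.Defs2

set_option autoImplicit false

open Set Filter Topology

namespace Pool.Agent.Helper867.Smale

noncomputable def rr_props_aux_d1 (c : ℝ) : ℝ :=
  1 / 10 ^ 4 * (2 * Real.pi) *
    (-Real.sin (2 * Real.pi * c) - 6 * Real.sin (2 * Real.pi * c) ^ 2 * Real.cos (2 * Real.pi * c))

noncomputable def rr_props_aux_d2 (c : ℝ) : ℝ :=
  1 / 10 ^ 4 * (2 * Real.pi) ^ 2 *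
    (-Real.cos (2 * Real.pi * c) - 12 * Real.sin (2 * Real.pi * c) * Real.cos (2 * Real.pi * c) ^ 2
      + 6 * Real.sin (2 * Real.pi * c) ^ 3)

theorem rr_props_aux_hd1 (c : ℝ) : HasDerivAt rr (rr_props_aux_d1 c) c := by
  have hθ : HasDerivAt (fun c : ℝ => 2 * Real.pi * c) (2 * Real.pi) c := by
    simpa using (hasDerivAt_id c).const_mul (2 * Real.pi)
  have h := (((hθ.cos).sub_const 1).sub (((hθ.sin).pow 3).const_mul 2)).const_mul (1 / 10 ^ 4 : ℝ)
  refine HasDerivAt.congr_deriv (f := rr) h ?_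
  unfold rr_props_aux_d1
  push_cast
  ring

theorem rr_props_aux_hd2 (c : ℝ) : HasDerivAt rr_props_aux_d1 (rr_props_aux_d2 c) c := by
  have hθ : HasDerivAt (fun c : ℝ => 2 * Real.pi * c) (2 * Real.pi) c := by
    simpa using (hasDerivAt_id c).const_mul (2 * Real.pi)
  have h := ((hθ.sin.neg).sub ((((hθ.sin).pow 2).const_mul 6).mul hθ.cos)).const_mul
    (1 / 10 ^ 4 * (2 * Real.pi) : ℝ)
  refine HasDerivAt.congr_deriv (f := rr_props_aux_d1) h ?_
  unfold rr_props_aux_d2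
  simp only [Pi.pow_apply]
  push_cast
  ring

theorem rr_props_aux_cont : Continuous rr := by
  unfold rr
  fun_prop

theorem rr_props_aux_b1 (c : ℝ) : |rr_props_aux_d1 c| ≤ 1 / 100 := by
  unfold rr_props_aux_d1
  set s := Real.sin (2 * Real.pi * c) with hs
  set k := Real.cos (2 * Real.pi * c) with hk
  have s1 : s ≤ 1 := Real.sin_le_one _
  have s2 : -1 ≤ s := Real.neg_one_le_sin _
  have k1 : k ≤ 1 := Real.cos_le_one _
  have k2 : -1 ≤ k := Real.neg_one_le_cos _
  have ss : s ^ 2 ≤ 1 := by nlinarith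
  have ss0 : 0 ≤ s ^ 2 := sq_nonneg s
  have e1 : s ^ 2 * k ≤ 1 := by nlinarith
  have e2 : -1 ≤ s ^ 2 * k := by nlinarith
  have hπ1 : Real.pi < 3.1416 := Real.pi_lt_d4
  have hπ0 : 0 < Real.pi := Real.pi_pos
  rw [abs_mul, abs_of_pos (by positivity : (0 : ℝ) < 1 / 10 ^ 4 * (2 * Real.pi))]
  have hb : |-s - 6 * s ^ 2 * k| ≤ 7 := by
    rw [abs_le]
    constructor
    · nlinarith
    · nlinarith
  calc 1 / 10 ^ 4 * (2 * Real.pi) * |-s - 6 * s ^ 2 * k|
      ≤ 1 / 10 ^ 4 * (2 * Real.pi) * 7 := by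
        apply mul_le_mul_of_nonneg_left hb (by positivity)
    _ ≤ 1 / 100 := by
        norm_num at hπ1 ⊢
        nlinarith

theorem rr_props_aux_b2 (c : ℝ) : |rr_props_aux_d2 c| ≤ 76 / 1000 := by
  unfold rr_props_aux_d2
  set s := Real.sin (2 * Real.pi * c) with hs
  set k := Real.cos (2 * Real.pi * c) with hk
  have s1 : s ≤ 1 := Real.sin_le_one _
  have s2 : -1 ≤ s := Real.neg_one_le_sin _
  have k1 : k ≤ 1 := Real.cos_le_one _
  have k2 : -1 ≤ k := Real.neg_one_le_cos _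
  have ss : s ^ 2 ≤ 1 := by nlinarith
  have ss0 : 0 ≤ s ^ 2 := sq_nonneg s
  have kk : k ^ 2 ≤ 1 := by nlinarith
  have kk0 : 0 ≤ k ^ 2 := sq_nonneg k
  have e1 : s * k ^ 2 ≤ 1 := by nlinarith
  have e2 : -1 ≤ s * k ^ 2 := by nlinarith
  have f1 : s ^ 3 ≤ 1 := by
    have : s ^ 3 = s * s ^ 2 := by ring
    rw [this]; nlinarith
  have f2 : -1 ≤ s ^ 3 := by
    have : s ^ 3 = s * s ^ 2 := by ring
    rw [this]; nlinarith
  have hπ1 : Real.pi < 3.1416 := Real.pi_lt_d4
  have hπ0 : 0 < Real.pi := Real.pi_pos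
  rw [abs_mul, abs_of_pos (by positivity : (0 : ℝ) < 1 / 10 ^ 4 * (2 * Real.pi) ^ 2)]
  have hb : |-k - 12 * s * k ^ 2 + 6 * s ^ 3| ≤ 19 := by
    rw [abs_le]
    constructor
    · nlinarith
    · nlinarith
  have hπ2 : (2 * Real.pi) ^ 2 ≤ 3948 / 100 := by
    norm_num at hπ1
    nlinarith
  calc 1 / 10 ^ 4 * (2 * Real.pi) ^ 2 * |-k - 12 * s * k ^ 2 + 6 * s ^ 3|
      ≤ 1 / 10 ^ 4 * (2 * Real.pi) ^ 2 * 19 := by
        apply mul_le_mul_of_nonneg_left hb (by positivity)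
    _ ≤ 76 / 1000 := by
        norm_num
        nlinarith

theorem rr_props_aux_neg (c : ℝ) (h1 : -(1 / 200) ≤ c) (h2 : c ≤ 1 / 200) :
    rr_props_aux_d2 c ≤ -(244 / 100000) := by
  unfold rr_props_aux_d2
  have hπ1 : Real.pi < 3.1416 := Real.pi_lt_d4
  have hπ3 : 3.1415 < Real.pi := Real.pi_gt_d4
  have hπ0 : 0 < Real.pi := Real.pi_pos
  norm_num at hπ1 hπ3
  set θ := 2 * Real.pi * c with hθ
  have hθ1 : |θ| ≤ 3142 / 100000 := by
    rw [hθ, abs_le]
    constructor <;> nlinarith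
  have hs : |Real.sin θ| ≤ 3142 / 100000 := (Real.abs_sin_le_abs).trans hθ1
  have hk : 1 - θ ^ 2 / 2 ≤ Real.cos θ := Real.one_sub_sq_div_two_le_cos
  have hk1 : Real.cos θ ≤ 1 := Real.cos_le_one _
  have hk2 : -1 ≤ Real.cos θ := Real.neg_one_le_cos _
  set s := Real.sin θ with hsdef
  set k := Real.cos θ with hkdef
  rw [abs_le] at hθ1 hs
  have hθ2 : θ ^ 2 ≤ 1 / 1000 := by nlinarith
  have hk3 : 9995 / 10000 ≤ k := by linarith
  have kk : k ^ 2 ≤ 1 := by nlinarith
  have kk0 : 0 ≤ k ^ 2 := sq_nonneg k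
  have e2 : -(3142 / 100000) ≤ s * k ^ 2 := by nlinarith
  have ss : s ^ 2 ≤ 1 / 1000 := by nlinarith
  have f1 : s ^ 3 ≤ 1 / 10000 := by
    have : s ^ 3 = s * s ^ 2 := by ring
    rw [this]; nlinarith [sq_nonneg s]
  have hb : -k - 12 * s * k ^ 2 + 6 * s ^ 3 ≤ -(62 / 100) := by nlinarith
  have hπ2 : 3947 / 100 ≤ (2 * Real.pi) ^ 2 := by nlinarith
  calc 1 / 10 ^ 4 * (2 * Real.pi) ^ 2 * (-k - 12 * s * k ^ 2 + 6 * s ^ 3)
      ≤ 1 / 10 ^ 4 * (2 * Real.pi) ^ 2 * (-(62 / 100)) := by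
        apply mul_le_mul_of_nonneg_left hb (by positivity)
    _ ≤ -(244 / 100000) := by
        norm_num
        nlinarith

theorem rr_props_aux_lip (c c' : ℝ) : |rr c - rr c'| ≤ 1 / 100 * |c - c'| := by
  have h := Convex.norm_image_sub_le_of_norm_hasDerivWithin_le (f := rr) (f' := rr_props_aux_d1)
    (C := 1 / 100) (s := univ) (x := c') (y := c)
    (fun x _ => (rr_props_aux_hd1 x).hasDerivWithinAt)
    (fun x _ => by rw [Real.norm_eq_abs]; exact rr_props_aux_b1 x) convex_univ (mem_univ _) (mem_univ _)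
  simpa [Real.norm_eq_abs] using h

theorem rr_props_aux_lip1 (c c' : ℝ) :
    |rr_props_aux_d1 c - rr_props_aux_d1 c'| ≤ 76 / 1000 * |c - c'| := by
  have h := Convex.norm_image_sub_le_of_norm_hasDerivWithin_le (f := rr_props_aux_d1)
    (f' := rr_props_aux_d2) (C := 76 / 1000) (s := univ) (x := c') (y := c)
    (fun x _ => (rr_props_aux_hd2 x).hasDerivWithinAt)
    (fun x _ => by rw [Real.norm_eq_abs]; exact rr_props_aux_b2 x) convex_univ (mem_univ _) (mem_univ _)
  simpa [Real.norm_eq_abs] using h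

theorem rr_props_aux_zero : rr 0 = 0 := by
  unfold rr
  simp

theorem rr_props_aux_d1_zero : rr_props_aux_d1 0 = 0 := by
  unfold rr_props_aux_d1
  simp

theorem rr_props_aux_d1_small (c : ℝ) : |rr_props_aux_d1 c| ≤ 76 / 1000 * |c| := by
  have h := rr_props_aux_lip1 c 0
  rwa [rr_props_aux_d1_zero, sub_zero, sub_zero] at h

theorem rr_props_aux_loc (K : ℝ) (c c' : ℝ) (hc : |c| ≤ K) (hc' : |c'| ≤ K) :
    |rr c - rr c'| ≤ 76 / 1000 * K * |c - c'| := by
  have h := Convex.norm_image_sub_le_of_norm_hasDerivWithin_le (f := rr)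
    (f' := rr_props_aux_d1) (C := 76 / 1000 * K) (s := Icc (-K) K) (x := c') (y := c)
    (fun x _ => (rr_props_aux_hd1 x).hasDerivWithinAt)
    (fun x hx => by
      rw [Real.norm_eq_abs]
      refine (rr_props_aux_d1_small x).trans ?_
      have : |x| ≤ K := abs_le.2 hx
      nlinarith) (convex_Icc _ _) (abs_le.1 hc') (abs_le.1 hc)
  simpa [Real.norm_eq_abs] using h

theorem rr_props_aux_conc : ConcaveOn ℝ (Icc (-(1 / 200)) (1 / 200))
    (fun x => rr x + 122 / 100000 * x ^ 2) := by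
  have hd1 : ∀ x : ℝ, HasDerivAt (fun x => rr x + 122 / 100000 * x ^ 2)
      (rr_props_aux_d1 x + 244 / 100000 * x) x := by
    intro x
    have h := (rr_props_aux_hd1 x).add (((hasDerivAt_id x).pow 2).const_mul (122 / 100000 : ℝ))
    refine HasDerivAt.congr_deriv h ?_
    simp
    ring
  have hd2 : ∀ x : ℝ, HasDerivAt (fun x => rr_props_aux_d1 x + 244 / 100000 * x)
      (rr_props_aux_d2 x + 244 / 100000) x := by
    intro x
    have h := (rr_props_aux_hd2 x).add ((hasDerivAt_id x).const_mul (244 / 100000 : ℝ))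
    refine HasDerivAt.congr_deriv h ?_
    simp
  refine concaveOn_of_hasDerivWithinAt2_nonpos (convex_Icc _ _) ?_
    (fun x _ => (hd1 x).hasDerivWithinAt) (fun x _ => (hd2 x).hasDerivWithinAt) ?_
  · exact (rr_props_aux_cont.add (by fun_prop)).continuousOn
  · intro x hx
    have hx' := interior_subset hx
    have := rr_props_aux_neg x hx'.1 hx'.2
    linarith

theorem rr_props_aux_mono : Monotone (fun c => c + rr c) := by
  intro a b hab
  have h := rr_props_aux_lip a b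
  have h2 : |a - b| = b - a := by rw [abs_sub_comm, abs_of_nonneg (sub_nonneg.2 hab)]
  rw [h2] at h
  have h3 := (abs_le.1 h).2
  show a + rr a ≤ b + rr b
  have : 0 ≤ b - a := sub_nonneg.2 hab
  linarith

theorem rr_props_aux_left : rr (-(1 / 4)) = 1 / 10 ^ 4 := by
  unfold rr
  have h : 2 * Real.pi * (-(1 / 4)) = -(Real.pi / 2) := by ring
  rw [h, Real.cos_neg, Real.sin_neg, Real.cos_pi_div_two, Real.sin_pi_div_two]
  norm_num

theorem rr_props_aux_right : rr (-(1 / 200)) ≤ -(4 / 10 ^ 8) := by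
  unfold rr
  have h : 2 * Real.pi * (-(1 / 200)) = -(Real.pi / 100) := by ring
  rw [h, Real.cos_neg, Real.sin_neg]
  have hπ1 : Real.pi < 3.1416 := Real.pi_lt_d4
  have hπ3 : 3.1415 < Real.pi := Real.pi_gt_d4
  have hπ0 : 0 < Real.pi := Real.pi_pos
  norm_num at hπ1 hπ3
  set x := Real.pi / 100 with hx
  have hx0 : 0 < x := by positivity
  have hx1 : x ≤ 3142 / 100000 := by rw [hx]; linarith
  have hx2 : 31415 / 1000000 ≤ x := by rw [hx]; linarith
  have hs : Real.sin x ≤ x := Real.sin_le hx0.le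
  have hs0 : 0 ≤ Real.sin x := Real.sin_nonneg_of_nonneg_of_le_pi hx0.le (by rw [hx]; linarith)
  have hc := Real.cos_bound (x := x) (by rw [abs_of_pos hx0]; linarith)
  rw [abs_of_pos hx0] at hc
  have hc2 := (abs_le.1 hc).2
  have hs3 : Real.sin x ^ 3 ≤ x ^ 3 := pow_le_pow_left₀ hs0 hs 3
  have hxx : x ^ 2 ≤ 1 / 1000 := by nlinarith
  have hxx2 : (31415 / 1000000) ^ 2 ≤ x ^ 2 := pow_le_pow_left₀ (by norm_num) hx2 2
  have hx3 : x ^ 3 ≤ (3142 / 100000) ^ 3 := pow_le_pow_left₀ hx0.le hx1 3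
  have hx4 : x ^ 4 ≤ (3142 / 100000) ^ 4 := pow_le_pow_left₀ hx0.le hx1 4
  have hneg : (-Real.sin x) ^ 3 = -(Real.sin x ^ 3) := by ring
  rw [hneg]
  norm_num at hxx2 hx3 hx4 hc2 ⊢
  nlinarith

theorem rr_props :
    Continuous rr ∧
    (∀ c c', |rr c - rr c'| ≤ |c - c'| / 20) ∧
    (∀ c R L, 0 < R → 0 < L → |(rr c - rr (c - L)) / L - (rr (c + R) - rr c) / R| ≤ L + R) ∧
    (∀ c R L, 0 < R → 0 < L → -(1 / 200) ≤ c - L → c + R ≤ 1 / 200 →
      et * (L + R) ≤ (rr c - rr (c - L)) / L - (rr (c + R) - rr c) / R) ∧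
    (∀ c, |c| ≤ 2 * nu → |rr c| ≤ nu / 10) ∧
    (∀ c, -(1 / 4) ≤ c → c ≤ -(1 / 200) →
      -(1 / 4) ≤ c + rr c - 3 * nu ∧ c + rr c + 3 * nu ≤ -(1 / 200)) ∧
    (∀ c c', |c| ≤ 3 * nu → |c'| ≤ 3 * nu → |rr c - rr c'| ≤ nu / 2 * |c - c'|) := by
  refine ⟨rr_props_aux_cont, ?_, ?_, ?_, ?_, ?_, ?_⟩
  · intro c c'
    have h := rr_props_aux_lip c c'
    have h2 := abs_nonneg (c - c')
    linarith
  · intro c R L hR hL
    obtain ⟨x1, hx1, e1⟩ := exists_hasDerivAt_eq_slope rr rr_props_aux_d1 (a := c - L) (b := c)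
      (by linarith) rr_props_aux_cont.continuousOn (fun x _ => rr_props_aux_hd1 x)
    obtain ⟨x2, hx2, e2⟩ := exists_hasDerivAt_eq_slope rr rr_props_aux_d1 (a := c) (b := c + R)
      (by linarith) rr_props_aux_cont.continuousOn (fun x _ => rr_props_aux_hd1 x)
    have a1 : c - (c - L) = L := by ring
    have a2 : c + R - c = R := by ring
    rw [a1] at e1
    rw [a2] at e2
    rw [← e1, ← e2]
    refine (rr_props_aux_lip1 x1 x2).trans ?_
    have hx : |x1 - x2| ≤ L + R := by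
      rw [abs_le]
      constructor
      · linarith [hx1.1, hx2.2]
      · linarith [hx1.2, hx2.1]
    have := abs_nonneg (x1 - x2)
    linarith
  · intro c R L hR hL h1 h2
    have h := rr_props_aux_conc.slope_anti_adjacent (x := c - L) (y := c) (z := c + R)
      ⟨h1, by linarith⟩ ⟨by linarith, h2⟩ (by linarith) (by linarith)
    have a1 : c - (c - L) = L := by ring
    have a2 : c + R - c = R := by ring
    rw [a1, a2] at h
    have b1 : (rr (c + R) + 122 / 100000 * (c + R) ^ 2 - (rr c + 122 / 100000 * c ^ 2)) / R =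
        (rr (c + R) - rr c) / R + 122 / 100000 * (2 * c + R) := by
      field_simp
      ring
    have b2 : (rr c + 122 / 100000 * c ^ 2 - (rr (c - L) + 122 / 100000 * (c - L) ^ 2)) / L =
        (rr c - rr (c - L)) / L + 122 / 100000 * (2 * c - L) := by
      field_simp
      ring
    rw [b1, b2] at h
    unfold et
    norm_num
    nlinarith
  · intro c hc
    have h0 : (0 : ℝ) < nu := by unfold nu; positivity
    have h := rr_props_aux_loc (2 * nu) c 0 hc (by rw [abs_zero]; positivity)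
    rw [rr_props_aux_zero, sub_zero, sub_zero] at h
    refine h.trans ?_
    have h1 : 76 / 1000 * (2 * nu) * |c| ≤ 76 / 1000 * (2 * nu) * (2 * nu) :=
      mul_le_mul_of_nonneg_left hc (by positivity)
    refine h1.trans ?_
    unfold nu
    norm_num
  · intro c h1 h2
    have m1 := rr_props_aux_mono h1
    have m2 := rr_props_aux_mono h2
    have l := rr_props_aux_left
    have r := rr_props_aux_right
    simp only at m1 m2
    rw [l] at m1
    unfold nu
    norm_num at m1 m2 r ⊢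
    constructor
    · linarith
    · linarith
  · intro c c' hc hc'
    have h0 : (0 : ℝ) < nu := by unfold nu; positivity
    refine (rr_props_aux_loc (3 * nu) c c' hc hc').trans ?_
    apply mul_le_mul_of_nonneg_right _ (abs_nonneg _)
    linarith

end Pool.Agent.Helper867.Smale
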