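import Pool.Agent.Helper867.Smale.Base
import Pool.Agent.Helper867.Smale.Torus
import Pool.Agent.Helper867.Smale.Defs2
import Pool.Agent.Helper867.Smale.L_rr_props
import Pool.Agent.Helper867.Smale.L_gg_props
import Pool.Agent.Helper867.Smale.L_F0_contDiff

set_option autoImplicit false

open Set Filter Topology

namespace Pool.Agent.Helper867.Smale

theorem F0_inverse_aux_gen (Θ : (Fin 3 → ℝ) → (Fin 3 → ℝ)) (hΘ : ContDiff ℝ (⊤ : ℕ∞) Θ)
    (c : NNReal) (hc : c < 1) (hL : ∀ p q, ‖(Θ p - Θ q) - (p - q)‖ ≤ c * ‖p - q‖) :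
    ∃ G : (Fin 3 → ℝ) → (Fin 3 → ℝ), ContDiff ℝ (⊤ : ℕ∞) G ∧ (∀ p, Θ (G p) = p) ∧
      ∀ p, G (Θ p) = p := by
  have happ : ApproximatesLinearOn Θ ((ContinuousLinearEquiv.refl ℝ (Fin 3 → ℝ) :
      (Fin 3 → ℝ) ≃L[ℝ] (Fin 3 → ℝ)) : (Fin 3 → ℝ) →L[ℝ] (Fin 3 → ℝ)) univ c :=
    fun x _ y _ => hL x y
  have hN : ‖((ContinuousLinearEquiv.refl ℝ (Fin 3 → ℝ)).symm :
      (Fin 3 → ℝ) →L[ℝ] (Fin 3 → ℝ))‖₊ = 1 := by
    have h1 : ‖ContinuousLinearMap.id ℝ (Fin 3 → ℝ)‖ = 1 := ContinuousLinearMap.norm_id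
    exact NNReal.eq h1
  have hc' : c < ‖((ContinuousLinearEquiv.refl ℝ (Fin 3 → ℝ)).symm :
      (Fin 3 → ℝ) →L[ℝ] (Fin 3 → ℝ))‖₊⁻¹ := by
    rw [hN, inv_one]; exact hc
  let e : (Fin 3 → ℝ) ≃ₜ (Fin 3 → ℝ) := happ.toHomeomorph Θ (Or.inr hc')
  have he : ∀ p, e p = Θ p := fun p => rfl
  have hlip : LipschitzWith c (fun p => Θ p - p) := by
    refine LipschitzWith.of_dist_le_mul fun p q => ?_
    rw [dist_eq_norm, dist_eq_norm]
    have h1 : Θ p - p - (Θ q - q) = (Θ p - Θ q) - (p - q) := by abel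
    rw [h1]
    exact hL p q
  have hd : ∀ a, HasFDerivAt Θ (fderiv ℝ Θ a) a := fun a =>
    ((hΘ.differentiable (by norm_num)) a).hasFDerivAt
  have hinj : ∀ a, Function.Injective ((fderiv ℝ Θ a : (Fin 3 → ℝ) →L[ℝ] (Fin 3 → ℝ)) :
      (Fin 3 → ℝ) →ₗ[ℝ] (Fin 3 → ℝ)) := by
    intro a
    rw [← LinearMap.ker_eq_bot, LinearMap.ker_eq_bot']
    intro v hv
    have h1 : HasFDerivAt (fun p => Θ p - p)
        (fderiv ℝ Θ a - ContinuousLinearMap.id ℝ (Fin 3 → ℝ)) a := (hd a).sub (hasFDerivAt_id a)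
    have h2 := h1.le_of_lipschitz hlip
    have h3 := (fderiv ℝ Θ a - ContinuousLinearMap.id ℝ (Fin 3 → ℝ)).le_of_opNorm_le h2 v
    have h4 : (fderiv ℝ Θ a - ContinuousLinearMap.id ℝ (Fin 3 → ℝ)) v = -v := by
      have h5 : (fderiv ℝ Θ a) v = 0 := hv
      show (fderiv ℝ Θ a) v - v = -v
      rw [h5, zero_sub]
    rw [h4, norm_neg] at h3
    have hc1 : (c : ℝ) < 1 := by exact_mod_cast hc
    have h6 : ‖v‖ = 0 := by
      by_contra hne
      have h7 : 0 < ‖v‖ := lt_of_le_of_ne (norm_nonneg _) (Ne.symm hne)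
      nlinarith
    exact norm_eq_zero.1 h6
  refine ⟨e.symm, ?_, fun p => ?_, fun p => ?_⟩
  · refine Homeomorph.contDiff_symm e (f₀' := fun a =>
      (LinearEquiv.ofInjectiveEndo _ (hinj a)).toContinuousLinearEquiv) (fun a => ?_) hΘ
    have h1 : (((LinearEquiv.ofInjectiveEndo _ (hinj a)).toContinuousLinearEquiv :
        (Fin 3 → ℝ) ≃L[ℝ] (Fin 3 → ℝ)) : (Fin 3 → ℝ) →L[ℝ] (Fin 3 → ℝ)) = fderiv ℝ Θ a := by
      ext v
      rfl
    rw [h1]
    exact hd a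
  · rw [← he]
    exact e.apply_symm_apply p
  · rw [← he]
    exact e.symm_apply_apply p

/-- the inverse of the linear part -/
noncomputable def F0_inverse_auxL (p : Fin 3 → ℝ) : Fin 3 → ℝ := ![p 1, NN * p 1 - p 0, p 2]

theorem F0_inverse_auxL_smooth : ContDiff ℝ (⊤ : ℕ∞) F0_inverse_auxL := by
  rw [contDiff_pi]
  intro i
  fin_cases i
  · exact contDiff_apply ℝ ℝ 1
  · exact (contDiff_const.mul (contDiff_apply ℝ ℝ 1)).sub (contDiff_apply ℝ ℝ 0)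
  · exact contDiff_apply ℝ ℝ 2

theorem F0_inverse : ∃ G : (Fin 3 → ℝ) → (Fin 3 → ℝ), ContDiff ℝ (⊤ : ℕ∞) G ∧
    (∀ p, F0 (G p) = p) ∧ ∀ p, G (F0 p) = p := by
  have hΘ : ContDiff ℝ (⊤ : ℕ∞) (fun p => F0_inverse_auxL (F0 p)) :=
    F0_inverse_auxL_smooth.comp F0_contDiff
  have hΘv : ∀ p, F0_inverse_auxL (F0 p) = ![p 0, p 1, p 2 + rr (p 2) + gg (p 0) (p 2)] := by
    intro p
    unfold F0_inverse_auxL F0
    funext i
    fin_cases i
    · rfl
    · show NN * p 0 - (NN * p 0 - p 1) = p 1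
      ring
    · rfl
  have hrr := rr_props.2.1
  have hgg := gg_props.2.2.1
  obtain ⟨G, hG, hG1, hG2⟩ := F0_inverse_aux_gen (fun p => F0_inverse_auxL (F0 p)) hΘ
    (1 / 10) (by
      rw [one_div]
      exact inv_lt_one_of_one_lt₀ (by norm_num)) (by
    intro p q
    simp only [hΘv]
    rw [pi_norm_le_iff_of_nonneg (by positivity)]
    have n0 : |p 0 - q 0| ≤ ‖p - q‖ := norm_le_pi_norm (p - q) 0
    have n2 : |p 2 - q 2| ≤ ‖p - q‖ := norm_le_pi_norm (p - q) 2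
    have hn := norm_nonneg (p - q)
    intro i
    push_cast
    fin_cases i
    · show ‖(p 0 - q 0) - (p 0 - q 0)‖ ≤ _
      rw [sub_self, norm_zero]
      positivity
    · show ‖(p 1 - q 1) - (p 1 - q 1)‖ ≤ _
      rw [sub_self, norm_zero]
      positivity
    · show |(p 2 + rr (p 2) + gg (p 0) (p 2) - (q 2 + rr (q 2) + gg (q 0) (q 2))) -
        (p 2 - q 2)| ≤ _
      have e1 : (p 2 + rr (p 2) + gg (p 0) (p 2) - (q 2 + rr (q 2) + gg (q 0) (q 2))) -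
        (p 2 - q 2) = (rr (p 2) - rr (q 2)) + (gg (p 0) (p 2) - gg (q 0) (q 2)) := by ring
      rw [e1]
      have h1 := hrr (p 2) (q 2)
      have h2 := hgg (p 0) (p 2) (q 0) (q 2)
      have h3 : max |p 0 - q 0| |p 2 - q 2| ≤ ‖p - q‖ := max_le n0 n2
      have h4 := abs_add_le (rr (p 2) - rr (q 2)) (gg (p 0) (p 2) - gg (q 0) (q 2))
      have h5 : 1 / 10 ^ 6 * max |p 0 - q 0| |p 2 - q 2| ≤ 1 / 10 ^ 6 * ‖p - q‖ :=
        mul_le_mul_of_nonneg_left h3 (by norm_num)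
      norm_num at h5 h2 ⊢
      linarith)
  refine ⟨fun p => G (F0_inverse_auxL p), hG.comp F0_inverse_auxL_smooth, fun p => ?_,
    fun p => hG2 p⟩
  have h1 := hG1 (F0_inverse_auxL p)
  have hinj : Function.Injective F0_inverse_auxL := by
    intro x y hxy
    have k0 : x 1 = y 1 := congrFun hxy 0
    have k1 : NN * x 1 - x 0 = NN * y 1 - y 0 := congrFun hxy 1
    have k2 : x 2 = y 2 := congrFun hxy 2
    rw [k0] at k1
    have k3 : x 0 = y 0 := by linarith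
    funext i
    fin_cases i
    · exact k3
    · exact k0
    · exact k2
  exact hinj h1

end Pool.Agent.Helper867.Smale
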