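import Pool.Agent.Helper867.Smale.Base
import Pool.Agent.Helper867.Smale.Torus
import Pool.Agent.Helper867.Smale.Defs2

set_option autoImplicit false

open Set Filter Topology

namespace Pool.Agent.Helper867.Smale

theorem pr_eq_iff (p q : Fin 3 → ℝ) : pr p = pr q ↔ ∀ i, ∃ m : ℤ, q i = p i + m := by
  rw [funext_iff]
  apply forall_congr'
  intro i
  show ((p i : ℝ) : AddCircle (1:ℝ)) = ((q i : ℝ) : AddCircle (1:ℝ)) ↔ _
  rw [eq_comm, ← sub_eq_zero, ← AddCircle.coe_sub, AddCircle.coe_eq_zero_iff]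
  constructor
  · rintro ⟨m, hm⟩
    refine ⟨m, ?_⟩
    rw [zsmul_eq_mul, mul_one] at hm
    rw [hm]; ring
  · rintro ⟨m, hm⟩
    refine ⟨m, ?_⟩
    rw [zsmul_eq_mul, mul_one, hm]; ring

end Pool.Agent.Helper867.Smale
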