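import Pool.Agent.Helper867.Smale.Base
import Pool.Agent.Helper867.Smale.Torus
import Pool.Agent.Helper867.Smale.Defs2

set_option autoImplicit false

open Set Filter Topology

namespace Pool.Agent.Helper867.Smale

theorem pr_surjective : Function.Surjective pr := by
  intro y
  have h : ∀ i : Fin 3, ∃ x : ℝ, (x : UnitAddCircle) = y i := fun i => QuotientAddGroup.mk_surjective (y i)
  choose p hp using h
  exact ⟨p, funext hp⟩

end Pool.Agent.Helper867.Smale
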