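import Pool.Agent.Helper867.Smale.Base
import Pool.Agent.Helper867.Smale.Torus
import Pool.Agent.Helper867.Smale.Defs2
import Pool.Agent.Helper867.Smale.L_F0_contDiff
import Pool.Agent.Helper867.Smale.L_F0_inverse
import Pool.Agent.Helper867.Smale.L_pr_eq_iff
import Pool.Agent.Helper867.Smale.L_pr_surjective

set_option autoImplicit false

open Set Filter Topology

namespace Pool.Agent.Helper867.Smale

theorem exists_f0_aux_rr (c : ℝ) (m : ℤ) : rr (c + m) = rr c := by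
  unfold rr
  have h : 2 * Real.pi * (c + m) = 2 * Real.pi * c + m * (2 * Real.pi) := by ring
  rw [h, Real.cos_add_int_mul_two_pi, Real.sin_add_int_mul_two_pi]

theorem exists_f0_aux_gg (a c : ℝ) (m n : ℤ) : gg (a + m) (c + n) = gg a c := by
  unfold gg
  have h : 2 * Real.pi * (a + m) = 2 * Real.pi * a + m * (2 * Real.pi) := by ring
  have h2 : 4 * Real.pi * (a + m) = 4 * Real.pi * a + ((2 * m : ℤ) : ℝ) * (2 * Real.pi) := by
    push_cast; ring
  have h3 : 2 * Real.pi * (c + n) = 2 * Real.pi * c + n * (2 * Real.pi) := by ring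
  rw [h, h2, h3, Real.cos_add_int_mul_two_pi, Real.cos_add_int_mul_two_pi,
    Real.sin_add_int_mul_two_pi]

theorem exists_f0_aux_F0 (p : Fin 3 → ℝ) (m0 m1 m2 : ℤ) :
    F0 (p + ![(m0 : ℝ), m1, m2]) = F0 p + ![NN * m0 - m1, (m0 : ℝ), m2] := by
  funext i
  fin_cases i
  · simp [F0]; ring
  · simp [F0]
  · simp [F0, exists_f0_aux_rr, exists_f0_aux_gg]; ring

theorem exists_f0_aux_pr (p : Fin 3 → ℝ) (m0 m1 m2 : ℤ) :
    pr (p + ![(m0 : ℝ), m1, m2]) = pr p := by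
  symm
  rw [pr_eq_iff]
  intro i
  fin_cases i
  · exact ⟨m0, by simp⟩
  · exact ⟨m1, by simp⟩
  · exact ⟨m2, by simp⟩

theorem exists_f0_aux_vec (p q : Fin 3 → ℝ) (h : pr p = pr q) :
    ∃ m0 m1 m2 : ℤ, q = p + ![(m0 : ℝ), m1, m2] := by
  rw [pr_eq_iff] at h
  obtain ⟨m0, h0⟩ := h 0
  obtain ⟨m1, h1⟩ := h 1
  obtain ⟨m2, h2⟩ := h 2
  refine ⟨m0, m1, m2, ?_⟩
  funext i
  fin_cases i
  · simpa using h0
  · simpa using h1
  · simpa using h2

theorem exists_f0_aux_NN : NN = ((10 ^ 8 : ℤ) : ℝ) := by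
  unfold NN; norm_num

theorem exists_f0_aux_A (p q : Fin 3 → ℝ) (h : pr p = pr q) : pr (F0 p) = pr (F0 q) := by
  obtain ⟨m0, m1, m2, rfl⟩ := exists_f0_aux_vec p q h
  rw [exists_f0_aux_F0]
  have h1 : ![NN * (m0 : ℝ) - m1, (m0 : ℝ), (m2 : ℝ)]
      = ![((10 ^ 8 * m0 - m1 : ℤ) : ℝ), (m0 : ℝ), (m2 : ℝ)] := by
    rw [exists_f0_aux_NN]; push_cast; rfl
  rw [h1, exists_f0_aux_pr]

theorem exists_f0_aux_B (G : (Fin 3 → ℝ) → (Fin 3 → ℝ)) (hG1 : ∀ p, F0 (G p) = p)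
    (hG2 : ∀ p, G (F0 p) = p) (p q : Fin 3 → ℝ) (h : pr p = pr q) :
    pr (G p) = pr (G q) := by
  obtain ⟨m0, m1, m2, rfl⟩ := exists_f0_aux_vec p q h
  have h1 : F0 (G p + ![(m1 : ℝ), ((10 ^ 8 * m1 - m0 : ℤ) : ℝ), (m2 : ℝ)])
      = p + ![(m0 : ℝ), m1, m2] := by
    rw [exists_f0_aux_F0, hG1]
    congr 1
    rw [exists_f0_aux_NN]
    funext i
    fin_cases i
    · simp
    · simp
    · simp
  have h2 : G (p + ![(m0 : ℝ), m1, m2])
      = G p + ![(m1 : ℝ), ((10 ^ 8 * m1 - m0 : ℤ) : ℝ), (m2 : ℝ)] := by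
    rw [← h1, hG2]
  rw [h2, exists_f0_aux_pr]

theorem exists_f0 : ∃ f : Equiv.Perm T3, (∀ r : ℕ∞, IsLift r F0 f) ∧
    ∃ G, ∀ r : ℕ∞, IsLift r G f.symm := by
  obtain ⟨G, hGc, hG1, hG2⟩ := F0_inverse
  have hs : ∀ t : T3, pr (Function.surjInv pr_surjective t) = t :=
    Function.surjInv_eq pr_surjective
  have hr : ∀ r : ℕ∞, (r : WithTop ℕ∞) ≤ ((⊤ : ℕ∞) : WithTop ℕ∞) := by
    intro r
    exact_mod_cast le_top
  refine ⟨⟨fun t => pr (F0 (Function.surjInv pr_surjective t)),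
    fun t => pr (G (Function.surjInv pr_surjective t)), ?_, ?_⟩, ?_, G, ?_⟩
  · intro t
    show pr (G (Function.surjInv pr_surjective (pr (F0 (Function.surjInv pr_surjective t))))) = t
    rw [exists_f0_aux_B G hG1 hG2 _ (F0 (Function.surjInv pr_surjective t)) (hs _), hG2, hs]
  · intro t
    show pr (F0 (Function.surjInv pr_surjective (pr (G (Function.surjInv pr_surjective t))))) = t
    rw [exists_f0_aux_A _ (G (Function.surjInv pr_surjective t)) (hs _), hG1, hs]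
  · intro r
    refine ⟨F0_contDiff.of_le (hr r), fun p => ?_⟩
    show pr (F0 p) = pr (F0 (Function.surjInv pr_surjective (pr p)))
    exact exists_f0_aux_A _ _ (hs _).symm
  · intro r
    refine ⟨hGc.of_le (hr r), fun p => ?_⟩
    show pr (G p) = pr (G (Function.surjInv pr_surjective (pr p)))
    exact exists_f0_aux_B G hG1 hG2 _ _ (hs _).symm

end Pool.Agent.Helper867.Smale
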