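import Pool.Agent.Helper867.Smale.Base

set_option autoImplicit false

open Set Filter Topology

namespace Pool.Agent.Helper867.Smale

theorem near_spec (i : Fin 4) (t : ℝ) : |near i t - t| ≤ 1 / 2 ∧ ∃ m : ℤ, near i t = aT i + m := by
  refine ⟨?_, round (t - aT i), rfl⟩
  have h := abs_sub_round (t - aT i)
  rw [abs_sub_comm]
  have h2 : t - near i t = (t - aT i) - round (t - aT i) := by
    unfold near
    ring
  rw [h2]
  exact h

end Pool.Agent.Helper867.Smale
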