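import Pool.Agent.Helper867.Smale.Base1
import Pool.Agent.Helper867.Smale.L_near_spec
import Pool.Agent.Helper867.Smale.L_crossing1

set_option autoImplicit false

open Set Filter Topology

namespace Pool.Agent.Helper867.Smale

theorem exists_leaf1_aux1 (ω : ℕ → Fin 4) (n : ℕ) :
    arc ω (n + 1) = near (ω (n + 1)) (NN * arc ω n - (arcP ω n).1) := rfl

theorem exists_leaf1_aux2 (ω : ℕ → Fin 4) (n : ℕ) : (arcP ω (n + 1)).1 = arc ω n := rfl

theorem exists_leaf1 (S : Sys1) (ω : ℕ → Fin 4) (b c : ℝ) (hb : |b| ≤ 1 / 2) :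
    ∃ a : ℝ, ∀ n, |(S.orb (a, b, c) n).1 - arc ω n| ≤ dd := by
  have hdd : (0 : ℝ) < dd := by unfold dd; norm_num
  have h0 : ∀ p : ℝ × ℝ × ℝ, S.orb p 0 = p := fun p => rfl
  have h1 := crossing1 S (fun τ => (τ, b, c)) (arc ω 0 - dd) (arc ω 0 + dd) (by linarith)
    (Continuous.continuousOn (by fun_prop)) 0 (arc ω) 0 (by
      intro τ _
      rw [h0, sub_zero]
      show |b| ≤ 1
      linarith) (by
      rw [exists_leaf1_aux1]
      have h2 := (near_spec (ω 1) (NN * arc ω 0 - (arcP ω 0).1)).1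
      have h3 : (arcP ω 0).1 = 0 := rfl
      rw [h3] at h2 ⊢
      linarith) (by
      intro k _
      have h2 := (near_spec (ω (k + 2)) (NN * arc ω (k + 1) - (arcP ω (k + 1)).1)).1
      rw [← exists_leaf1_aux1, exists_leaf1_aux2] at h2
      linarith) (by rw [h0]) (by rw [h0])
  obtain ⟨τ, -, h2⟩ := h1
  exact ⟨τ, fun n => h2 n (Nat.zero_le n)⟩


end Pool.Agent.Helper867.Smale
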