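import Pool.Agent.Helper867.Smale.Torus

set_option autoImplicit false

open Set Filter Topology

namespace Pool.Agent.Helper867.Smale

/-- `g` is `a`-close to `f` in the `C^k` norm (for suitable lifts) -/
def Near (r : ℕ∞) (f g : Dyn r) (k : ℕ) (a : ℝ) : Prop :=
  ∃ F G, IsLift r F f.1 ∧ IsLift r G g.1 ∧ ∀ j ≤ k, ∀ p,
    ‖iteratedFDeriv ℝ j G p - iteratedFDeriv ℝ j F p‖ ≤ a

end Pool.Agent.Helper867.Smale
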