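import Pool.Agent.Helper867.Smale.Torus
import Pool.Agent.Helper867.Smale.NearDef

set_option autoImplicit false

open Set Filter Topology

namespace Pool.Agent.Helper867.Smale

theorem near_self (r : ℕ∞) (f : Dyn r) (k : ℕ) : Near r f f k 0 := by
  obtain ⟨F, hF⟩ := f.2.1
  refine ⟨F, F, hF, hF, fun j _ p => ?_⟩
  simp

end Pool.Agent.Helper867.Smale
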