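import Pool.Agent.Helper867.Smale.Torus
import Pool.Agent.Helper867.Smale.NearDef

set_option autoImplicit false

open Set Filter Topology

namespace Pool.Agent.Helper867.Smale

theorem near_symm (r : ℕ∞) (f g : Dyn r) (k : ℕ) (a : ℝ) (h : Near r f g k a) :
    Near r g f k a := by
  obtain ⟨F, G, hF, hG, hj⟩ := h
  exact ⟨G, F, hG, hF, fun j hjk p => by rw [norm_sub_rev]; exact hj j hjk p⟩

end Pool.Agent.Helper867.Smale
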