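import Pool.Agent.Helper867.Smale.Base
import Pool.Agent.Helper867.Smale.Torus
import Pool.Agent.Helper867.Smale.Defs2
import Pool.Agent.Helper867.Smale.L_pr_eq_iff

set_option autoImplicit false

open Set Filter Topology

namespace Pool.Agent.Helper867.Smale

theorem lift_unique (F G : (Fin 3 → ℝ) → (Fin 3 → ℝ)) (hF : Continuous F) (hG : Continuous G)
    (h : ∀ p, pr (F p) = pr (G p)) : ∃ m : Fin 3 → ℤ, ∀ p i, F p i = G p i + m i := by
  have h1 : ∀ p i, ∃ m : ℤ, F p i = G p i + m := by
    intro p i
    exact (pr_eq_iff (G p) (F p)).1 (h p).symm i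
  choose n hn using h1
  have hc : ∀ i, Continuous (fun p => n p i) := by
    intro i
    rw [Int.isClosedEmbedding_coe_real.isEmbedding.continuous_iff]
    have h2 : ((fun k : ℤ => (k : ℝ)) ∘ fun p => n p i) = fun p => F p i - G p i := by
      funext p
      simp only [Function.comp_apply]
      linarith [hn p i]
    rw [h2]
    exact ((continuous_apply i).comp hF).sub ((continuous_apply i).comp hG)
  refine ⟨fun i => n 0 i, fun p i => ?_⟩
  have h3 : n p i = n 0 i := PreconnectedSpace.constant inferInstance (hc i)
  show F p i = G p i + ((n 0 i : ℤ) : ℝ)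
  rw [← h3]
  exact hn p i

end Pool.Agent.Helper867.Smale
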