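import Pool.Agent.Helper867.Smale.Torus
import Pool.Agent.Helper867.Smale.NearDef
import Pool.Agent.Helper867.Smale.L_lift_unique

set_option autoImplicit false

open Set Filter Topology

namespace Pool.Agent.Helper867.Smale

theorem near_triangle_aux_succ (F : (Fin 3 → ℝ) → (Fin 3 → ℝ)) (c : Fin 3 → ℝ) (j : ℕ)
    (p : Fin 3 → ℝ) :
    iteratedFDeriv ℝ (j + 1) (fun p => F p + c) p = iteratedFDeriv ℝ (j + 1) F p := by
  rw [iteratedFDeriv_succ_eq_comp_right, iteratedFDeriv_succ_eq_comp_right]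
  have : (fun y => fderiv ℝ (fun p => F p + c) y) = fun y => fderiv ℝ F y := by
    ext1 y
    exact fderiv_add_const c
  rw [this]

theorem near_triangle_aux_sub (F1 F2 : (Fin 3 → ℝ) → (Fin 3 → ℝ)) (c : Fin 3 → ℝ) (j : ℕ)
    (p : Fin 3 → ℝ) :
    iteratedFDeriv ℝ j (fun p => F1 p + c) p - iteratedFDeriv ℝ j (fun p => F2 p + c) p
      = iteratedFDeriv ℝ j F1 p - iteratedFDeriv ℝ j F2 p := by
  cases j with
  | zero =>
    ext v
    simp [iteratedFDeriv_zero_apply]
  | succ j => rw [near_triangle_aux_succ, near_triangle_aux_succ]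

theorem near_triangle_aux_pr (q : Fin 3 → ℝ) (m : Fin 3 → ℤ) :
    pr (q + fun i => (m i : ℝ)) = pr q := by
  funext i
  show (((q i + (m i : ℝ) : ℝ)) : UnitAddCircle) = ((q i : ℝ) : UnitAddCircle)
  rw [AddCircle.coe_add]
  have : (((m i : ℝ) : ℝ) : UnitAddCircle) = 0 := by
    rw [AddCircle.coe_eq_zero_iff]
    exact ⟨m i, by simp⟩
  rw [this, add_zero]

theorem near_triangle (r : ℕ∞) (f g h : Dyn r) (k : ℕ) (a b : ℝ) (h1 : Near r f g k a)
    (h2 : Near r g h k b) : Near r f h k (a + b) := by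
  obtain ⟨F, G1, hF, hG1, hab⟩ := h1
  obtain ⟨G2, H, hG2, hH, hbb⟩ := h2
  obtain ⟨m, hm⟩ := lift_unique G1 G2 hG1.1.continuous hG2.1.continuous
    (fun p => (hG1.2 p).trans (hG2.2 p).symm)
  have hG : G1 = fun p => G2 p + fun i => (m i : ℝ) := by
    funext p i
    exact hm p i
  refine ⟨F, fun p => H p + fun i => (m i : ℝ), hF, ⟨hH.1.add contDiff_const, fun p => ?_⟩, ?_⟩
  · rw [near_triangle_aux_pr]; exact hH.2 p
  · intro j hj p
    have e1 : iteratedFDeriv ℝ j (fun p => H p + fun i => (m i : ℝ)) p - iteratedFDeriv ℝ j G1 p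
        = iteratedFDeriv ℝ j H p - iteratedFDeriv ℝ j G2 p := by
      rw [hG]; exact near_triangle_aux_sub H G2 _ j p
    calc ‖iteratedFDeriv ℝ j (fun p => H p + fun i => (m i : ℝ)) p - iteratedFDeriv ℝ j F p‖
        ≤ ‖iteratedFDeriv ℝ j (fun p => H p + fun i => (m i : ℝ)) p - iteratedFDeriv ℝ j G1 p‖
          + ‖iteratedFDeriv ℝ j G1 p - iteratedFDeriv ℝ j F p‖ := norm_sub_le_norm_sub_add_norm_sub _ _ _
      _ ≤ b + a := by
          rw [e1]
          exact add_le_add (hbb j hj p) (hab j hj p)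
      _ = a + b := add_comm _ _

end Pool.Agent.Helper867.Smale
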