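import Pool.Agent.Helper867.Smale.Torus
import Pool.Agent.Helper867.Smale.NearDef
import Pool.Agent.Helper867.Smale.L_near_symm
import Pool.Agent.Helper867.Smale.L_near_triangle
import Pool.Agent.Helper867.Smale.L_near_self

set_option autoImplicit false

open Set Filter Topology

namespace Pool.Agent.Helper867.Smale

theorem ball_basis_aux_mono (r : ℕ∞) (f : Dyn r) (k k' : ℕ) (ε ε' : ℝ) (hk : k' ≤ k)
    (hε : ε ≤ ε') : ckBall r f k ε ⊆ ckBall r f k' ε' := by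
  rintro g ⟨F, G, hF, hG, δ, hδ, h⟩
  exact ⟨F, G, hF, hG, δ, lt_of_lt_of_le hδ hε, fun j hj p => h j (hj.trans hk) p⟩

theorem ball_basis (r : ℕ∞) (V : Set (Dyn r)) (hV : IsOpen V) (f : Dyn r) (hf : f ∈ V) :
    ∃ (k : ℕ) (ε : ℝ), (k : ℕ∞) ≤ r ∧ 0 < ε ∧ ckBall r f k ε ⊆ V := by
  change TopologicalSpace.GenerateOpen _ V at hV
  induction hV with
  | basic U hU =>
    obtain ⟨f', k', ε', hk, hε, rfl⟩ := hU
    obtain ⟨F, G, hF, hG, ε'', hε'', h⟩ := hf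
    refine ⟨k', ε' - ε'', hk, by linarith, ?_⟩
    rintro g ⟨F2, G2, hF2, hG2, δ, hδ, h2⟩
    obtain ⟨F3, G3, hF3, hG3, h3⟩ := near_triangle r f' f g k' ε'' δ ⟨F, G, hF, hG, h⟩
      ⟨F2, G2, hF2, hG2, h2⟩
    exact ⟨F3, G3, hF3, hG3, ε'' + δ, by linarith, h3⟩
  | univ => exact ⟨0, 1, by simp, one_pos, subset_univ _⟩
  | inter s t hs ht ih1 ih2 =>
    obtain ⟨k1, e1, hk1, he1, h1⟩ := ih1 hf.1
    obtain ⟨k2, e2, hk2, he2, h2⟩ := ih2 hf.2
    refine ⟨max k1 k2, min e1 e2, ?_, lt_min he1 he2, ?_⟩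
    · rcases le_total k1 k2 with h | h
      · rw [max_eq_right h]; exact hk2
      · rw [max_eq_left h]; exact hk1
    · exact subset_inter
        ((ball_basis_aux_mono r f _ _ _ _ (le_max_left _ _) (min_le_left _ _)).trans h1)
        ((ball_basis_aux_mono r f _ _ _ _ (le_max_right _ _) (min_le_right _ _)).trans h2)
  | sUnion S hS ih =>
    obtain ⟨s, hs, hfs⟩ := hf
    obtain ⟨k, e, hk, he, h⟩ := ih s hs hfs
    exact ⟨k, e, hk, he, h.trans (subset_sUnion_of_mem hs)⟩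

end Pool.Agent.Helper867.Smale
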