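import Pool.Agent.Helper867.Smale.TripDef

set_option autoImplicit false

open Set Filter Topology

namespace Pool.Agent.Helper867.Smale

theorem near_iff_cl_aux (F G : (Fin 3 → ℝ) → (Fin 3 → ℝ)) (hF : ContDiff ℝ 1 F)
    (hG : ContDiff ℝ 1 G) (j : ℕ) (hj : j ≤ 1) (p : Fin 3 → ℝ) :
    iteratedFDeriv ℝ j G p - iteratedFDeriv ℝ j F p =
      iteratedFDeriv ℝ j (fun q => G q - F q) p := by
  have hj' : ((j : ℕ∞) : WithTop ℕ∞) ≤ 1 := by exact_mod_cast hj
  have h1 : ContDiffAt ℝ j G p := (hG.of_le hj').contDiffAt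
  have h2 : ContDiffAt ℝ j F p := (hF.of_le hj').contDiffAt
  exact (iteratedFDeriv_sub_apply h1 h2).symm

theorem near_iff_cl (F G : (Fin 3 → ℝ) → (Fin 3 → ℝ)) (hF : ContDiff ℝ 1 F) (hG : ContDiff ℝ 1 G)
    (δ : ℝ) (hδ : 0 ≤ δ) :
    (∀ j ≤ 1, ∀ p, ‖iteratedFDeriv ℝ j G p - iteratedFDeriv ℝ j F p‖ ≤ δ) ↔ Cl G F δ := by
  have hd : Differentiable ℝ (fun q => G q - F q) :=
    (hG.differentiable (by norm_num)).sub (hF.differentiable (by norm_num))
  unfold Cl
  constructor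
  · intro h
    refine ⟨fun p => ?_, fun p q => ?_⟩
    · have h0 := h 0 (by norm_num) p
      rw [near_iff_cl_aux F G hF hG 0 (by norm_num), norm_iteratedFDeriv_zero] at h0
      exact h0
    · have h1 : ∀ x ∈ (univ : Set (Fin 3 → ℝ)), ‖fderiv ℝ (fun q => G q - F q) x‖ ≤ δ := by
        intro x _
        have := h 1 le_rfl x
        rw [near_iff_cl_aux F G hF hG 1 le_rfl, norm_iteratedFDeriv_one] at this
        exact this
      exact Convex.norm_image_sub_le_of_norm_fderiv_le (fun x _ => hd x) h1 convex_univ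
        (mem_univ q) (mem_univ p)
  · rintro ⟨h0, h1⟩ j hj p
    rw [near_iff_cl_aux F G hF hG j hj]
    interval_cases j
    · rw [norm_iteratedFDeriv_zero]
      exact h0 p
    · rw [norm_iteratedFDeriv_one]
      exact norm_fderiv_le_of_lip' ℝ hδ (Filter.Eventually.of_forall fun x => h1 x p)

end Pool.Agent.Helper867.Smale
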