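import Pool.Agent.Helper867.Smale.TripDef
import Pool.Agent.Helper867.Smale.L_near_iff_cl
import Pool.Agent.Helper867.Smale.L_lift_unique
import Pool.Agent.Helper867.Smale.L_ball_basis

set_option autoImplicit false

open Set Filter Topology

namespace Pool.Agent.Helper867.Smale

theorem nbhd_cl (f : Dyn 1) (F : (Fin 3 → ℝ) → (Fin 3 → ℝ)) (hF : IsLift 1 F f.1)
    (O : Set (Dyn 1)) (hO : IsOpen O) (hf : f ∈ O) :
    ∃ δ : ℝ, 0 < δ ∧ ∀ (g : Dyn 1) (G : (Fin 3 → ℝ) → (Fin 3 → ℝ)), IsLift 1 G g.1 → Cl G F δ →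
      g ∈ O := by
  obtain ⟨k, ε, hk, hε, hball⟩ := ball_basis 1 O hO f hf
  have hk1 : k ≤ 1 := by exact_mod_cast hk
  refine ⟨ε / 2, by positivity, ?_⟩
  intro g G hG hcl
  apply hball
  have h1 := (near_iff_cl F G hF.1 hG.1 (ε / 2) (by positivity)).mpr hcl
  exact ⟨F, G, hF, hG, ε / 2, by linarith, fun j hj p => h1 j (hj.trans hk1) p⟩

end Pool.Agent.Helper867.Smale
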