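import Pool.Agent.Helper867.Smale.TripDef
import Pool.Agent.Helper867.Smale.L_near_iff_cl
import Pool.Agent.Helper867.Smale.L_lift_unique
import Pool.Agent.Helper867.Smale.L_pr_eq_iff

set_option autoImplicit false

open Set Filter Topology

namespace Pool.Agent.Helper867.Smale

theorem open_of_cl (A : Set (Dyn 1)) (hA : ∀ f ∈ A, ∃ F, IsLift 1 F f.1 ∧ ∃ δ : ℝ, 0 < δ ∧
    ∀ (g : Dyn 1) (G : (Fin 3 → ℝ) → (Fin 3 → ℝ)), IsLift 1 G g.1 → Cl G F δ → g ∈ A) :
    IsOpen A := by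
  rw [isOpen_iff_forall_mem_open]
  intro f hf
  obtain ⟨F, hF, δ, hδ, hFA⟩ := hA f hf
  refine ⟨ckBall 1 f 1 δ, ?_, TopologicalSpace.isOpen_generateFrom_of_mem
    ⟨f, 1, δ, by norm_num, hδ, rfl⟩, ?_⟩
  · rintro g ⟨F1, G1, hF1, hG1, ε', hε', hnear⟩
    have hε0 : 0 ≤ ε' := (norm_nonneg _).trans (hnear 0 (by norm_num) 0)
    obtain ⟨m, hm⟩ := lift_unique F F1 hF.1.continuous hF1.1.continuous (fun p => by
      rw [hF.2, hF1.2])
    let c : Fin 3 → ℝ := fun i => (m i : ℝ)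
    have hFc : ∀ p, F p = F1 p + c := by
      intro p
      funext i
      exact hm p i
    have hG : IsLift 1 (fun p => G1 p + c) g.1 := by
      refine ⟨hG1.1.add contDiff_const, fun p => ?_⟩
      rw [← hG1.2]
      symm
      rw [pr_eq_iff]
      intro i
      exact ⟨m i, rfl⟩
    refine hFA g _ hG ?_
    have hcl := (near_iff_cl F1 G1 hF1.1 hG1.1 ε' hε0).1 hnear
    have hd : ∀ p, (G1 p + c) - F p = G1 p - F1 p := by
      intro p
      rw [hFc]
      abel
    refine ⟨fun p => ?_, fun p q => ?_⟩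
    · simp only [hd]
      exact (hcl.1 p).trans hε'.le
    · simp only [hd]
      refine (hcl.2 p q).trans (mul_le_mul_of_nonneg_right hε'.le (norm_nonneg _))
  · refine ⟨F, F, hF, hF, 0, hδ, fun j _ p => ?_⟩
    rw [sub_self, norm_zero]

end Pool.Agent.Helper867.Smale
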