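import Pool.Agent.Helper867.Smale.Base1

set_option autoImplicit false

open Set Filter Topology

namespace Pool.Agent.Helper867.Smale

theorem orb_pair1_aux_succ (S : Sys1) (p : ℝ × ℝ × ℝ) (n : ℕ) :
    S.orb p (n + 1) = S.step (S.orb p n) := by
  unfold Sys1.orb
  rw [Function.iterate_succ_apply']

theorem orb_pair1 (S : Sys1) (p q : ℝ × ℝ × ℝ) :
    PairSeq (fun n => (S.orb q n).1 - (S.orb p n).1) (fun n => (S.orb q n).2.1 - (S.orb p n).2.1)
      (fun n => (S.orb q n).2.2 - (S.orb p n).2.2) := by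
  refine ⟨fun n => ?_, fun n => ?_, fun n => ?_⟩
  · simp only [orb_pair1_aux_succ]
    generalize S.orb q n = u
    generalize S.orb p n = v
    have h := S.lip1 u.1 u.2.1 u.2.2 v.1 v.2.1 v.2.2
    have e : (S.step u).1 - (S.step v).1 - (NN * (u.1 - v.1) - (u.2.1 - v.2.1))
        = S.h1 u.1 u.2.1 u.2.2 - S.h1 v.1 v.2.1 v.2.2 := by
      simp only [Sys1.step]; ring
    rw [e]; exact h
  · simp only [orb_pair1_aux_succ]
    generalize S.orb q n = u
    generalize S.orb p n = v
    have h := S.lip2 u.1 u.2.1 u.2.2 v.1 v.2.1 v.2.2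
    have e : (S.step u).2.1 - (S.step v).2.1 - (u.1 - v.1)
        = S.h2 u.1 u.2.1 u.2.2 - S.h2 v.1 v.2.1 v.2.2 := by
      simp only [Sys1.step]; ring
    rw [e]; exact h
  · simp only [orb_pair1_aux_succ]
    generalize S.orb q n = u
    generalize S.orb p n = v
    have h := S.lipg u.1 u.2.1 u.2.2 v.1 v.2.1 v.2.2
    have h' := S.lipr u.2.2 v.2.2
    have e : (S.step u).2.2 - (S.step v).2.2 - (u.2.2 - v.2.2)
        = (S.r u.2.2 - S.r v.2.2) + (S.g u.1 u.2.1 u.2.2 - S.g v.1 v.2.1 v.2.2) := by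
      simp only [Sys1.step]; ring
    rw [e]
    exact (abs_add_le _ _).trans (add_le_add h' h)

end Pool.Agent.Helper867.Smale
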