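import Pool.Agent.Helper867.Smale.Base

set_option autoImplicit false

open Set Filter Topology

namespace Pool.Agent.Helper867.Smale

theorem cone_unst (α σ γ : ℕ → ℝ) (h : PairSeq α σ γ) (n : ℕ) (h1 : |σ n| ≤ |α n|)
    (h2 : |γ n| ≤ |α n|) :
    |σ (n + 1)| ≤ |α (n + 1)| ∧ |γ (n + 1)| ≤ |α (n + 1)| ∧ (NN - 2) * |α n| ≤ |α (n + 1)| := by
  have hmx : mx (α n) (σ n) (γ n) = |α n| := by
    unfold mx
    exact max_eq_left (max_le h1 h2)
  have a1 := h.h1 n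
  have a2 := h.h2 n
  have a3 := h.h3 n
  rw [hmx] at a1 a2 a3
  have hα := abs_nonneg (α n)
  have hσ := abs_nonneg (σ n)
  have hγ := abs_nonneg (γ n)
  have e1 : NN * |α n| - |σ n| ≤ |NN * α n - σ n| := by
    have h3 : NN * |α n| = |NN * α n| := by
      rw [abs_mul]; congr 1; unfold NN; rw [abs_of_pos]; norm_num
    rw [h3]
    exact abs_sub_abs_le_abs_sub (NN * α n) (σ n)
  have e2 : |NN * α n - σ n| - |α (n + 1)| ≤ |α (n + 1) - (NN * α n - σ n)| := by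
    rw [abs_sub_comm (α (n + 1)) (NN * α n - σ n)]
    exact abs_sub_abs_le_abs_sub _ _
  have e3 : |σ (n + 1)| - |α n| ≤ |σ (n + 1) - α n| := abs_sub_abs_le_abs_sub _ _
  have e4 : |γ (n + 1)| - |γ n| ≤ |γ (n + 1) - γ n| := abs_sub_abs_le_abs_sub _ _
  unfold ep at a1 a2
  unfold dl at a3
  have e5 : NN * |α n| = 10 ^ 8 * |α n| := by unfold NN; rfl
  have e6 : (NN - 2) * |α n| = 10 ^ 8 * |α n| - 2 * |α n| := by unfold NN; ring
  rw [e6]
  refine ⟨?_, ?_, ?_⟩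
  · linarith
  · linarith
  · linarith

end Pool.Agent.Helper867.Smale
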