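import Pool.Agent.Helper867.Smale.Base
import Pool.Agent.Helper867.Smale.L_cone_unst

set_option autoImplicit false

open Set Filter Topology

namespace Pool.Agent.Helper867.Smale

theorem pair_small_aux1 (α σ γ : ℕ → ℝ) (h : PairSeq α σ γ) (h1 : ∀ n, |α n| ≤ 1) (n : ℕ) :
    |α n| ≤ max |σ n| |γ n| := by
  by_contra hcon
  push Not at hcon
  have hs : |σ n| ≤ |α n| := (le_max_left _ _).trans hcon.le
  have hg : |γ n| ≤ |α n| := (le_max_right _ _).trans hcon.le
  have hpos : 0 < |α n| := lt_of_le_of_lt ((abs_nonneg _).trans (le_max_left |σ n| |γ n|)) hcon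
  have hit : ∀ k : ℕ, |σ (n + k)| ≤ |α (n + k)| ∧ |γ (n + k)| ≤ |α (n + k)| ∧
      (NN - 2) ^ k * |α n| ≤ |α (n + k)| := by
    intro k
    induction k with
    | zero => exact ⟨hs, hg, by simp⟩
    | succ k ih =>
      obtain ⟨a, b, c⟩ := cone_unst α σ γ h (n + k) ih.1 ih.2.1
      refine ⟨a, b, ?_⟩
      have hNN : (0:ℝ) ≤ NN - 2 := by unfold NN; norm_num
      calc (NN - 2) ^ (k + 1) * |α n| = (NN - 2) * ((NN - 2) ^ k * |α n|) := by ring
        _ ≤ (NN - 2) * |α (n + k)| := mul_le_mul_of_nonneg_left ih.2.2 hNN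
        _ ≤ _ := c
  have hNN1 : (1:ℝ) < NN - 2 := by unfold NN; norm_num
  obtain ⟨k, hk⟩ := pow_unbounded_of_one_lt (1 / |α n|) hNN1
  have h2 := (hit k).2.2
  have h3 := h1 (n + k)
  rw [div_lt_iff₀ hpos] at hk
  linarith

theorem pair_small (α σ γ : ℕ → ℝ) (h : PairSeq α σ γ) (h1 : ∀ n, |α n| ≤ 1) (n : ℕ) :
    |α n| ≤ 3 / NN * max |σ n| |γ n| := by
  have ha := pair_small_aux1 α σ γ h h1 n
  have ha1 := pair_small_aux1 α σ γ h h1 (n + 1)
  set m : ℝ := max |σ n| |γ n| with hm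
  have hm0 : 0 ≤ m := (abs_nonneg _).trans (le_max_left _ _)
  have hmx : mx (α n) (σ n) (γ n) = m := by
    unfold mx
    exact max_eq_right ha
  have hσ : |σ n| ≤ m := le_max_left _ _
  have hγ : |γ n| ≤ m := le_max_right _ _
  have e1 := h.h1 n
  have e2 := h.h2 n
  have e3 := h.h3 n
  rw [hmx] at e1 e2 e3
  have hNN : (0:ℝ) < NN := by unfold NN; norm_num
  have hep : ep ≤ 1 / 100 := by unfold ep; norm_num
  have hdl : dl ≤ 1 / 100 := by unfold dl; norm_num
  have hepm : ep * m ≤ 1 / 100 * m := mul_le_mul_of_nonneg_right hep hm0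
  have hdlm : dl * m ≤ 1 / 100 * m := mul_le_mul_of_nonneg_right hdl hm0
  have f2 : |σ (n + 1)| ≤ 3 / 2 * m := by
    have : |σ (n + 1)| ≤ |σ (n + 1) - α n| + |α n| := by
      have := abs_add_le (σ (n + 1) - α n) (α n)
      simpa using this
    linarith
  have f3 : |γ (n + 1)| ≤ 3 / 2 * m := by
    have : |γ (n + 1)| ≤ |γ (n + 1) - γ n| + |γ n| := by
      have := abs_add_le (γ (n + 1) - γ n) (γ n)
      simpa using this
    linarith
  have f1 : |α (n + 1)| ≤ 3 / 2 * m := ha1.trans (max_le f2 f3)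
  have f4 : NN * |α n| ≤ |α (n + 1)| + |σ n| + ep * m := by
    have g1 : NN * |α n| = |NN * α n| := by rw [abs_mul, abs_of_pos hNN]
    have g2 : |NN * α n| ≤ |α (n + 1) - (NN * α n - σ n)| + |α (n + 1)| + |σ n| := by
      have g3 : NN * α n = -(α (n + 1) - (NN * α n - σ n)) + α (n + 1) + σ n := by ring
      calc |NN * α n| = |-(α (n + 1) - (NN * α n - σ n)) + α (n + 1) + σ n| := by rw [← g3]
        _ ≤ |-(α (n + 1) - (NN * α n - σ n)) + α (n + 1)| + |σ n| := abs_add_le _ _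
        _ ≤ |-(α (n + 1) - (NN * α n - σ n))| + |α (n + 1)| + |σ n| := by
            gcongr
            exact abs_add_le _ _
        _ = _ := by rw [abs_neg]
    linarith
  rw [div_mul_eq_mul_div, le_div_iff₀ hNN]
  linarith

end Pool.Agent.Helper867.Smale
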