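import Pool.Agent.Helper867.Smale.Base
import Pool.Agent.Helper867.Smale.L_pair_small

set_option autoImplicit false

open Set Filter Topology

namespace Pool.Agent.Helper867.Smale

theorem pair_center_aux (α σ γ : ℕ → ℝ) (h : PairSeq α σ γ) (h1 : ∀ n, |α n| ≤ 1) (n : ℕ)
    (hs : |σ n| ≤ γ n) (hg : 0 < γ n) :
    |α n| ≤ 3 / NN * γ n ∧ mx (α n) (σ n) (γ n) = γ n ∧ 9 / 10 * γ n ≤ γ (n + 1) ∧
      γ (n + 1) ≤ 11 / 10 * γ n := by
  have hgn : |γ n| = γ n := abs_of_pos hg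
  have hmax : max |σ n| |γ n| = γ n := by rw [hgn]; exact max_eq_right hs
  have ha : |α n| ≤ 3 / NN * γ n := by
    have := pair_small α σ γ h h1 n
    rwa [hmax] at this
  have hN : 3 / NN ≤ 1 := by unfold NN; norm_num
  have ha' : |α n| ≤ γ n := by
    have : 3 / NN * γ n ≤ 1 * γ n := mul_le_mul_of_nonneg_right hN hg.le
    linarith
  have hmx : mx (α n) (σ n) (γ n) = γ n := by
    unfold mx
    rw [hmax]
    exact max_eq_right ha'
  have h3 := h.h3 n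
  rw [hmx, hgn] at h3
  have hdl : dl * γ n ≤ 1 / 20 * γ n :=
    mul_le_mul_of_nonneg_right (by unfold dl; norm_num) hg.le
  obtain ⟨h4, h5⟩ := abs_le.1 h3
  refine ⟨ha, hmx, ?_, ?_⟩ <;> linarith

theorem pair_center (α σ γ : ℕ → ℝ) (h : PairSeq α σ γ) (h1 : ∀ n, |α n| ≤ 1)
    (h2 : |σ 0| ≤ γ 0) (h3 : 0 < γ 0) (n : ℕ) :
    0 < γ n ∧ |σ n| ≤ γ n ∧ |α n| ≤ 3 / NN * γ n ∧ 9 / 10 * γ n ≤ γ (n + 1) ∧
      γ (n + 1) ≤ 11 / 10 * γ n := by
  have key : ∀ n, 0 < γ n ∧ |σ n| ≤ γ n := by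
    intro n
    induction n with
    | zero => exact ⟨h3, h2⟩
    | succ n ih =>
      obtain ⟨hg, hs⟩ := ih
      obtain ⟨ha, hmx, hl, hu⟩ := pair_center_aux α σ γ h h1 n hs hg
      refine ⟨by linarith, ?_⟩
      have h4 := h.h2 n
      rw [hmx] at h4
      have h5 : |σ (n + 1)| ≤ |α n| + ep * γ n := by
        have := abs_sub_abs_le_abs_sub (σ (n + 1)) (α n)
        linarith
      have h6 : (3 / NN + ep) * γ n ≤ 9 / 10 * γ n :=
        mul_le_mul_of_nonneg_right (by unfold NN ep; norm_num) hg.le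
      linarith
  obtain ⟨hg, hs⟩ := key n
  obtain ⟨ha, _, hl, hu⟩ := pair_center_aux α σ γ h h1 n hs hg
  exact ⟨hg, hs, ha, hl, hu⟩

end Pool.Agent.Helper867.Smale
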