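import Pool.Agent.Helper867.Smale.TripDef

set_option autoImplicit false

open Set Filter Topology

namespace Pool.Agent.Helper867.Smale

theorem F0_periodic_aux_cos (a : ℝ) (m : ℤ) :
    Real.cos (2 * Real.pi * (a + m)) = Real.cos (2 * Real.pi * a) := by
  rw [show 2 * Real.pi * (a + m) = 2 * Real.pi * a + m * (2 * Real.pi) by ring,
    Real.cos_add_int_mul_two_pi]

theorem F0_periodic_aux_sin (a : ℝ) (m : ℤ) :
    Real.sin (2 * Real.pi * (a + m)) = Real.sin (2 * Real.pi * a) := by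
  rw [show 2 * Real.pi * (a + m) = 2 * Real.pi * a + m * (2 * Real.pi) by ring,
    Real.sin_add_int_mul_two_pi]

theorem F0_periodic_aux_cos2 (a : ℝ) (m : ℤ) :
    Real.cos (4 * Real.pi * (a + m)) = Real.cos (4 * Real.pi * a) := by
  rw [show 4 * Real.pi * (a + m) = 4 * Real.pi * a + ((2 * m : ℤ) : ℝ) * (2 * Real.pi) by
    push_cast; ring, Real.cos_add_int_mul_two_pi]

theorem F0_periodic_aux_rr (c : ℝ) (m : ℤ) : rr (c + m) = rr c := by
  unfold rr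
  rw [F0_periodic_aux_cos, F0_periodic_aux_sin]

theorem F0_periodic_aux_gg (a c : ℝ) (m n : ℤ) : gg (a + m) (c + n) = gg a c := by
  unfold gg
  rw [F0_periodic_aux_cos, F0_periodic_aux_cos2, F0_periodic_aux_sin]

theorem F0_periodic (p : Fin 3 → ℝ) (m : Fin 3 → ℤ) :
    ∃ n : Fin 3 → ℤ, F0 (p + fun i => (m i : ℝ)) = F0 p + fun i => (n i : ℝ) := by
  refine ⟨![10 ^ 8 * m 0 - m 1, m 0, m 2], ?_⟩
  ext i
  fin_cases i
  · show NN * (p 0 + (m 0 : ℝ)) - (p 1 + (m 1 : ℝ)) = (NN * p 0 - p 1) +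
      ((10 ^ 8 * m 0 - m 1 : ℤ) : ℝ)
    unfold NN
    push_cast
    ring
  · rfl
  · show (p 2 + (m 2 : ℝ)) + rr (p 2 + (m 2 : ℝ)) + gg (p 0 + (m 0 : ℝ)) (p 2 + (m 2 : ℝ)) =
      (p 2 + rr (p 2) + gg (p 0) (p 2)) + (m 2 : ℝ)
    rw [F0_periodic_aux_rr, F0_periodic_aux_gg]
    ring

end Pool.Agent.Helper867.Smale
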