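import Pool.Agent.Helper867.Smale.Torus
import Pool.Agent.Helper867.Smale.NearDef
import Pool.Agent.Helper867.Smale.L_pr_eq_iff
import Pool.Agent.Helper867.Smale.L_pr_surjective
import Pool.Agent.Helper867.Smale.L_lift_unique

set_option autoImplicit false

open Set Filter Topology

namespace Pool.Agent.Helper867.Smale

theorem dyn_stab_aux_pr_add (p : Fin 3 → ℝ) (m : Fin 3 → ℤ) :
    pr (p + fun i => (m i : ℝ)) = pr p := by
  rw [pr_eq_iff]
  intro i
  exact ⟨-m i, by simp⟩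

theorem dyn_stab_aux_exists {p q : Fin 3 → ℝ} (h : pr p = pr q) :
    ∃ m : Fin 3 → ℤ, q = p + fun i => (m i : ℝ) := by
  rw [pr_eq_iff] at h
  choose m hm using h
  exact ⟨m, funext fun i => hm i⟩

theorem dyn_stab_aux_unique {F G : (Fin 3 → ℝ) → (Fin 3 → ℝ)} (hF : Continuous F)
    (hG : Continuous G) (h : ∀ p, pr (F p) = pr (G p)) :
    ∃ m : Fin 3 → ℤ, ∀ p, F p = G p + fun i => (m i : ℝ) := by
  obtain ⟨m, hm⟩ := lift_unique F G hF hG h
  exact ⟨m, fun p => funext fun i => hm p i⟩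

theorem dyn_stab_aux_equi {r : ℕ∞} {F : (Fin 3 → ℝ) → (Fin 3 → ℝ)} {f : T3 → T3}
    (hF : IsLift r F f) (m : Fin 3 → ℤ) :
    ∃ n : Fin 3 → ℤ, ∀ p, F (p + fun i => (m i : ℝ)) = F p + fun i => (n i : ℝ) := by
  have hc : Continuous F := hF.1.continuous
  refine dyn_stab_aux_unique (F := fun p => F (p + fun i => (m i : ℝ))) (G := F)
    (by fun_prop) hc fun p => ?_
  rw [hF.2, hF.2, dyn_stab_aux_pr_add]

/-- the derivative of an equivariant map is bounded -/
theorem dyn_stab_aux_bound {G : (Fin 3 → ℝ) → (Fin 3 → ℝ)} (hG : ContDiff ℝ 1 G)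
    (he : ∀ m : Fin 3 → ℤ, ∃ n : Fin 3 → ℤ, ∀ p,
      G (p + fun i => (m i : ℝ)) = G p + fun i => (n i : ℝ)) :
    ∃ K : ℝ, 0 ≤ K ∧ ∀ p, ‖fderiv ℝ G p‖ ≤ K := by
  have hc : Continuous (fderiv ℝ G) := hG.continuous_fderiv (by norm_num)
  obtain ⟨K, hK⟩ := (isCompact_Icc (a := (0 : Fin 3 → ℝ)) (b := 1)).exists_bound_of_continuousOn
    hc.continuousOn
  refine ⟨max K 0, le_max_right _ _, fun p => ?_⟩
  obtain ⟨n, hn⟩ := he (fun i => ⌊p i⌋)
  have h1 : p = (fun i => Int.fract (p i)) + fun i => (⌊p i⌋ : ℝ) := by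
    funext i
    simp
  have h2 : fderiv ℝ G p = fderiv ℝ G (fun i => Int.fract (p i)) := by
    conv_lhs => rw [h1]
    rw [← fderiv_comp_add_right]
    have h3 : (fun x => G (x + fun i => (⌊p i⌋ : ℝ))) = fun x => G x + fun i => (n i : ℝ) := by
      funext x
      exact hn x
    rw [h3, fderiv_add_const]
  rw [h2]
  refine (hK _ ?_).trans (le_max_left _ _)
  rw [Set.mem_Icc]
  refine ⟨fun i => Int.fract_nonneg _, fun i => (Int.fract_lt_one _).le⟩

/-- a small perturbation of the identity is a diffeomorphism -/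
theorem dyn_stab_aux_inv {r : ℕ∞} (hr : 1 ≤ r) {v : (Fin 3 → ℝ) → (Fin 3 → ℝ)}
    (hv : ContDiff ℝ r v) (hb : ∀ p, ‖fderiv ℝ v p‖ ≤ 1 / 2) :
    ∃ Ψ : (Fin 3 → ℝ) → (Fin 3 → ℝ), ContDiff ℝ r Ψ ∧ (∀ p, Ψ p + v (Ψ p) = p) ∧
      ∀ p, Ψ (p + v p) = p := by
  have hr' : ((r : ℕ∞) : WithTop ℕ∞) ≠ 0 := by
    intro h
    have : r = 0 := by exact_mod_cast h
    rw [this] at hr
    exact absurd hr (by simp)
  have hd : Differentiable ℝ v := hv.differentiable hr'
  have hlip : LipschitzWith (1 / 2) v := lipschitzWith_of_nnnorm_fderiv_le hd fun x => by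
    rw [← NNReal.coe_le_coe]
    simpa using hb x
  have happ : ApproximatesLinearOn (fun p => p + v p)
      ((ContinuousLinearEquiv.refl ℝ (Fin 3 → ℝ) : (Fin 3 → ℝ) ≃L[ℝ] (Fin 3 → ℝ)) :
        (Fin 3 → ℝ) →L[ℝ] (Fin 3 → ℝ)) Set.univ (1 / 2) := by
    intro x _ y _
    have h1 := hlip.norm_sub_le x y
    have h2 : (fun p => p + v p) x - (fun p => p + v p) y -
        ((ContinuousLinearEquiv.refl ℝ (Fin 3 → ℝ) : (Fin 3 → ℝ) ≃L[ℝ] (Fin 3 → ℝ)) :
        (Fin 3 → ℝ) →L[ℝ] (Fin 3 → ℝ)) (x - y) = v x - v y := by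
      simp
      abel
    rw [h2]
    exact h1
  have hN : Subsingleton (Fin 3 → ℝ) ∨ (1 / 2 : NNReal) <
      ‖((ContinuousLinearEquiv.refl ℝ (Fin 3 → ℝ)).symm : (Fin 3 → ℝ) →L[ℝ] (Fin 3 → ℝ))‖₊⁻¹ := by
    right
    have h1 : ‖((ContinuousLinearEquiv.refl ℝ (Fin 3 → ℝ)).symm :
        (Fin 3 → ℝ) →L[ℝ] (Fin 3 → ℝ))‖₊ = 1 := by
      have : ((ContinuousLinearEquiv.refl ℝ (Fin 3 → ℝ)).symm :
        (Fin 3 → ℝ) →L[ℝ] (Fin 3 → ℝ)) = ContinuousLinearMap.id ℝ _ := by
        ext; simp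
      rw [this]
      exact ContinuousLinearMap.nnnorm_id
    rw [h1, inv_one]
    exact NNReal.half_lt_self one_ne_zero
  let Φ := happ.toHomeomorph _ hN
  have hΦ : ∀ p, Φ p = p + v p := fun p => rfl
  have hne : ∀ a, ‖-(fderiv ℝ v a)‖ < 1 := fun a => by
    rw [norm_neg]
    exact (hb a).trans_lt (by norm_num)
  have hcd : ContDiff ℝ r (Φ : (Fin 3 → ℝ) → (Fin 3 → ℝ)) := by
    have : (Φ : (Fin 3 → ℝ) → (Fin 3 → ℝ)) = fun p => p + v p := funext hΦ
    rw [this]
    exact contDiff_id.add hv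
  have hder : ∀ a, HasFDerivAt Φ
      ((ContinuousLinearEquiv.ofUnit (Units.oneSub (-(fderiv ℝ v a)) (hne a)) :
        (Fin 3 → ℝ) ≃L[ℝ] (Fin 3 → ℝ)) : (Fin 3 → ℝ) →L[ℝ] (Fin 3 → ℝ)) a := by
    intro a
    have h1 : HasFDerivAt (fun p => p + v p) (ContinuousLinearMap.id ℝ _ + fderiv ℝ v a) a :=
      (hasFDerivAt_id a).add (hd a).hasFDerivAt
    have h2 : ((ContinuousLinearEquiv.ofUnit (Units.oneSub (-(fderiv ℝ v a)) (hne a)) :
        (Fin 3 → ℝ) ≃L[ℝ] (Fin 3 → ℝ)) : (Fin 3 → ℝ) →L[ℝ] (Fin 3 → ℝ)) =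
        ContinuousLinearMap.id ℝ _ + fderiv ℝ v a := by
      apply ContinuousLinearMap.ext
      intro x
      show ((1 : (Fin 3 → ℝ) →L[ℝ] (Fin 3 → ℝ)) - (-(fderiv ℝ v a))) x = _
      simp
    rw [h2]
    exact h1
  refine ⟨Φ.symm, Φ.contDiff_symm hder hcd, fun p => ?_, fun p => ?_⟩
  · exact Φ.apply_symm_apply p
  · exact Φ.symm_apply_apply p

theorem dyn_stab (r : ℕ∞) (hr : 1 ≤ r) (f : Dyn r) : ∃ ε0 : ℝ, 0 < ε0 ∧
    ∀ H F, IsLift r F f.1 → ContDiff ℝ r H →
      (∀ (p : Fin 3 → ℝ) (m : Fin 3 → ℤ), pr (H (p + fun i => (m i : ℝ))) = pr (H p)) →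
      (∀ p, ‖H p - F p‖ ≤ 1 / 4) → (∀ p, ‖fderiv ℝ H p - fderiv ℝ F p‖ ≤ ε0) →
      ∃ h : Dyn r, IsLift r H h.1 := by
  obtain ⟨F0, hF0⟩ := f.2.1
  obtain ⟨G0, hG0⟩ := f.2.2
  have hr' : ((r : ℕ∞) : WithTop ℕ∞) ≠ 0 := by
    intro h
    have : r = 0 := by exact_mod_cast h
    rw [this] at hr
    exact absurd hr (by simp)
  have hr1 : (1 : WithTop ℕ∞) ≤ ((r : ℕ∞) : WithTop ℕ∞) := by exact_mod_cast hr
  have hcF0 : Continuous F0 := hF0.1.continuous
  have hcG0 : Continuous G0 := hG0.1.continuous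
  -- normalise the inverse
  obtain ⟨m, hm⟩ := dyn_stab_aux_unique (F := fun p => G0 (F0 p)) (G := fun p => p)
    (hcG0.comp hcF0) continuous_id (fun p => by
      rw [hG0.2, hF0.2, Equiv.symm_apply_apply])
  obtain ⟨K, hK0, hK⟩ := dyn_stab_aux_bound (hG0.1.of_le hr1) (dyn_stab_aux_equi hG0)
  refine ⟨1 / (2 * (K + 1)), by positivity, ?_⟩
  intro H F hF hH hHpr hHF hdHF
  -- the inverse of `F`
  obtain ⟨c, hc⟩ := dyn_stab_aux_unique (F := F) (G := F0) hF.1.continuous hcF0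
    (fun p => by rw [hF.2, hF0.2])
  let G : (Fin 3 → ℝ) → (Fin 3 → ℝ) := fun p =>
    G0 (p - fun i => (c i : ℝ)) - fun i => (m i : ℝ)
  have hG : ContDiff ℝ r G := (hG0.1.comp (contDiff_id.sub contDiff_const)).sub contDiff_const
  have hGF : ∀ p, G (F p) = p := by
    intro p
    simp only [G]
    rw [hc p, add_sub_cancel_right, hm p, add_sub_cancel_right]
  have hFG : ∀ p, F (G p) = p := by
    have hlift : ∀ p, pr (F (G p)) = pr p := by
      intro p
      rw [hF.2]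
      have h1 : pr (G p) = f.1.symm (pr p) := by
        have h2 : pr (G p) = pr (G0 (p - fun i => (c i : ℝ))) := by
          rw [← dyn_stab_aux_pr_add (G p) m]
          simp only [G, sub_add_cancel]
        have h3 : pr (p - fun i => (c i : ℝ)) = pr p := by
          rw [← dyn_stab_aux_pr_add (p - fun i => (c i : ℝ)) c, sub_add_cancel]
        rw [h2, hG0.2, h3]
      rw [h1, Equiv.apply_symm_apply]
    obtain ⟨m', hm'⟩ := dyn_stab_aux_unique (F := fun p => F (G p)) (G := fun p => p)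
      (hF.1.continuous.comp hG.continuous) continuous_id hlift
    intro p
    have h1 := hm' (F 0)
    simp only [hGF] at h1
    have h2 : (fun i => (m' i : ℝ)) = 0 := by
      have := h1.symm
      rwa [add_eq_left] at this
    have h3 := hm' p
    simp only [h2, add_zero] at h3
    exact h3
  have hGK : ∀ p, ‖fderiv ℝ G p‖ ≤ K := by
    intro p
    have h1 : fderiv ℝ G p = fderiv ℝ G0 (p - fun i => (c i : ℝ)) := by
      simp only [G]
      rw [fderiv_sub_const, fderiv_comp_sub]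
    rw [h1]
    exact hK _
  -- equivariance of `H`
  have hHeq : ∀ m n : Fin 3 → ℤ,
      (∀ p, F (p + fun i => (m i : ℝ)) = F p + fun i => (n i : ℝ)) →
      ∀ p, H (p + fun i => (m i : ℝ)) = H p + fun i => (n i : ℝ) := by
    intro m n hmn p
    obtain ⟨k, hk⟩ := dyn_stab_aux_exists (hHpr p m).symm
    rw [hk]
    congr 1
    funext i
    have h1 := hHF (p + fun i => (m i : ℝ))
    have h2 := hHF p
    rw [hk, hmn p] at h1
    have h3 := (norm_le_pi_norm _ i).trans h1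
    have h4 := (norm_le_pi_norm _ i).trans h2
    simp only [Pi.sub_apply, Pi.add_apply, Real.norm_eq_abs] at h3 h4
    have h5 : |((k i - n i : ℤ) : ℝ)| < 1 := by
      have h6 : ((k i - n i : ℤ) : ℝ) = (H p i + (k i : ℝ) - (F p i + (n i : ℝ))) -
          (H p i - F p i) := by push_cast; ring
      rw [h6]
      calc _ ≤ |H p i + (k i : ℝ) - (F p i + (n i : ℝ))| + |H p i - F p i| := abs_sub _ _
        _ < 1 := by linarith
    have h7 : k i - n i = 0 := by
      have : |k i - n i| < 1 := by exact_mod_cast h5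
      exact Int.abs_lt_one_iff.1 this
    have h8 : k i = n i := by omega
    rw [h8]
  -- the perturbation of the identity
  have hv : ContDiff ℝ r (fun p => H (G p) - F (G p)) := (hH.comp hG).sub (hF.1.comp hG)
  have hvb : ∀ p, ‖fderiv ℝ (fun p => H (G p) - F (G p)) p‖ ≤ 1 / 2 := by
    intro p
    have hu : DifferentiableAt ℝ (fun q => H q - F q) (G p) :=
      ((hH.differentiable hr') _).sub ((hF.1.differentiable hr') _)
    have hg : DifferentiableAt ℝ G p := (hG.differentiable hr') p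
    have h1 : fderiv ℝ (fun p => H (G p) - F (G p)) p =
        (fderiv ℝ (fun q => H q - F q) (G p)).comp (fderiv ℝ G p) :=
      fderiv_comp (g := fun q => H q - F q) p hu hg
    rw [h1]
    have h2 : fderiv ℝ (fun q => H q - F q) (G p) = fderiv ℝ H (G p) - fderiv ℝ F (G p) :=
      fderiv_fun_sub ((hH.differentiable hr') _) ((hF.1.differentiable hr') _)
    rw [h2]
    refine (ContinuousLinearMap.opNorm_comp_le _ _).trans ?_
    calc _ ≤ 1 / (2 * (K + 1)) * K := mul_le_mul (hdHF _) (hGK _) (norm_nonneg _) (by positivity)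
      _ ≤ 1 / 2 := by
        rw [div_mul_eq_mul_div, div_le_div_iff₀ (by positivity) (by norm_num)]
        linarith
  obtain ⟨Ψ, hΨ, hΨ1, hΨ2⟩ := dyn_stab_aux_inv hr hv hvb
  have hHG : ∀ p, p + (H (G p) - F (G p)) = H (G p) := by
    intro p
    rw [hFG]
    abel
  simp only [hHG] at hΨ1 hΨ2
  have hH1 : ∀ p, H (G (Ψ p)) = p := hΨ1
  have hH2 : ∀ q, G (Ψ (H q)) = q := by
    intro q
    have h1 := hΨ2 (F q)
    rw [hGF] at h1
    rw [h1, hGF]
  -- descend
  have hHpr' : ∀ p q, pr p = pr q → pr (H p) = pr (H q) := by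
    intro p q h
    obtain ⟨m, rfl⟩ := dyn_stab_aux_exists h
    exact (hHpr p m).symm
  have hKpr' : ∀ p q, pr p = pr q → pr (G (Ψ p)) = pr (G (Ψ q)) := by
    intro p q h
    obtain ⟨m, rfl⟩ := dyn_stab_aux_exists h
    -- `G (p + m) = G p + n`
    obtain ⟨n, hn⟩ := dyn_stab_aux_equi hG0 m
    have hGn : ∀ p, G (p + fun i => (m i : ℝ)) = G p + fun i => (n i : ℝ) := by
      intro p
      simp only [G]
      have h1 : (p + fun i => (m i : ℝ)) - (fun i => (c i : ℝ)) =
          (p - fun i => (c i : ℝ)) + fun i => (m i : ℝ) := by abel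
      rw [h1, hn]
      abel
    have hFn : ∀ q, F (q + fun i => (n i : ℝ)) = F q + fun i => (m i : ℝ) := by
      intro q
      have h1 := hGn (F q)
      rw [hGF] at h1
      rw [← h1, hFG]
    have h2 := hHeq n m hFn (G (Ψ p))
    rw [hH1] at h2
    rw [← h2, hH2, dyn_stab_aux_pr_add]
  let h : Equiv.Perm T3 :=
    { toFun := fun x => pr (H (Function.surjInv pr_surjective x))
      invFun := fun x => pr (G (Ψ (Function.surjInv pr_surjective x)))
      left_inv := by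
        intro x
        have h1 := hKpr' (Function.surjInv pr_surjective (pr (H (Function.surjInv pr_surjective x))))
          (H (Function.surjInv pr_surjective x)) (Function.surjInv_eq pr_surjective _)
        simp only [h1, hH2, Function.surjInv_eq pr_surjective]
      right_inv := by
        intro x
        have h1 := hHpr' (Function.surjInv pr_surjective
          (pr (G (Ψ (Function.surjInv pr_surjective x)))))
          (G (Ψ (Function.surjInv pr_surjective x))) (Function.surjInv_eq pr_surjective _)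
        simp only [h1, hH1, Function.surjInv_eq pr_surjective] }
  have hl1 : IsLift r H h := ⟨hH, fun p => by
    show pr (H p) = pr (H (Function.surjInv pr_surjective (pr p)))
    exact hHpr' _ _ (Function.surjInv_eq pr_surjective _).symm⟩
  have hl2 : IsLift r (fun p => G (Ψ p)) h.symm := ⟨hG.comp hΨ, fun p => by
    show pr (G (Ψ p)) = pr (G (Ψ (Function.surjInv pr_surjective (pr p))))
    exact hKpr' _ _ (Function.surjInv_eq pr_surjective _).symm⟩
  exact ⟨⟨h, ⟨H, hl1⟩, ⟨_, hl2⟩⟩, hl1⟩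

end Pool.Agent.Helper867.Smale
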