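import Pool.Agent.Helper867.Smale.TripDef
import Pool.Agent.Helper867.Smale.L_near_iff_cl
import Pool.Agent.Helper867.Smale.L_dyn_stab

set_option autoImplicit false

open Set Filter Topology

namespace Pool.Agent.Helper867.Smale

theorem dyn_pert (f : Dyn 1) (F : (Fin 3 → ℝ) → (Fin 3 → ℝ)) (hF : IsLift 1 F f.1) :
    ∃ ε0 : ℝ, 0 < ε0 ∧ ∀ H, ContDiff ℝ 1 H →
      (∀ (p : Fin 3 → ℝ) (m : Fin 3 → ℤ), pr (H (p + fun i => (m i : ℝ))) = pr (H p)) →
      Cl H F ε0 → ∃ h : Dyn 1, IsLift 1 H h.1 := by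
  obtain ⟨ε0, hε0, h⟩ := dyn_stab 1 le_rfl f
  refine ⟨min ε0 (1 / 4), lt_min hε0 (by norm_num), fun H hH hper hcl => ?_⟩
  refine h H F hF hH hper (fun p => (hcl.1 p).trans (min_le_right _ _)) fun p => ?_
  have hHd : DifferentiableAt ℝ H p := (hH.differentiable (by norm_num)) p
  have hFd : DifferentiableAt ℝ F p := (hF.1.differentiable (by norm_num)) p
  have h1 : HasFDerivAt (fun q => H q - F q) (fderiv ℝ H p - fderiv ℝ F p) p :=
    hHd.hasFDerivAt.sub hFd.hasFDerivAt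
  refine (h1.le_of_lip' (le_min hε0.le (by norm_num)) (Filter.Eventually.of_forall fun q => ?_)).trans
    (min_le_left ε0 (1 / 4))
  exact hcl.2 q p


end Pool.Agent.Helper867.Smale
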