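import Pool.Agent.Helper867.Smale.TripDef
import Pool.Agent.Helper867.Smale.L_pr_eq_iff

set_option autoImplicit false

open Set Filter Topology

namespace Pool.Agent.Helper867.Smale

theorem lift_periodic (F : (Fin 3 → ℝ) → (Fin 3 → ℝ)) (hF : Continuous F) (h : Cl F F0 ep)
    (hpr : ∀ (p : Fin 3 → ℝ) (m : Fin 3 → ℤ), pr (F (p + fun i => (m i : ℝ))) = pr (F p))
    (p : Fin 3 → ℝ) (m : Fin 3 → ℤ) :
    F (p + fun i => (m i : ℝ)) - F0 (p + fun i => (m i : ℝ)) = F p - F0 p ∧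
      ∃ n : Fin 3 → ℤ, F0 (p + fun i => (m i : ℝ)) = F0 p + fun i => (n i : ℝ) := by
  have c1 : ∀ (a : ℝ) (k : ℤ), Real.cos (2 * Real.pi * (a + k)) = Real.cos (2 * Real.pi * a) := by
    intro a k
    rw [show 2 * Real.pi * (a + k) = 2 * Real.pi * a + k * (2 * Real.pi) by ring,
      Real.cos_add_int_mul_two_pi]
  have s1 : ∀ (a : ℝ) (k : ℤ), Real.sin (2 * Real.pi * (a + k)) = Real.sin (2 * Real.pi * a) := by
    intro a k
    rw [show 2 * Real.pi * (a + k) = 2 * Real.pi * a + k * (2 * Real.pi) by ring,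
      Real.sin_add_int_mul_two_pi]
  have c2 : ∀ (a : ℝ) (k : ℤ), Real.cos (4 * Real.pi * (a + k)) = Real.cos (4 * Real.pi * a) := by
    intro a k
    rw [show 4 * Real.pi * (a + k) = 4 * Real.pi * a + ((2 * k : ℤ) : ℝ) * (2 * Real.pi) by
      push_cast; ring, Real.cos_add_int_mul_two_pi]
  have hrr : ∀ (c : ℝ) (k : ℤ), rr (c + k) = rr c := by
    intro c k
    unfold rr
    rw [c1, s1]
  have hgg : ∀ (a c : ℝ) (j k : ℤ), gg (a + j) (c + k) = gg a c := by
    intro a c j k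
    unfold gg
    rw [c1, c2, s1]
  set n : Fin 3 → ℤ := ![10 ^ 8 * m 0 - m 1, m 0, m 2] with hn
  have hF0 : F0 (p + fun i => (m i : ℝ)) = F0 p + fun i => (n i : ℝ) := by
    funext i
    fin_cases i
    · simp only [F0, hn, NN]
      simp
      ring
    · simp [F0, hn]
    · simp only [F0, hn]
      simp only [Fin.reduceFinMk, Matrix.cons_val, Pi.add_apply]
      rw [hrr, hgg]
      ring
  refine ⟨?_, n, hF0⟩
  obtain hk := (pr_eq_iff _ _).mp (hpr p m).symm
  funext i
  obtain ⟨k, hk⟩ := hk i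
  have hb1 := h.1 (p + fun i => (m i : ℝ))
  have hb2 := h.1 p
  have hc1 := (norm_le_pi_norm (F (p + fun i => (m i : ℝ)) - F0 (p + fun i => (m i : ℝ))) i).trans hb1
  have hc2 := (norm_le_pi_norm (F p - F0 p) i).trans hb2
  rw [Real.norm_eq_abs, Pi.sub_apply, hF0, Pi.add_apply, hk] at hc1
  rw [Real.norm_eq_abs, Pi.sub_apply] at hc2
  have hkn : k = n i := by
    have h3 : |((k - n i : ℤ) : ℝ)| < 1 := by
      have e1 : ((k - n i : ℤ) : ℝ) = (F p i + k - (F0 p i + n i)) - (F p i - F0 p i) := by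
        push_cast; ring
      rw [e1]
      have h4 := abs_sub (F p i + k - (F0 p i + n i)) (F p i - F0 p i)
      have h5 : ep + ep < 1 := by unfold ep; norm_num
      linarith
    have h4 : |k - n i| < 1 := by
      have : ((|k - n i| : ℤ) : ℝ) < 1 := by rw [Int.cast_abs]; exact h3
      exact_mod_cast this
    have h5 := Int.abs_lt_one_iff.mp h4
    omega
  rw [Pi.sub_apply, Pi.sub_apply, hF0, Pi.add_apply, hk, hkn]
  ring

end Pool.Agent.Helper867.Smale
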