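import Pool.Agent.Helper867.Smale.TripDef

set_option autoImplicit false

open Set Filter Topology

namespace Pool.Agent.Helper867.Smale

lemma mollify_aux_floor (p : Fin 3 → ℝ) :
    ∃ (m : Fin 3 → ℤ) (q : Fin 3 → ℝ), p = q + (fun i => (m i : ℝ)) ∧ ‖q‖ ≤ 1 := by
  refine ⟨fun i => ⌊p i⌋, fun i => Int.fract (p i), ?_, ?_⟩
  · ext i
    simp [Int.fract_add_floor]
  · rw [pi_norm_le_iff_of_nonneg (by norm_num)]
    intro i
    rw [Real.norm_eq_abs, abs_of_nonneg (Int.fract_nonneg _)]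
    exact (Int.fract_lt_one _).le

lemma mollify_aux_unif {X : Type*} [NormedAddCommGroup X] (g : (Fin 3 → ℝ) → X) (hg : Continuous g)
    (hper : ∀ (p : Fin 3 → ℝ) (m : Fin 3 → ℤ), g (p + fun i => (m i : ℝ)) = g p)
    (δ : ℝ) (hδ : 0 < δ) :
    ∃ s, 0 < s ∧ ∀ p t : Fin 3 → ℝ, ‖t‖ ≤ s → ‖g (p - t) - g p‖ ≤ δ := by
  have hc : IsCompact (Metric.closedBall (0 : Fin 3 → ℝ) 2) := isCompact_closedBall _ _
  have hu := hc.uniformContinuousOn_of_continuous hg.continuousOn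
  rw [Metric.uniformContinuousOn_iff_le] at hu
  obtain ⟨s, hs, h⟩ := hu δ hδ
  refine ⟨min s 1, lt_min hs one_pos, ?_⟩
  intro p t ht
  obtain ⟨m, q, hp, hq⟩ := mollify_aux_floor p
  have h1 : g p = g q := by rw [hp, hper]
  have h2 : g (p - t) = g (q - t) := by
    rw [hp, show q + (fun i => (m i : ℝ)) - t = (q - t) + (fun i => (m i : ℝ)) by abel, hper]
  rw [h1, h2, ← dist_eq_norm]
  apply h
  · rw [mem_closedBall_zero_iff]
    calc ‖q - t‖ ≤ ‖q‖ + ‖t‖ := norm_sub_le _ _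
      _ ≤ 1 + 1 := add_le_add hq (ht.trans (min_le_right _ _))
      _ = 2 := by norm_num
  · rw [mem_closedBall_zero_iff]; linarith
  · rw [dist_eq_norm]
    simp only [sub_sub_cancel_left, norm_neg]
    exact ht.trans (min_le_left _ _)

lemma mollify_aux_bdd {X : Type*} [NormedAddCommGroup X] (g : (Fin 3 → ℝ) → X) (hg : Continuous g)
    (hper : ∀ (p : Fin 3 → ℝ) (m : Fin 3 → ℤ), g (p + fun i => (m i : ℝ)) = g p) :
    ∃ M, ∀ p, ‖g p‖ ≤ M := by
  have hc : IsCompact (Metric.closedBall (0 : Fin 3 → ℝ) 2) := isCompact_closedBall _ _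
  obtain ⟨M, hM⟩ := hc.exists_bound_of_continuousOn hg.continuousOn
  refine ⟨M, fun p => ?_⟩
  obtain ⟨m, q, hp, hq⟩ := mollify_aux_floor p
  rw [hp, hper]
  apply hM
  rw [mem_closedBall_zero_iff]; linarith

lemma mollify_aux_lip (u : (Fin 3 → ℝ) → (Fin 3 → ℝ)) (hu : ContDiff ℝ 1 u) (δ : ℝ)
    (t : Fin 3 → ℝ) (h : ∀ p, ‖fderiv ℝ u (p - t) - fderiv ℝ u p‖ ≤ δ) (p q : Fin 3 → ℝ) :
    ‖(u (p - t) - u p) - (u (q - t) - u q)‖ ≤ δ * ‖p - q‖ := by
  have hd : ∀ x, HasFDerivAt (fun x => u (x - t) - u x) (fderiv ℝ u (x - t) - fderiv ℝ u x) x := by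
    intro x
    have h1 : HasFDerivAt u (fderiv ℝ u (x - t)) (x - t) := (hu.differentiable (by simp) _).hasFDerivAt
    have h2 : HasFDerivAt (fun x : Fin 3 → ℝ => x - t) (ContinuousLinearMap.id ℝ _) x :=
      (hasFDerivAt_id x).sub_const t
    have h3 := h1.comp x h2
    have h4 : HasFDerivAt u (fderiv ℝ u x) x := (hu.differentiable (by simp) _).hasFDerivAt
    exact h3.fun_sub h4
  exact (convex_univ).norm_image_sub_le_of_norm_hasFDerivWithin_le (𝕜 := ℝ)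
    (fun x _ => (hd x).hasFDerivWithinAt) (fun x _ => h x) (Set.mem_univ q) (Set.mem_univ p)

open MeasureTheory in
lemma mollify_aux_main (u : (Fin 3 → ℝ) → (Fin 3 → ℝ)) (hu : ContDiff ℝ 1 u) (δ s : ℝ) (hs : 0 < s)
    (h1 : ∀ p t : Fin 3 → ℝ, ‖t‖ ≤ s → ‖u (p - t) - u p‖ ≤ δ)
    (h2 : ∀ p t : Fin 3 → ℝ, ‖t‖ ≤ s → ‖fderiv ℝ u (p - t) - fderiv ℝ u p‖ ≤ δ)
    (hper : ∀ (p : Fin 3 → ℝ) (m : Fin 3 → ℤ), u (p + fun i => (m i : ℝ)) = u p) :
    ∃ v : (Fin 3 → ℝ) → (Fin 3 → ℝ), ContDiff ℝ 2 v ∧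
      (∀ (p : Fin 3 → ℝ) (m : Fin 3 → ℤ), v (p + fun i => (m i : ℝ)) = v p) ∧ Cl v u δ := by
  let φ : ContDiffBump (0 : Fin 3 → ℝ) := ⟨s / 2, s, by positivity, by linarith⟩
  let ψ : (Fin 3 → ℝ) → ℝ := φ.normed volume
  have hψ0 : ∀ t, 0 ≤ ψ t := fun t => φ.nonneg_normed t
  have hψi : Integrable ψ := φ.integrable_normed
  have hψ1 : ∫ t, ψ t = 1 := φ.integral_normed
  have hψs : ∀ t, ψ t ≠ 0 → ‖t‖ ≤ s := by
    intro t ht
    have : t ∈ Function.support (φ.normed volume) := ht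
    rw [φ.support_normed_eq, mem_ball_zero_iff] at this
    exact this.le
  have hψc : Continuous ψ := φ.continuous_normed
  have hψk : HasCompactSupport ψ := φ.hasCompactSupport_normed
  have hint : ∀ p, Integrable (fun t => ψ t • u (p - t)) := by
    intro p
    apply Continuous.integrable_of_hasCompactSupport
    · exact hψc.smul (hu.continuous.comp (continuous_const.sub continuous_id))
    · exact hψk.smul_right
  have hconst : ∀ c : Fin 3 → ℝ, ∫ t, ψ t • c = c := by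
    intro c
    rw [integral_smul_const, hψ1, one_smul]
  have hintc : ∀ c : Fin 3 → ℝ, Integrable (fun t => ψ t • c) := fun c => hψi.smul_const c
  refine ⟨fun p => ∫ t, ψ t • u (p - t), ?_, ?_, ?_, ?_⟩
  · have := hψk.contDiff_convolution_left (𝕜 := ℝ) (n := 2) (ContinuousLinearMap.lsmul ℝ ℝ) (μ := (volume : Measure (Fin 3 → ℝ)))
      (φ.contDiff_normed) (hu.continuous.locallyIntegrable)
    exact this
  · intro p m
    refine integral_congr_ae (Filter.Eventually.of_forall fun t => ?_)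
    show ψ t • u (p + (fun i => (m i : ℝ)) - t) = ψ t • u (p - t)
    rw [show p + (fun i => (m i : ℝ)) - t = (p - t) + (fun i => (m i : ℝ)) by abel, hper]
  · intro p
    have e1 : (∫ t, ψ t • u (p - t)) - u p = ∫ t, ψ t • (u (p - t) - u p) := by
      conv_lhs => rw [← hconst (u p)]
      rw [← integral_sub (hint p) (hintc _)]
      congr 1
      ext1 t
      rw [smul_sub]
    show ‖(∫ t, ψ t • u (p - t)) - u p‖ ≤ δ
    rw [e1]
    have e2 : ‖∫ t, ψ t • (u (p - t) - u p)‖ ≤ ∫ t, ψ t * δ := by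
      apply norm_integral_le_of_norm_le (hψi.mul_const δ)
      refine Filter.Eventually.of_forall fun t => ?_
      rw [norm_smul, Real.norm_of_nonneg (hψ0 t)]
      by_cases ht : ψ t = 0
      · simp [ht]
      · exact mul_le_mul_of_nonneg_left (h1 p t (hψs t ht)) (hψ0 t)
    rwa [integral_mul_const, hψ1, one_mul] at e2
  · intro p q
    have e1 : ((∫ t, ψ t • u (p - t)) - u p) - ((∫ t, ψ t • u (q - t)) - u q)
        = ∫ t, ψ t • ((u (p - t) - u p) - (u (q - t) - u q)) := by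
      conv_lhs => rw [← hconst (u p), ← hconst (u q)]
      have i1 : Integrable (fun t => ψ t • u (p - t) - ψ t • u p) := (hint p).sub (hintc _)
      have i2 : Integrable (fun t => ψ t • u (q - t) - ψ t • u q) := (hint q).sub (hintc _)
      rw [← integral_sub (hint p) (hintc _), ← integral_sub (hint q) (hintc _),
        ← integral_sub i1 i2]
      congr 1
      ext1 t
      simp only [smul_sub]
    show ‖((∫ t, ψ t • u (p - t)) - u p) - ((∫ t, ψ t • u (q - t)) - u q)‖ ≤ δ * ‖p - q‖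
    rw [e1]
    have e2 : ‖∫ t, ψ t • ((u (p - t) - u p) - (u (q - t) - u q))‖ ≤ ∫ t, ψ t * (δ * ‖p - q‖) := by
      apply norm_integral_le_of_norm_le (hψi.mul_const _)
      refine Filter.Eventually.of_forall fun t => ?_
      rw [norm_smul, Real.norm_of_nonneg (hψ0 t)]
      by_cases ht : ψ t = 0
      · simp [ht]
      · exact mul_le_mul_of_nonneg_left (mollify_aux_lip u hu δ t (fun p => h2 p t (hψs t ht)) p q) (hψ0 t)
    rwa [integral_mul_const, hψ1, one_mul] at e2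

theorem mollify (u : (Fin 3 → ℝ) → (Fin 3 → ℝ)) (hu : ContDiff ℝ 1 u)
    (hper : ∀ (p : Fin 3 → ℝ) (m : Fin 3 → ℤ), u (p + fun i => (m i : ℝ)) = u p)
    (δ : ℝ) (hδ : 0 < δ) :
    ∃ v : (Fin 3 → ℝ) → (Fin 3 → ℝ), ContDiff ℝ 2 v ∧
      (∀ (p : Fin 3 → ℝ) (m : Fin 3 → ℤ), v (p + fun i => (m i : ℝ)) = v p) ∧ Cl v u δ ∧
      ∃ M, ∀ p, ‖iteratedFDeriv ℝ 2 v p‖ ≤ M := by
  obtain ⟨s1, hs1, h1⟩ := mollify_aux_unif u hu.continuous hper δ hδ
  have hper' : ∀ (p : Fin 3 → ℝ) (m : Fin 3 → ℤ), fderiv ℝ u (p + fun i => (m i : ℝ)) = fderiv ℝ u p := by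
    intro p m
    rw [← fderiv_comp_add_right]
    congr 1
    ext1 x
    exact hper x m
  obtain ⟨s2, hs2, h2⟩ := mollify_aux_unif (fderiv ℝ u) (hu.continuous_fderiv (by simp)) hper' δ hδ
  obtain ⟨v, hv1, hv2, hv3⟩ := mollify_aux_main u hu δ (min s1 s2) (lt_min hs1 hs2)
    (fun p t ht => h1 p t (ht.trans (min_le_left _ _))) (fun p t ht => h2 p t (ht.trans (min_le_right _ _))) hper
  refine ⟨v, hv1, hv2, hv3, ?_⟩
  refine mollify_aux_bdd (iteratedFDeriv ℝ 2 v) (hv1.continuous_iteratedFDeriv (by norm_num)) ?_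
  intro p m
  rw [← iteratedFDeriv_comp_add_right]
  congr 1
  ext1 x
  exact hv2 x m

end Pool.Agent.Helper867.Smale
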