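import Pool.Agent.Helper867.Smale.TripDef

set_option autoImplicit false

open Set Filter Topology

namespace Pool.Agent.Helper867.Smale

theorem consts1_aux1 (b x : ℝ) (hb : 1 < b) (c : ℝ) (hc : 0 < c) : ∃ P : ℕ, 1 ≤ P ∧ x ≤ c * b ^ P := by
  obtain ⟨P, hP⟩ := pow_unbounded_of_one_lt (x / c) hb
  refine ⟨P + 1, by omega, ?_⟩
  rw [div_lt_iff₀ hc] at hP
  have h1 : b ^ P ≤ b ^ (P + 1) := pow_le_pow_right₀ hb.le (by omega)
  nlinarith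

theorem consts1_aux2 (b x : ℝ) (hb : 1 < b) (c : ℝ) (hc : 0 < c) (y : ℝ) (d : ℝ) (hd : 0 < d) :
    ∃ P : ℕ, 1 ≤ P ∧ x ≤ c * b ^ P ∧ y ≤ d * (c * b ^ P) := by
  obtain ⟨P1, hP1, h1⟩ := consts1_aux1 b x hb c hc
  obtain ⟨P2, hP2, h2⟩ := consts1_aux1 b y hb (d * c) (mul_pos hd hc)
  refine ⟨max P1 P2, hP1.trans (le_max_left _ _), ?_, ?_⟩
  · refine h1.trans ?_
    exact mul_le_mul_of_nonneg_left (pow_le_pow_right₀ hb.le (le_max_left _ _)) hc.le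
  · refine h2.trans ?_
    rw [mul_assoc]
    exact mul_le_mul_of_nonneg_left (mul_le_mul_of_nonneg_left
      (pow_le_pow_right₀ hb.le (le_max_right _ _)) hc.le) hd.le

theorem consts1_aux3 (q x : ℝ) (hq : q < 1) (hx : 0 < x) (c : ℝ) (hc : 0 < c) :
    ∃ n : ℕ, c * q ^ n ≤ x := by
  obtain ⟨n, hn⟩ := exists_pow_lt_of_lt_one (div_pos hx hc) hq
  refine ⟨n, ?_⟩
  rw [lt_div_iff₀ hc] at hn
  linarith

theorem consts1_aux4 (q x : ℝ) (hq0 : 0 ≤ q) (hq : q < 1) (hx : 0 < x) (c : ℝ) (hc : 0 < c)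
    (y : ℝ) (hy : 0 < y) (d : ℝ) (hd : 0 < d) :
    ∃ n : ℕ, c * q ^ n ≤ x ∧ d * q ^ n ≤ y := by
  obtain ⟨n1, h1⟩ := consts1_aux3 q x hq hx c hc
  obtain ⟨n2, h2⟩ := consts1_aux3 q y hq hy d hd
  refine ⟨max n1 n2, ?_, ?_⟩
  · refine le_trans ?_ h1
    exact mul_le_mul_of_nonneg_left (pow_le_pow_of_le_one hq0 hq.le (le_max_left _ _)) hc.le
  · refine le_trans ?_ h2
    exact mul_le_mul_of_nonneg_left (pow_le_pow_of_le_one hq0 hq.le (le_max_right _ _)) hd.le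

theorem consts1 (n0 : ℕ) (η κ ε M : ℝ) (hη : 0 < η) (hκ : 0 < κ) (hε : 0 < ε) (hM : 0 < M) :
    ∃ (t ϱ τ : ℝ) (B P D nc : ℕ), 0 < t ∧ t < η ∧ (11 / 10) ^ n0 * t ≤ nu ∧
      4 * dd * dl * (11 / 10) ^ (B + 1) / (NN - 2) ^ B ≤ min κ η / 8 ∧ 1 ≤ P ∧
      1 ≤ t / r0 * (9 / 11) ^ n0 * (1 + ε / 2) ^ P * Real.exp (-(10 ^ 7 * M)) ∧
      (11 / 10) ^ (B + 2) ≤ η * (t / r0 * (9 / 11) ^ n0 * (1 + ε / 2) ^ P * Real.exp (-(10 ^ 7 * M))) ∧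
      n0 ≤ D ∧ P ≤ D ∧ 0 < ϱ ∧ ϱ ≤ 1 / 4 ∧ 2 * ϱ < 1 / (10 * (NN + 2) ^ D) ∧
      M * (2 * nu * (1 - nu) ^ nc) ≤ ε / 10 ∧ nu * (1 - nu) ^ nc ≤ ϱ / 10 ∧
      0 < τ ∧ 20 * τ ≤ (9 / 10) ^ (n0 + nc + P) * min t r0 := by
  have hnu : 0 < nu := by unfold nu; positivity
  have hnu1 : nu < 1 := by unfold nu; norm_num
  have hdd : 0 < dd := by unfold dd; positivity
  have hdl : 0 < dl := by unfold dl; positivity
  have hr0 : 0 < r0 := by unfold r0; positivity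
  have hNN : 4 < NN := by unfold NN; norm_num
  obtain ⟨t, ht⟩ : ∃ t, t = min (η / 2) (nu / (11 / 10) ^ n0) := ⟨_, rfl⟩
  have ht0 : 0 < t := by rw [ht]; positivity
  have ht1 : t < η := by
    have : t ≤ η / 2 := by rw [ht]; exact min_le_left _ _
    linarith
  have ht2 : (11 / 10) ^ n0 * t ≤ nu := by
    have : t ≤ nu / (11 / 10) ^ n0 := by rw [ht]; exact min_le_right _ _
    rw [le_div_iff₀ (by positivity)] at this
    linarith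
  obtain ⟨B, hB⟩ := consts1_aux3 ((11 / 10) / (NN - 2)) (min κ η / 8)
    (by rw [div_lt_one (by linarith)]; linarith) (by positivity) (4 * dd * dl * (11 / 10)) (by positivity)
  have hB' : 4 * dd * dl * (11 / 10) ^ (B + 1) / (NN - 2) ^ B ≤ min κ η / 8 := by
    refine le_trans (le_of_eq ?_) hB
    rw [div_pow (11 / 10 : ℝ) (NN - 2), pow_succ]
    generalize ((11:ℝ) / 10) ^ B = u
    ring
  have hexp : 0 < Real.exp (-(10 ^ 7 * M)) := Real.exp_pos _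
  have hc1 : 0 < t / r0 * (9 / 11) ^ n0 * Real.exp (-(10 ^ 7 * M)) := by positivity
  obtain ⟨P, hP1, hP2, hP3⟩ := consts1_aux2 (1 + ε / 2) 1 (by linarith) _ hc1 ((11 / 10) ^ (B + 2)) η hη
  have hrew : t / r0 * (9 / 11) ^ n0 * (1 + ε / 2) ^ P * Real.exp (-(10 ^ 7 * M)) =
      t / r0 * (9 / 11) ^ n0 * Real.exp (-(10 ^ 7 * M)) * (1 + ε / 2) ^ P := by ring
  have hpD : 1 ≤ (NN + 2) ^ (max n0 P) := one_le_pow₀ (by linarith)
  obtain ⟨ϱ, hϱ⟩ : ∃ ϱ, ϱ = 1 / (30 * (NN + 2) ^ (max n0 P)) := ⟨_, rfl⟩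
  have hϱ0 : 0 < ϱ := by rw [hϱ]; positivity
  have hϱ1 : ϱ ≤ 1 / 4 := by
    rw [hϱ]
    apply one_div_le_one_div_of_le (by norm_num)
    linarith
  have hϱ2 : 2 * ϱ < 1 / (10 * (NN + 2) ^ (max n0 P)) := by
    have : 1 / (10 * (NN + 2) ^ (max n0 P)) = 3 * ϱ := by
      rw [hϱ]
      field_simp
      norm_num
    rw [this]
    linarith
  obtain ⟨nc, hnc1, hnc2⟩ := consts1_aux4 (1 - nu) (ε / 10) (by linarith) (by linarith) (by positivity)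
    (M * (2 * nu)) (by positivity) (ϱ / 10) (by positivity) nu hnu
  refine ⟨t, ϱ, ((9 / 10) ^ (n0 + nc + P) * min t r0) / 20, B, P, max n0 P, nc, ht0, ht1, ht2, hB', hP1,
    ?_, ?_, le_max_left _ _, le_max_right _ _, hϱ0, hϱ1, hϱ2, ?_, hnc2, ?_, ?_⟩
  · rw [hrew]; exact hP2
  · rw [hrew]; exact hP3
  · rw [← mul_assoc]; exact hnc1
  · have : 0 < min t r0 := lt_min ht0 hr0
    positivity
  · linarith

end Pool.Agent.Helper867.Smale
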