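import Pool.Agent.Helper867.Smale.TripDef

set_option autoImplicit false

open Set Filter Topology

namespace Pool.Agent.Helper867.Smale

theorem control1_aux_nu : 0 < nu := by unfold nu; norm_num

/-- the chosen symbol -/
noncomputable def control1_aux_s (cX : (ℕ → Fin 4) → ℕ → ℝ) (ty : ℕ → Bool) (w : ℕ → Fin 4)
    (n : ℕ) : Fin 4 :=
  open Classical in
  if 0 ≤ cX w n then (if ty n = true then 1 else 3) else (if ty n = true then 0 else 2)

/-- the approximating words -/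
noncomputable def control1_aux_W (cX : (ℕ → Fin 4) → ℕ → ℝ) (n0 : ℕ) (ω0 : ℕ → Fin 4)
    (ty : ℕ → Bool) : ℕ → (ℕ → Fin 4)
  | 0 => ω0
  | k + 1 => Function.update (control1_aux_W cX n0 ω0 ty k) (n0 + k)
      (control1_aux_s cX ty (control1_aux_W cX n0 ω0 ty k) (n0 + k))

theorem control1_aux_low (cX : (ℕ → Fin 4) → ℕ → ℝ) (n0 : ℕ) (ω0 : ℕ → Fin 4)
    (ty : ℕ → Bool) (k m : ℕ) (hm : m < n0) : control1_aux_W cX n0 ω0 ty k m = ω0 m := by
  induction k with
  | zero => rfl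
  | succ k ih =>
    rw [control1_aux_W, Function.update_of_ne (by omega), ih]

theorem control1_aux_stab (cX : (ℕ → Fin 4) → ℕ → ℝ) (n0 : ℕ) (ω0 : ℕ → Fin 4)
    (ty : ℕ → Bool) (j k : ℕ) :
    control1_aux_W cX n0 ω0 ty (j + 1 + k) (n0 + j) =
      control1_aux_s cX ty (control1_aux_W cX n0 ω0 ty j) (n0 + j) := by
  induction k with
  | zero => rw [add_zero, control1_aux_W, Function.update_self]
  | succ k ih =>
    rw [← add_assoc, control1_aux_W, Function.update_of_ne (by omega), ih]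

theorem control1 (cX : (ℕ → Fin 4) → ℕ → ℝ) (n0 : ℕ) (ω0 : ℕ → Fin 4) (ty : ℕ → Bool)
    (hc : ∀ ω ω' n, Agree n ω ω' → |cX ω n - cX ω' n| ≤ nu / 100)
    (hgood : ∀ ω, Agree n0 ω0 ω → ∀ i ≤ n0, |cX ω i| ≤ 2 * nu)
    (hP : ∀ ω n, |cX ω n| ≤ 2 * nu → (ω n = 0 ∨ ω n = 2) →
      nu / 3 - nu / 10 ≤ cX ω (n + 1) - cX ω n ∧ cX ω (n + 1) - cX ω n ≤ 11 / 10 * nu + nu / 10)
    (hN : ∀ ω n, |cX ω n| ≤ 2 * nu → (ω n = 1 ∨ ω n = 3) →
      nu / 3 - nu / 10 ≤ cX ω n - cX ω (n + 1) ∧ cX ω n - cX ω (n + 1) ≤ 11 / 10 * nu + nu / 10) :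
    ∃ ω, Agree n0 ω0 ω ∧ (∀ n, n0 ≤ n → ty n = true → (ω n = 0 ∨ ω n = 1)) ∧
      (∀ n, n0 ≤ n → ty n = false → (ω n = 2 ∨ ω n = 3)) ∧
      ∀ n, n0 < n → |cX ω n| ≤ 18 / 10 * nu := by
  have hnu := control1_aux_nu
  set W := control1_aux_W cX n0 ω0 ty with hW
  set ω : ℕ → Fin 4 := fun m => if m < n0 then ω0 m else W (m - n0 + 1) m with hω
  have hωs : ∀ k, ω (n0 + k) = control1_aux_s cX ty (W k) (n0 + k) := by
    intro k
    have e1 : ω (n0 + k) = W (n0 + k - n0 + 1) (n0 + k) := by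
      simp [hω]
    have e2 : n0 + k - n0 = k := by omega
    rw [e1, e2]
    have := control1_aux_stab cX n0 ω0 ty k 0
    rw [add_zero] at this
    exact this
  have hag : ∀ k, Agree (n0 + k) ω (W k) := by
    intro k m hm
    by_cases h : m < n0
    · have e1 : ω m = ω0 m := by simp [hω, h]
      rw [e1, hW, control1_aux_low cX n0 ω0 ty k m h]
    · obtain ⟨j, rfl⟩ : ∃ j, m = n0 + j := ⟨m - n0, by omega⟩
      obtain ⟨l, rfl⟩ : ∃ l, k = j + 1 + l := ⟨k - j - 1, by omega⟩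
      rw [hωs, hW, control1_aux_stab]
  have hag0 : Agree n0 ω0 ω := by
    intro m hm
    simp [hω, hm]
  have hstep : ∀ k, |cX ω (n0 + k)| ≤ 2 * nu → |cX ω (n0 + k + 1)| ≤ 18 / 10 * nu := by
    intro k hk
    have h1 := abs_le.mp (hc ω (W k) (n0 + k) (hag k))
    have h2 := hωs k
    have h3 := abs_le.mp hk
    unfold control1_aux_s at h2
    rw [abs_le]
    by_cases h0 : 0 ≤ cX (W k) (n0 + k)
    · rw [if_pos h0] at h2
      have h4 : ω (n0 + k) = 1 ∨ ω (n0 + k) = 3 := by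
        by_cases ht : ty (n0 + k) = true
        · left; rw [h2, if_pos ht]
        · right; rw [h2, if_neg ht]
      have h5 := hN ω (n0 + k) hk h4
      constructor <;> linarith [h5.1, h5.2, h1.1, h1.2, h3.1, h3.2]
    · rw [if_neg h0] at h2
      push Not at h0
      have h4 : ω (n0 + k) = 0 ∨ ω (n0 + k) = 2 := by
        by_cases ht : ty (n0 + k) = true
        · left; rw [h2, if_pos ht]
        · right; rw [h2, if_neg ht]
      have h5 := hP ω (n0 + k) hk h4
      constructor <;> linarith [h5.1, h5.2, h1.1, h1.2, h3.1, h3.2]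
  have hall : ∀ k, |cX ω (n0 + k)| ≤ 2 * nu := by
    intro k
    induction k with
    | zero => exact hgood ω hag0 n0 le_rfl
    | succ k ih => exact (hstep k ih).trans (by linarith)
  refine ⟨ω, hag0, ?_, ?_, ?_⟩
  · intro n hn ht
    obtain ⟨k, rfl⟩ := Nat.exists_eq_add_of_le hn
    have h2 := hωs k
    unfold control1_aux_s at h2
    rw [if_pos ht, if_pos ht] at h2
    split_ifs at h2 with h
    · right; exact h2
    · left; exact h2
  · intro n hn ht
    obtain ⟨k, rfl⟩ := Nat.exists_eq_add_of_le hn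
    have ht' : ¬ (ty (n0 + k) = true) := by rw [ht]; simp
    have h2 := hωs k
    unfold control1_aux_s at h2
    rw [if_neg ht', if_neg ht'] at h2
    split_ifs at h2 with h
    · right; exact h2
    · left; exact h2
  · intro n hn
    obtain ⟨k, rfl⟩ := Nat.exists_eq_add_of_lt hn
    exact hstep k (hall k)

end Pool.Agent.Helper867.Smale
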