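import Pool.Agent.Helper867.Smale.Base
import Pool.Agent.Helper867.Smale.L_cone_unst

set_option autoImplicit false

open Set Filter Topology

namespace Pool.Agent.Helper867.Smale

theorem two_point_aux_mx {a b c M : ℝ} (h1 : |a| ≤ M) (h2 : |b| ≤ M) (h3 : |c| ≤ M) :
    mx a b c ≤ M := max_le h1 (max_le h2 h3)

theorem two_point_aux_step (α σ γ : ℕ → ℝ) (h : PairSeq α σ γ) (k : ℕ)
    (hs : |σ k| ≤ |α k|) (hg : |γ k| ≤ dl * |α k|) : |γ (k + 1)| ≤ 41 / 20 * (dl * |α k|) := by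
  have hdl : dl = 1 / 10 ^ 5 := rfl
  have ha := abs_nonneg (α k)
  have hdl0 : 0 ≤ dl := by rw [hdl]; norm_num
  have hg1 : |γ k| ≤ |α k| := by
    refine hg.trans ?_
    rw [hdl]
    linarith
  have h1 := h.h3 k
  have h2 : mx (α k) (σ k) (γ k) ≤ |α k| := two_point_aux_mx le_rfl hs hg1
  have h3 : dl * mx (α k) (σ k) (γ k) ≤ dl * |α k| := mul_le_mul_of_nonneg_left h2 hdl0
  have h4 : |γ (k + 1)| ≤ |γ (k + 1) - γ k| + |γ k| := by
    have := abs_add_le (γ (k + 1) - γ k) (γ k)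
    simpa using this
  linarith

theorem two_point_aux_ind (α σ γ : ℕ → ℝ) (h : PairSeq α σ γ) (h1 : σ 0 = 0) (h2 : γ 0 = 0)
    (k : ℕ) : |σ k| ≤ |α k| ∧ |γ k| ≤ dl * |α k| := by
  have hdl : dl = 1 / 10 ^ 5 := rfl
  have hNN : NN = 10 ^ 8 := rfl
  have hdl0 : 0 ≤ dl := by rw [hdl]; norm_num
  induction k with
  | zero =>
    rw [h1, h2]
    simp only [abs_zero]
    exact ⟨abs_nonneg _, mul_nonneg hdl0 (abs_nonneg _)⟩
  | succ k ih =>
    obtain ⟨hs, hg⟩ := ih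
    have ha := abs_nonneg (α k)
    have hg1 : |γ k| ≤ |α k| := by
      refine hg.trans ?_
      rw [hdl]
      linarith
    obtain ⟨c1, c2, c3⟩ := cone_unst α σ γ h k hs hg1
    refine ⟨c1, ?_⟩
    have h3 := two_point_aux_step α σ γ h k hs hg
    have h4 : dl * ((NN - 2) * |α k|) ≤ dl * |α (k + 1)| := mul_le_mul_of_nonneg_left c3 hdl0
    have h5 : 41 / 20 * (dl * |α k|) ≤ dl * ((NN - 2) * |α k|) := by
      rw [hdl, hNN]
      nlinarith
    linarith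

theorem two_point_aux_grow (α σ γ : ℕ → ℝ) (h : PairSeq α σ γ) (h1 : σ 0 = 0) (h2 : γ 0 = 0)
    (k j : ℕ) : |α k| * (NN - 2) ^ j ≤ |α (k + j)| := by
  have hdl : dl = 1 / 10 ^ 5 := rfl
  have hNN : NN = 10 ^ 8 := rfl
  induction j with
  | zero => simp
  | succ j ih =>
    obtain ⟨hs, hg⟩ := two_point_aux_ind α σ γ h h1 h2 (k + j)
    have ha := abs_nonneg (α (k + j))
    have hg1 : |γ (k + j)| ≤ |α (k + j)| := by
      refine hg.trans ?_
      rw [hdl]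
      linarith
    obtain ⟨-, -, c3⟩ := cone_unst α σ γ h (k + j) hs hg1
    have h3 : (NN - 2) * (|α k| * (NN - 2) ^ j) ≤ (NN - 2) * |α (k + j)| := by
      apply mul_le_mul_of_nonneg_left ih
      rw [hNN]
      norm_num
    calc |α k| * (NN - 2) ^ (j + 1) = (NN - 2) * (|α k| * (NN - 2) ^ j) := by ring
      _ ≤ _ := h3
      _ ≤ _ := c3

theorem two_point (α σ γ : ℕ → ℝ) (h : PairSeq α σ γ) (h1 : σ 0 = 0) (h2 : γ 0 = 0) (n : ℕ)
    (h3 : ∀ k ≤ n, |α k| ≤ 2 * dd) :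
    (∀ k ≤ n, |γ k| ≤ 2 * dd * dl / (NN - 2) ^ (n - k)) ∧ |γ (n + 1)| ≤ 5 * dd * dl := by
  have hdl : dl = 1 / 10 ^ 5 := rfl
  have hdd : dd = 1 / 10 ^ 6 := rfl
  have hNN : NN = 10 ^ 8 := rfl
  have hdl0 : 0 ≤ dl := by rw [hdl]; norm_num
  have hdd0 : 0 ≤ dd := by rw [hdd]; norm_num
  refine ⟨?_, ?_⟩
  · intro k hk
    obtain ⟨hs, hg⟩ := two_point_aux_ind α σ γ h h1 h2 k
    have hgr := two_point_aux_grow α σ γ h h1 h2 k (n - k)
    rw [Nat.add_sub_cancel' hk] at hgr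
    have hp : 0 < (NN - 2) ^ (n - k) := by
      apply pow_pos
      rw [hNN]
      norm_num
    rw [le_div_iff₀ hp]
    have h4 := h3 n le_rfl
    calc |γ k| * (NN - 2) ^ (n - k) ≤ dl * |α k| * (NN - 2) ^ (n - k) :=
          mul_le_mul_of_nonneg_right hg hp.le
      _ = dl * (|α k| * (NN - 2) ^ (n - k)) := by ring
      _ ≤ dl * (2 * dd) := mul_le_mul_of_nonneg_left (hgr.trans h4) hdl0
      _ = _ := by ring
  · obtain ⟨hs, hg⟩ := two_point_aux_ind α σ γ h h1 h2 n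
    have h5 := two_point_aux_step α σ γ h n hs hg
    have h4 := h3 n le_rfl
    have h6 : dl * |α n| ≤ dl * (2 * dd) := mul_le_mul_of_nonneg_left h4 hdl0
    have h7 : 0 ≤ dd * dl := mul_nonneg hdd0 hdl0
    nlinarith

end Pool.Agent.Helper867.Smale
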