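import Pool.Agent.Helper867.Smale.TripDef
import Pool.Agent.Helper867.Smale.L_two_point
import Pool.Agent.Helper867.Smale.L_orb_pair1

set_option autoImplicit false

open Set Filter Topology

namespace Pool.Agent.Helper867.Smale

theorem leaf_agree_aux_arc (ω ω' : ℕ → Fin 4) (n : ℕ) (hag : Agree (n + 1) ω ω') :
    ∀ k ≤ n, arcP ω k = arcP ω' k := by
  intro k
  induction k with
  | zero =>
    intro _
    show ((0:ℝ), aT (ω 0)) = (0, aT (ω' 0))
    rw [hag 0 (Nat.succ_pos n)]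
  | succ k ih =>
    intro hk
    have h := ih (by omega)
    show ((arcP ω k).2, near (ω (k + 1)) (NN * (arcP ω k).2 - (arcP ω k).1)) =
      ((arcP ω' k).2, near (ω' (k + 1)) (NN * (arcP ω' k).2 - (arcP ω' k).1))
    rw [h, hag (k + 1) (by omega)]

theorem leaf_agree (S : Sys1) (ω ω' : ℕ → Fin 4) (n : ℕ) (hag : Agree (n + 1) ω ω') (b c : ℝ)
    (p p' : ℝ × ℝ × ℝ) (hp : Leaf S ω b c p) (hp' : Leaf S ω' b c p') :
    (∀ k ≤ n, |(S.orb p k).2.2 - (S.orb p' k).2.2| ≤ 2 * dd * dl / (NN - 2) ^ (n - k)) ∧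
      |(S.orb p (n + 1)).2.2 - (S.orb p' (n + 1)).2.2| ≤ 5 * dd * dl := by
  have h := orb_pair1 S p' p
  obtain ⟨hb, hc, ha⟩ := hp
  obtain ⟨hb', hc', ha'⟩ := hp'
  refine two_point _ _ _ h ?_ ?_ n ?_
  · show p.2.1 - p'.2.1 = 0
    rw [hb, hb', sub_self]
  · show p.2.2 - p'.2.2 = 0
    rw [hc, hc', sub_self]
  · intro k hk
    have e : arc ω k = arc ω' k := by
      unfold arc
      rw [leaf_agree_aux_arc ω ω' n hag k hk]
    have h1 := abs_le.1 (ha k)
    have h2 := abs_le.1 (ha' k)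
    rw [e] at h1
    show |(S.orb p k).1 - (S.orb p' k).1| ≤ 2 * dd
    rw [abs_le]
    constructor <;> linarith [h1.1, h1.2, h2.1, h2.2]

end Pool.Agent.Helper867.Smale
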