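import Pool.Agent.Helper867.Smale.TripDef
import Pool.Agent.Helper867.Smale.L_control1
import Pool.Agent.Helper867.Smale.L_leaf_agree
import Pool.Agent.Helper867.Smale.L_exists_leaf1
import Pool.Agent.Helper867.Smale.L_near_spec

set_option autoImplicit false

open Set Filter Topology

namespace Pool.Agent.Helper867.Smale

theorem control_leaf_aux_arc (ω : ℕ → Fin 4) (j : ℕ) : ∃ m : ℤ, arc ω j = aT (ω j) + m := by
  cases j with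
  | zero => exact ⟨0, by simp [arc, arcP]⟩
  | succ j =>
    obtain ⟨m, hm⟩ := (near_spec (ω (j + 1)) (NN * (arcP ω j).2 - (arcP ω j).1)).2
    exact ⟨m, hm⟩


theorem control_leaf (S : Sys1) (ω0 : ℕ → Fin 4) (n0 n2 : ℕ) (h02 : n0 ≤ n2) (η0 κ : ℝ)
    (hκ : 0 < κ) (hpre : Pre S ω0 n0 η0 κ) :
    ∃ (ω : ℕ → Fin 4) (x : ℝ × ℝ × ℝ), Agree n0 ω0 ω ∧ Leaf S ω 0 0 x ∧
      (∀ k, n0 ≤ k → k < n2 → (ω k = 2 ∨ ω k = 3)) ∧ (∀ k, n2 ≤ k → (ω k = 0 ∨ ω k = 1)) ∧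
      ∀ n, n0 < n → |(S.orb x n).2.2| ≤ 18 / 10 * nu := by
  have hex : ∀ ω : ℕ → Fin 4, ∃ a : ℝ, ∀ n, |(S.orb (a, 0, 0) n).1 - arc ω n| ≤ dd :=
    fun ω => exists_leaf1 S ω 0 0 (by norm_num)
  choose lf hlf using hex
  have hleaf : ∀ ω, Leaf S ω 0 0 (lf ω, 0, 0) := fun ω => ⟨rfl, rfl, hlf ω⟩
  have hnu : 0 < nu := by unfold nu; norm_num
  have hstep : ∀ ω n, (S.orb (lf ω, 0, 0) (n + 1)).2.2 = (S.orb (lf ω, 0, 0) n).2.2 +
      S.r (S.orb (lf ω, 0, 0) n).2.2 + S.g (S.orb (lf ω, 0, 0) n).1 (S.orb (lf ω, 0, 0) n).2.1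
        (S.orb (lf ω, 0, 0) n).2.2 := by
    intro ω n
    unfold Sys1.orb
    rw [Function.iterate_succ_apply']
    rfl
  have hc : ∀ ω ω' n, Agree n ω ω' → |(S.orb (lf ω, 0, 0) n).2.2 - (S.orb (lf ω', 0, 0) n).2.2| ≤ nu / 100 := by
    intro ω ω' n hag
    cases n with
    | zero =>
      have e1 : (S.orb (lf ω, 0, 0) 0).2.2 = 0 := rfl
      have e2 : (S.orb (lf ω', 0, 0) 0).2.2 = 0 := rfl
      rw [e1, e2, sub_zero, abs_zero]; positivity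
    | succ m =>
      have := (leaf_agree S ω ω' m hag 0 0 _ _ (hleaf ω) (hleaf ω')).2
      refine this.trans ?_
      unfold dd dl nu; norm_num
  have hgood : ∀ ω, Agree n0 ω0 ω → ∀ i ≤ n0, |(S.orb (lf ω, 0, 0) i).2.2| ≤ 2 * nu := by
    intro ω hag i hi
    obtain ⟨a', ha'⟩ := exists_leaf1 S ω 0 r0 (by norm_num)
    have := (hpre ω hag _ (a', 0, r0) (hleaf ω) ⟨rfl, rfl, ha'⟩).1 i hi
    linarith
  have hP : ∀ ω n, |(S.orb (lf ω, 0, 0) n).2.2| ≤ 2 * nu → (ω n = 0 ∨ ω n = 2) →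
      nu / 3 - nu / 10 ≤ (S.orb (lf ω, 0, 0) (n + 1)).2.2 - (S.orb (lf ω, 0, 0) n).2.2 ∧
      (S.orb (lf ω, 0, 0) (n + 1)).2.2 - (S.orb (lf ω, 0, 0) n).2.2 ≤ 11 / 10 * nu + nu / 10 := by
    intro ω n hn' hω
    obtain ⟨m, hm⟩ := control_leaf_aux_arc ω n
    have ha := hlf ω n
    rw [hm] at ha
    have g1 := S.signP (ω n) m (S.orb (lf ω, 0, 0) n).1 (S.orb (lf ω, 0, 0) n).2.1
        (S.orb (lf ω, 0, 0) n).2.2 hω ha hn'
    have g2 := abs_le.mp (S.smallr _ hn')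
    rw [hstep]
    constructor <;> linarith [g1.1, g1.2, g2.1, g2.2]
  have hN : ∀ ω n, |(S.orb (lf ω, 0, 0) n).2.2| ≤ 2 * nu → (ω n = 1 ∨ ω n = 3) →
      nu / 3 - nu / 10 ≤ (S.orb (lf ω, 0, 0) n).2.2 - (S.orb (lf ω, 0, 0) (n + 1)).2.2 ∧
      (S.orb (lf ω, 0, 0) n).2.2 - (S.orb (lf ω, 0, 0) (n + 1)).2.2 ≤ 11 / 10 * nu + nu / 10 := by
    intro ω n hn' hω
    obtain ⟨m, hm⟩ := control_leaf_aux_arc ω n
    have ha := hlf ω n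
    rw [hm] at ha
    have g1 := S.signN (ω n) m (S.orb (lf ω, 0, 0) n).1 (S.orb (lf ω, 0, 0) n).2.1
        (S.orb (lf ω, 0, 0) n).2.2 hω ha hn'
    have g2 := abs_le.mp (S.smallr _ hn')
    rw [hstep]
    constructor <;> linarith [g1.1, g1.2, g2.1, g2.2]
  obtain ⟨ω, h1, h2, h3, h4⟩ := control1 (fun ω n => (S.orb (lf ω, 0, 0) n).2.2) n0 ω0
    (fun n => decide (n2 ≤ n)) hc hgood hP hN
  refine ⟨ω, (lf ω, 0, 0), h1, hleaf ω, ?_, ?_, h4⟩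
  · intro k hk1 hk2
    exact h3 k hk1 (by simp; omega)
  · intro k hk
    exact h2 k (by omega) (by simp; omega)


end Pool.Agent.Helper867.Smale
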