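import Pool.Agent.Helper867.Smale.TripDef

set_option autoImplicit false

open Set Filter Topology

namespace Pool.Agent.Helper867.Smale

theorem bump_aux_sqrt_lip (s t τ : ℝ) :
    |Real.sqrt (s ^ 2 + τ ^ 2) - Real.sqrt (t ^ 2 + τ ^ 2)| ≤ |s - t| := by
  have key : ∀ a b : ℝ, Real.sqrt (a ^ 2 + τ ^ 2) ≤ Real.sqrt (b ^ 2 + τ ^ 2) + |a - b| := by
    intro a b
    have h1 : |b| ≤ Real.sqrt (b ^ 2 + τ ^ 2) := by
      apply Real.le_sqrt_of_sq_le
      rw [sq_abs]; nlinarith [sq_nonneg τ]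
    rw [Real.sqrt_le_left (by positivity)]
    have h2 : Real.sqrt (b ^ 2 + τ ^ 2) ^ 2 = b ^ 2 + τ ^ 2 := Real.sq_sqrt (by positivity)
    have h3 : |a - b| ^ 2 = (a - b) ^ 2 := sq_abs _
    have h4 : b * (a - b) ≤ |b| * |a - b| := by
      rw [← abs_mul]; exact le_abs_self _
    have h5 : |b| * |a - b| ≤ Real.sqrt (b ^ 2 + τ ^ 2) * |a - b| :=
      mul_le_mul_of_nonneg_right h1 (abs_nonneg _)
    nlinarith
  rw [abs_le]
  constructor
  · have := key t s
    rw [abs_sub_comm] at this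
    linarith
  · have := key s t
    linarith

theorem bump_aux_sin_lip (u v : ℝ) :
    |Real.sin (Real.pi * u) - Real.sin (Real.pi * v)| ≤ Real.pi * |u - v| := by
  have h := Real.abs_sin_sub_sin_le (Real.pi * u) (Real.pi * v)
  have h2 : |Real.pi * u - Real.pi * v| = Real.pi * |u - v| := by
    rw [← mul_sub, abs_mul, abs_of_pos Real.pi_pos]
  linarith [h2 ▸ h]

theorem bump_aux_sin_int (u : ℝ) (m : ℤ) :
    Real.sin (Real.pi * (u + m)) ^ 2 = Real.sin (Real.pi * u) ^ 2 := by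
  have : Real.pi * (u + m) = Real.pi * u + m * Real.pi := by ring
  rw [this, Real.sin_add_int_mul_pi, mul_pow, ← zpow_natCast, ← zpow_mul]
  have : ((-1 : ℝ) ^ (m * ((2 : ℕ) : ℤ))) = 1 := by
    rw [mul_comm, zpow_mul]; norm_num
  rw [this, one_mul]

/-- the radial variable -/
noncomputable def bump_aux_q (x p : Fin 3 → ℝ) : ℝ :=
  ∑ i, Real.sin (Real.pi * (p i - x i)) ^ 2

/-- the kink -/
noncomputable def bump_aux_k (τ : ℝ) (x p : Fin 3 → ℝ) : ℝ :=
  Real.sqrt ((Real.sin (Real.pi * (p 2 - x 2)) / Real.pi) ^ 2 + τ ^ 2) - τ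

theorem bump_aux_k_nonneg (τ : ℝ) (x p : Fin 3 → ℝ) : 0 ≤ bump_aux_k τ x p := by
  unfold bump_aux_k
  have : τ ≤ Real.sqrt ((Real.sin (Real.pi * (p 2 - x 2)) / Real.pi) ^ 2 + τ ^ 2) := by
    apply Real.le_sqrt_of_sq_le
    nlinarith [sq_nonneg (Real.sin (Real.pi * (p 2 - x 2)) / Real.pi)]
  linarith

theorem bump_aux_k_le (τ : ℝ) (hτ : 0 < τ) (x p : Fin 3 → ℝ) :
    bump_aux_k τ x p ≤ |Real.sin (Real.pi * (p 2 - x 2))| / Real.pi := by
  unfold bump_aux_k
  set s := Real.sin (Real.pi * (p 2 - x 2)) / Real.pi with hs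
  have h1 : |Real.sin (Real.pi * (p 2 - x 2))| / Real.pi = |s| := by
    rw [hs, abs_div, abs_of_pos Real.pi_pos]
  rw [h1]
  have h2 : Real.sqrt (s ^ 2 + τ ^ 2) ≤ |s| + τ := by
    rw [Real.sqrt_le_left (by positivity)]
    have : |s| ^ 2 = s ^ 2 := sq_abs _
    nlinarith [mul_nonneg (abs_nonneg s) hτ.le]
  linarith

theorem bump_aux_k_ge (τ : ℝ) (x p : Fin 3 → ℝ) :
    |Real.sin (Real.pi * (p 2 - x 2))| / Real.pi - τ ≤ bump_aux_k τ x p := by
  unfold bump_aux_k
  set s := Real.sin (Real.pi * (p 2 - x 2)) / Real.pi with hs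
  have h1 : |Real.sin (Real.pi * (p 2 - x 2))| / Real.pi = |s| := by
    rw [hs, abs_div, abs_of_pos Real.pi_pos]
  rw [h1]
  have h2 : |s| ≤ Real.sqrt (s ^ 2 + τ ^ 2) := by
    apply Real.le_sqrt_of_sq_le
    rw [sq_abs]; nlinarith [sq_nonneg τ]
  linarith

theorem bump_aux_k_lip (τ : ℝ) (x p q : Fin 3 → ℝ) :
    |bump_aux_k τ x p - bump_aux_k τ x q| ≤ ‖p - q‖ := by
  unfold bump_aux_k
  have h := bump_aux_sqrt_lip (Real.sin (Real.pi * (p 2 - x 2)) / Real.pi)
    (Real.sin (Real.pi * (q 2 - x 2)) / Real.pi) τ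
  have h2 := bump_aux_sin_lip (p 2 - x 2) (q 2 - x 2)
  have h3 : |p 2 - x 2 - (q 2 - x 2)| ≤ ‖p - q‖ := by
    have : p 2 - x 2 - (q 2 - x 2) = (p - q) 2 := by simp
    rw [this, ← Real.norm_eq_abs]
    exact norm_le_pi_norm (p - q) 2
  have h4 : |Real.sin (Real.pi * (p 2 - x 2)) / Real.pi -
      Real.sin (Real.pi * (q 2 - x 2)) / Real.pi| ≤ ‖p - q‖ := by
    rw [← sub_div, abs_div, abs_of_pos Real.pi_pos, div_le_iff₀ Real.pi_pos]
    calc _ ≤ _ := h2
      _ ≤ Real.pi * ‖p - q‖ := mul_le_mul_of_nonneg_left h3 Real.pi_pos.le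
      _ = _ := by ring
  have h5 : ∀ a b c : ℝ, a - c - (b - c) = a - b := fun a b c => by ring
  rw [h5]
  exact h.trans h4

theorem bump_aux_q_nonneg (x p : Fin 3 → ℝ) : 0 ≤ bump_aux_q x p :=
  Finset.sum_nonneg fun _ _ => sq_nonneg _

theorem bump_aux_q_single (x p : Fin 3 → ℝ) (i : Fin 3) :
    Real.sin (Real.pi * (p i - x i)) ^ 2 ≤ bump_aux_q x p :=
  Finset.single_le_sum (f := fun i => Real.sin (Real.pi * (p i - x i)) ^ 2)
    (fun _ _ => sq_nonneg _) (Finset.mem_univ i)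

theorem bump_aux_q_sin (x p : Fin 3 → ℝ) (ϱ : ℝ) (hϱ : 0 < ϱ) (h : bump_aux_q x p < ϱ ^ 2)
    (i : Fin 3) : |Real.sin (Real.pi * (p i - x i))| ≤ ϱ := by
  have h1 := bump_aux_q_single x p i
  exact abs_le_of_sq_le_sq (by linarith) hϱ.le

theorem bump_aux_q_lip (x p q : Fin 3 → ℝ) (ϱ : ℝ) (hϱ : 0 < ϱ) (h : bump_aux_q x q < ϱ ^ 2)
    (hpq : ‖p - q‖ ≤ ϱ) :
    |bump_aux_q x p - bump_aux_q x q| ≤ 3 * (Real.pi * (2 + Real.pi)) * ϱ * ‖p - q‖ := by
  have hpi := Real.pi_pos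
  unfold bump_aux_q
  rw [← Finset.sum_sub_distrib]
  have hterm : ∀ i : Fin 3, |Real.sin (Real.pi * (p i - x i)) ^ 2 -
      Real.sin (Real.pi * (q i - x i)) ^ 2| ≤ (Real.pi * (2 + Real.pi)) * ϱ * ‖p - q‖ := by
    intro i
    have hq := bump_aux_q_sin x q ϱ hϱ h i
    have h2 := bump_aux_sin_lip (p i - x i) (q i - x i)
    have h3 : |p i - x i - (q i - x i)| ≤ ‖p - q‖ := by
      have : p i - x i - (q i - x i) = (p - q) i := by simp
      rw [this, ← Real.norm_eq_abs]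
      exact norm_le_pi_norm (p - q) i
    set a := Real.sin (Real.pi * (p i - x i))
    set b := Real.sin (Real.pi * (q i - x i))
    have h4 : |a - b| ≤ Real.pi * ‖p - q‖ :=
      h2.trans (mul_le_mul_of_nonneg_left h3 hpi.le)
    have h5 : |a + b| ≤ (2 + Real.pi) * ϱ := by
      have : a + b = (a - b) + 2 * b := by ring
      rw [this]
      calc |(a - b) + 2 * b| ≤ |a - b| + |2 * b| := abs_add_le _ _
        _ = |a - b| + 2 * |b| := by rw [abs_mul]; norm_num
        _ ≤ Real.pi * ϱ + 2 * ϱ := by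
          have : Real.pi * ‖p - q‖ ≤ Real.pi * ϱ := mul_le_mul_of_nonneg_left hpq hpi.le
          linarith
        _ = _ := by ring
    have h6 : a ^ 2 - b ^ 2 = (a - b) * (a + b) := by ring
    rw [h6, abs_mul]
    calc |a - b| * |a + b| ≤ (Real.pi * ‖p - q‖) * ((2 + Real.pi) * ϱ) :=
          mul_le_mul h4 h5 (abs_nonneg _) (by positivity)
      _ = _ := by ring
  calc |∑ i, (Real.sin (Real.pi * (p i - x i)) ^ 2 - Real.sin (Real.pi * (q i - x i)) ^ 2)|
      ≤ ∑ i, |Real.sin (Real.pi * (p i - x i)) ^ 2 - Real.sin (Real.pi * (q i - x i)) ^ 2| :=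
        Finset.abs_sum_le_sum_abs _ _
    _ ≤ ∑ _i : Fin 3, (Real.pi * (2 + Real.pi)) * ϱ * ‖p - q‖ :=
        Finset.sum_le_sum fun i _ => hterm i
    _ = _ := by simp; ring

theorem bump_aux_lip (f : ContDiffBump (0 : ℝ)) (K : ℝ) (hK0 : 0 ≤ K)
    (hK : ∀ s t, |f s - f t| ≤ K * |s - t|) (hr : f.rOut = 1)
    (ϱ τ : ℝ) (hϱ : 0 < ϱ) (hτ : 0 < τ) (x p q : Fin 3 → ℝ) :
    |f (bump_aux_q x p / ϱ ^ 2) * bump_aux_k τ x p - f (bump_aux_q x q / ϱ ^ 2) * bump_aux_k τ x q|
      ≤ (2 + 3 * (2 + Real.pi) * K) * ‖p - q‖ := by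
  have hpi := Real.pi_pos
  have hzero : ∀ p, ϱ ^ 2 ≤ bump_aux_q x p → f (bump_aux_q x p / ϱ ^ 2) = 0 := by
    intro p hp
    apply f.zero_of_le_dist
    rw [hr, Real.dist_eq, sub_zero, abs_of_nonneg (div_nonneg (bump_aux_q_nonneg x p) (sq_nonneg _)),
      le_div_iff₀ (by positivity)]
    linarith
  -- main case
  have main : ∀ p q : Fin 3 → ℝ, bump_aux_q x q < ϱ ^ 2 →
      |f (bump_aux_q x p / ϱ ^ 2) * bump_aux_k τ x p -
        f (bump_aux_q x q / ϱ ^ 2) * bump_aux_k τ x q|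
      ≤ (2 + 3 * (2 + Real.pi) * K) * ‖p - q‖ := by
    intro p q hq
    have hkq : bump_aux_k τ x q ≤ ϱ / Real.pi := by
      refine (bump_aux_k_le τ hτ x q).trans ?_
      exact div_le_div_of_nonneg_right (bump_aux_q_sin x q ϱ hϱ hq 2) hpi.le
    have hkq0 := bump_aux_k_nonneg τ x q
    have hlip := bump_aux_k_lip τ x p q
    have hfp0 : 0 ≤ f (bump_aux_q x p / ϱ ^ 2) := f.nonneg
    have hfp1 : f (bump_aux_q x p / ϱ ^ 2) ≤ 1 := f.le_one
    have hfq0 : 0 ≤ f (bump_aux_q x q / ϱ ^ 2) := f.nonneg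
    have hfq1 : f (bump_aux_q x q / ϱ ^ 2) ≤ 1 := f.le_one
    set A := f (bump_aux_q x p / ϱ ^ 2) with hA
    set B := f (bump_aux_q x q / ϱ ^ 2) with hB
    have hn : 0 ≤ ‖p - q‖ := norm_nonneg _
    have hAB : |A - B| * bump_aux_k τ x q ≤ (1 + 3 * (2 + Real.pi) * K) * ‖p - q‖ := by
      by_cases hpq : ‖p - q‖ ≤ ϱ
      · have h1 := bump_aux_q_lip x p q ϱ hϱ hq hpq
        have h2 : |A - B| ≤ K * (3 * (Real.pi * (2 + Real.pi)) * ϱ * ‖p - q‖ / ϱ ^ 2) := by
          refine (hK _ _).trans ?_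
          apply mul_le_mul_of_nonneg_left _ hK0
          rw [← sub_div, abs_div, abs_of_pos (show (0 : ℝ) < ϱ ^ 2 by positivity)]
          exact div_le_div_of_nonneg_right h1 (by positivity)
        calc |A - B| * bump_aux_k τ x q
            ≤ (K * (3 * (Real.pi * (2 + Real.pi)) * ϱ * ‖p - q‖ / ϱ ^ 2)) * (ϱ / Real.pi) :=
              mul_le_mul h2 hkq hkq0 (by positivity)
          _ = (3 * (2 + Real.pi) * K) * ‖p - q‖ := by
              field_simp
          _ ≤ _ := by nlinarith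
      · have h1 : |A - B| ≤ 1 := by rw [abs_le]; constructor <;> linarith
        have h2 : ϱ / Real.pi ≤ ϱ := by
          rw [div_le_iff₀ hpi]; nlinarith [Real.pi_gt_three]
        calc |A - B| * bump_aux_k τ x q ≤ 1 * ϱ :=
              mul_le_mul h1 (hkq.trans h2) hkq0 zero_le_one
          _ ≤ 1 * ‖p - q‖ := by linarith
          _ ≤ _ := by
            apply mul_le_mul_of_nonneg_right _ hn
            have : 0 ≤ 3 * (2 + Real.pi) * K := by positivity
            linarith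
    have h3 : A * bump_aux_k τ x p - B * bump_aux_k τ x q =
        A * (bump_aux_k τ x p - bump_aux_k τ x q) + (A - B) * bump_aux_k τ x q := by ring
    rw [h3]
    calc |A * (bump_aux_k τ x p - bump_aux_k τ x q) + (A - B) * bump_aux_k τ x q|
        ≤ |A * (bump_aux_k τ x p - bump_aux_k τ x q)| + |(A - B) * bump_aux_k τ x q| :=
          abs_add_le _ _
      _ = A * |bump_aux_k τ x p - bump_aux_k τ x q| + |A - B| * bump_aux_k τ x q := by
          rw [abs_mul, abs_mul, abs_of_nonneg hfp0, abs_of_nonneg hkq0]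
      _ ≤ 1 * ‖p - q‖ + (1 + 3 * (2 + Real.pi) * K) * ‖p - q‖ := by
          have : A * |bump_aux_k τ x p - bump_aux_k τ x q| ≤ 1 * ‖p - q‖ :=
            mul_le_mul hfp1 hlip (abs_nonneg _) zero_le_one
          linarith
      _ = _ := by ring
  by_cases hq : bump_aux_q x q < ϱ ^ 2
  · exact main p q hq
  · by_cases hp : bump_aux_q x p < ϱ ^ 2
    · have := main q p hp
      rw [abs_sub_comm, norm_sub_rev] at this
      exact this
    · rw [hzero p (not_lt.mp hp), hzero q (not_lt.mp hq)]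
      simp only [zero_mul, sub_zero, abs_zero]
      positivity

theorem bump : ∃ C : ℝ, 0 < C ∧ ∀ ϱ τ : ℝ, 0 < ϱ → ϱ ≤ 1 / 4 → 0 < τ → ∀ x : Fin 3 → ℝ,
    ∃ φ : (Fin 3 → ℝ) → ℝ, ContDiff ℝ 2 φ ∧
      (∀ (p : Fin 3 → ℝ) (m : Fin 3 → ℤ), φ (p + fun i => (m i : ℝ)) = φ p) ∧
      (∀ p, 0 ≤ φ p ∧ φ p ≤ C) ∧ (∀ p q, |φ p - φ q| ≤ C * ‖p - q‖) ∧
      (∀ p, φ p ≠ 0 → ∀ i, ‖((p i - x i : ℝ) : UnitAddCircle)‖ ≤ ϱ) ∧
      (∀ p, (∀ i, |p i - x i| ≤ ϱ / 10) →
        9 / 10 * |p 2 - x 2| - τ ≤ φ p ∧ φ p ≤ |p 2 - x 2|) := by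
  have hpi := Real.pi_pos
  let f : ContDiffBump (0 : ℝ) := ⟨1 / 3, 1, by norm_num, by norm_num⟩
  obtain ⟨K, hK⟩ : ∃ K : NNReal, LipschitzWith K f :=
    ContDiff.lipschitzWith_of_hasCompactSupport f.hasCompactSupport
      (f.contDiff (n := 1)) (by norm_num)
  have hK' : ∀ s t, |f s - f t| ≤ (K : ℝ) * |s - t| := by
    intro s t
    have := hK.dist_le_mul s t
    rwa [Real.dist_eq, Real.dist_eq] at this
  refine ⟨2 + 3 * (2 + Real.pi) * K, by positivity, ?_⟩
  intro ϱ τ hϱ hϱ4 hτ x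
  refine ⟨fun p => f (bump_aux_q x p / ϱ ^ 2) * bump_aux_k τ x p, ?_, ?_, ?_, ?_, ?_, ?_⟩
  · -- smoothness
    have hs : ∀ i : Fin 3, ContDiff ℝ 2 fun p : Fin 3 → ℝ => Real.sin (Real.pi * (p i - x i)) := by
      intro i
      apply Real.contDiff_sin.comp
      exact contDiff_const.mul ((contDiff_apply ℝ ℝ i).sub contDiff_const)
    have hq : ContDiff ℝ 2 fun p : Fin 3 → ℝ => bump_aux_q x p := by
      unfold bump_aux_q
      exact ContDiff.sum fun i _ => (hs i).pow 2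
    have hk : ContDiff ℝ 2 fun p : Fin 3 → ℝ => bump_aux_k τ x p := by
      unfold bump_aux_k
      apply ContDiff.sub _ contDiff_const
      apply ContDiff.sqrt
      · exact (((hs 2).div_const _).pow 2).add contDiff_const
      · intro p; positivity
    exact ((f.contDiff (n := 2)).comp (hq.div_const _)).mul hk
  · -- periodicity
    intro p m
    have h1 : ∀ i, Real.sin (Real.pi * ((p + fun i => (m i : ℝ)) i - x i)) ^ 2 =
        Real.sin (Real.pi * (p i - x i)) ^ 2 := by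
      intro i
      have : (p + fun i => (m i : ℝ)) i - x i = (p i - x i) + (m i : ℝ) := by
        simp only [Pi.add_apply]; ring
      rw [this, bump_aux_sin_int]
    have h2 : bump_aux_q x (p + fun i => (m i : ℝ)) = bump_aux_q x p := by
      unfold bump_aux_q
      exact Finset.sum_congr rfl fun i _ => h1 i
    have h3 : bump_aux_k τ x (p + fun i => (m i : ℝ)) = bump_aux_k τ x p := by
      unfold bump_aux_k
      rw [div_pow, div_pow, h1 2]
    simp only [h2, h3]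
  · -- bounds
    intro p
    have h0 := bump_aux_k_nonneg τ x p
    have h1 : bump_aux_k τ x p ≤ 1 := by
      refine (bump_aux_k_le τ hτ x p).trans ?_
      rw [div_le_iff₀ hpi]
      linarith [Real.abs_sin_le_one (Real.pi * (p 2 - x 2)), Real.pi_gt_three]
    have hf0 : 0 ≤ f (bump_aux_q x p / ϱ ^ 2) := f.nonneg
    have hf1 : f (bump_aux_q x p / ϱ ^ 2) ≤ 1 := f.le_one
    refine ⟨mul_nonneg hf0 h0, ?_⟩
    have : f (bump_aux_q x p / ϱ ^ 2) * bump_aux_k τ x p ≤ 1 * 1 :=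
      mul_le_mul hf1 h1 h0 zero_le_one
    have h3 : 0 ≤ 3 * (2 + Real.pi) * (K : ℝ) := by positivity
    linarith
  · intro p q
    exact bump_aux_lip f K K.2 hK' rfl ϱ τ hϱ hτ x p q
  · -- support
    intro p hp i
    have hq : bump_aux_q x p < ϱ ^ 2 := by
      by_contra hcon
      apply hp
      have : f (bump_aux_q x p / ϱ ^ 2) = 0 := by
        apply f.zero_of_le_dist
        change 1 ≤ _
        rw [Real.dist_eq, sub_zero,
          abs_of_nonneg (div_nonneg (bump_aux_q_nonneg x p) (sq_nonneg _)),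
          le_div_iff₀ (by positivity)]
        linarith
      show f (bump_aux_q x p / ϱ ^ 2) * bump_aux_k τ x p = 0
      rw [this, zero_mul]
    have hsin := bump_aux_q_sin x p ϱ hϱ hq i
    rw [UnitAddCircle.norm_eq]
    set v := p i - x i
    have hw : |v - round v| ≤ 1 / 2 := abs_sub_round v
    have h1 : Real.sin (Real.pi * v) ^ 2 = Real.sin (Real.pi * (v - round v)) ^ 2 := by
      have h := bump_aux_sin_int (v - round v) (round v)
      rw [← h]; congr 2; ring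
    have h2 : |Real.sin (Real.pi * v)| = |Real.sin (Real.pi * (v - round v))| :=
      (sq_eq_sq₀ (abs_nonneg _) (abs_nonneg _)).mp (by rw [sq_abs, sq_abs, h1])
    have h3 : |Real.pi * (v - round v)| = Real.pi * |v - round v| := by
      rw [abs_mul, abs_of_pos hpi]
    have h4 := Real.mul_abs_le_abs_sin (x := Real.pi * (v - round v))
      (by rw [h3]; nlinarith)
    rw [h3, ← h2] at h4
    have h5 : 2 / Real.pi * (Real.pi * |v - round v|) = 2 * |v - round v| := by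
      field_simp
    rw [h5] at h4
    linarith [abs_nonneg (v - round v)]
  · -- inner estimate
    intro p hp
    have hpi2 : Real.pi ^ 2 ≤ 10 := by nlinarith [Real.pi_lt_d2, Real.pi_gt_three]
    have hq : bump_aux_q x p ≤ ϱ ^ 2 / 3 := by
      unfold bump_aux_q
      have hterm : ∀ i : Fin 3, Real.sin (Real.pi * (p i - x i)) ^ 2 ≤ ϱ ^ 2 / 10 := by
        intro i
        have h1 : |Real.sin (Real.pi * (p i - x i))| ≤ |Real.pi * (p i - x i)| :=
          Real.abs_sin_le_abs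
        have h2 : |Real.pi * (p i - x i)| ≤ Real.pi * (ϱ / 10) := by
          rw [abs_mul, abs_of_pos hpi]
          exact mul_le_mul_of_nonneg_left (hp i) hpi.le
        have h3 : Real.sin (Real.pi * (p i - x i)) ^ 2 ≤ (Real.pi * (ϱ / 10)) ^ 2 := by
          rw [← sq_abs]
          exact pow_le_pow_left₀ (abs_nonneg _) (h1.trans h2) 2
        have h4 : (Real.pi * (ϱ / 10)) ^ 2 = Real.pi ^ 2 * ϱ ^ 2 / 100 := by ring
        rw [h4] at h3
        nlinarith [sq_nonneg ϱ]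
      calc ∑ i, Real.sin (Real.pi * (p i - x i)) ^ 2 ≤ ∑ _i : Fin 3, ϱ ^ 2 / 10 :=
            Finset.sum_le_sum fun i _ => hterm i
        _ = 3 * (ϱ ^ 2 / 10) := by simp
        _ ≤ _ := by nlinarith [sq_nonneg ϱ]
    have hf : f (bump_aux_q x p / ϱ ^ 2) = 1 := by
      apply f.one_of_mem_closedBall
      rw [Metric.mem_closedBall, Real.dist_eq, sub_zero,
        abs_of_nonneg (div_nonneg (bump_aux_q_nonneg x p) (sq_nonneg _))]
      change _ ≤ (1 / 3 : ℝ)
      rw [div_le_iff₀ (by positivity)]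
      linarith
    simp only [hf, one_mul]
    have hu : |p 2 - x 2| ≤ 1 / 40 := by
      have := hp 2; linarith
    have hs1 : |Real.sin (Real.pi * (p 2 - x 2))| ≤ Real.pi * |p 2 - x 2| := by
      have := @Real.abs_sin_le_abs (Real.pi * (p 2 - x 2))
      rwa [abs_mul Real.pi, abs_of_pos hpi] at this
    constructor
    · have hge := bump_aux_k_ge τ x p
      have h1 : 9 / 10 * |p 2 - x 2| ≤ |Real.sin (Real.pi * (p 2 - x 2))| / Real.pi := by
        rw [le_div_iff₀ hpi]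
        have habs : |Real.sin (Real.pi * (p 2 - x 2))| = |Real.sin (Real.pi * |p 2 - x 2|)| := by
          rcases abs_cases (p 2 - x 2) with ⟨h, _⟩ | ⟨h, _⟩
          · rw [h]
          · rw [h, mul_neg, Real.sin_neg, abs_neg]
        rw [habs]
        set u := |p 2 - x 2| with hudef
        have hu0 : 0 ≤ u := abs_nonneg _
        rcases hu0.eq_or_lt with h0 | hpos
        · rw [← h0]; simp
        · have hy : 0 < Real.pi * u := by positivity
          have hy1 : Real.pi * u ≤ 1 / 10 := by nlinarith [Real.pi_lt_four]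
          have h2 := Real.sin_gt_sub_cube hy
          have h3 : Real.sin (Real.pi * u) ≤ |Real.sin (Real.pi * u)| := le_abs_self _
          have h4 : (Real.pi * u) ^ 3 ≤ (Real.pi * u) * (1 / 100) := by
            have : (Real.pi * u) ^ 2 ≤ 1 / 100 := by nlinarith
            nlinarith
          nlinarith
      linarith
    · refine (bump_aux_k_le τ hτ x p).trans ?_
      rw [div_le_iff₀ hpi]
      linarith

end Pool.Agent.Helper867.Smale
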