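import Pool.Agent.Helper867.Smale.TripDef
import Pool.Agent.Helper867.Smale.L_bump

set_option autoImplicit false

open Set Filter Topology

namespace Pool.Agent.Helper867.Smale

theorem kink_aux_norm_le (t : ℝ) : ‖((t : ℝ) : UnitAddCircle)‖ ≤ |t| := by
  rw [UnitAddCircle.norm_eq]
  have := round_le t 0
  simpa using this

theorem kink : ∃ C : ℝ, 0 < C ∧ ∀ ϱ τ : ℝ, 0 < ϱ → ϱ ≤ 1 / 4 → 0 < τ →
    ∀ (W : Finset ℕ) (x : ℕ → Fin 3 → ℝ),
    (∀ n ∈ W, ∀ m ∈ W, n ≠ m → ∃ i, 2 * ϱ < ‖((x n i - x m i : ℝ) : UnitAddCircle)‖) →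
    ∃ ψ : (Fin 3 → ℝ) → ℝ, ContDiff ℝ 2 ψ ∧
      (∀ (p : Fin 3 → ℝ) (m : Fin 3 → ℤ), ψ (p + fun i => (m i : ℝ)) = ψ p) ∧
      (∀ p, 0 ≤ ψ p ∧ ψ p ≤ C) ∧ (∀ p q, |ψ p - ψ q| ≤ C * ‖p - q‖) ∧
      (∀ p, (∀ n ∈ W, ∃ i, ϱ < ‖((p i - x n i : ℝ) : UnitAddCircle)‖) → ψ p = 0) ∧
      (∀ n ∈ W, ∀ p, (∀ i, |p i - x n i| ≤ ϱ / 10) →
        9 / 10 * |p 2 - x n 2| - τ ≤ ψ p ∧ ψ p ≤ |p 2 - x n 2|) := by
  obtain ⟨C, hC, hb⟩ := bump
  refine ⟨C, hC, ?_⟩
  intro ϱ τ hϱ hϱ4 hτ W x hW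
  choose φ h1 h2 h3 h4 h5 h6 using fun n : ℕ => hb ϱ τ hϱ hϱ4 hτ (x n)
  set ψ : (Fin 3 → ℝ) → ℝ := fun p => ∑ n ∈ W, φ n p with hψ
  have hcirc : ∀ (p : Fin 3 → ℝ) (n m : ℕ) (i : Fin 3),
      ‖((x n i - x m i : ℝ) : UnitAddCircle)‖ ≤
        ‖((p i - x m i : ℝ) : UnitAddCircle)‖ + ‖((p i - x n i : ℝ) : UnitAddCircle)‖ := by
    intro p n m i
    have e1 : ((x n i - x m i : ℝ) : UnitAddCircle) =
        ((p i - x m i : ℝ) : UnitAddCircle) - ((p i - x n i : ℝ) : UnitAddCircle) := by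
      rw [← AddCircle.coe_sub]
      congr 1
      ring
    rw [e1]
    exact norm_sub_le _ _
  have huniq : ∀ n ∈ W, ∀ m ∈ W, n ≠ m → ∀ p, φ n p ≠ 0 → φ m p = 0 := by
    intro n hn m hm hnm p hp
    by_contra hp'
    obtain ⟨i, hi⟩ := hW n hn m hm hnm
    have e1 := h5 n p hp i
    have e2 := h5 m p hp' i
    have e3 := hcirc p n m i
    linarith
  have hsingle : ∀ n ∈ W, ∀ p, (∀ m ∈ W, m ≠ n → φ m p = 0) → ψ p = φ n p := by
    intro n hn p hp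
    exact Finset.sum_eq_single_of_mem n hn (fun m hm hmn => hp m hm hmn)
  have hcases : ∀ p, (ψ p = 0) ∨ ∃ n ∈ W, ψ p = φ n p := by
    intro p
    by_cases h : ∃ n ∈ W, φ n p ≠ 0
    · obtain ⟨n, hn, hnp⟩ := h
      right
      exact ⟨n, hn, hsingle n hn p (fun m hm hmn => huniq n hn m hm (Ne.symm hmn) p hnp)⟩
    · left
      push Not at h
      exact Finset.sum_eq_zero h
  have hnn : ∀ p, 0 ≤ ψ p := fun p => Finset.sum_nonneg (fun n _ => (h3 n p).1)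
  have hLip : ∀ p q, ψ p - ψ q ≤ C * ‖p - q‖ := by
    intro p q
    rcases hcases p with h | ⟨n, hn, h⟩
    · have e1 := hnn q
      have e2 : 0 ≤ C * ‖p - q‖ := by positivity
      linarith
    · have e1 : φ n q ≤ ψ q :=
        Finset.single_le_sum (f := fun n => φ n q) (fun m _ => (h3 m q).1) hn
      have e2 := h4 n p q
      have e3 := le_abs_self (φ n p - φ n q)
      linarith
  refine ⟨ψ, ?_, ?_, ?_, ?_, ?_, ?_⟩
  · exact ContDiff.sum (fun n _ => h1 n)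
  · intro p m
    exact Finset.sum_congr rfl (fun n _ => h2 n p m)
  · intro p
    refine ⟨hnn p, ?_⟩
    rcases hcases p with h | ⟨n, hn, h⟩
    · rw [h]; exact hC.le
    · rw [h]; exact (h3 n p).2
  · intro p q
    rw [abs_le]
    constructor
    · have := hLip q p
      rw [norm_sub_rev] at this
      linarith
    · exact hLip p q
  · intro p hp
    apply Finset.sum_eq_zero
    intro n hn
    by_contra hne
    obtain ⟨i, hi⟩ := hp n hn
    have := h5 n p hne i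
    linarith
  · intro n hn p hp
    have h7 : ψ p = φ n p := by
      apply hsingle n hn p
      intro m hm hmn
      by_contra hne
      obtain ⟨i, hi⟩ := hW n hn m hm (Ne.symm hmn)
      have e1 := h5 m p hne i
      have e2 := (kink_aux_norm_le (p i - x n i)).trans (hp i)
      have e3 := hcirc p n m i
      linarith
    rw [h7]
    exact h6 n p hp

end Pool.Agent.Helper867.Smale
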