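import Pool.Agent.Helper867.Smale.TripDef
import Pool.Agent.Helper867.Smale.L_F0_periodic
import Pool.Agent.Helper867.Smale.L_pr_eq_iff

set_option autoImplicit false

open Set Filter Topology

namespace Pool.Agent.Helper867.Smale

theorem kink_cl (H : (Fin 3 → ℝ) → (Fin 3 → ℝ)) (hH : ContDiff ℝ 2 H)
    (hper : ∀ (p : Fin 3 → ℝ) (m : Fin 3 → ℤ),
      H (p + fun i => (m i : ℝ)) - F0 (p + fun i => (m i : ℝ)) = H p - F0 p)
    (ψ : (Fin 3 → ℝ) → ℝ) (hψ : ContDiff ℝ 2 ψ)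
    (hψper : ∀ (p : Fin 3 → ℝ) (m : Fin 3 → ℤ), ψ (p + fun i => (m i : ℝ)) = ψ p)
    (C ε δ : ℝ) (hC : 0 < C) (hε : 0 < ε) (hεδ : ε * C ≤ δ)
    (h1 : ∀ p, 0 ≤ ψ p ∧ ψ p ≤ C) (h2 : ∀ p q, |ψ p - ψ q| ≤ C * ‖p - q‖)
    (G : (Fin 3 → ℝ) → (Fin 3 → ℝ)) (hG : ∀ p i, G p i = if i = 2 then H p 2 - ε * ψ p else H p i) :
    ContDiff ℝ 1 G ∧
      (∀ (p : Fin 3 → ℝ) (m : Fin 3 → ℤ), pr (G (p + fun i => (m i : ℝ))) = pr (G p)) ∧
      Cl G H δ := by
  have hδ0 : 0 ≤ δ := (mul_pos hε hC).le.trans hεδ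
  have hd : ∀ p i, (G p - H p) i = if i = 2 then -(ε * ψ p) else 0 := by
    intro p i
    rw [Pi.sub_apply, hG]
    by_cases hi : i = 2
    · rw [if_pos hi, if_pos hi, hi]; ring
    · rw [if_neg hi, if_neg hi]; ring
  refine ⟨?_, ?_, ?_, ?_⟩
  · rw [contDiff_pi]
    intro i
    have hH1 : ContDiff ℝ 1 (fun p => H p i) := by
      have : ContDiff ℝ 2 (fun p => H p i) := (contDiff_pi.mp hH) i
      exact this.of_le (by norm_num)
    by_cases hi : i = 2
    · have he : (fun p => G p i) = fun p => H p i - ε * ψ p := by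
        funext p; rw [hG, if_pos hi, hi]
      rw [he]
      exact hH1.sub (contDiff_const.mul (hψ.of_le (by norm_num)))
    · have he : (fun p => G p i) = fun p => H p i := by
        funext p; rw [hG, if_neg hi]
      rw [he]
      exact hH1
  · intro p m
    obtain ⟨n, hn⟩ := F0_periodic p m
    have hHm : ∀ i, H (p + fun i => (m i : ℝ)) i = H p i + n i := by
      intro i
      have h3 := congrFun (hper p m) i
      have h4 := congrFun hn i
      simp only [Pi.sub_apply] at h3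
      rw [Pi.add_apply] at h4
      linarith
    rw [pr_eq_iff]
    intro i
    refine ⟨-(n i), ?_⟩
    push_cast
    rw [hG, hG]
    by_cases hi : i = 2
    · rw [if_pos hi, if_pos hi, hHm, hψper, hi]; ring
    · rw [if_neg hi, if_neg hi, hHm]; ring
  · intro p
    rw [pi_norm_le_iff_of_nonneg hδ0]
    intro i
    rw [hd, Real.norm_eq_abs]
    by_cases hi : i = 2
    · rw [if_pos hi, abs_neg, abs_of_nonneg (mul_nonneg hε.le (h1 p).1)]
      exact (mul_le_mul_of_nonneg_left (h1 p).2 hε.le).trans hεδ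
    · rw [if_neg hi, abs_zero]; exact hδ0
  · intro p q
    rw [pi_norm_le_iff_of_nonneg (mul_nonneg hδ0 (norm_nonneg _))]
    intro i
    rw [Pi.sub_apply, hd, hd, Real.norm_eq_abs]
    by_cases hi : i = 2
    · rw [if_pos hi, if_pos hi]
      have h5 : -(ε * ψ p) - -(ε * ψ q) = -(ε * (ψ p - ψ q)) := by ring
      rw [h5, abs_neg, abs_mul, abs_of_pos hε]
      calc ε * |ψ p - ψ q| ≤ ε * (C * ‖p - q‖) := mul_le_mul_of_nonneg_left (h2 p q) hε.le
        _ = (ε * C) * ‖p - q‖ := by ring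
        _ ≤ δ * ‖p - q‖ := mul_le_mul_of_nonneg_right hεδ (norm_nonneg _)
    · rw [if_neg hi, if_neg hi, sub_zero, abs_zero]
      exact mul_nonneg hδ0 (norm_nonneg _)

end Pool.Agent.Helper867.Smale
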