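import Pool.Agent.Helper867.Smale.TripDef
import Pool.Agent.Helper867.Smale.L_pair_center
import Pool.Agent.Helper867.Smale.L_orb_pair1
import Pool.Agent.Helper867.Smale.L_near_spec

set_option autoImplicit false

open Set Filter Topology

namespace Pool.Agent.Helper867.Smale

theorem leaf_window_aux_lo (γ : ℕ → ℝ) (hlo : ∀ n, 9 / 10 * γ n ≤ γ (n + 1)) :
    ∀ n, (9 / 10) ^ n * γ 0 ≤ γ n := by
  intro n
  induction n with
  | zero => simp
  | succ n ih =>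
    have h := hlo n
    rw [pow_succ]
    nlinarith

theorem leaf_window_aux_up (γ : ℕ → ℝ) (hup : ∀ n, γ (n + 1) ≤ 11 / 10 * γ n) :
    ∀ n, γ n ≤ (11 / 10) ^ n * γ 0 := by
  intro n
  induction n with
  | zero => simp
  | succ n ih =>
    have h := hup n
    rw [pow_succ]
    nlinarith

theorem leaf_window_aux_nu : 0 < nu ∧ nu < 1 := by
  unfold nu; norm_num

theorem leaf_window_aux_dec (γ : ℕ → ℝ) (n0 n2 : ℕ) (h0 : γ n0 ≤ nu)
    (hstep : ∀ k, n0 ≤ k → k < n2 → γ k ≤ nu → γ (k + 1) ≤ (1 - nu) * γ k) :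
    ∀ j, n0 + j ≤ n2 → γ (n0 + j) ≤ nu * (1 - nu) ^ j := by
  obtain ⟨hn1, hn2⟩ := leaf_window_aux_nu
  intro j
  induction j with
  | zero => intro _; simpa using h0
  | succ j ih =>
    intro hj
    have h1 := ih (by omega)
    have h2 : γ (n0 + j) ≤ nu := by
      refine h1.trans ?_
      have : (1 - nu) ^ j ≤ 1 := pow_le_one₀ (by linarith) (by linarith)
      nlinarith
    have h3 := hstep (n0 + j) (by omega) (by omega) h2
    rw [← add_assoc, pow_succ]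
    calc γ (n0 + j + 1) ≤ (1 - nu) * γ (n0 + j) := h3
      _ ≤ (1 - nu) * (nu * (1 - nu) ^ j) := mul_le_mul_of_nonneg_left h1 (by linarith)
      _ = nu * ((1 - nu) ^ j * (1 - nu)) := by ring

theorem leaf_window_aux_arc (ω : ℕ → Fin 4) (n : ℕ) : ∃ m : ℤ, arc ω n = aT (ω n) + m := by
  cases n with
  | zero => exact ⟨0, by simp [arc, arcP]⟩
  | succ n =>
    obtain ⟨_, m, hm⟩ := near_spec (ω (n + 1)) (NN * (arcP ω n).2 - (arcP ω n).1)
    exact ⟨m, hm⟩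

theorem leaf_window_aux_orb (S : Sys1) (p : ℝ × ℝ × ℝ) (n : ℕ) :
    (S.orb p (n + 1)).2.2 = (S.orb p n).2.2 + S.r (S.orb p n).2.2 +
      S.g (S.orb p n).1 (S.orb p n).2.1 (S.orb p n).2.2 := by
  have h : S.orb p (n + 1) = S.step (S.orb p n) := Function.iterate_succ_apply' _ _ _
  rw [h]
  rfl

theorem leaf_window_aux_near (S : Sys1) (ω : ℕ → Fin 4) (b c b' c' : ℝ) (x y : ℝ × ℝ × ℝ)
    (hx : Leaf S ω b c x) (hy : Leaf S ω b' c' y) (n : ℕ) :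
    |(S.orb y n).1 - (S.orb x n).1| ≤ 1 := by
  have h1 := hx.2.2 n
  have h2 := hy.2.2 n
  have h3 : (S.orb y n).1 - (S.orb x n).1 =
      ((S.orb y n).1 - arc ω n) - ((S.orb x n).1 - arc ω n) := by ring
  rw [h3]
  refine (abs_sub _ _).trans ?_
  have : dd ≤ 1 / 2 := by unfold dd; norm_num
  linarith


theorem leaf_window (S : Sys1) (ω0 ω : ℕ → Fin 4) (n0 n1 n2 : ℕ) (η0 κ ϱ τ t : ℝ)
    (h01 : n0 ≤ n1) (h12 : n1 ≤ n2) (hκ : 0 < κ) (hη0 : η0 ≤ nu / 2) (hpre : Pre S ω0 n0 η0 κ)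
    (hag : Agree n0 ω0 ω)
    (hC : ∀ k, n0 ≤ k → k < n2 → (ω k = 2 ∨ ω k = 3)) (x y z : ℝ × ℝ × ℝ) (hx : Leaf S ω 0 0 x)
    (hy : Leaf S ω 0 r0 y) (hz : Leaf S ω 0 (-t) z) (ht : 0 < t) (ht2 : (11 / 10) ^ n0 * t ≤ nu)
    (hxc : ∀ n, n0 < n → |(S.orb x n).2.2| ≤ 18 / 10 * nu)
    (hϱ : nu * (1 - nu) ^ (n1 - n0) ≤ ϱ / 10) (hτ : 20 * τ ≤ (9 / 10) ^ n2 * min t r0)
    (n : ℕ) (hn1 : n1 ≤ n) (hn2 : n < n2) :
    (∀ i, |ee (S.orb y n) i - ee (S.orb x n) i| ≤ ϱ / 10) ∧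
    (∀ i, |ee (S.orb z n) i - ee (S.orb x n) i| ≤ ϱ / 10) ∧
    20 * τ ≤ (S.orb y n).2.2 - (S.orb x n).2.2 ∧ 20 * τ ≤ (S.orb x n).2.2 - (S.orb z n).2.2 := by
  obtain ⟨hnu0, hnu1⟩ := leaf_window_aux_nu
  have hr0 : 0 < r0 := by unfold r0; norm_num
  have hNN : 3 / NN ≤ 1 := by unfold NN; norm_num
  -- the pair x, y
  have hR := pair_center _ _ _ (orb_pair1 S x y) (fun n => leaf_window_aux_near S ω _ _ _ _ x y hx hy n)
    (by
      show |y.2.1 - x.2.1| ≤ y.2.2 - x.2.2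
      rw [hx.1, hy.1, hx.2.1, hy.2.1]; simp; exact hr0.le)
    (by
      show 0 < y.2.2 - x.2.2
      rw [hx.2.1, hy.2.1]; simpa using hr0)
  have hL := pair_center _ _ _ (orb_pair1 S z x) (fun n => leaf_window_aux_near S ω _ _ _ _ z x hz hx n)
    (by
      show |x.2.1 - z.2.1| ≤ x.2.2 - z.2.2
      rw [hx.1, hz.1, hx.2.1, hz.2.1]; simp; exact ht.le)
    (by
      show 0 < x.2.2 - z.2.2
      rw [hx.2.1, hz.2.1]; simpa using ht)
  obtain ⟨hp1, hp2⟩ := hpre ω hag x y hx hy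
  have hxc' : ∀ n, |(S.orb x n).2.2| ≤ 2 * nu := by
    intro n
    rcases Nat.lt_or_ge n0 n with h | h
    · have := hxc n h; linarith
    · have := hp1 n h; linarith
  have hstepR : ∀ k, n0 ≤ k → k < n2 → (S.orb y k).2.2 - (S.orb x k).2.2 ≤ nu →
      (S.orb y (k + 1)).2.2 - (S.orb x (k + 1)).2.2 ≤
        (1 - nu) * ((S.orb y k).2.2 - (S.orb x k).2.2) := by
    intro k hk1 hk2 hk3
    obtain ⟨m, hm⟩ := leaf_window_aux_arc ω k
    obtain ⟨q1, q2, q3, _, _⟩ := hR k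
    have h1 := (S.rateC (ω k) m (S.orb x k).1 (S.orb x k).2.1 (S.orb x k).2.2
      ((S.orb y k).1 - (S.orb x k).1) ((S.orb y k).2.1 - (S.orb x k).2.1)
      ((S.orb y k).2.2 - (S.orb x k).2.2) (hC k hk1 hk2) (by rw [← hm]; exact hx.2.2 k)
      (hxc' k) q1 hk3 q3 q2).2
    rw [add_sub_cancel, add_sub_cancel, add_sub_cancel] at h1
    rw [leaf_window_aux_orb, leaf_window_aux_orb]
    linarith
  have hstepL : ∀ k, n0 ≤ k → k < n2 → (S.orb x k).2.2 - (S.orb z k).2.2 ≤ nu →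
      (S.orb x (k + 1)).2.2 - (S.orb z (k + 1)).2.2 ≤
        (1 - nu) * ((S.orb x k).2.2 - (S.orb z k).2.2) := by
    intro k hk1 hk2 hk3
    obtain ⟨m, hm⟩ := leaf_window_aux_arc ω k
    obtain ⟨q1, q2, q3, _, _⟩ := hL k
    have h1 := (S.rateCL (ω k) m (S.orb x k).1 (S.orb x k).2.1 (S.orb x k).2.2
      ((S.orb x k).1 - (S.orb z k).1) ((S.orb x k).2.1 - (S.orb z k).2.1)
      ((S.orb x k).2.2 - (S.orb z k).2.2) (hC k hk1 hk2) (by rw [← hm]; exact hx.2.2 k)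
      (hxc' k) q1 hk3 q3 q2).2
    rw [sub_sub_cancel, sub_sub_cancel, sub_sub_cancel] at h1
    rw [leaf_window_aux_orb, leaf_window_aux_orb]
    linarith
  have hR0 : (S.orb y n0).2.2 - (S.orb x n0).2.2 ≤ nu := by linarith
  have hL0 : (S.orb x n0).2.2 - (S.orb z n0).2.2 ≤ nu := by
    have h1 := leaf_window_aux_up (fun n => (S.orb x n).2.2 - (S.orb z n).2.2)
      (fun n => (hL n).2.2.2.2) n0
    have h2 : (S.orb x 0).2.2 - (S.orb z 0).2.2 = t := by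
      show x.2.2 - z.2.2 = t
      rw [hx.2.1, hz.2.1]; ring
    rw [h2] at h1
    linarith
  have hdR := leaf_window_aux_dec (fun n => (S.orb y n).2.2 - (S.orb x n).2.2) n0 n2 hR0 hstepR
    (n - n0) (by omega)
  have hdL := leaf_window_aux_dec (fun n => (S.orb x n).2.2 - (S.orb z n).2.2) n0 n2 hL0 hstepL
    (n - n0) (by omega)
  rw [Nat.add_sub_cancel' (h01.trans hn1)] at hdR hdL
  have hpow : nu * (1 - nu) ^ (n - n0) ≤ nu * (1 - nu) ^ (n1 - n0) :=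
    mul_le_mul_of_nonneg_left (pow_le_pow_of_le_one (by linarith) (by linarith) (by omega)) hnu0.le
  obtain ⟨a1, a2, a3, _, _⟩ := hR n
  obtain ⟨b1, b2, b3, _, _⟩ := hL n
  have a4 : |(S.orb y n).1 - (S.orb x n).1| ≤ (S.orb y n).2.2 - (S.orb x n).2.2 := by
    refine a3.trans ?_
    nlinarith
  have b4 : |(S.orb x n).1 - (S.orb z n).1| ≤ (S.orb x n).2.2 - (S.orb z n).2.2 := by
    refine b3.trans ?_
    nlinarith
  have hRϱ : (S.orb y n).2.2 - (S.orb x n).2.2 ≤ ϱ / 10 := hdR.trans (hpow.trans hϱ)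
  have hLϱ : (S.orb x n).2.2 - (S.orb z n).2.2 ≤ ϱ / 10 := hdL.trans (hpow.trans hϱ)
  have hmin : 0 < min t r0 := lt_min ht hr0
  have hp9 : ((9 : ℝ) / 10) ^ n2 ≤ (9 / 10) ^ n :=
    pow_le_pow_of_le_one (by norm_num) (by norm_num) hn2.le
  have hp9' : (0 : ℝ) < (9 / 10) ^ n := by positivity
  refine ⟨?_, ?_, ?_, ?_⟩
  · intro i
    fin_cases i
    · show |(S.orb y n).1 - (S.orb x n).1| ≤ ϱ / 10
      linarith
    · show |(S.orb y n).2.1 - (S.orb x n).2.1| ≤ ϱ / 10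
      linarith
    · show |(S.orb y n).2.2 - (S.orb x n).2.2| ≤ ϱ / 10
      rw [abs_of_pos a1]; exact hRϱ
  · intro i
    fin_cases i
    · show |(S.orb z n).1 - (S.orb x n).1| ≤ ϱ / 10
      rw [abs_sub_comm]; linarith
    · show |(S.orb z n).2.1 - (S.orb x n).2.1| ≤ ϱ / 10
      rw [abs_sub_comm]; linarith
    · show |(S.orb z n).2.2 - (S.orb x n).2.2| ≤ ϱ / 10
      rw [abs_sub_comm, abs_of_pos b1]; exact hLϱ
  · have h1 := leaf_window_aux_lo (fun n => (S.orb y n).2.2 - (S.orb x n).2.2)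
      (fun n => (hR n).2.2.2.1) n
    have h2 : (S.orb y 0).2.2 - (S.orb x 0).2.2 = r0 := by
      show y.2.2 - x.2.2 = r0
      rw [hx.2.1, hy.2.1]; ring
    rw [h2] at h1
    have h3 : (9 / 10) ^ n2 * min t r0 ≤ (9 / 10) ^ n * r0 :=
      mul_le_mul hp9 (min_le_right _ _) hmin.le hp9'.le
    linarith
  · have h1 := leaf_window_aux_lo (fun n => (S.orb x n).2.2 - (S.orb z n).2.2)
      (fun n => (hL n).2.2.2.1) n
    have h2 : (S.orb x 0).2.2 - (S.orb z 0).2.2 = t := by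
      show x.2.2 - z.2.2 = t
      rw [hx.2.1, hz.2.1]; ring
    rw [h2] at h1
    have h3 : (9 / 10) ^ n2 * min t r0 ≤ (9 / 10) ^ n * t :=
      mul_le_mul hp9 (min_le_left _ _) hmin.le hp9'.le
    linarith


end Pool.Agent.Helper867.Smale
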