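import Pool.Agent.Helper867.Smale.TripDef

set_option autoImplicit false

open Set Filter Topology

namespace Pool.Agent.Helper867.Smale

theorem arc_sep_aux (t : ℝ) (h : ∀ k : ℤ, 1 / 10 ≤ |t - k|) :
    1 / 10 ≤ ‖(t : UnitAddCircle)‖ := by
  rw [UnitAddCircle.norm_eq]
  exact h _

theorem arc_sep (i j : Fin 4) (hi : i = 0 ∨ i = 1) (hj : j = 2 ∨ j = 3) (m m' : ℤ) (x y : ℝ)
    (hx : |x - (aT i + m)| ≤ dd) (hy : |y - (aT j + m')| ≤ dd) :
    1 / 10 ≤ ‖((x - y : ℝ) : UnitAddCircle)‖ := by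
  apply arc_sep_aux
  intro k
  have h1 := abs_le.mp hx
  have h2 := abs_le.mp hy
  have hdd : dd = 1 / 10 ^ 6 := rfl
  rw [hdd] at h1 h2
  have hq : m - m' - k ≤ -1 ∨ m - m' - k = 0 ∨ 1 ≤ m - m' - k := by omega
  have hq' : ((m:ℝ) - m' - k ≤ -1) ∨ ((m:ℝ) - m' - k = 0) ∨ (1 ≤ (m:ℝ) - m' - k) := by
    rcases hq with h | h | h
    · left; exact_mod_cast h
    · right; left; exact_mod_cast h
    · right; right; exact_mod_cast h
  rw [le_abs]
  have a0 : aT 0 = 0 := rfl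
  have a1 : aT 1 = 1 / 2 := rfl
  have a2 : aT 2 = 1 / 6 := rfl
  have a3 : aT 3 = 1 / 3 := rfl
  rcases hi with rfl | rfl <;> rcases hj with rfl | rfl <;>
    simp only [a0, a1, a2, a3] at h1 h2 <;> rcases hq' with h | h | h <;>
    first
      | (left; linarith [h1.1, h1.2, h2.1, h2.2])
      | (right; linarith [h1.1, h1.2, h2.1, h2.2])

end Pool.Agent.Helper867.Smale
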