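import Pool.Agent.Helper867.Smale.Base
import Pool.Agent.Helper867.Smale.Torus
import Pool.Agent.Helper867.Smale.Defs2

set_option autoImplicit false

open Set Filter Topology

namespace Pool.Agent.Helper867.Smale

theorem dist_pr (p q : Fin 3 → ℝ) (i : Fin 3) :
    ‖((p i - q i : ℝ) : UnitAddCircle)‖ ≤ dist (pr p) (pr q) := by
  have h := dist_le_pi_dist (pr p) (pr q) i
  refine le_trans (le_of_eq ?_) h
  rw [dist_eq_norm, pr, pr, ← AddCircle.coe_sub]


end Pool.Agent.Helper867.Smale
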