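import Pool.Agent.Helper867.Smale.Base
import Pool.Agent.Helper867.Smale.Torus
import Pool.Agent.Helper867.Smale.Defs2

set_option autoImplicit false

open Set Filter Topology

namespace Pool.Agent.Helper867.Smale

theorem dist_pr_le (p q : Fin 3 → ℝ) : dist (pr p) (pr q) ≤ dist p q := by
  refine (dist_pi_le_iff dist_nonneg).mpr fun i => ?_
  refine le_trans ?_ (dist_le_pi_dist p q i)
  have h1 : pr p i - pr q i = ((p i - q i : ℝ) : UnitAddCircle) := by
    simp [pr]
  rw [dist_eq_norm, h1, Real.dist_eq]
  have h2 := UnitAddCircle.norm_eq (x := p i - q i)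
  rw [h2]
  have := round_le (p i - q i) 0
  simpa using this

end Pool.Agent.Helper867.Smale
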