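import Pool.Agent.Helper867.Smale.TripDef
import Pool.Agent.Helper867.Smale.L_pr_surjective
import Pool.Agent.Helper867.Smale.L_dist_pr_le

set_option autoImplicit false

open Set Filter Topology

namespace Pool.Agent.Helper867.Smale

theorem torus_lip_aux_coe (m : ℤ) : (((m : ℤ) : ℝ) : UnitAddCircle) = 0 := by
  rw [AddCircle.coe_eq_zero_iff]
  exact ⟨m, by simp⟩

theorem torus_lip_aux_near (P Q : T3) (p : Fin 3 → ℝ) (hp : pr p = P) :
    ∃ q : Fin 3 → ℝ, pr q = Q ∧ ∀ i, |p i - q i| ≤ dist P Q := by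
  obtain ⟨q0, hq0⟩ := pr_surjective Q
  refine ⟨fun i => q0 i + round (p i - q0 i), ?_, ?_⟩
  · rw [← hq0]
    funext i
    unfold pr
    simp only
    rw [AddCircle.coe_add, torus_lip_aux_coe, add_zero]
  · intro i
    have h1 : ‖((p i - q0 i : ℝ) : UnitAddCircle)‖ = |(p i - q0 i) - round (p i - q0 i)| :=
      UnitAddCircle.norm_eq
    have h2 : ((p i - q0 i : ℝ) : UnitAddCircle) = P i - Q i := by
      rw [← hp, ← hq0]
      unfold pr
      rw [AddCircle.coe_sub]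
    have h3 : p i - (q0 i + round (p i - q0 i)) = (p i - q0 i) - round (p i - q0 i) := by ring
    simp only
    rw [h3, ← h1, h2, ← dist_eq_norm]
    exact dist_le_pi_dist P Q i

theorem torus_lip_aux_one (f : T3 → T3) (S : Sys1) (hS : ∀ p, f (pr (ee p)) = pr (ee (S.step p)))
    (P Q : T3) : dist (f P) (f Q) ≤ (NN + 2) * dist P Q := by
  obtain ⟨p, hp⟩ := pr_surjective P
  obtain ⟨q, hq, hpq⟩ := torus_lip_aux_near P Q p hp
  have ep1 : ee (p 0, p 1, p 2) = p := by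
    funext i; fin_cases i <;> rfl
  have eq1 : ee (q 0, q 1, q 2) = q := by
    funext i; fin_cases i <;> rfl
  have h1 : f P = pr (ee (S.step (p 0, p 1, p 2))) := by rw [← hS, ep1, hp]
  have h2 : f Q = pr (ee (S.step (q 0, q 1, q 2))) := by rw [← hS, eq1, hq]
  rw [h1, h2]
  refine (dist_pr_le _ _).trans ?_
  have hD : 0 ≤ dist P Q := dist_nonneg
  have h0 := hpq 0
  have h1 := hpq 1
  have h2 := hpq 2
  generalize dist P Q = D at *
  have hmx : mx (p 0 - q 0) (p 1 - q 1) (p 2 - q 2) ≤ D := by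
    unfold mx
    exact max_le h0 (max_le h1 h2)
  have hep : (0:ℝ) ≤ ep := by unfold ep; positivity
  have hep1 : ep ≤ 1 := by unfold ep; norm_num
  have hdl : (0:ℝ) ≤ dl := by unfold dl; positivity
  have hdl1 : dl ≤ 1 / 2 := by unfold dl; norm_num
  have hNN : (0:ℝ) ≤ NN := by unfold NN; positivity
  have hepD : ep * mx (p 0 - q 0) (p 1 - q 1) (p 2 - q 2) ≤ D := by nlinarith
  have hdlD : dl * mx (p 0 - q 0) (p 1 - q 1) (p 2 - q 2) ≤ D / 2 := by nlinarith
  have l1 := (S.lip1 (p 0) (p 1) (p 2) (q 0) (q 1) (q 2)).trans hepD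
  have l2 := (S.lip2 (p 0) (p 1) (p 2) (q 0) (q 1) (q 2)).trans hepD
  have lg := (S.lipg (p 0) (p 1) (p 2) (q 0) (q 1) (q 2)).trans hdlD
  have lr := S.lipr (p 2) (q 2)
  have hND : 0 ≤ NN * D := mul_nonneg hNN hD
  rw [abs_le] at h0 h1 l1 l2 lg lr
  have h2' := h2
  rw [abs_le] at h2'
  have hN1 : NN * (p 0 - q 0) ≤ NN * D := mul_le_mul_of_nonneg_left h0.2 hNN
  have hN2 : -(NN * D) ≤ NN * (p 0 - q 0) := by
    have := mul_le_mul_of_nonneg_left h0.1 hNN
    linarith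
  rw [dist_pi_le_iff (by positivity)]
  intro i
  rw [Real.dist_eq]
  fin_cases i
  · show |(NN * p 0 - p 1 + S.h1 (p 0) (p 1) (p 2)) - (NN * q 0 - q 1 + S.h1 (q 0) (q 1) (q 2))| ≤
      (NN + 2) * D
    rw [abs_le]
    constructor <;> nlinarith [l1.1, l1.2, h1.1, h1.2]
  · show |(p 0 + S.h2 (p 0) (p 1) (p 2)) - (q 0 + S.h2 (q 0) (q 1) (q 2))| ≤ (NN + 2) * D
    rw [abs_le]
    constructor <;> nlinarith [l2.1, l2.2, h0.1, h0.2]
  · show |(p 2 + S.r (p 2) + S.g (p 0) (p 1) (p 2)) - (q 2 + S.r (q 2) + S.g (q 0) (q 1) (q 2))| ≤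
      (NN + 2) * D
    rw [abs_le]
    constructor <;> nlinarith [lg.1, lg.2, h2'.1, h2'.2, lr.1, lr.2]

theorem torus_lip (f : T3 → T3) (S : Sys1) (hS : ∀ p, f (pr (ee p)) = pr (ee (S.step p)))
    (P Q : T3) (n : ℕ) : dist (f^[n] P) (f^[n] Q) ≤ (NN + 2) ^ n * dist P Q := by
  induction n with
  | zero => simp
  | succ n ih =>
    rw [Function.iterate_succ_apply', Function.iterate_succ_apply']
    have hNN : (0:ℝ) ≤ NN := by unfold NN; positivity
    refine (torus_lip_aux_one f S hS _ _).trans ?_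
    rw [pow_succ, mul_comm ((NN + 2) ^ n) (NN + 2), mul_assoc]
    exact mul_le_mul_of_nonneg_left ih (by linarith)

end Pool.Agent.Helper867.Smale
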