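import Pool.Agent.Helper867.Smale.TripDef
import Pool.Agent.Helper867.Smale.L_torus_lip
import Pool.Agent.Helper867.Smale.L_arc_sep
import Pool.Agent.Helper867.Smale.L_dist_pr
import Pool.Agent.Helper867.Smale.L_near_spec

set_option autoImplicit false

open Set Filter Topology

namespace Pool.Agent.Helper867.Smale

theorem sep1_aux_iter (f : T3 → T3) (S : Sys1) (hS : ∀ p, f (pr (ee p)) = pr (ee (S.step p))) (k : ℕ) :
    ∀ p, f^[k] (pr (ee p)) = pr (ee (S.step^[k] p)) := by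
  induction k with
  | zero => intro p; rfl
  | succ k ih =>
    intro p
    rw [Function.iterate_succ_apply, hS, ih, Function.iterate_succ_apply]

theorem sep1_aux_arc (ω : ℕ → Fin 4) (j : ℕ) : ∃ m : ℤ, arc ω j = aT (ω j) + m := by
  cases j with
  | zero => exact ⟨0, by simp [arc, arcP]⟩
  | succ j =>
    obtain ⟨m, hm⟩ := (near_spec (ω (j + 1)) (NN * (arcP ω j).2 - (arcP ω j).1)).2
    exact ⟨m, hm⟩

theorem sep1_aux_k (ω : ℕ → Fin 4) (n0 n1 n2 D m n : ℕ) (h01 : n0 ≤ n1) (hn1 : n1 ≤ n) (hn2 : n < n2) (hmn : m ≠ n)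
    (hD0 : n0 ≤ D) (hD : n2 - n1 ≤ D)
    (hC : ∀ k, n0 ≤ k → k < n2 → (ω k = 2 ∨ ω k = 3)) (hE : ∀ k, n2 ≤ k → (ω k = 0 ∨ ω k = 1)) :
    ∃ k ≤ D, ((ω (n + k) = 0 ∨ ω (n + k) = 1) ∧ (ω (m + k) = 2 ∨ ω (m + k) = 3)) ∨
      ((ω (m + k) = 0 ∨ ω (m + k) = 1) ∧ (ω (n + k) = 2 ∨ ω (n + k) = 3)) := by
  by_cases c1 : m < n0
  · refine ⟨max (n2 - n) (n0 - m), by omega, Or.inl ⟨hE _ (by omega), hC _ (by omega) (by omega)⟩⟩
  · by_cases c2 : m < n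
    · exact ⟨n2 - n, by omega, Or.inl ⟨hE _ (by omega), hC _ (by omega) (by omega)⟩⟩
    · by_cases c3 : m < n2
      · exact ⟨n2 - m, by omega, Or.inr ⟨hE _ (by omega), hC _ (by omega) (by omega)⟩⟩
      · exact ⟨0, by omega, Or.inr ⟨hE _ (by omega), hC _ (by omega) (by omega)⟩⟩


theorem sep1 (f : T3 → T3) (S : Sys1) (hS : ∀ p, f (pr (ee p)) = pr (ee (S.step p)))
    (ω : ℕ → Fin 4) (n0 n1 n2 D m n : ℕ) (h01 : n0 ≤ n1) (hn1 : n1 ≤ n) (hn2 : n < n2) (hmn : m ≠ n)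
    (hD0 : n0 ≤ D) (hD : n2 - n1 ≤ D)
    (hC : ∀ k, n0 ≤ k → k < n2 → (ω k = 2 ∨ ω k = 3)) (hE : ∀ k, n2 ≤ k → (ω k = 0 ∨ ω k = 1))
    (x q : ℝ × ℝ × ℝ) (hx : ∀ k, |(S.orb x k).1 - arc ω k| ≤ dd)
    (hq : ∀ k, |(S.orb q k).1 - arc ω k| ≤ dd) :
    1 / (10 * (NN + 2) ^ D) ≤ dist (pr (ee (S.orb x n))) (pr (ee (S.orb q m))) := by
  obtain ⟨k, hkD, hk⟩ := sep1_aux_k ω n0 n1 n2 D m n h01 hn1 hn2 hmn hD0 hD hC hE
  have hNN : (1:ℝ) ≤ NN + 2 := by unfold NN; norm_num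
  have h1 := torus_lip f S hS (pr (ee (S.orb x n))) (pr (ee (S.orb q m))) k
  rw [sep1_aux_iter f S hS k, sep1_aux_iter f S hS k] at h1
  have e1 : S.step^[k] (S.orb x n) = S.orb x (n + k) := by
    unfold Sys1.orb
    rw [← Function.iterate_add_apply, add_comm]
  have e2 : S.step^[k] (S.orb q m) = S.orb q (m + k) := by
    unfold Sys1.orb
    rw [← Function.iterate_add_apply, add_comm]
  rw [e1, e2] at h1
  have h2 := dist_pr (ee (S.orb x (n + k))) (ee (S.orb q (m + k))) 0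
  have h3 : (1:ℝ) / 10 ≤ ‖((ee (S.orb x (n + k)) 0 - ee (S.orb q (m + k)) 0 : ℝ) : UnitAddCircle)‖ := by
    have g1 : ee (S.orb x (n + k)) 0 = (S.orb x (n + k)).1 := rfl
    have g2 : ee (S.orb q (m + k)) 0 = (S.orb q (m + k)).1 := rfl
    rw [g1, g2]
    obtain ⟨a1, ha1⟩ := sep1_aux_arc ω (n + k)
    obtain ⟨a2, ha2⟩ := sep1_aux_arc ω (m + k)
    have hx' := hx (n + k)
    have hq' := hq (m + k)
    rw [ha1] at hx'
    rw [ha2] at hq'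
    rcases hk with ⟨hi, hj⟩ | ⟨hi, hj⟩
    · exact arc_sep _ _ hi hj a1 a2 _ _ hx' hq'
    · have := arc_sep _ _ hi hj a2 a1 _ _ hq' hx'
      have e : (((S.orb x (n + k)).1 - (S.orb q (m + k)).1 : ℝ) : UnitAddCircle)
          = -(((S.orb q (m + k)).1 - (S.orb x (n + k)).1 : ℝ) : UnitAddCircle) := by
        rw [← AddCircle.coe_neg]; congr 1; ring
      rw [e, norm_neg]; exact this
  have h4 : (NN + 2) ^ k * dist (pr (ee (S.orb x n))) (pr (ee (S.orb q m)))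
      ≤ (NN + 2) ^ D * dist (pr (ee (S.orb x n))) (pr (ee (S.orb q m))) := by
    gcongr
  have h5 : (1:ℝ) / 10 ≤ (NN + 2) ^ D * dist (pr (ee (S.orb x n))) (pr (ee (S.orb q m))) := by
    linarith
  have hpos : 0 < (NN + 2) ^ D := by positivity
  rw [div_le_iff₀ (by positivity)]
  nlinarith


end Pool.Agent.Helper867.Smale
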