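import Pool.Agent.Helper867.Smale.TripDef
import Pool.Agent.Helper867.Smale.L_sep1

set_option autoImplicit false

open Set Filter Topology

namespace Pool.Agent.Helper867.Smale

theorem sep_centres (g : T3 → T3) (S : Sys1) (hS : ∀ p, g (pr (ee p)) = pr (ee (S.step p)))
    (ω : ℕ → Fin 4) (n0 n1 n2 D : ℕ) (ϱ : ℝ) (h01 : n0 ≤ n1)
    (hD0 : n0 ≤ D) (hD : n2 - n1 ≤ D) (hϱ : 0 < ϱ) (hϱ2 : 2 * ϱ < 1 / (10 * (NN + 2) ^ D))
    (hC : ∀ k, n0 ≤ k → k < n2 → (ω k = 2 ∨ ω k = 3)) (hE : ∀ k, n2 ≤ k → (ω k = 0 ∨ ω k = 1))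
    (x q : ℝ × ℝ × ℝ) (hx : ∀ k, |(S.orb x k).1 - arc ω k| ≤ dd)
    (hq : ∀ k, |(S.orb q k).1 - arc ω k| ≤ dd) (m : ℕ) (n : ℕ) (hn1 : n1 ≤ n) (hn2 : n < n2)
    (hmn : m ≠ n) :
    ∃ i, 2 * ϱ < ‖((ee (S.orb q m) i - ee (S.orb x n) i : ℝ) : UnitAddCircle)‖ := by
  by_contra hcon
  push Not at hcon
  have h1 := sep1 g S hS ω n0 n1 n2 D m n h01 hn1 hn2 hmn hD0 hD hC hE x q hx hq
  have h2 : dist (pr (ee (S.orb x n))) (pr (ee (S.orb q m))) ≤ 2 * ϱ := by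
    rw [dist_pi_le_iff (by positivity)]
    intro i
    have h3 : dist (pr (ee (S.orb x n)) i) (pr (ee (S.orb q m)) i) =
        ‖((ee (S.orb q m) i - ee (S.orb x n) i : ℝ) : UnitAddCircle)‖ := by
      rw [AddCircle.coe_sub, dist_eq_norm, norm_sub_rev]
      rfl
    rw [h3]
    exact hcon i
  linarith

end Pool.Agent.Helper867.Smale
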