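import Pool.Agent.Helper867.Smale.TripDef

set_option autoImplicit false

open Set Filter Topology

namespace Pool.Agent.Helper867.Smale

theorem ratio_gain (R L R' L' g : ℝ) (hR : 0 < R) (hL : 0 < L)
    (hR' : 9 / 10 * R ≤ R' ∧ R' ≤ 11 / 10 * R) (hL' : 9 / 10 * L ≤ L' ∧ L' ≤ 11 / 10 * L)
    (hg : 0 ≤ g) (h : g ≤ (L' - L) / L - (R' - R) / R) :
    L / R * (1 + g / 2) ≤ L' / R' := by
  have hR0 : 0 < R' := by linarith [hR'.1]
  obtain ⟨ρ, hρ⟩ : ∃ ρ, ρ = R' / R := ⟨_, rfl⟩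
  obtain ⟨l, hl⟩ : ∃ l, l = L' / L := ⟨_, rfl⟩
  have hRρ : R' = ρ * R := by rw [hρ]; field_simp
  have hLl : L' = l * L := by rw [hl]; field_simp
  have h1 : (L' - L) / L - (R' - R) / R = l - ρ := by
    rw [hRρ, hLl]; field_simp; ring
  rw [h1] at h
  have hρ1 : 9 / 10 ≤ ρ := by rw [hρ, le_div_iff₀ hR]; exact hR'.1
  have hρ2 : ρ ≤ 11 / 10 := by rw [hρ, div_le_iff₀ hR]; exact hR'.2
  have h2 : L' / R' = L / R * (l / ρ) := by
    have : ρ ≠ 0 := by linarith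
    rw [hRρ, hLl]; field_simp
  rw [h2]
  apply mul_le_mul_of_nonneg_left _ (by positivity)
  rw [le_div_iff₀ (by linarith)]
  nlinarith

end Pool.Agent.Helper867.Smale
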