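import Pool.Agent.Helper867.Smale.TripDef

set_option autoImplicit false

open Set Filter Topology

namespace Pool.Agent.Helper867.Smale

theorem ratio_step (R L R' L' x : ℝ) (hR : 0 < R) (hL : 0 < L)
    (hR' : 9 / 10 * R ≤ R' ∧ R' ≤ 11 / 10 * R) (hL' : 9 / 10 * L ≤ L' ∧ L' ≤ 11 / 10 * L)
    (hx : 0 ≤ x) (h : |(L' - L) / L - (R' - R) / R| ≤ x) :
    L / R * Real.exp (-(3 * x)) ≤ L' / R' := by
  have h1 : (L' - L) / L - (R' - R) / R = L' / L - R' / R := by
    field_simp
    ring
  rw [h1] at h
  set a := L' / L with ha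
  set b := R' / R with hb
  have hL' : L' = a * L := by rw [ha]; field_simp
  have hRe : R' = b * R := by rw [hb]; field_simp
  have ha9 : 9 / 10 ≤ a := by rw [ha, le_div_iff₀ hL]; linarith
  have hb9 : 9 / 10 ≤ b := by rw [hb, le_div_iff₀ hR]; linarith
  have hab : b ≤ a + x := by have := (abs_le.1 h).1; linarith
  have he : Real.exp (-(3 * x)) ≤ 1 / (1 + 3 * x) := by
    rw [Real.exp_neg, ← one_div]
    apply one_div_le_one_div_of_le (by positivity)
    have := Real.add_one_le_exp (3 * x)
    linarith
  calc L / R * Real.exp (-(3 * x)) ≤ L / R * (1 / (1 + 3 * x)) :=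
        mul_le_mul_of_nonneg_left he (by positivity)
    _ ≤ L / R * (a / b) := by
        apply mul_le_mul_of_nonneg_left _ (by positivity)
        rw [div_le_div_iff₀ (by positivity) (by linarith)]
        nlinarith
    _ = L' / R' := by
        rw [hL', hRe]
        have : b ≠ 0 := by linarith
        field_simp

end Pool.Agent.Helper867.Smale
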