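import Pool.Agent.Helper867.Smale.TripDef

set_option autoImplicit false

open Set Filter Topology

namespace Pool.Agent.Helper867.Smale

theorem slopes1_auxA (az' az sz L' L ay' ay sy R' R E1 E3 : ℝ) (hR : 0 < R) (hL : 0 < L)
    (hR' : 0 < R') (hL' : 0 < L') (hay : |ay'| ≤ 3 / NN * R') (hLL : L' ≤ 11 / 10 * L)
    (h1 : |(az' - (NN * az - sz)) / L - (ay' - (NN * ay - sy)) / R| ≤ E1)
    (h3 : |(L' - L) / L - (R' - R) / R| ≤ E3) :
    NN * |az / L - ay / R| ≤ 11 / 10 * |az' / L' - ay' / R'| + 3 / NN * E3 +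
      |sz / L - sy / R| + E1 := by
  have hNN : (0 : ℝ) < NN := by unfold NN; norm_num
  have e1 : NN * (az / L - ay / R) = (az' / L' - ay' / R') * (L' / L) +
      (ay' / R') * ((L' - L) / L - (R' - R) / R) + (sz / L - sy / R)
      - ((az' - (NN * az - sz)) / L - (ay' - (NN * ay - sy)) / R) := by
    field_simp
    ring
  have e2 : NN * |az / L - ay / R| = |NN * (az / L - ay / R)| := by
    rw [abs_mul, abs_of_pos hNN]
  have b1 : |(az' / L' - ay' / R') * (L' / L)| ≤ 11 / 10 * |az' / L' - ay' / R'| := by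
    rw [abs_mul, abs_of_pos (div_pos hL' hL), mul_comm]
    refine mul_le_mul_of_nonneg_right ?_ (abs_nonneg _)
    rw [div_le_iff₀ hL]
    exact hLL
  have b2 : |(ay' / R') * ((L' - L) / L - (R' - R) / R)| ≤ 3 / NN * E3 := by
    rw [abs_mul]
    refine mul_le_mul ?_ h3 (abs_nonneg _) (by positivity)
    rw [abs_div, abs_of_pos hR', div_le_iff₀ hR']
    exact hay
  rw [e2, e1]
  calc |(az' / L' - ay' / R') * (L' / L) + (ay' / R') * ((L' - L) / L - (R' - R) / R)
        + (sz / L - sy / R) - ((az' - (NN * az - sz)) / L - (ay' - (NN * ay - sy)) / R)|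
      ≤ |(az' / L' - ay' / R') * (L' / L) + (ay' / R') * ((L' - L) / L - (R' - R) / R)
        + (sz / L - sy / R)| + |(az' - (NN * az - sz)) / L - (ay' - (NN * ay - sy)) / R| :=
        abs_sub _ _
    _ ≤ |(az' / L' - ay' / R') * (L' / L)| + |(ay' / R') * ((L' - L) / L - (R' - R) / R)|
        + |sz / L - sy / R| + |(az' - (NN * az - sz)) / L - (ay' - (NN * ay - sy)) / R| := by
        gcongr
        exact abs_add_three _ _ _
    _ ≤ _ := by gcongr

theorem slopes1_auxB (az sz' L' L ay sy' R' R E2 E3 : ℝ) (hR : 0 < R) (hL : 0 < L)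
    (hR' : 9 / 10 * R ≤ R') (hL' : 9 / 10 * L ≤ L') (hay : |ay| ≤ 3 / NN * R)
    (hsy : |sy' - ay| ≤ ep * R)
    (h2 : |(sz' - az) / L - (sy' - ay) / R| ≤ E2)
    (h3 : |(L' - L) / L - (R' - R) / R| ≤ E3) :
    |sz' / L' - sy' / R'| ≤ 10 / 9 * (|az / L - ay / R| + E2) + (3 / NN + ep) * (100 / 81 * E3) := by
  have hNN : (0 : ℝ) < NN := by unfold NN; norm_num
  have hep : (0 : ℝ) < ep := by unfold ep; norm_num
  have hRp : 0 < R' := by linarith
  have hLp : 0 < L' := by linarith
  have e1 : sz' / L' - sy' / R' = (L / L') * ((az / L - ay / R) +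
      ((sz' - az) / L - (sy' - ay) / R)) +
      (sy' / R) * (-((L / L') * (R / R')) * ((L' - L) / L - (R' - R) / R)) := by
    field_simp
    ring
  have c1 : L / L' ≤ 10 / 9 := by
    rw [div_le_iff₀ hLp]; linarith
  have c2 : R / R' ≤ 10 / 9 := by
    rw [div_le_iff₀ hRp]; linarith
  have c3 : 0 < L / L' := div_pos hL hLp
  have c4 : 0 < R / R' := div_pos hR hRp
  have c5 : |sy' / R| ≤ 3 / NN + ep := by
    rw [abs_div, abs_of_pos hR, div_le_iff₀ hR]
    have := abs_add_le (sy' - ay) ay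
    rw [sub_add_cancel] at this
    linarith
  have b1 : |(L / L') * ((az / L - ay / R) + ((sz' - az) / L - (sy' - ay) / R))|
      ≤ 10 / 9 * (|az / L - ay / R| + E2) := by
    rw [abs_mul, abs_of_pos c3]
    refine mul_le_mul c1 ?_ (abs_nonneg _) (by norm_num)
    exact (abs_add_le _ _).trans (by gcongr)
  have b2 : |(sy' / R) * (-((L / L') * (R / R')) * ((L' - L) / L - (R' - R) / R))|
      ≤ (3 / NN + ep) * (100 / 81 * E3) := by
    rw [abs_mul, abs_mul, abs_neg, abs_of_pos (mul_pos c3 c4)]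
    refine mul_le_mul c5 ?_ (by positivity) (by positivity)
    refine mul_le_mul ?_ h3 (abs_nonneg _) (by norm_num)
    calc L / L' * (R / R') ≤ 10 / 9 * (10 / 9) := mul_le_mul c1 c2 c4.le (by norm_num)
      _ = 100 / 81 := by norm_num
  rw [e1]
  exact (abs_add_le _ _).trans (add_le_add b1 b2)

theorem slopes1 (M : ℝ) (hM : 0 < M) (e v : ℕ → ℝ) (T : ℕ) (αy σy R αz σz L : ℕ → ℝ)
    (h : Trip1 M e T αy σy R αz σz L) (h0 : Dif σy R σz L 0 = 0)
    (hT : Dif αy R αz L T ≤ 1 / 10 ^ 4 * v T) (hv : ∀ n, 0 < v n)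
    (he : ∀ n, M * (L n + R n) + e n ≤ v n) (he0 : ∀ n, 0 ≤ e n)
    (hv1 : ∀ n, v (n + 1) ≤ 1000 * v n) (hv2 : ∀ n, v n ≤ 1000 * v (n + 1)) :
    ∀ n ≤ T, Dif αy R αz L n ≤ 1 / 10 ^ 4 * v n ∧ Dif σy R σz L n ≤ 2000 * v n := by
  set Du : ℕ → ℝ := Dif αy R αz L with hDu
  set Ds : ℕ → ℝ := Dif σy R σz L with hDs
  have hMv : ∀ n, M * (L n + R n) ≤ v n := fun n => by linarith [he n, he0 n]
  have hDu0 : ∀ n, 0 ≤ Du n := fun n => abs_nonneg _
  have hDs0 : ∀ n, 0 ≤ Ds n := fun n => abs_nonneg _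
  have A : ∀ n, n < T → NN * Du n ≤ 11 / 10 * Du (n + 1) +
      3 / NN * (dl * (Du n + Ds n) + v n) + Ds n + (ep * (Du n + Ds n) + v n) := by
    intro n hn
    refine slopes1_auxA _ _ _ _ _ _ _ _ _ _ _ _ (h.Rpos n) (h.Lpos n) (h.Rpos (n + 1))
      (h.Lpos (n + 1)) (h.ay (n + 1)) (h.Lz n).2 ?_ ?_
    · exact (h.t1 n hn).trans (by linarith [hMv n])
    · exact (h.t3 n hn).trans (by linarith [he n])
  have B : ∀ n, n < T → Ds (n + 1) ≤ 10 / 9 * (Du n + (ep * (Du n + Ds n) + v n)) +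
      (3 / NN + ep) * (100 / 81 * (dl * (Du n + Ds n) + v n)) := by
    intro n hn
    refine slopes1_auxB _ _ _ _ _ _ _ _ _ _ (h.Rpos n) (h.Lpos n) (h.Ry n).1 (h.Lz n).1
      (h.ay n) (h.e2y n) ?_ ?_
    · exact (h.t2 n hn).trans (by linarith [hMv n])
    · exact (h.t3 n hn).trans (by linarith [he n])
  -- the maximal ratio
  obtain ⟨m, hm, hmax⟩ := Finset.exists_max_image (Finset.range (T + 1))
    (fun n => max (Du n / (1 / 10 ^ 4 * v n)) (Ds n / (2000 * v n))) ⟨0, by simp⟩
  set θ : ℝ := max (Du m / (1 / 10 ^ 4 * v m)) (Ds m / (2000 * v m)) with hθ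
  have hb : ∀ n ≤ T, Du n ≤ θ * (1 / 10 ^ 4 * v n) ∧ Ds n ≤ θ * (2000 * v n) := by
    intro n hn
    have h1 := hmax n (Finset.mem_range.mpr (Nat.lt_succ_of_le hn))
    have hvn := hv n
    constructor
    · have := (le_max_left _ _).trans h1
      rwa [div_le_iff₀ (by positivity)] at this
    · have := (le_max_right _ _).trans h1
      rwa [div_le_iff₀ (by positivity)] at this
  by_cases hθ1 : θ ≤ 1
  · intro n hn
    have hvn := hv n
    obtain ⟨h1, h2⟩ := hb n hn
    constructor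
    · refine h1.trans ?_
      have : θ * (1 / 10 ^ 4 * v n) ≤ 1 * (1 / 10 ^ 4 * v n) :=
        mul_le_mul_of_nonneg_right hθ1 (by positivity)
      linarith
    · refine h2.trans ?_
      have : θ * (2000 * v n) ≤ 1 * (2000 * v n) :=
        mul_le_mul_of_nonneg_right hθ1 (by positivity)
      linarith
  exfalso
  push Not at hθ1
  have hmT : m ≤ T := Nat.lt_succ_iff.mp (Finset.mem_range.mp hm)
  rcases max_choice (Du m / (1 / 10 ^ 4 * v m)) (Ds m / (2000 * v m)) with hc | hc
  · have hvm := hv m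
    have hDum : Du m = θ * (1 / 10 ^ 4 * v m) := by
      rw [hθ, hc]; field_simp
    rcases hmT.lt_or_eq with hlt | heq
    · have hA := A m hlt
      have h1 := (hb (m + 1) hlt).1
      have h2 := (hb m hmT).2
      have h3 := hv1 m
      have hθv : v m ≤ θ * v m := by nlinarith
      have h4 : θ * (1 / 10 ^ 4 * v (m + 1)) ≤ 1 / 10 * (θ * v m) := by nlinarith
      have h5 : Du m + Ds m ≤ 2001 * (θ * v m) := by
        rw [hDum]; nlinarith
      have h6 : Du m = 1 / 10 ^ 4 * (θ * v m) := by rw [hDum]; ring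
      have h7 : Ds m ≤ 2000 * (θ * v m) := by linarith
      set w := θ * v m with hw
      have hwpos : 0 < w := by positivity
      unfold NN dl ep at hA
      rw [h6] at hA
      nlinarith
    · rw [heq] at hDum hvm
      rw [hDum] at hT
      nlinarith
  · have hvm := hv m
    have hDsm : Ds m = θ * (2000 * v m) := by
      rw [hθ, hc]; field_simp
    rcases Nat.eq_zero_or_pos m with hm0 | hmpos
    · rw [hm0] at hDsm hvm
      rw [h0] at hDsm
      have : 0 < θ * (2000 * v 0) := by positivity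
      linarith
    · obtain ⟨n, rfl⟩ : ∃ n, m = n + 1 := ⟨m - 1, by omega⟩
      have hnT : n < T := by omega
      have hB := B n hnT
      have h1 := (hb n hnT.le).1
      have h2 := (hb n hnT.le).2
      have hvn := hv n
      have h3 := hv2 n
      have hθv : v n ≤ θ * v n := by nlinarith
      have h4 : θ * v n ≤ 1000 * (θ * v (n + 1)) := by nlinarith
      have h6 : Du n ≤ 1 / 10 ^ 4 * (θ * v n) := by linarith
      have h7 : Ds n ≤ 2000 * (θ * v n) := by linarith
      have h8 : Ds (n + 1) = 2000 * (θ * v (n + 1)) := by rw [hDsm]; ring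
      have hw1 : 0 < θ * v (n + 1) := by positivity
      have hw2 : 0 < θ * v n := by positivity
      rw [h8] at hB
      unfold NN dl ep at hB
      generalize θ * v n = w at *
      generalize θ * v (n + 1) = w' at *
      generalize Du n = du at *
      generalize Ds n = ds at *
      generalize v n = vn at *
      norm_num at hB
      linarith

end Pool.Agent.Helper867.Smale
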