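import Pool.Agent.Helper867.Smale.TripDef
import Pool.Agent.Helper867.Smale.L_slopes1
import Pool.Agent.Helper867.Smale.L_ratio_step
import Pool.Agent.Helper867.Smale.L_ratio_gain

set_option autoImplicit false

open Set Filter Topology

namespace Pool.Agent.Helper867.Smale

lemma core1_aux_chain (q x : ℕ → ℝ) (m n : ℕ) (hmn : m ≤ n)
    (h : ∀ k, m ≤ k → k < n → q k * Real.exp (-(3 * x k)) ≤ q (k + 1)) :
    q m * Real.exp (-(3 * ∑ k ∈ Finset.Ico m n, x k)) ≤ q n := by
  induction n, hmn using Nat.le_induction with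
  | base => simp
  | succ n hn ih =>
    have h1 := ih fun k hk hk' => h k hk (by omega)
    have h2 := h n hn (by omega)
    rw [Finset.sum_Ico_succ_top hn]
    calc q m * Real.exp (-(3 * (∑ k ∈ Finset.Ico m n, x k + x n)))
        = (q m * Real.exp (-(3 * ∑ k ∈ Finset.Ico m n, x k))) * Real.exp (-(3 * x n)) := by
          rw [mul_assoc, ← Real.exp_add]; congr 2; ring
      _ ≤ q n * Real.exp (-(3 * x n)) :=
          mul_le_mul_of_nonneg_right h1 (Real.exp_pos _).le
      _ ≤ _ := h2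

lemma core1_aux_tel (f g : ℕ → ℝ) (m n : ℕ) (hmn : m ≤ n)
    (h : ∀ k, m ≤ k → k < n → f k ≤ g k - g (k + 1)) :
    ∑ k ∈ Finset.Ico m n, f k ≤ g m - g n := by
  induction n, hmn using Nat.le_induction with
  | base => simp
  | succ n hn ih =>
    have h1 := ih fun k hk hk' => h k hk (by omega)
    have h2 := h n hn (by omega)
    rw [Finset.sum_Ico_succ_top hn]
    linarith

noncomputable def core1_aux_E (ε : ℝ) (n1 n2 n : ℕ) : ℝ :=
  2 * ε * (1 / 1000) ^ (if n < n1 then n1 - n else if n2 ≤ n then n - n2 + 1 else 0)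

lemma core1_aux_E_pos {ε : ℝ} (hε : 0 < ε) (n1 n2 n : ℕ) : 0 < core1_aux_E ε n1 n2 n := by
  unfold core1_aux_E; positivity

lemma core1_aux_E_up (ε : ℝ) {n1 n2 n : ℕ} (h12 : n1 < n2) (h : n < n1) :
    core1_aux_E ε n1 n2 (n + 1) = 1000 * core1_aux_E ε n1 n2 n := by
  unfold core1_aux_E
  obtain ⟨k, rfl⟩ : ∃ k, n1 = n + 1 + k := ⟨n1 - (n + 1), by omega⟩
  have e1 : (if n + 1 < n + 1 + k then n + 1 + k - (n + 1) else
      if n2 ≤ n + 1 then n + 1 - n2 + 1 else 0) = k := by
    split_ifs <;> omega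
  have e2 : (if n < n + 1 + k then n + 1 + k - n else
      if n2 ≤ n then n - n2 + 1 else 0) = k + 1 := by
    split_ifs <;> omega
  rw [e1, e2, pow_succ]; ring

lemma core1_aux_E_win (ε : ℝ) {n1 n2 n : ℕ} (h1 : n1 ≤ n) (h2 : n < n2) :
    core1_aux_E ε n1 n2 n = 2 * ε := by
  unfold core1_aux_E
  rw [if_neg (by omega), if_neg (by omega)]; simp

lemma core1_aux_E_down (ε : ℝ) {n1 n2 n : ℕ} (h12 : n1 < n2) (h : n2 ≤ n + 1) :
    core1_aux_E ε n1 n2 n = 1000 * core1_aux_E ε n1 n2 (n + 1) := by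
  unfold core1_aux_E
  obtain ⟨k, hk⟩ : ∃ k, n + 1 = n2 + k := ⟨n + 1 - n2, by omega⟩
  have e1 : (if n + 1 < n1 then n1 - (n + 1) else
      if n2 ≤ n + 1 then n + 1 - n2 + 1 else 0) = k + 1 := by
    split_ifs <;> omega
  have e2 : (if n < n1 then n1 - n else
      if n2 ≤ n then n - n2 + 1 else 0) = k := by
    split_ifs <;> omega
  rw [e1, e2, pow_succ]; ring

lemma core1_aux_E_le {ε : ℝ} (hε : 0 < ε) {n1 n2 : ℕ} (h12 : n1 < n2) (n : ℕ) :
    core1_aux_E ε n1 n2 (n + 1) ≤ 1000 * core1_aux_E ε n1 n2 n ∧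
      core1_aux_E ε n1 n2 n ≤ 1000 * core1_aux_E ε n1 n2 (n + 1) := by
  have p1 := core1_aux_E_pos hε n1 n2 n
  have p2 := core1_aux_E_pos hε n1 n2 (n + 1)
  rcases lt_or_ge n n1 with h | h
  · have := core1_aux_E_up ε h12 h
    constructor <;> linarith
  · rcases le_or_gt n2 (n + 1) with h' | h'
    · have := core1_aux_E_down ε h12 h'
      constructor <;> linarith
    · have a1 := core1_aux_E_win ε h (by omega : n < n2)
      have a2 := core1_aux_E_win ε (by omega : n1 ≤ n + 1) h'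
      rw [a1, a2]
      constructor <;> linarith

theorem core1 (M ε : ℝ) (e : ℕ → ℝ) (n0 n1 n2 T : ℕ) (αy σy R αz σz L : ℕ → ℝ)
    (hM : 1 ≤ M) (hε : 0 < ε) (hε1 : ε ≤ 1 / 1000) (h01 : n0 ≤ n1) (h12 : n1 < n2) (h2T : n2 ≤ T)
    (he : ∀ n, e n = if n1 ≤ n ∧ n < n2 then 2 * ε else 0)
    (h : Trip1 M e T αy σy R αz σz L) (h0 : Dif σy R σz L 0 = 0)
    (hR0 : R n0 ≤ nu) (hL0 : L n0 ≤ nu)
    (hC : ∀ n, n0 ≤ n → n < n2 → R (n + 1) ≤ (1 - nu) * R n ∧ L (n + 1) ≤ (1 - nu) * L n)
    (hW : M * (L n1 + R n1) ≤ ε / 10)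
    (hg : ∀ n, n1 ≤ n → n < n2 → 17 / 10 * ε - dl * (Dif αy R αz L n + Dif σy R σz L n)
      - M * (L n + R n) ≤ (L (n + 1) - L n) / L n - (R (n + 1) - R n) / R n)
    (hE : ∀ n, n2 ≤ n → n < T → (1 + nu) * L n ≤ L (n + 1) ∧ L n ≤ 1 / 190)
    (hLT : 1 / 190 < L T)
    (hbig : 1 ≤ L n0 / R n0 * (1 + ε / 2) ^ (n2 - n1) * Real.exp (-(10 ^ 7 * M))) :
    ∀ n, n2 ≤ n → n ≤ T →
      L n0 / R n0 * (1 + ε / 2) ^ (n2 - n1) * Real.exp (-(10 ^ 7 * M)) ≤ L n / R n := by
  obtain ⟨E, hEdef⟩ : ∃ E : ℕ → ℝ, E = core1_aux_E ε n1 n2 := ⟨_, rfl⟩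
  have hEpos : ∀ n, 0 < E n := fun n => by rw [hEdef]; exact core1_aux_E_pos hε n1 n2 n
  have hEup : ∀ n, n < n1 → E (n + 1) = 1000 * E n := fun n hn => by
    rw [hEdef]; exact core1_aux_E_up ε h12 hn
  have hEdown : ∀ n, n2 ≤ n + 1 → E n = 1000 * E (n + 1) := fun n hn => by
    rw [hEdef]; exact core1_aux_E_down ε h12 hn
  have hEwin : ∀ n, n1 ≤ n → n < n2 → E n = 2 * ε := fun n hn hn' => by
    rw [hEdef]; exact core1_aux_E_win ε hn hn'
  have hEle : ∀ n, E (n + 1) ≤ 1000 * E n ∧ E n ≤ 1000 * E (n + 1) := fun n => by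
    rw [hEdef]; exact core1_aux_E_le hε h12 n
  clear hEdef
  have hM0 : 0 < M := by linarith
  have hRp := h.Rpos
  have hLp := h.Lpos
  obtain ⟨v, hv⟩ : ∃ v : ℕ → ℝ, v = fun n => M * (L n + R n) + E n := ⟨_, rfl⟩
  have hv' : ∀ n, v n = M * (L n + R n) + E n := fun n => by rw [hv]
  clear hv
  have hLRp : ∀ n, 0 < M * (L n + R n) := fun n => mul_pos hM0 (add_pos (hLp n) (hRp n))
  have he0 : ∀ n, 0 ≤ e n := fun n => by
    rw [he]; split_ifs <;> linarith
  have heE : ∀ n, e n ≤ E n := fun n => by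
    rw [he]; split_ifs with hh
    · rw [hEwin n hh.1 hh.2]
    · exact (hEpos n).le
  have hsl := slopes1 M hM0 e v T αy σy R αz σz L h h0 (by
      -- hT
      have h1 : Dif αy R αz L T ≤ 6 / NN := by
        unfold Dif
        have a1 : |αz T / L T| ≤ 3 / NN := by
          rw [abs_div, abs_of_pos (hLp T), div_le_iff₀ (hLp T)]; exact h.az T
        have a2 : |αy T / R T| ≤ 3 / NN := by
          rw [abs_div, abs_of_pos (hRp T), div_le_iff₀ (hRp T)]; exact h.ay T
        calc |αz T / L T - αy T / R T| ≤ |αz T / L T| + |αy T / R T| := abs_sub _ _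
          _ ≤ 3 / NN + 3 / NN := add_le_add a1 a2
          _ = 6 / NN := by ring
      refine h1.trans ?_
      rw [hv']
      have h2 : 1 / 190 ≤ M * (L T + R T) := by
        have := hRp T
        have h3 : L T + R T ≤ M * (L T + R T) := by
          have := add_pos (hLp T) (hRp T)
          nlinarith
        linarith
      have h4 := hEpos T
      unfold NN
      norm_num
      linarith)
    (fun n => by rw [hv']; have := hLRp n; have := hEpos n; linarith)
    (fun n => by rw [hv']; have := heE n; linarith) he0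
    (fun n => by
      rw [hv', hv']
      have a1 := (h.Ry n).2
      have a2 := (h.Lz n).2
      have a3 := (hEle n).1
      have a4 := hLp n
      have a5 := hRp n
      have a6 : M * (L (n + 1) + R (n + 1)) ≤ M * (1000 * (L n + R n)) :=
        mul_le_mul_of_nonneg_left (by linarith) hM0.le
      linarith)
    (fun n => by
      rw [hv', hv']
      have a1 := (h.Ry n).1
      have a2 := (h.Lz n).1
      have a3 := (hEle n).2
      have a4 := hLp (n + 1)
      have a5 := hRp (n + 1)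
      have a6 : M * (L n + R n) ≤ M * (1000 * (L (n + 1) + R (n + 1))) :=
        mul_le_mul_of_nonneg_left (by linarith) hM0.le
      linarith)
  -- combined slope bound
  have hsl2 : ∀ n, n ≤ T → dl * (Dif αy R αz L n + Dif σy R σz L n) ≤ 201 / 10000 * v n := by
    intro n hn
    obtain ⟨b1, b2⟩ := hsl n hn
    have b3 : 0 < v n := by rw [hv']; have := hLRp n; have := hEpos n; linarith
    unfold dl
    linarith
  -- step outside the window
  obtain ⟨x, hx⟩ : ∃ x : ℕ → ℝ, x = fun n => 103 / 100 * (M * (L n + R n)) + 3 / 100 * E n :=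
    ⟨_, rfl⟩
  have hx' : ∀ n, x n = 103 / 100 * (M * (L n + R n)) + 3 / 100 * E n := fun n => by rw [hx]
  have hx0 : ∀ n, 0 ≤ x n := fun n => by
    rw [hx']; have := hLRp n; have := hEpos n; linarith
  have hstep : ∀ n, n < T → (n < n1 ∨ n2 ≤ n) →
      L n / R n * Real.exp (-(3 * x n)) ≤ L (n + 1) / R (n + 1) := by
    intro n hn hn'
    refine ratio_step (R n) (L n) (R (n + 1)) (L (n + 1)) (x n) (hRp n) (hLp n) (h.Ry n) (h.Lz n)
      (hx0 n) ?_
    refine (h.t3 n hn).trans ?_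
    have c1 := hsl2 n hn.le
    have c2 : e n = 0 := by rw [he, if_neg (by omega)]
    rw [hx', c2]
    rw [hv'] at c1
    have := hLRp n; have := hEpos n
    linarith
  -- part 1
  have hR_dec : ∀ n, n0 ≤ n → n < n2 → R (n + 1) ≤ R n ∧ L (n + 1) ≤ L n := fun n hn hn' => by
    have c1 := hC n hn hn'
    have c2 := hRp n
    have c3 := hLp n
    unfold nu at c1
    constructor <;> linarith [c1.1, c1.2]
  have hnu : (0 : ℝ) < nu := by unfold nu; norm_num
  have part1 : L n0 / R n0 * Real.exp (-(7 * M)) ≤ L n1 / R n1 := by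
    have c1 := core1_aux_chain (fun n => L n / R n) x n0 n1 h01 fun k hk hk' =>
      hstep k (by omega) (Or.inl hk')
    have c2 : ∑ k ∈ Finset.Ico n0 n1, nu * (L k + R k) ≤ (L n0 + R n0) - (L n1 + R n1) :=
      core1_aux_tel _ (fun n => L n + R n) n0 n1 h01 fun k hk hk' => by
        have c3 := hC k hk (by omega)
        have c4 := c3.1
        have c5 := c3.2
        linarith
    have c3 : ∑ k ∈ Finset.Ico n0 n1, E k ≤ (-(E n0 / 999)) - (-(E n1 / 999)) :=
      core1_aux_tel _ (fun n => -(E n / 999)) n0 n1 h01 fun k hk hk' => by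
        have c3 := hEup k hk'
        linarith
    rw [← Finset.mul_sum] at c2
    have c4 : ∑ k ∈ Finset.Ico n0 n1, (L k + R k) ≤ 2 := by
      have := hLp n1; have := hRp n1
      have c5 : nu * ∑ k ∈ Finset.Ico n0 n1, (L k + R k) ≤ nu * 2 := by linarith
      exact le_of_mul_le_mul_left c5 hnu
    have c5 : ∑ k ∈ Finset.Ico n0 n1, x k ≤ 7 / 3 * M := by
      have c6 : ∑ k ∈ Finset.Ico n0 n1, x k = 103 / 100 * (M * ∑ k ∈ Finset.Ico n0 n1, (L k + R k))
          + 3 / 100 * ∑ k ∈ Finset.Ico n0 n1, E k := by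
        rw [Finset.mul_sum, Finset.mul_sum, Finset.mul_sum, ← Finset.sum_add_distrib]
        exact Finset.sum_congr rfl fun k _ => hx' k
      rw [c6]
      have c7 : M * ∑ k ∈ Finset.Ico n0 n1, (L k + R k) ≤ M * 2 :=
        mul_le_mul_of_nonneg_left c4 hM0.le
      have c8 := hEwin n1 le_rfl h12
      have c9 := hEpos n0
      rw [c8] at c3
      linarith
    refine le_trans ?_ c1
    apply mul_le_mul_of_nonneg_left _ (div_pos (hLp _) (hRp _)).le
    apply Real.exp_le_exp.2
    linarith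
  -- part 2
  have hWn : ∀ n, n1 ≤ n → n ≤ n2 → L n + R n ≤ L n1 + R n1 := by
    intro n hn
    induction n, hn using Nat.le_induction with
    | base => intro _; exact le_rfl
    | succ n hn ih =>
      intro hn'
      have d1 := ih (by omega)
      have d2 := hR_dec n (by omega) (by omega)
      linarith [d2.1, d2.2]
  have hgain : ∀ n, n1 ≤ n → n < n2 → L n / R n * (1 + ε / 2) ≤ L (n + 1) / R (n + 1) := by
    intro n hn hn'
    refine ratio_gain (R n) (L n) (R (n + 1)) (L (n + 1)) ε (hRp n) (hLp n) (h.Ry n) (h.Lz n)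
      hε.le ?_
    refine le_trans ?_ (hg n hn hn')
    have d1 := hsl2 n (by omega)
    have d2 : M * (L n + R n) ≤ ε / 10 :=
      (mul_le_mul_of_nonneg_left (hWn n hn hn'.le) hM0.le).trans hW
    have d3 := hEwin n hn hn'
    rw [hv', d3] at d1
    linarith
  have part2 : ∀ n, n1 ≤ n → n ≤ n2 → L n1 / R n1 * (1 + ε / 2) ^ (n - n1) ≤ L n / R n := by
    intro n hn
    induction n, hn using Nat.le_induction with
    | base => intro _; simp
    | succ n hn ih =>
      intro hn'
      have d1 := ih (by omega)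
      have d2 := hgain n hn (by omega)
      have d3 : n + 1 - n1 = (n - n1) + 1 := by omega
      rw [d3, pow_succ, ← mul_assoc]
      exact (mul_le_mul_of_nonneg_right d1 (by linarith)).trans d2
  have part2' := part2 n2 h12.le le_rfl
  -- part 3
  have part12 : L n0 / R n0 * (1 + ε / 2) ^ (n2 - n1) * Real.exp (-(7 * M)) ≤ L n2 / R n2 := by
    refine le_trans ?_ part2'
    calc L n0 / R n0 * (1 + ε / 2) ^ (n2 - n1) * Real.exp (-(7 * M))
        = (L n0 / R n0 * Real.exp (-(7 * M))) * (1 + ε / 2) ^ (n2 - n1) := by ring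
      _ ≤ _ := mul_le_mul_of_nonneg_right part1 (by positivity)
  have hEn2 : E n2 = 2 * ε / 1000 := by
    have f1 := hEdown (n2 - 1) (by omega)
    have f2 := hEwin (n2 - 1) (by omega) (by omega)
    rw [show n2 - 1 + 1 = n2 by omega] at f1
    linarith
  intro n
  induction n using Nat.strong_induction_on with
  | _ n ih =>
    intro hn hnT
    have g1 := core1_aux_chain (fun n => L n / R n) x n2 n hn fun k hk hk' =>
      hstep k (by omega) (Or.inr hk)
    have gRL : ∀ k, n2 ≤ k → k < n → R k ≤ L k := by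
      intro k hk hk'
      have g2 := hbig.trans (ih k hk' hk (by omega))
      rw [le_div_iff₀ (hRp k)] at g2
      linarith
    have g3 : ∑ k ∈ Finset.Ico n2 n, nu * L k ≤ (-L n2) - (-L n) :=
      core1_aux_tel _ (fun n => -L n) n2 n hn fun k hk hk' => by
        have c3 := (hE k hk (by omega)).1
        linarith
    have g4 : ∑ k ∈ Finset.Ico n2 n, E k ≤ 1000 / 999 * E n2 - 1000 / 999 * E n :=
      core1_aux_tel _ (fun n => 1000 / 999 * E n) n2 n hn fun k hk hk' => by
        have c3 := hEdown k (by omega)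
        linarith
    have g5 : ∑ k ∈ Finset.Ico n2 n, L k ≤ 6 * 10 ^ 5 := by
      rcases Nat.eq_or_lt_of_le hn with h6 | h6
      · rw [← h6]; simp
      · have h7 := (hE (n - 1) (by omega) (by omega)).2
        have h8 := (h.Lz (n - 1)).2
        rw [show n - 1 + 1 = n by omega] at h8
        have h9 := hLp n2
        rw [← Finset.mul_sum] at g3
        have h10 : nu * ∑ k ∈ Finset.Ico n2 n, L k ≤ nu * (6 * 10 ^ 5) := by
          have : nu * (6 * 10 ^ 5) = 6 / 1000 := by unfold nu; norm_num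
          rw [this]; linarith
        exact le_of_mul_le_mul_left h10 hnu
    have g6 : ∑ k ∈ Finset.Ico n2 n, x k ≤ 4 / 3 * 10 ^ 6 * M := by
      have g7 : ∑ k ∈ Finset.Ico n2 n, x k ≤ 103 / 100 * (M * (2 * ∑ k ∈ Finset.Ico n2 n, L k))
          + 3 / 100 * ∑ k ∈ Finset.Ico n2 n, E k := by
        simp only [Finset.mul_sum, ← Finset.sum_add_distrib]
        refine Finset.sum_le_sum fun k hk => ?_
        rw [Finset.mem_Ico] at hk
        have g8 := gRL k hk.1 hk.2
        rw [hx']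
        have g9 : M * (L k + R k) ≤ M * (2 * L k) :=
          mul_le_mul_of_nonneg_left (by linarith) hM0.le
        linarith
      have g8 : M * (2 * ∑ k ∈ Finset.Ico n2 n, L k) ≤ M * (2 * (6 * 10 ^ 5)) :=
        mul_le_mul_of_nonneg_left (by linarith) hM0.le
      have g9 := hEpos n
      rw [hEn2] at g4
      norm_num at g8 ⊢
      linarith
    calc L n0 / R n0 * (1 + ε / 2) ^ (n2 - n1) * Real.exp (-(10 ^ 7 * M))
        ≤ L n0 / R n0 * (1 + ε / 2) ^ (n2 - n1) *
            (Real.exp (-(7 * M)) * Real.exp (-(3 * ∑ k ∈ Finset.Ico n2 n, x k))) := by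
          rw [← Real.exp_add]
          apply mul_le_mul_of_nonneg_left _ (mul_nonneg (div_pos (hLp _) (hRp _)).le
            (by positivity))
          apply Real.exp_le_exp.2
          norm_num at g6 ⊢
          linarith
      _ = (L n0 / R n0 * (1 + ε / 2) ^ (n2 - n1) * Real.exp (-(7 * M))) *
            Real.exp (-(3 * ∑ k ∈ Finset.Ico n2 n, x k)) := by ring
      _ ≤ L n2 / R n2 * Real.exp (-(3 * ∑ k ∈ Finset.Ico n2 n, x k)) :=
          mul_le_mul_of_nonneg_right part12 (Real.exp_pos _).le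
      _ ≤ L n / R n := g1

end Pool.Agent.Helper867.Smale
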