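import Pool.Agent.Helper867.Smale.TripDef
import Pool.Agent.Helper867.Smale.L_pair_center
import Pool.Agent.Helper867.Smale.L_orb_pair1
import Pool.Agent.Helper867.Smale.L_leaf_agree
import Pool.Agent.Helper867.Smale.L_near_spec
import Pool.Agent.Helper867.Smale.L_exists_leaf1
import Pool.Agent.Helper867.Smale.L_core1

set_option autoImplicit false

open Set Filter Topology

namespace Pool.Agent.Helper867.Smale

theorem stage_build_aux_arc (ω : ℕ → Fin 4) (n : ℕ) : ∃ m : ℤ, arc ω n = aT (ω n) + m := by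
  cases n with
  | zero => exact ⟨0, by simp [arc, arcP]⟩
  | succ n =>
    obtain ⟨m, hm⟩ := (near_spec (ω (n + 1)) (NN * (arcP ω n).2 - (arcP ω n).1)).2
    exact ⟨m, hm⟩

theorem stage_build_aux_orb_succ (S : Sys1) (p : ℝ × ℝ × ℝ) (n : ℕ) :
    S.orb p (n + 1) = S.step (S.orb p n) := by
  unfold Sys1.orb
  rw [Function.iterate_succ_apply']

theorem stage_build_aux_R (S : Sys1) (X Y : ℝ × ℝ × ℝ) (i : Fin 4) (m : ℤ) (hi : i = 2 ∨ i = 3)
    (ha : |X.1 - (aT i + m)| ≤ dd) (hc : |X.2.2| ≤ 2 * nu) (R : ℝ) (hR : R = Y.2.2 - X.2.2)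
    (hR0 : 0 < R) (hR1 : R ≤ nu) (hα : |Y.1 - X.1| ≤ 3 / NN * R) (hσ : |Y.2.1 - X.2.1| ≤ R) :
    (S.step Y).2.2 - (S.step X).2.2 ≤ (1 - nu) * R := by
  have h := (S.rateC i m X.1 X.2.1 X.2.2 (Y.1 - X.1) (Y.2.1 - X.2.1) R hi ha hc hR0 hR1 hα hσ).2
  have e1 : X.2.2 + R = Y.2.2 := by rw [hR]; ring
  rw [e1, add_sub_cancel, add_sub_cancel] at h
  have e2 : (S.step Y).2.2 = Y.2.2 + S.r Y.2.2 + S.g Y.1 Y.2.1 Y.2.2 := rfl
  have e3 : (S.step X).2.2 = X.2.2 + S.r X.2.2 + S.g X.1 X.2.1 X.2.2 := rfl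
  rw [e2, e3]
  linarith

theorem stage_build_aux_L (S : Sys1) (X Z : ℝ × ℝ × ℝ) (i : Fin 4) (m : ℤ) (hi : i = 2 ∨ i = 3)
    (ha : |X.1 - (aT i + m)| ≤ dd) (hc : |X.2.2| ≤ 2 * nu) (L : ℝ) (hL : L = X.2.2 - Z.2.2)
    (hL0 : 0 < L) (hL1 : L ≤ nu) (hα : |X.1 - Z.1| ≤ 3 / NN * L) (hσ : |X.2.1 - Z.2.1| ≤ L) :
    (S.step X).2.2 - (S.step Z).2.2 ≤ (1 - nu) * L := by
  have h := (S.rateCL i m X.1 X.2.1 X.2.2 (X.1 - Z.1) (X.2.1 - Z.2.1) L hi ha hc hL0 hL1 hα hσ).2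
  have e1 : X.2.2 - L = Z.2.2 := by rw [hL]; ring
  rw [e1, sub_sub_cancel, sub_sub_cancel] at h
  have e2 : (S.step Z).2.2 = Z.2.2 + S.r Z.2.2 + S.g Z.1 Z.2.1 Z.2.2 := rfl
  have e3 : (S.step X).2.2 = X.2.2 + S.r X.2.2 + S.g X.1 X.2.1 X.2.2 := rfl
  rw [e2, e3]
  linarith

theorem stage_build_aux_E (S : Sys1) (X Z : ℝ × ℝ × ℝ) (i : Fin 4) (m : ℤ) (hi : i = 0 ∨ i = 1)
    (ha : |X.1 - (aT i + m)| ≤ dd) (hc : |X.2.2| ≤ 2 * nu) (L : ℝ) (hL : L = X.2.2 - Z.2.2)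
    (hL0 : 0 < L) (hL1 : L ≤ 1 / 150) (hα : |X.1 - Z.1| ≤ 3 / NN * L) (hσ : |X.2.1 - Z.2.1| ≤ L) :
    (1 + nu) * L ≤ (S.step X).2.2 - (S.step Z).2.2 := by
  have h := S.rateEL i m X.1 X.2.1 X.2.2 (X.1 - Z.1) (X.2.1 - Z.2.1) L hi ha hc hL0 hL1 hα hσ
  have e1 : X.2.2 - L = Z.2.2 := by rw [hL]; ring
  rw [e1, sub_sub_cancel, sub_sub_cancel] at h
  have e2 : (S.step Z).2.2 = Z.2.2 + S.r Z.2.2 + S.g Z.1 Z.2.1 Z.2.2 := rfl
  have e3 : (S.step X).2.2 = X.2.2 + S.r X.2.2 + S.g X.1 X.2.1 X.2.2 := rfl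
  rw [e2, e3]
  linarith

theorem stage_build_aux_dec (u : ℕ → ℝ) (n0 n2 : ℕ) (hpos : ∀ n, 0 < u n) (h0 : u n0 ≤ nu)
    (hs : ∀ n, n0 ≤ n → n < n2 → u n ≤ nu → u (n + 1) ≤ (1 - nu) * u n) :
    ∀ k, n0 + k ≤ n2 → u (n0 + k) ≤ (1 - nu) ^ k * u n0 ∧ u (n0 + k) ≤ nu := by
  have hnu1 : 0 ≤ 1 - nu := by unfold nu; norm_num
  have hnu2 : 1 - nu ≤ 1 := by unfold nu; norm_num
  intro k
  induction k with
  | zero => intro _; simpa using h0
  | succ k ih =>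
    intro hk
    obtain ⟨h1, h2⟩ := ih (by omega)
    have h3 := hs (n0 + k) (by omega) (by omega) h2
    have h4 : u (n0 + (k + 1)) ≤ (1 - nu) ^ (k + 1) * u n0 := by
      calc u (n0 + (k + 1)) ≤ (1 - nu) * u (n0 + k) := h3
        _ ≤ (1 - nu) * ((1 - nu) ^ k * u n0) := mul_le_mul_of_nonneg_left h1 hnu1
        _ = _ := by ring
    refine ⟨h4, h4.trans ?_⟩
    have h5 : (1 - nu) ^ (k + 1) ≤ 1 := pow_le_one₀ hnu1 hnu2
    have := hpos n0
    nlinarith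

theorem stage_build_aux_grow (L : ℕ → ℝ) (n2 : ℕ) (hpos : 0 < L n2)
    (h : ∀ n, n2 ≤ n → L n ≤ 1 / 190 → (1 + nu) * L n ≤ L (n + 1)) :
    ∃ T, n2 ≤ T ∧ 1 / 190 < L T := by
  by_contra hcon
  push Not at hcon
  have hnu : (1 : ℝ) < 1 + nu := by unfold nu; norm_num
  have h1 : ∀ k, (1 + nu) ^ k * L n2 ≤ L (n2 + k) := by
    intro k
    induction k with
    | zero => simp
    | succ k ih =>
      have h2 := h (n2 + k) (by omega) (hcon (n2 + k) (by omega))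
      calc (1 + nu) ^ (k + 1) * L n2 = (1 + nu) * ((1 + nu) ^ k * L n2) := by ring
        _ ≤ (1 + nu) * L (n2 + k) := mul_le_mul_of_nonneg_left ih (by linarith)
        _ ≤ _ := h2
  obtain ⟨k, hk⟩ := pow_unbounded_of_one_lt (1 / 190 / L n2) hnu
  rw [div_lt_iff₀ hpos] at hk
  have h2 := h1 k
  have h3 := hcon (n2 + k) (by omega)
  linarith

theorem stage_build_aux_up (u : ℕ → ℝ) (h : ∀ n, u (n + 1) ≤ 11 / 10 * u n) (n k : ℕ) :
    u (n + k) ≤ (11 / 10) ^ k * u n := by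
  induction k with
  | zero => simp
  | succ k ih =>
    calc u (n + (k + 1)) ≤ 11 / 10 * u (n + k) := h _
      _ ≤ 11 / 10 * ((11 / 10) ^ k * u n) := by gcongr
      _ = _ := by ring

theorem stage_build_aux_low (u : ℕ → ℝ) (h : ∀ n, 9 / 10 * u n ≤ u (n + 1)) (n k : ℕ) :
    (9 / 10) ^ k * u n ≤ u (n + k) := by
  induction k with
  | zero => simp
  | succ k ih =>
    calc (9 / 10) ^ (k + 1) * u n = 9 / 10 * ((9 / 10) ^ k * u n) := by ring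
      _ ≤ 9 / 10 * u (n + k) := by gcongr
      _ ≤ _ := h _

theorem stage_build_aux_ratio (n : ℕ) (t r L R : ℝ) (hr : 0 < r) (ht : 0 < t) (hR : 0 < R)
    (h1 : (9 / 10) ^ n * t ≤ L) (h2 : R ≤ (11 / 10) ^ n * r) : t / r * (9 / 11) ^ n ≤ L / R := by
  have e1 : t / r * (9 / 11) ^ n = ((9 / 10) ^ n * t) / ((11 / 10) ^ n * r) := by
    have e2 : ((9 : ℝ) / 11) ^ n = (9 / 10) ^ n / (11 / 10) ^ n := by
      rw [← div_pow]
      norm_num
    rw [e2]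
    field_simp
  rw [e1]
  exact div_le_div₀ (le_trans (by positivity) h1) h1 hR h2

/-- the phase analysis -/
theorem stage_build_aux_phase (S : Sys1) (ω : ℕ → Fin 4) (n0 n1 n2 B : ℕ) (η t ε M : ℝ)
    (e : ℕ → ℝ) (h01 : n0 ≤ n1) (h12 : n1 < n2)
    (hC : ∀ k, n0 ≤ k → k < n2 → (ω k = 2 ∨ ω k = 3)) (hE : ∀ k, n2 ≤ k → (ω k = 0 ∨ ω k = 1))
    (x y z : ℝ × ℝ × ℝ) (hx : Leaf S ω 0 0 x) (hy : Leaf S ω 0 r0 y) (hz : Leaf S ω 0 (-t) z)
    (ht : 0 < t) (hη : 0 < η) (ht2 : (11 / 10) ^ n0 * t ≤ nu)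
    (hxc : ∀ n, |(S.orb x n).2.2| ≤ 2 * nu)
    (hM : 1 ≤ M) (hε : 0 < ε) (hε1 : ε ≤ 1 / 1000)
    (he : ∀ n, e n = if n1 ≤ n ∧ n < n2 then 2 * ε else 0)
    (αy σy R αz σz L : ℕ → ℝ)
    (eαy : αy = (fun n => (S.orb y n).1 - (S.orb x n).1))
    (eσy : σy = (fun n => (S.orb y n).2.1 - (S.orb x n).2.1))
    (eR : R = (fun n => (S.orb y n).2.2 - (S.orb x n).2.2))
    (eαz : αz = (fun n => (S.orb x n).1 - (S.orb z n).1))
    (eσz : σz = (fun n => (S.orb x n).2.1 - (S.orb z n).2.1))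
    (eL : L = (fun n => (S.orb x n).2.2 - (S.orb z n).2.2))
    (htrip : ∀ T, Trip1 M e T αy σy R αz σz L)
    (hg : ∀ n, n1 ≤ n → n < n2 → 17 / 10 * ε - dl * (Dif αy R αz L n + Dif σy R σz L n)
      - M * (L n + R n) ≤ (L (n + 1) - L n) / L n - (R (n + 1) - R n) / R n)
    (hRn0 : R n0 ≤ nu / 2)
    (hW : M * (2 * nu * (1 - nu) ^ (n1 - n0)) ≤ ε / 10)
    (hbig1 : 1 ≤ t / r0 * (9 / 11) ^ n0 * (1 + ε / 2) ^ (n2 - n1) * Real.exp (-(10 ^ 7 * M)))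
    (hbig2 : (11 / 10) ^ (B + 2) ≤
      η * (t / r0 * (9 / 11) ^ n0 * (1 + ε / 2) ^ (n2 - n1) * Real.exp (-(10 ^ 7 * M)))) :
    (∀ i, n0 ≤ i → i ≤ n2 → R i ≤ R n0) ∧ ∃ T, n2 ≤ T ∧ 1 / 190 < L T ∧
      ∀ i, n2 ≤ i → i ≤ T → (11 / 10) ^ (B + 1) * R i ≤ η / 190 := by
  have hnu : nu = 1 / 10 ^ 8 := rfl
  have hr0 : (0 : ℝ) < r0 := by unfold r0; norm_num
  have hnu1 : 0 ≤ 1 - nu := by rw [hnu]; norm_num
  have hT0 := htrip 0
  have hR' : ∀ n, R n = (S.orb y n).2.2 - (S.orb x n).2.2 := fun n => by rw [eR]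
  have hL' : ∀ n, L n = (S.orb x n).2.2 - (S.orb z n).2.2 := fun n => by rw [eL]
  have hαy' : ∀ n, αy n = (S.orb y n).1 - (S.orb x n).1 := fun n => by rw [eαy]
  have hσy' : ∀ n, σy n = (S.orb y n).2.1 - (S.orb x n).2.1 := fun n => by rw [eσy]
  have hαz' : ∀ n, αz n = (S.orb x n).1 - (S.orb z n).1 := fun n => by rw [eαz]
  have hσz' : ∀ n, σz n = (S.orb x n).2.1 - (S.orb z n).2.1 := fun n => by rw [eσz]
  have hR0 : R 0 = r0 := by
    rw [hR']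
    show y.2.2 - x.2.2 = r0
    rw [hy.2.1, hx.2.1, sub_zero]
  have hL0 : L 0 = t := by
    rw [hL']
    show x.2.2 - z.2.2 = t
    rw [hx.2.1, hz.2.1]
    ring
  have hσ0 : Dif σy R σz L 0 = 0 := by
    have h1 : σy 0 = 0 := by
      rw [hσy']
      show y.2.1 - x.2.1 = 0
      rw [hy.1, hx.1, sub_zero]
    have h2 : σz 0 = 0 := by
      rw [hσz']
      show x.2.1 - z.2.1 = 0
      rw [hx.1, hz.1, sub_zero]
    unfold Dif
    rw [h1, h2]
    simp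
  have hstepR : ∀ n, n0 ≤ n → n < n2 → R n ≤ nu → R (n + 1) ≤ (1 - nu) * R n := by
    intro n h1 h2 h3
    obtain ⟨m, hm⟩ := stage_build_aux_arc ω n
    rw [hR' (n + 1), stage_build_aux_orb_succ, stage_build_aux_orb_succ]
    refine stage_build_aux_R S _ _ (ω n) m (hC n h1 h2) ?_ (hxc n) (R n) (hR' n) (hT0.Rpos n) h3 ?_ ?_
    · rw [← hm]
      exact hx.2.2 n
    · rw [← hαy']
      exact hT0.ay n
    · rw [← hσy']
      exact hT0.sy n
  have hstepL : ∀ n, n0 ≤ n → n < n2 → L n ≤ nu → L (n + 1) ≤ (1 - nu) * L n := by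
    intro n h1 h2 h3
    obtain ⟨m, hm⟩ := stage_build_aux_arc ω n
    rw [hL' (n + 1), stage_build_aux_orb_succ, stage_build_aux_orb_succ]
    refine stage_build_aux_L S _ _ (ω n) m (hC n h1 h2) ?_ (hxc n) (L n) (hL' n) (hT0.Lpos n) h3 ?_ ?_
    · rw [← hm]
      exact hx.2.2 n
    · rw [← hαz']
      exact hT0.az n
    · rw [← hσz']
      exact hT0.sz n
  have hstepE : ∀ n, n2 ≤ n → L n ≤ 1 / 190 → (1 + nu) * L n ≤ L (n + 1) := by
    intro n h1 h3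
    obtain ⟨m, hm⟩ := stage_build_aux_arc ω n
    rw [hL' (n + 1), stage_build_aux_orb_succ, stage_build_aux_orb_succ]
    refine stage_build_aux_E S _ _ (ω n) m (hE n h1) ?_ (hxc n) (L n) (hL' n) (hT0.Lpos n)
      (h3.trans (by norm_num)) ?_ ?_
    · rw [← hm]
      exact hx.2.2 n
    · rw [← hαz']
      exact hT0.az n
    · rw [← hσz']
      exact hT0.sz n
  have hnupos : 0 < nu := by rw [hnu]; norm_num
  have hRn0' : R n0 ≤ nu := hRn0.trans (by linarith)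
  have hLn0' : L n0 ≤ nu := by
    have h1 := stage_build_aux_up L (fun n => (hT0.Lz n).2) 0 n0
    rw [zero_add, hL0] at h1
    exact h1.trans ht2
  have hdR := stage_build_aux_dec R n0 n2 hT0.Rpos hRn0' hstepR
  have hdL := stage_build_aux_dec L n0 n2 hT0.Lpos hLn0' hstepL
  have hRle : ∀ i, n0 ≤ i → i ≤ n2 → R i ≤ (1 - nu) ^ (i - n0) * R n0 ∧ R i ≤ nu := by
    intro i h1 h2
    have h3 := hdR (i - n0) (by omega)
    rwa [show n0 + (i - n0) = i by omega] at h3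
  have hLle : ∀ i, n0 ≤ i → i ≤ n2 → L i ≤ (1 - nu) ^ (i - n0) * L n0 ∧ L i ≤ nu := by
    intro i h1 h2
    have h3 := hdL (i - n0) (by omega)
    rwa [show n0 + (i - n0) = i by omega] at h3
  refine ⟨fun i h1 h2 => ?_, ?_⟩
  · refine (hRle i h1 h2).1.trans ?_
    have h3 : (1 - nu) ^ (i - n0) ≤ 1 := pow_le_one₀ hnu1 (by linarith)
    have := hT0.Rpos n0
    nlinarith
  -- the time T
  have hex := stage_build_aux_grow L n2 (hT0.Lpos n2) hstepE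
  classical
  let T := Nat.find hex
  have hT1 : n2 ≤ T := (Nat.find_spec hex).1
  have hT2 : 1 / 190 < L T := (Nat.find_spec hex).2
  have hT3 : ∀ n, n2 ≤ n → n < T → L n ≤ 1 / 190 := by
    intro n h1 h2
    have h3 := Nat.find_min hex h2
    by_contra h4
    push Not at h4
    exact h3 ⟨h1, h4⟩
  have hT4 : L T ≤ 11 / 1900 := by
    have h1 : n2 ≠ T := by
      intro h2
      have h3 := (hLle n2 (by omega) le_rfl).2
      rw [h2] at h3
      rw [hnu] at h3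
      have : (1 : ℝ) / 190 < 1 / 10 ^ 8 := lt_of_lt_of_le hT2 h3
      norm_num at this
    have h2 : n2 < T := lt_of_le_of_ne hT1 h1
    have h3 := (hT0.Lz (T - 1)).2
    rw [show T - 1 + 1 = T by omega] at h3
    have h4 := hT3 (T - 1) (by omega) (by omega)
    linarith
  have hTall : ∀ n, n2 ≤ n → n ≤ T → L n ≤ 11 / 1900 := by
    intro n h1 h2
    rcases h2.eq_or_lt with rfl | h2
    · exact hT4
    · exact (hT3 n h1 h2).trans (by norm_num)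
  refine ⟨T, hT1, hT2, ?_⟩
  have hratio : t / r0 * (9 / 11) ^ n0 ≤ L n0 / R n0 := by
    refine stage_build_aux_ratio n0 t r0 (L n0) (R n0) hr0 ht (hT0.Rpos n0) ?_ ?_
    · have h1 := stage_build_aux_low L (fun n => (hT0.Lz n).1) 0 n0
      rwa [zero_add, hL0] at h1
    · have h1 := stage_build_aux_up R (fun n => (hT0.Ry n).2) 0 n0
      rwa [zero_add, hR0] at h1
  have hQ : t / r0 * (9 / 11) ^ n0 * (1 + ε / 2) ^ (n2 - n1) * Real.exp (-(10 ^ 7 * M)) ≤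
      L n0 / R n0 * (1 + ε / 2) ^ (n2 - n1) * Real.exp (-(10 ^ 7 * M)) := by
    gcongr
  have hcore := core1 M ε e n0 n1 n2 T αy σy R αz σz L hM hε hε1 h01 h12 hT1 he (htrip T) hσ0
    hRn0' hLn0'
    (fun n h1 h2 => ⟨hstepR n h1 h2 (hRle n h1 h2.le).2, hstepL n h1 h2 (hLle n h1 h2.le).2⟩)
    (by
      refine le_trans (mul_le_mul_of_nonneg_left ?_ (by linarith)) hW
      have h1 := (hRle n1 h01 h12.le).1
      have h2 := (hLle n1 h01 h12.le).1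
      have h3 : 0 ≤ (1 - nu) ^ (n1 - n0) := pow_nonneg hnu1 _
      nlinarith)
    hg (fun n h1 h2 => ⟨hstepE n h1 (hT3 n h1 h2), hT3 n h1 h2⟩) hT2 (hbig1.trans hQ)
  intro i h1 h2
  have h3 := (hQ.trans (hcore i h1 h2))
  have hRi := hT0.Rpos i
  rw [le_div_iff₀ hRi] at h3
  have h4 := hTall i h1 h2
  set Q := t / r0 * (9 / 11) ^ n0 * (1 + ε / 2) ^ (n2 - n1) * Real.exp (-(10 ^ 7 * M)) with hQd
  have h5 : (11 / 10) ^ (B + 2) * R i ≤ η * (11 / 1900) := by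
    calc (11 / 10) ^ (B + 2) * R i ≤ η * Q * R i := mul_le_mul_of_nonneg_right hbig2 hRi.le
      _ = η * (Q * R i) := by ring
      _ ≤ η * (11 / 1900) := mul_le_mul_of_nonneg_left (h3.trans h4) hη.le
  have h6 : ((11 : ℝ) / 10) ^ (B + 2) = (11 / 10) ^ (B + 1) * (11 / 10) := by ring
  rw [h6] at h5
  linarith

theorem stage_build (S : Sys1) (ω0 ω : ℕ → Fin 4) (n0 n1 n2 B : ℕ) (η0 η κ t ε M : ℝ) (e : ℕ → ℝ)
    (hκ : 0 < κ) (hpre : Pre S ω0 n0 η0 κ) (hη : 0 < η) (hηη : η ≤ η0) (hη0 : η0 ≤ nu / 2)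
    (hag : Agree n0 ω0 ω) (h01 : n0 ≤ n1) (h12 : n1 < n2)
    (hC : ∀ k, n0 ≤ k → k < n2 → (ω k = 2 ∨ ω k = 3)) (hE : ∀ k, n2 ≤ k → (ω k = 0 ∨ ω k = 1))
    (x y z : ℝ × ℝ × ℝ) (hx : Leaf S ω 0 0 x) (hy : Leaf S ω 0 r0 y) (hz : Leaf S ω 0 (-t) z)
    (ht : 0 < t) (htη : t < η) (ht2 : (11 / 10) ^ n0 * t ≤ nu)
    (hxc : ∀ n, n0 < n → |(S.orb x n).2.2| ≤ 18 / 10 * nu)
    (hM : 1 ≤ M) (hε : 0 < ε) (hε1 : ε ≤ 1 / 1000)
    (he : ∀ n, e n = if n1 ≤ n ∧ n < n2 then 2 * ε else 0)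
    (αy σy R αz σz L : ℕ → ℝ)
    (eαy : αy = (fun n => (S.orb y n).1 - (S.orb x n).1))
    (eσy : σy = (fun n => (S.orb y n).2.1 - (S.orb x n).2.1))
    (eR : R = (fun n => (S.orb y n).2.2 - (S.orb x n).2.2))
    (eαz : αz = (fun n => (S.orb x n).1 - (S.orb z n).1))
    (eσz : σz = (fun n => (S.orb x n).2.1 - (S.orb z n).2.1))
    (eL : L = (fun n => (S.orb x n).2.2 - (S.orb z n).2.2))
    (htrip : ∀ T, Trip1 M e T αy σy R αz σz L)
    (hg : ∀ n, n1 ≤ n → n < n2 → 17 / 10 * ε - dl * (Dif αy R αz L n + Dif σy R σz L n)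
      - M * (L n + R n) ≤ (L (n + 1) - L n) / L n - (R (n + 1) - R n) / R n)
    (hW : M * (2 * nu * (1 - nu) ^ (n1 - n0)) ≤ ε / 10)
    (hB : 4 * dd * dl * (11 / 10) ^ (B + 1) / (NN - 2) ^ B ≤ min κ η / 8)
    (hbig1 : 1 ≤ t / r0 * (9 / 11) ^ n0 * (1 + ε / 2) ^ (n2 - n1) * Real.exp (-(10 ^ 7 * M)))
    (hbig2 : (11 / 10) ^ (B + 2) ≤
      η * (t / r0 * (9 / 11) ^ n0 * (1 + ε / 2) ^ (n2 - n1) * Real.exp (-(10 ^ 7 * M)))) :
    Stage S ω0 n0 η0 η := by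
  have hnu : nu = 1 / 10 ^ 8 := rfl
  have hdd : dd = 1 / 10 ^ 6 := rfl
  have hdl : dl = 1 / 10 ^ 5 := rfl
  have hNN : NN = 10 ^ 8 := rfl
  have hr0 : r0 = 1 / 10 ^ 9 := rfl
  have hnupos : 0 < nu := by rw [hnu]; norm_num
  have hN1 : (1 : ℝ) ≤ NN - 2 := by rw [hNN]; norm_num
  obtain ⟨hp1, hp2⟩ := hpre ω hag x y hx hy
  have hxc2 : ∀ n, |(S.orb x n).2.2| ≤ 2 * nu := by
    intro n
    rcases le_or_gt n n0 with h | h
    · exact (hp1 n h).trans (by linarith)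
    · exact (hxc n h).trans (by linarith)
  have hRv : ∀ n, R n = (S.orb y n).2.2 - (S.orb x n).2.2 := fun n => by rw [eR]
  have hLv : ∀ n, L n = (S.orb x n).2.2 - (S.orb z n).2.2 := fun n => by rw [eL]
  have hRn0 : R n0 ≤ η0 - κ := by rw [hRv]; exact hp2
  obtain ⟨hph1, T, hT1, hT2, hT3⟩ := stage_build_aux_phase S ω n0 n1 n2 B η t ε M e h01 h12 hC hE
    x y z hx hy hz ht hη ht2 hxc2 hM hε hε1 he αy σy R αz σz L eαy eσy eR eαz eσz eL htrip hg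
    (by linarith) hW hbig1 hbig2
  have hRpos := (htrip 0).Rpos
  -- the error term
  set D : ℝ := 4 * dd * dl / (NN - 2) ^ B with hD
  have hpw : (1 : ℝ) ≤ (NN - 2) ^ B := one_le_pow₀ hN1
  have hD0 : 0 ≤ D := by
    rw [hD, hdd, hdl]
    have : (0 : ℝ) ≤ (NN - 2) ^ B := by linarith
    positivity
  have hDB : (11 / 10) ^ (B + 1) * D ≤ min κ η / 8 := by
    have e1 : (11 / 10) ^ (B + 1) * D = 4 * dd * dl * (11 / 10) ^ (B + 1) / (NN - 2) ^ B := by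
      rw [hD]
      ring
    rw [e1]
    exact hB
  have hpB : (1 : ℝ) ≤ (11 / 10) ^ (B + 1) := one_le_pow₀ (by norm_num)
  have hDs : D ≤ min κ η / 8 := by nlinarith
  have hm1 : min κ η ≤ κ := min_le_left _ _
  have hm2 : min κ η ≤ η := min_le_right _ _
  set κ' : ℝ := min (κ / 2) (min (η / 4) (nu / 10)) with hκ'
  have hk0 : 0 < κ' := lt_min (by linarith) (lt_min (by linarith) (by linarith))
  have hk1 : κ' ≤ κ / 2 := min_le_left _ _
  have hk2 : κ' ≤ η / 4 := (min_le_right _ _).trans (min_le_left _ _)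
  have hk3 : κ' ≤ nu / 10 := (min_le_right _ _).trans (min_le_right _ _)
  refine ⟨ω, T + B + 1, t, κ', hag, by omega, ht, htη, hk0, ?_⟩
  intro ω' hag' x' y' z' hx' hy' hz'
  have hag0 : Agree n0 ω0 ω' := fun k hk => (hag k hk).trans (hag' k (by omega))
  obtain ⟨hq1, hq2⟩ := hpre ω' hag0 x' y' hx' hy'
  obtain ⟨hx1, hx2⟩ := leaf_agree S ω ω' (T + B) hag' 0 0 x x' hx hx'
  obtain ⟨hy1, hy2⟩ := leaf_agree S ω ω' (T + B) hag' 0 r0 y y' hy hy'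
  obtain ⟨hz1, hz2⟩ := leaf_agree S ω ω' (T + B) hag' 0 (-t) z z' hz hz'
  have hdiv : ∀ k, k ≤ T → 2 * dd * dl / (NN - 2) ^ (T + B - k) ≤ 2 * dd * dl / (NN - 2) ^ B := by
    intro k hk
    refine div_le_div_of_nonneg_left ?_ (by linarith) ?_
    · rw [hdd, hdl]; norm_num
    · exact pow_le_pow_right₀ hN1 (by omega)
  have hdiv2 : ∀ k : ℕ, 2 * dd * dl / (NN - 2) ^ k ≤ 2 * dd * dl := by
    intro k
    refine div_le_self ?_ (one_le_pow₀ hN1)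
    rw [hdd, hdl]; norm_num
  have h2D : 2 * dd * dl / (NN - 2) ^ B = D / 2 := by rw [hD]; ring
  -- the pair x', y'
  have hpair := orb_pair1 S x' y'
  have hpc := pair_center _ _ _ hpair (by
      intro n
      have h1 := hx'.2.2 n
      have h2 := hy'.2.2 n
      rw [hdd] at h1 h2
      rw [abs_le] at h1 h2 ⊢
      constructor <;> norm_num at h1 h2 ⊢ <;> linarith) (by
      show |y'.2.1 - x'.2.1| ≤ y'.2.2 - x'.2.2
      rw [hy'.1, hx'.1, hy'.2.1, hx'.2.1, hr0]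
      norm_num) (by
      show 0 < y'.2.2 - x'.2.2
      rw [hy'.2.1, hx'.2.1, hr0]
      norm_num)
  have hup := stage_build_aux_up (fun n => (S.orb y' n).2.2 - (S.orb x' n).2.2)
    (fun n => (hpc n).2.2.2.2)
  -- R' up to time T
  have hR'T : ∀ i, i ≤ T → (S.orb y' i).2.2 - (S.orb x' i).2.2 ≤ R i + D := by
    intro i hi
    have h1 := hx1 i (by omega)
    have h2 := hy1 i (by omega)
    have h3 := hdiv i hi
    rw [h2D] at h3
    rw [abs_le] at h1 h2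
    rw [hRv]
    linarith [h1.1, h1.2, h2.1, h2.2]
  have hRTs : ∀ i, n2 ≤ i → i ≤ T → R i ≤ η / 190 := by
    intro i h1 h2
    have h3 := hT3 i h1 h2
    have h4 := hRpos i
    nlinarith
  -- R' after time T
  have hlate : ∀ i, T ≤ i → i ≤ T + B + 1 →
      (S.orb y' i).2.2 - (S.orb x' i).2.2 ≤ η / 190 + η / 8 := by
    intro i h1 h2
    have h3 := hup T (i - T)
    simp only [show T + (i - T) = i by omega] at h3
    refine h3.trans ?_
    have h4 := hR'T T le_rfl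
    have h5 := (hpc T).1
    have h6 : ((11 : ℝ) / 10) ^ (i - T) ≤ (11 / 10) ^ (B + 1) :=
      pow_le_pow_right₀ (by norm_num) (by omega)
    calc (11 / 10) ^ (i - T) * ((S.orb y' T).2.2 - (S.orb x' T).2.2)
        ≤ (11 / 10) ^ (B + 1) * (R T + D) :=
          mul_le_mul h6 h4 h5.le (by positivity)
      _ = (11 / 10) ^ (B + 1) * R T + (11 / 10) ^ (B + 1) * D := by ring
      _ ≤ η / 190 + η / 8 := by
          have := hT3 T hT1 le_rfl
          linarith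
  refine ⟨?_, ?_, ?_, ?_⟩
  · intro i hi
    rcases le_or_gt i n0 with h | h
    · exact (hq1 i h).trans (by linarith)
    · have h1 := hxc i h
      have h2 : |(S.orb x i).2.2 - (S.orb x' i).2.2| ≤ 5 * dd * dl := by
        rcases Nat.lt_or_ge i (T + B + 1) with h3 | h3
        · refine (hx1 i (by omega)).trans ((hdiv2 _).trans ?_)
          rw [hdd, hdl]; norm_num
        · rw [show i = T + B + 1 by omega]
          exact hx2
      rw [hdd, hdl] at h2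
      rw [hnu] at hk3 h1 ⊢
      rw [abs_le] at h1 h2 ⊢
      constructor <;> norm_num at h1 h2 hk3 ⊢ <;> linarith [h1.1, h1.2, h2.1, h2.2]
  · intro i h1 h2
    rcases le_or_gt i n2 with h3 | h3
    · have h4 := hR'T i (by omega)
      have h5 := hph1 i h1 h3
      linarith
    · rcases le_or_gt i T with h4 | h4
      · have h5 := hR'T i h4
        have h6 := hRTs i h3.le h4
        linarith
      · have h5 := hlate i h4.le h2
        linarith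
  · have h5 := hlate (T + B + 1) (by omega) le_rfl
    linarith
  · refine ⟨T, by omega, ?_⟩
    have h1 := hz1 T (by omega)
    have h2 := hdiv2 (T + B - T)
    have h3 := hxc2 T
    have h4 := hLv T
    rw [hdd, hdl] at h1 h2
    rw [hnu] at h3 hk3
    rw [abs_le] at h1 h3
    norm_num at h1 h2 h3 hk3 hT2 ⊢
    linarith [h1.1, h1.2, h3.1, h3.2]

end Pool.Agent.Helper867.Smale
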