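import Pool.Agent.Helper867.Smale.Base
import Pool.Agent.Helper867.Smale.Torus
import Pool.Agent.Helper867.Smale.Defs2

set_option autoImplicit false

open Set Filter Topology

namespace Pool.Agent.Helper867.Smale

theorem gg_rate_aux1 (c R : ℝ) (hc : |c| ≤ 2 * nu) (hR : 0 < R) (hR' : R ≤ nu) :
    6 * R ≤ Real.sin (2 * Real.pi * (c + R)) - Real.sin (2 * Real.pi * c) ∧
    Real.sin (2 * Real.pi * (c + R)) - Real.sin (2 * Real.pi * c) ≤ 63 / 10 * R := by
  have hπ1 := Real.pi_gt_d4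
  have hπ2 := Real.pi_lt_d4
  have hπ0 := Real.pi_pos
  constructor
  · rw [Real.sin_sub_sin]
    have e1 : (2 * Real.pi * (c + R) - 2 * Real.pi * c) / 2 = Real.pi * R := by ring
    have e2 : (2 * Real.pi * (c + R) + 2 * Real.pi * c) / 2 = Real.pi * (2 * c + R) := by ring
    rw [e1, e2]
    have hx : 0 < Real.pi * R := by positivity
    have hx1 : Real.pi * R ≤ 1 / 10 ^ 4 := by
      have : Real.pi * R ≤ 3.1416 * nu := by gcongr
      refine this.trans ?_
      unfold nu; norm_num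
    have h1 := Real.sin_gt_sub_cube hx
    have hy : |Real.pi * (2 * c + R)| ≤ 1 / 10 ^ 4 := by
      rw [abs_mul, abs_of_pos hπ0]
      have : |2 * c + R| ≤ 5 * nu := by
        have := abs_add_le (2 * c) R
        rw [abs_mul, abs_of_pos hR, abs_of_pos (by norm_num : (0:ℝ) < 2)] at this
        linarith
      calc Real.pi * |2 * c + R| ≤ 3.1416 * (5 * nu) := by gcongr
        _ ≤ 1 / 10 ^ 4 := by unfold nu; norm_num
    have h2 := Real.one_sub_sq_div_two_le_cos (x := Real.pi * (2 * c + R))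
    have h3 : (Real.pi * (2 * c + R)) ^ 2 ≤ 1 / 10 ^ 8 := by
      rw [← sq_abs]
      calc |Real.pi * (2 * c + R)| ^ 2 ≤ (1 / 10 ^ 4) ^ 2 := by gcongr
        _ = 1 / 10 ^ 8 := by norm_num
    have h4 : (99 / 100 : ℝ) ≤ Real.cos (Real.pi * (2 * c + R)) := by linarith
    have h5 : (Real.pi * R) ^ 3 ≤ Real.pi * R * (1 / 10 ^ 8) := by
      have : (Real.pi * R) ^ 2 ≤ (1 / 10 ^ 4) ^ 2 := by gcongr
      calc (Real.pi * R) ^ 3 = Real.pi * R * (Real.pi * R) ^ 2 := by ring
        _ ≤ Real.pi * R * ((1 / 10 ^ 4) ^ 2) := by gcongr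
        _ = Real.pi * R * (1 / 10 ^ 8) := by norm_num
    have h6 : (99 / 100 : ℝ) * (Real.pi * R) ≤ Real.sin (Real.pi * R) := by linarith
    have h7 : 3.14 * R ≤ Real.pi * R := by gcongr; linarith
    have h8 : 3.1 * R ≤ Real.sin (Real.pi * R) := by linarith
    calc 6 * R ≤ 2 * (3.1 * R) * (99 / 100) := by linarith
      _ ≤ 2 * Real.sin (Real.pi * R) * Real.cos (Real.pi * (2 * c + R)) := by
          have h9 : 0 ≤ 2 * Real.sin (Real.pi * R) := by linarith
          gcongr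
  · have h := (le_abs_self _).trans
      (Real.abs_sin_sub_sin_le (2 * Real.pi * (c + R)) (2 * Real.pi * c))
    have e1 : 2 * Real.pi * (c + R) - 2 * Real.pi * c = 2 * Real.pi * R := by ring
    rw [e1, abs_of_pos (by positivity)] at h
    refine h.trans ?_
    have : Real.pi * R ≤ 3.1416 * R := by gcongr
    linarith

theorem gg_rate_aux2 (A K : ℝ) (hK : Real.cos (4 * Real.pi * A) = K) (m : ℤ) (a c α R : ℝ)
    (ha : |a - (A + m)| ≤ dd) (hc : |c| ≤ 2 * nu) (hR : 0 < R) (hR' : R ≤ nu)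
    (hα : |α| ≤ 3 / NN * R) :
    ∃ q s e : ℝ, |q - K| ≤ 1 / 10 ^ 4 ∧ 6 * R ≤ s ∧ s ≤ 63 / 10 * R ∧ |e| ≤ R / 100 ∧
      gg (a + α) (c + R) - gg a c = nu * (e + q * s) := by
  have hπ1 := Real.pi_gt_d4
  have hπ2 := Real.pi_lt_d4
  have hπ0 := Real.pi_pos
  obtain ⟨hs1, hs2⟩ := gg_rate_aux1 c R hc hR hR'
  refine ⟨Real.cos (4 * Real.pi * a),
    Real.sin (2 * Real.pi * (c + R)) - Real.sin (2 * Real.pi * c),
    (Real.cos (2 * Real.pi * (a + α)) - Real.cos (2 * Real.pi * a)) +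
      (Real.cos (4 * Real.pi * (a + α)) - Real.cos (4 * Real.pi * a)) *
        Real.sin (2 * Real.pi * (c + R)), ?_, hs1, hs2, ?_, ?_⟩
  · have h1 : K = Real.cos (4 * Real.pi * (A + m)) := by
      have e : 4 * Real.pi * (A + m) = 4 * Real.pi * A + ((2 * m : ℤ) : ℝ) * (2 * Real.pi) := by
        push_cast; ring
      rw [e, Real.cos_add_int_mul_two_pi, hK]
    rw [h1]
    refine (Real.abs_cos_sub_cos_le _ _).trans ?_
    have e : 4 * Real.pi * a - 4 * Real.pi * (A + m) = 4 * Real.pi * (a - (A + m)) := by ring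
    rw [e, abs_mul, abs_of_pos (by positivity : 0 < 4 * Real.pi)]
    calc 4 * Real.pi * |a - (A + m)| ≤ 4 * 3.1416 * dd := by gcongr
      _ ≤ 1 / 10 ^ 4 := by unfold dd; norm_num
  · have h1 := Real.abs_cos_sub_cos_le (2 * Real.pi * (a + α)) (2 * Real.pi * a)
    have h2 := Real.abs_cos_sub_cos_le (4 * Real.pi * (a + α)) (4 * Real.pi * a)
    have e1 : 2 * Real.pi * (a + α) - 2 * Real.pi * a = 2 * Real.pi * α := by ring
    have e2 : 4 * Real.pi * (a + α) - 4 * Real.pi * a = 4 * Real.pi * α := by ring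
    rw [e1, abs_mul, abs_of_pos (by positivity : 0 < 2 * Real.pi)] at h1
    rw [e2, abs_mul, abs_of_pos (by positivity : 0 < 4 * Real.pi)] at h2
    have h3 := Real.abs_sin_le_one (2 * Real.pi * (c + R))
    have h4 : |(Real.cos (4 * Real.pi * (a + α)) - Real.cos (4 * Real.pi * a)) *
        Real.sin (2 * Real.pi * (c + R))| ≤ 4 * Real.pi * |α| := by
      rw [abs_mul]
      calc _ ≤ |Real.cos (4 * Real.pi * (a + α)) - Real.cos (4 * Real.pi * a)| * 1 := by gcongr
        _ ≤ 4 * Real.pi * |α| := by rw [mul_one]; exact h2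
    refine (abs_add_le _ _).trans ?_
    have h5 : Real.pi * |α| ≤ 3.1416 * (3 / NN * R) := by gcongr
    have h6 : 3.1416 * (3 / NN * R) ≤ R / 1000 := by
      unfold NN
      norm_num
      linarith
    linarith
  · unfold gg
    ring

theorem gg_rate :
    (∀ (i : Fin 4) (m : ℤ) a c α R, (i = 0 ∨ i = 1) → |a - (aT i + m)| ≤ dd →
      |c| ≤ 2 * nu → 0 < R → R ≤ nu → |α| ≤ 3 / NN * R →
      2 * nu * R ≤ gg (a + α) (c + R) - gg a c ∧ gg (a + α) (c + R) - gg a c ≤ 7 * nu * R) ∧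
    (∀ (i : Fin 4) (m : ℤ) a c α R, (i = 2 ∨ i = 3) → |a - (aT i + m)| ≤ dd →
      |c| ≤ 2 * nu → 0 < R → R ≤ nu → |α| ≤ 3 / NN * R →
      -(7 * nu * R) ≤ gg (a + α) (c + R) - gg a c ∧
        gg (a + α) (c + R) - gg a c ≤ -(2 * nu * R)) := by
  have hnu : 0 < nu := by unfold nu; norm_num
  have c3 := Real.cos_pi_div_three
  constructor
  · intro i m a c α R hi ha hc hR hR' hα
    have hK : Real.cos (4 * Real.pi * aT i) = 1 := by
      rcases hi with rfl | rfl
      · simp [aT]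
      · have : 4 * Real.pi * aT 1 = 2 * Real.pi := by simp [aT]; ring
        rw [this, Real.cos_two_pi]
    obtain ⟨q, s, e, hq, hs1, hs2, he, h⟩ := gg_rate_aux2 (aT i) 1 hK m a c α R ha hc hR hR' hα
    rw [h]
    have hq' := abs_le.1 hq
    have he' := abs_le.1 he
    have b1 : 5 * R ≤ q * s := by nlinarith
    have b2 : q * s ≤ 65 / 10 * R := by nlinarith
    constructor
    · nlinarith
    · nlinarith
  · intro i m a c α R hi ha hc hR hR' hα
    have hK : Real.cos (4 * Real.pi * aT i) = -1 / 2 := by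
      rcases hi with rfl | rfl
      · have : 4 * Real.pi * aT 2 = Real.pi - Real.pi / 3 := by simp [aT]; ring
        rw [this, Real.cos_pi_sub, c3]; norm_num
      · have : 4 * Real.pi * aT 3 = Real.pi / 3 + Real.pi := by simp [aT]; ring
        rw [this, Real.cos_add_pi, c3]; norm_num
    obtain ⟨q, s, e, hq, hs1, hs2, he, h⟩ := gg_rate_aux2 (aT i) (-1 / 2) hK m a c α R ha hc hR hR' hα
    rw [h]
    have hq' := abs_le.1 hq
    have he' := abs_le.1 he
    have b1 : -(4 * R) ≤ q * s := by nlinarith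
    have b2 : q * s ≤ -(25 / 10 * R) := by nlinarith
    constructor
    · nlinarith
    · nlinarith

end Pool.Agent.Helper867.Smale
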