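import Pool.Agent.Helper867.Smale.Base
import Pool.Agent.Helper867.Smale.Torus
import Pool.Agent.Helper867.Smale.Defs2

set_option autoImplicit false

open Set Filter Topology

namespace Pool.Agent.Helper867.Smale

theorem gg_sign_aux1 (x0 a c : ℝ) (m : ℤ) (ha : |a - (x0 + m)| ≤ dd) (hc : |c| ≤ 2 * nu) :
    |Real.cos (2 * Real.pi * a) + Real.cos (4 * Real.pi * a) * Real.sin (2 * Real.pi * c) -
      Real.cos (2 * Real.pi * x0)| ≤ 1 / 10 ^ 4 := by
  have hpi : Real.pi < 4 := by linarith [Real.pi_lt_d2]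
  have hpi0 : 0 < Real.pi := Real.pi_pos
  have h1 : Real.cos (2 * Real.pi * x0) = Real.cos (2 * Real.pi * (x0 + m)) := by
    have : 2 * Real.pi * (x0 + m) = 2 * Real.pi * x0 + m * (2 * Real.pi) := by ring
    rw [this, Real.cos_add_int_mul_two_pi]
  have h2 : |Real.cos (2 * Real.pi * a) - Real.cos (2 * Real.pi * x0)| ≤ 8 * dd := by
    rw [h1]
    refine (Real.abs_cos_sub_cos_le _ _).trans ?_
    have e : 2 * Real.pi * a - 2 * Real.pi * (x0 + m) = 2 * Real.pi * (a - (x0 + m)) := by ring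
    rw [e, abs_mul, abs_of_pos (by positivity : 0 < 2 * Real.pi)]
    have h3 : 2 * Real.pi * |a - (x0 + m)| ≤ 8 * |a - (x0 + m)| := by
      apply mul_le_mul_of_nonneg_right _ (abs_nonneg _)
      linarith
    linarith
  have h4 : |Real.cos (4 * Real.pi * a) * Real.sin (2 * Real.pi * c)| ≤ 16 * nu := by
    rw [abs_mul]
    have h5 : |Real.cos (4 * Real.pi * a)| ≤ 1 := Real.abs_cos_le_one _
    have h6 : |Real.sin (2 * Real.pi * c)| ≤ 16 * nu := by
      refine Real.abs_sin_le_abs.trans ?_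
      rw [abs_mul, abs_of_pos (by positivity : 0 < 2 * Real.pi)]
      have h7 : 2 * Real.pi * |c| ≤ 8 * |c| := by
        apply mul_le_mul_of_nonneg_right _ (abs_nonneg _)
        linarith
      linarith
    calc |Real.cos (4 * Real.pi * a)| * |Real.sin (2 * Real.pi * c)|
        ≤ 1 * |Real.sin (2 * Real.pi * c)| := by gcongr
      _ ≤ 16 * nu := by rw [one_mul]; exact h6
  have e : Real.cos (2 * Real.pi * a) + Real.cos (4 * Real.pi * a) * Real.sin (2 * Real.pi * c) -
      Real.cos (2 * Real.pi * x0) = (Real.cos (2 * Real.pi * a) - Real.cos (2 * Real.pi * x0)) +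
      Real.cos (4 * Real.pi * a) * Real.sin (2 * Real.pi * c) := by ring
  rw [e]
  refine (abs_add_le _ _).trans ((add_le_add h2 h4).trans ?_)
  unfold dd nu
  norm_num

theorem gg_sign_aux_val : Real.cos (2 * Real.pi * aT 0) = 1 ∧ Real.cos (2 * Real.pi * aT 1) = -1 ∧
    Real.cos (2 * Real.pi * aT 2) = 1 / 2 ∧ Real.cos (2 * Real.pi * aT 3) = -(1 / 2) := by
  refine ⟨?_, ?_, ?_, ?_⟩
  · show Real.cos (2 * Real.pi * 0) = 1
    simp
  · show Real.cos (2 * Real.pi * (1 / 2)) = -1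
    rw [show 2 * Real.pi * (1 / 2) = Real.pi by ring, Real.cos_pi]
  · show Real.cos (2 * Real.pi * (1 / 6)) = 1 / 2
    rw [show 2 * Real.pi * (1 / 6) = Real.pi / 3 by ring, Real.cos_pi_div_three]
  · show Real.cos (2 * Real.pi * (1 / 3)) = -(1 / 2)
    rw [show 2 * Real.pi * (1 / 3) = Real.pi - Real.pi / 3 by ring, Real.cos_pi_sub,
      Real.cos_pi_div_three]

theorem gg_sign :
    (∀ (i : Fin 4) (m : ℤ) a c, (i = 0 ∨ i = 2) → |a - (aT i + m)| ≤ dd → |c| ≤ 2 * nu →
      nu * (2 / 5) ≤ gg a c ∧ gg a c ≤ 105 / 100 * nu) ∧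
    (∀ (i : Fin 4) (m : ℤ) a c, (i = 1 ∨ i = 3) → |a - (aT i + m)| ≤ dd → |c| ≤ 2 * nu →
      -(105 / 100 * nu) ≤ gg a c ∧ gg a c ≤ -(nu * (2 / 5))) := by
  obtain ⟨v0, v1, v2, v3⟩ := gg_sign_aux_val
  have hnu : 0 < nu := by unfold nu; norm_num
  constructor
  · intro i m a c hi ha hc
    have h1 := abs_le.1 (gg_sign_aux1 (aT i) a c m ha hc)
    have h2 : 1 / 2 ≤ Real.cos (2 * Real.pi * aT i) ∧ Real.cos (2 * Real.pi * aT i) ≤ 1 := by
      rcases hi with rfl | rfl
      · rw [v0]; norm_num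
      · rw [v2]; norm_num
    unfold gg
    constructor
    · exact mul_le_mul_of_nonneg_left (by linarith [h1.1]) hnu.le
    · rw [mul_comm nu]
      exact mul_le_mul_of_nonneg_right (by linarith [h1.2]) hnu.le
  · intro i m a c hi ha hc
    have h1 := abs_le.1 (gg_sign_aux1 (aT i) a c m ha hc)
    have h2 : -1 ≤ Real.cos (2 * Real.pi * aT i) ∧ Real.cos (2 * Real.pi * aT i) ≤ -(1 / 2) := by
      rcases hi with rfl | rfl
      · rw [v1]; norm_num
      · rw [v3]; norm_num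
    unfold gg
    constructor
    · rw [mul_comm nu, ← neg_mul]
      exact mul_le_mul_of_nonneg_right (by linarith [h1.1]) hnu.le
    · rw [← mul_neg]
      exact mul_le_mul_of_nonneg_left (by linarith [h1.2]) hnu.le

end Pool.Agent.Helper867.Smale
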