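import Pool.Agent.Helper867.Smale.TripDef

set_option autoImplicit false

open Set Filter Topology

namespace Pool.Agent.Helper867.Smale

theorem left_rates_aux_sin {x y : ℝ} (hy : -(1 / 20) ≤ y) (hyx : y ≤ x) (hx : x ≤ 1 / 20) :
    99 / 100 * (x - y) ≤ Real.sin x - Real.sin y := by
  have h := Convex.mul_sub_le_image_sub_of_le_deriv (convex_Icc (-(1 / 20 : ℝ)) (1 / 20))
    (f := Real.sin) (C := 99 / 100) Real.continuous_sin.continuousOn
    Real.differentiable_sin.differentiableOn (by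
      intro t ht
      rw [interior_Icc] at ht
      rw [Real.deriv_sin]
      have h1 : 1 - t ^ 2 / 2 ≤ Real.cos t := Real.one_sub_sq_div_two_le_cos
      have h2 : t ^ 2 ≤ 1 / 400 := by nlinarith [ht.1, ht.2]
      linarith)
  exact h y ⟨hy, hyx.trans hx⟩ x ⟨hy.trans hyx, hx⟩ hyx

theorem left_rates_aux_abs {x y z : ℝ} (h : |x - y| ≤ z) : y - z ≤ x ∧ x ≤ y + z := by
  have := abs_le.mp h
  constructor <;> linarith [this.1, this.2]

/-- the main computation -/
theorem left_rates_aux_gg {a c α L v : ℝ} (hv : |Real.cos (4 * Real.pi * a) - v| ≤ 1 / 1000)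
    (hv1 : |v| ≤ 1) (hc : |c| ≤ 2 * nu) (hL : 0 < L) (hL' : L ≤ 1 / 150)
    (hα : |α| ≤ 3 / NN * L) :
    ∃ w e : ℝ, gg a c - gg (a - α) (c - L) = nu * (Real.cos (4 * Real.pi * a) * w + e) ∧
      6 * L ≤ w ∧ w ≤ 63 / 10 * L ∧ |e| ≤ 1 / 1000 * L := by
  have hpi1 := Real.pi_gt_d4
  have hpi2 := Real.pi_lt_d4
  have hpi := Real.pi_pos
  have hc' := abs_le.mp hc
  have hnu : nu = 1 / 10 ^ 8 := rfl
  have hNN : NN = 10 ^ 8 := rfl
  rw [hnu] at hc'
  rw [hNN] at hα
  refine ⟨Real.sin (2 * Real.pi * c) - Real.sin (2 * Real.pi * (c - L)),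
    (Real.cos (2 * Real.pi * a) - Real.cos (2 * Real.pi * (a - α))) +
    (Real.cos (4 * Real.pi * a) - Real.cos (4 * Real.pi * (a - α))) *
      Real.sin (2 * Real.pi * (c - L)), ?_, ?_, ?_, ?_⟩
  · unfold gg
    ring
  · have h1 := left_rates_aux_sin (x := 2 * Real.pi * c) (y := 2 * Real.pi * (c - L))
      (by nlinarith [hc'.1]) (by nlinarith) (by nlinarith [hc'.2])
    nlinarith
  · have h1 := Real.abs_sin_sub_sin_le (2 * Real.pi * c) (2 * Real.pi * (c - L))
    have h2 : 2 * Real.pi * c - 2 * Real.pi * (c - L) = 2 * Real.pi * L := by ring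
    rw [h2, abs_of_pos (show (0:ℝ) < 2 * Real.pi * L by positivity)] at h1
    have h3 := (abs_le.mp h1).2
    nlinarith
  · have h1 := Real.abs_cos_sub_cos_le (2 * Real.pi * a) (2 * Real.pi * (a - α))
    have h2 : 2 * Real.pi * a - 2 * Real.pi * (a - α) = 2 * Real.pi * α := by ring
    rw [h2, abs_mul, abs_of_pos (by positivity : (0:ℝ) < 2 * Real.pi)] at h1
    have h3 := Real.abs_cos_sub_cos_le (4 * Real.pi * a) (4 * Real.pi * (a - α))
    have h4 : 4 * Real.pi * a - 4 * Real.pi * (a - α) = 4 * Real.pi * α := by ring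
    rw [h4, abs_mul, abs_of_pos (by positivity : (0:ℝ) < 4 * Real.pi)] at h3
    have h5 : |(Real.cos (4 * Real.pi * a) - Real.cos (4 * Real.pi * (a - α))) *
        Real.sin (2 * Real.pi * (c - L))| ≤ 4 * Real.pi * |α| := by
      rw [abs_mul]
      calc _ ≤ (4 * Real.pi * |α|) * 1 := by
            apply mul_le_mul h3 (Real.abs_sin_le_one _) (abs_nonneg _) (by positivity)
        _ = _ := by ring
    have h6 := abs_add_le (Real.cos (2 * Real.pi * a) - Real.cos (2 * Real.pi * (a - α)))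
      ((Real.cos (4 * Real.pi * a) - Real.cos (4 * Real.pi * (a - α))) *
        Real.sin (2 * Real.pi * (c - L)))
    have h7 : 2 * Real.pi * |α| + 4 * Real.pi * |α| ≤ 1 / 1000 * L := by
      have h8 : 6 * Real.pi * |α| ≤ 6 * 3.1416 * (3 / 10 ^ 8 * L) := by
        apply mul_le_mul (by linarith) hα (abs_nonneg _) (by norm_num)
      nlinarith
    linarith

theorem left_rates_aux_cosE {i : Fin 4} {m : ℤ} {a : ℝ} (hi : i = 0 ∨ i = 1)
    (ha : |a - (aT i + m)| ≤ dd) : |Real.cos (4 * Real.pi * a) - 1| ≤ 1 / 1000 := by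
  have hpi2 := Real.pi_lt_d4
  have hpi := Real.pi_pos
  have hdd : dd = 1 / 10 ^ 6 := rfl
  rw [hdd] at ha
  have hcos : Real.cos (4 * Real.pi * (aT i + m)) = 1 := by
    rcases hi with rfl | rfl
    · have : 4 * Real.pi * (aT 0 + m) = 0 + ((2 * m : ℤ) : ℝ) * (2 * Real.pi) := by
        simp [aT]
        ring
      rw [this, Real.cos_add_int_mul_two_pi, Real.cos_zero]
    · have : 4 * Real.pi * (aT 1 + m) = 0 + ((2 * m + 1 : ℤ) : ℝ) * (2 * Real.pi) := by
        simp [aT]
        ring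
      rw [this, Real.cos_add_int_mul_two_pi, Real.cos_zero]
  have hre := Real.abs_cos_sub_cos_le (4 * Real.pi * a) (4 * Real.pi * (aT i + m))
  rw [hcos] at hre
  refine hre.trans ?_
  rw [← mul_sub, abs_mul, abs_of_pos (by positivity : (0:ℝ) < 4 * Real.pi)]
  calc 4 * Real.pi * |a - (aT i + m)| ≤ 4 * 3.1416 * (1 / 10 ^ 6) := by
        apply mul_le_mul (by linarith) ha (abs_nonneg _) (by norm_num)
    _ ≤ 1 / 1000 := by norm_num

theorem left_rates_aux_cosC {i : Fin 4} {m : ℤ} {a : ℝ} (hi : i = 2 ∨ i = 3)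
    (ha : |a - (aT i + m)| ≤ dd) : |Real.cos (4 * Real.pi * a) - (-(1 / 2))| ≤ 1 / 1000 := by
  have hpi2 := Real.pi_lt_d4
  have hpi := Real.pi_pos
  have hdd : dd = 1 / 10 ^ 6 := rfl
  rw [hdd] at ha
  have hcos : Real.cos (4 * Real.pi * (aT i + m)) = -(1 / 2) := by
    rcases hi with rfl | rfl
    · have : 4 * Real.pi * (aT 2 + m) = (Real.pi - Real.pi / 3) +
          ((2 * m : ℤ) : ℝ) * (2 * Real.pi) := by
        simp [aT]
        ring
      rw [this, Real.cos_add_int_mul_two_pi, Real.cos_pi_sub, Real.cos_pi_div_three]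
    · have : 4 * Real.pi * (aT 3 + m) = (Real.pi / 3 + Real.pi) +
          ((2 * m : ℤ) : ℝ) * (2 * Real.pi) := by
        simp [aT]
        ring
      rw [this, Real.cos_add_int_mul_two_pi, Real.cos_add_pi, Real.cos_pi_div_three]
  have hre := Real.abs_cos_sub_cos_le (4 * Real.pi * a) (4 * Real.pi * (aT i + m))
  rw [hcos] at hre
  refine hre.trans ?_
  rw [← mul_sub, abs_mul, abs_of_pos (by positivity : (0:ℝ) < 4 * Real.pi)]
  calc 4 * Real.pi * |a - (aT i + m)| ≤ 4 * 3.1416 * (1 / 10 ^ 6) := by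
        apply mul_le_mul (by linarith) ha (abs_nonneg _) (by norm_num)
    _ ≤ 1 / 1000 := by norm_num

theorem left_rates :
    (∀ c L, |c| ≤ 2 * nu → 0 < L → L ≤ 1 / 150 → -(nu / 2 * L) ≤ rr c - rr (c - L)) ∧
    (∀ (i : Fin 4) (m : ℤ) a c α L, (i = 0 ∨ i = 1) → |a - (aT i + m)| ≤ dd →
      |c| ≤ 2 * nu → 0 < L → L ≤ 1 / 150 → |α| ≤ 3 / NN * L →
      2 * nu * L ≤ gg a c - gg (a - α) (c - L)) ∧
    (∀ (i : Fin 4) (m : ℤ) a c α L, (i = 2 ∨ i = 3) → |a - (aT i + m)| ≤ dd →
      |c| ≤ 2 * nu → 0 < L → L ≤ nu → |α| ≤ 3 / NN * L →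
      -(7 * nu * L) ≤ gg a c - gg (a - α) (c - L) ∧ gg a c - gg (a - α) (c - L) ≤ -(2 * nu * L)) := by
  have hnu : nu = 1 / 10 ^ 8 := rfl
  have hnu0 : 0 < nu := by rw [hnu]; norm_num
  refine ⟨?_, ?_, ?_⟩
  · intro c L hc hL hL'
    have hpi1 := Real.pi_gt_d4
    have hpi2 := Real.pi_lt_d4
    have hpi := Real.pi_pos
    have hc' := abs_le.mp hc
    rw [hnu] at hc' ⊢
    have hd : ∀ t : ℝ, HasDerivAt rr (1 / 10 ^ 4 * (-Real.sin (2 * Real.pi * t) * (2 * Real.pi) - 0 -
        2 * (3 * Real.sin (2 * Real.pi * t) ^ 2 * (Real.cos (2 * Real.pi * t) * (2 * Real.pi))))) t := by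
      intro t
      have h0 : HasDerivAt (fun t : ℝ => 2 * Real.pi * t) (2 * Real.pi) t := by
        simpa using (hasDerivAt_id t).const_mul (2 * Real.pi)
      have h1 := h0.cos
      have h2 := h0.sin
      have h3 := (((h1.sub_const 1).sub ((h2.pow 3).const_mul 2))).const_mul (1 / 10 ^ 4 : ℝ)
      have h4 := h3.congr_deriv (g' := 1 / 10 ^ 4 * (-Real.sin (2 * Real.pi * t) * (2 * Real.pi) - 0 -
        2 * (3 * Real.sin (2 * Real.pi * t) ^ 2 * (Real.cos (2 * Real.pi * t) * (2 * Real.pi))))) (by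
          push_cast
          ring)
      exact h4
    have h := Convex.mul_sub_le_image_sub_of_le_deriv (convex_Icc (c - L) c)
      (f := rr) (C := -(1 / 10 ^ 8 / 2))
      (fun t _ => (hd t).continuousAt.continuousWithinAt)
      (fun t _ => (hd t).differentiableAt.differentiableWithinAt) (by
        intro t ht
        rw [interior_Icc] at ht
        rw [(hd t).deriv]
        set u := 2 * Real.pi * t with hu
        have hu1 : -(1 / 20) ≤ u := by nlinarith [ht.1]
        have hu2 : u ≤ 1 / 10 ^ 6 := by nlinarith [ht.2]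
        have hsa : |Real.sin u| ≤ |u| := Real.abs_sin_le_abs
        have hs1 : |Real.sin u| ≤ 1 / 20 := hsa.trans (abs_le.mpr ⟨hu1, by linarith⟩)
        have hs2 := abs_le.mp hs1
        have hsle : Real.sin u ≤ 1 / 10 ^ 6 := by
          rcases le_total 0 u with h0 | h0
          · exact (le_abs_self _).trans (hsa.trans (by rw [abs_of_nonneg h0]; exact hu2))
          · have : Real.sin u ≤ 0 := Real.sin_nonpos_of_nonpos_of_neg_pi_le h0 (by linarith)
            linarith
        have hcos1 : Real.cos u ≤ 1 := Real.cos_le_one u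
        set S := Real.sin u with hS
        have h6 : S ^ 2 * Real.cos u ≤ S ^ 2 := by nlinarith [sq_nonneg S]
        -- -S - 6 S^2 cos u ≥ -S - 6 S^2
        have h7 : -(2 / 10 ^ 6) ≤ -S - 6 * S ^ 2 := by
          rcases le_total 0 S with h0 | h0
          · nlinarith
          · nlinarith
        have h8 : -(2 / 10 ^ 6) ≤ -S - 6 * (S ^ 2 * Real.cos u) := by linarith
        have h9 : 1 / 10 ^ 4 * (-S * (2 * Real.pi) - 0 -
            2 * (3 * S ^ 2 * (Real.cos u * (2 * Real.pi)))) =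
            (1 / 10 ^ 4 * (2 * Real.pi)) * (-S - 6 * (S ^ 2 * Real.cos u)) := by ring
        rw [h9]
        have h10 : (1 / 10 ^ 4 * (2 * Real.pi)) * (-(2 / 10 ^ 6)) ≤
            (1 / 10 ^ 4 * (2 * Real.pi)) * (-S - 6 * (S ^ 2 * Real.cos u)) :=
          mul_le_mul_of_nonneg_left h8 (by positivity)
        refine le_trans ?_ h10
        nlinarith)
    have h2 := h (c - L) ⟨le_refl _, by linarith⟩ c ⟨by linarith, le_refl _⟩ (by linarith)
    have h3 : c - (c - L) = L := by ring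
    rw [h3] at h2
    linarith
  · intro i m a c α L hi ha hc hL hL' hα
    have hcos := left_rates_aux_cosE hi ha
    obtain ⟨w, e, hg, hw1, hw2, he⟩ := left_rates_aux_gg hcos (by norm_num) hc hL hL' hα
    rw [hg]
    have h1 := left_rates_aux_abs hcos
    have h2 := abs_le.mp he
    have h3 : 99 / 100 * w ≤ Real.cos (4 * Real.pi * a) * w :=
      mul_le_mul_of_nonneg_right (by linarith) (by linarith)
    have h4 : 2 * L ≤ Real.cos (4 * Real.pi * a) * w + e := by linarith
    nlinarith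
  · intro i m a c α L hi ha hc hL hL' hα
    have hcos := left_rates_aux_cosC hi ha
    have hL2 : L ≤ 1 / 150 := by
      rw [hnu] at hL'
      linarith
    obtain ⟨w, e, hg, hw1, hw2, he⟩ := left_rates_aux_gg hcos (by norm_num) hc hL hL2 hα
    rw [hg]
    have h1 := left_rates_aux_abs hcos
    have h2 := abs_le.mp he
    have h3 : -(51 / 100) * w ≤ Real.cos (4 * Real.pi * a) * w :=
      mul_le_mul_of_nonneg_right (by linarith) (by linarith)
    have h3' : Real.cos (4 * Real.pi * a) * w ≤ -(49 / 100) * w :=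
      mul_le_mul_of_nonneg_right (by linarith) (by linarith)
    have h4 : -(7 * L) ≤ Real.cos (4 * Real.pi * a) * w + e := by linarith
    have h5 : Real.cos (4 * Real.pi * a) * w + e ≤ -(2 * L) := by linarith
    constructor <;> nlinarith

end Pool.Agent.Helper867.Smale
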