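import Pool.Agent.Helper867.Smale.TripDef
import Pool.Agent.Helper867.Smale.L_rr_props
import Pool.Agent.Helper867.Smale.L_gg_props
import Pool.Agent.Helper867.Smale.L_gg_sign
import Pool.Agent.Helper867.Smale.L_gg_rate
import Pool.Agent.Helper867.Smale.L_left_rates

set_option autoImplicit false

open Set Filter Topology

namespace Pool.Agent.Helper867.Smale

theorem sys1_of_near_aux_norm (a b c a' b' c' : ℝ) :
    ‖(![a, b, c] : Fin 3 → ℝ) - ![a', b', c']‖ ≤ mx (a - a') (b - b') (c - c') := by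
  have h0 : 0 ≤ mx (a - a') (b - b') (c - c') := (abs_nonneg (a - a')).trans (le_max_left _ _)
  rw [pi_norm_le_iff_of_nonneg h0]
  intro i
  fin_cases i
  · exact le_max_left _ _
  · exact (le_max_left _ _).trans (le_max_right _ _)
  · exact (le_max_right _ _).trans (le_max_right _ _)

theorem sys1_of_near_aux_b {u : (Fin 3 → ℝ) → (Fin 3 → ℝ)} (h : ∀ p, ‖u p‖ ≤ ep) (p : Fin 3 → ℝ)
    (i : Fin 3) : |u p i| ≤ ep := by
  have h1 := norm_le_pi_norm (u p) i
  rw [Real.norm_eq_abs] at h1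
  exact h1.trans (h p)

theorem sys1_of_near_aux_l {u : (Fin 3 → ℝ) → (Fin 3 → ℝ)}
    (h : ∀ p q, ‖u p - u q‖ ≤ ep * ‖p - q‖) (i : Fin 3) (a b c a' b' c' : ℝ) :
    |u ![a, b, c] i - u ![a', b', c'] i| ≤ ep * mx (a - a') (b - b') (c - c') := by
  have h1 := norm_le_pi_norm (u ![a, b, c] - u ![a', b', c']) i
  rw [Real.norm_eq_abs, Pi.sub_apply] at h1
  refine h1.trans ((h _ _).trans ?_)
  have hep : (0 : ℝ) ≤ ep := by unfold ep; positivity
  exact mul_le_mul_of_nonneg_left (sys1_of_near_aux_norm a b c a' b' c') hep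

theorem sys1_of_near_aux_r {u : (Fin 3 → ℝ) → (Fin 3 → ℝ)}
    (h : ∀ p q, ‖u p - u q‖ ≤ ep * ‖p - q‖) (i : Fin 3) (a b c α σ R : ℝ) (hR : 0 < R)
    (hα : |α| ≤ 3 / NN * R) (hσ : |σ| ≤ R) :
    |u ![a + α, b + σ, c + R] i - u ![a, b, c] i| ≤ ep * R := by
  refine (sys1_of_near_aux_l h i _ _ _ _ _ _).trans ?_
  have hep : (0 : ℝ) ≤ ep := by unfold ep; positivity
  refine mul_le_mul_of_nonneg_left ?_ hep
  have hNN : (3 : ℝ) / NN ≤ 1 := by unfold NN; norm_num
  have hα' : |α| ≤ R := by nlinarith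
  unfold mx
  rw [add_sub_cancel_left, add_sub_cancel_left, add_sub_cancel_left, abs_of_pos hR]
  exact max_le hα' (max_le hσ le_rfl)

theorem sys1_of_near_aux_s {u : (Fin 3 → ℝ) → (Fin 3 → ℝ)}
    (h : ∀ p q, ‖u p - u q‖ ≤ ep * ‖p - q‖) (i : Fin 3) (a b c α σ L : ℝ) (hL : 0 < L)
    (hα : |α| ≤ 3 / NN * L) (hσ : |σ| ≤ L) :
    |u ![a, b, c] i - u ![a - α, b - σ, c - L] i| ≤ ep * L := by
  have h1 := sys1_of_near_aux_r h i (a - α) (b - σ) (c - L) α σ L hL hα hσ
  rw [sub_add_cancel, sub_add_cancel, sub_add_cancel] at h1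
  exact h1

set_option maxHeartbeats 4000000 in
theorem sys1_of_near (F : (Fin 3 → ℝ) → (Fin 3 → ℝ)) (hF : Continuous F) (h : Cl F F0 ep) :
    ∃ S : Sys1, ∀ p, F (ee p) = ee (S.step p) := by
  obtain ⟨u, hu⟩ : ∃ u : (Fin 3 → ℝ) → (Fin 3 → ℝ), ∀ p, u p = F p - F0 p := ⟨_, fun _ => rfl⟩
  have hub : ∀ p, ‖u p‖ ≤ ep := fun p => by rw [hu]; exact h.1 p
  have hul : ∀ p q, ‖u p - u q‖ ≤ ep * ‖p - q‖ := fun p q => by rw [hu, hu]; exact h.2 p q
  have hep0 : (0 : ℝ) < ep := by unfold ep; positivity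
  have hnu0 : (0 : ℝ) < nu := by unfold nu; positivity
  have hepnu : (100 : ℝ) * ep ≤ nu := by unfold ep nu; norm_num
  have hepdl : (1 : ℝ) / 10 ^ 6 + ep ≤ dl := by unfold ep dl; norm_num
  have hcu : Continuous u := by
    have : LipschitzWith ⟨ep, hep0.le⟩ u := LipschitzWith.of_dist_le_mul fun x y => by
      rw [dist_eq_norm, dist_eq_norm]
      exact hul x y
    exact this.continuous
  have hc3 : Continuous (fun p : ℝ × ℝ × ℝ => (![p.1, p.2.1, p.2.2] : Fin 3 → ℝ)) := by
    refine continuous_pi fun i => ?_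
    fin_cases i
    · exact continuous_fst
    · exact continuous_fst.comp continuous_snd
    · exact continuous_snd.comp continuous_snd
  have hcui : ∀ i : Fin 3, Continuous (fun p : ℝ × ℝ × ℝ => u ![p.1, p.2.1, p.2.2] i) := fun i =>
    (continuous_apply i).comp (hcu.comp hc3)
  obtain ⟨r1, r2, -, -, r5, r6, r7⟩ := rr_props
  obtain ⟨g1, g2, g3, -⟩ := gg_props
  obtain ⟨s1, s2⟩ := gg_sign
  obtain ⟨q1, q2⟩ := gg_rate
  obtain ⟨l1, l2, l3⟩ := left_rates
  have hcg : Continuous (fun p : ℝ × ℝ × ℝ => gg p.1 p.2.2) :=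
    g1.comp (continuous_fst.prodMk (continuous_snd.comp continuous_snd))
  have hrr : ∀ c R : ℝ, |c| ≤ 2 * nu → 0 < R → R ≤ nu → |rr (c + R) - rr c| ≤ nu / 2 * R := by
    intro c R hc hR hRn
    have h1 := abs_le.1 hc
    have h2 := r7 (c + R) c (abs_le.2 ⟨by linarith [h1.1], by linarith [h1.2]⟩)
      (hc.trans (by linarith))
    rwa [add_sub_cancel_left, abs_of_pos hR] at h2
  have hrl : ∀ c L : ℝ, |c| ≤ 2 * nu → 0 < L → L ≤ nu → |rr c - rr (c - L)| ≤ nu / 2 * L := by
    intro c L hc hL hLn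
    have h1 := abs_le.1 hc
    have h2 := r7 c (c - L) (hc.trans (by linarith))
      (abs_le.2 ⟨by linarith [h1.1], by linarith [h1.2]⟩)
    rwa [sub_sub_cancel, abs_of_pos hL] at h2
  have hmul : ∀ R : ℝ, 0 < R → 100 * (ep * R) ≤ nu * R := by
    intro R hR
    have := mul_le_mul_of_nonneg_right hepnu hR.le
    linarith
  refine ⟨{ h1 := fun a b c => u ![a, b, c] 0
            h2 := fun a b c => u ![a, b, c] 1
            g := fun a b c => gg a c + u ![a, b, c] 2
            r := rr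
            cont1 := hcui 0
            cont2 := hcui 1
            contg := hcg.add (hcui 2)
            contr := r1
            b1 := fun a b c => sys1_of_near_aux_b hub _ 0
            b2 := fun a b c => sys1_of_near_aux_b hub _ 1
            bg := ?_
            lip1 := sys1_of_near_aux_l hul 0
            lip2 := sys1_of_near_aux_l hul 1
            lipg := ?_
            lipr := r2
            smallr := r5
            trap := r6
            signP := ?_
            signN := ?_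
            rateE := ?_
            rateC := ?_
            rateEL := ?_
            rateCL := ?_ }, ?_⟩
  · intro a b c
    have h1 := abs_le.1 (g2 a c)
    have h2 := abs_le.1 (sys1_of_near_aux_b hub ![a, b, c] 2)
    exact abs_le.2 ⟨by linarith [h1.1, h2.1], by linarith [h1.2, h2.2]⟩
  · intro a b c a' b' c'
    have h1 := g3 a c a' c'
    have h2 := sys1_of_near_aux_l hul 2 a b c a' b' c'
    have h3 : max |a - a'| |c - c'| ≤ mx (a - a') (b - b') (c - c') :=
      max_le (le_max_left _ _) ((le_max_right _ _).trans (le_max_right _ _))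
    have h4 : 0 ≤ mx (a - a') (b - b') (c - c') := (abs_nonneg (a - a')).trans (le_max_left _ _)
    have h5 : (gg a c + u ![a, b, c] 2) - (gg a' c' + u ![a', b', c'] 2) =
        (gg a c - gg a' c') + (u ![a, b, c] 2 - u ![a', b', c'] 2) := by ring
    rw [h5]
    refine (abs_add_le _ _).trans ?_
    have h6 : 1 / 10 ^ 6 * max |a - a'| |c - c'| ≤ 1 / 10 ^ 6 * mx (a - a') (b - b') (c - c') :=
      mul_le_mul_of_nonneg_left h3 (by positivity)
    have h7 := mul_le_mul_of_nonneg_right hepdl h4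
    linarith
  · intro i m a b c hi ha hc
    have h1 := s1 i m a c hi ha hc
    have h2 := abs_le.1 (sys1_of_near_aux_b hub ![a, b, c] 2)
    exact ⟨by linarith [h1.1, h2.1], by linarith [h1.2, h2.2]⟩
  · intro i m a b c hi ha hc
    have h1 := s2 i m a c hi ha hc
    have h2 := abs_le.1 (sys1_of_near_aux_b hub ![a, b, c] 2)
    exact ⟨by linarith [h1.1, h2.1], by linarith [h1.2, h2.2]⟩
  · intro i m a b c α σ R hi ha hc hR hRn hα hσ
    have h1 := q1 i m a c α R hi ha hc hR hRn hα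
    have h2 := abs_le.1 (sys1_of_near_aux_r hul 2 a b c α σ R hR hα hσ)
    have h3 := abs_le.1 (hrr c R hc hR hRn)
    have h4 := hmul R hR
    have h5 : 0 < nu * R := mul_pos hnu0 hR
    exact ⟨by linarith [h1.1, h2.1, h3.1], by linarith [h1.2, h2.2, h3.2]⟩
  · intro i m a b c α σ R hi ha hc hR hRn hα hσ
    have h1 := q2 i m a c α R hi ha hc hR hRn hα
    have h2 := abs_le.1 (sys1_of_near_aux_r hul 2 a b c α σ R hR hα hσ)
    have h3 := abs_le.1 (hrr c R hc hR hRn)
    have h4 := hmul R hR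
    have h5 : 0 < nu * R := mul_pos hnu0 hR
    exact ⟨by linarith [h1.1, h2.1, h3.1], by linarith [h1.2, h2.2, h3.2]⟩
  · intro i m a b c α σ L hi ha hc hL hLn hα hσ
    have h1 := l2 i m a c α L hi ha hc hL hLn hα
    have h2 := abs_le.1 (sys1_of_near_aux_s hul 2 a b c α σ L hL hα hσ)
    have h3 := l1 c L hc hL hLn
    have h4 := hmul L hL
    have h5 : 0 < nu * L := mul_pos hnu0 hL
    linarith [h2.1]
  · intro i m a b c α σ L hi ha hc hL hLn hα hσ
    have h1 := l3 i m a c α L hi ha hc hL hLn hα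
    have h2 := abs_le.1 (sys1_of_near_aux_s hul 2 a b c α σ L hL hα hσ)
    have h3 := abs_le.1 (hrl c L hc hL hLn)
    have h4 := hmul L hL
    have h5 : 0 < nu * L := mul_pos hnu0 hL
    exact ⟨by linarith [h1.1, h2.1, h3.1], by linarith [h1.2, h2.2, h3.2]⟩
  · intro p
    have hp : F (ee p) = u (ee p) + F0 (ee p) := by rw [hu]; abel
    rw [hp]
    funext i
    fin_cases i
    · change u (ee p) 0 + (NN * p.1 - p.2.1) = NN * p.1 - p.2.1 + u ![p.1, p.2.1, p.2.2] 0
      rw [add_comm]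
      rfl
    · change u (ee p) 1 + p.1 = p.1 + u ![p.1, p.2.1, p.2.2] 1
      rw [add_comm]
      rfl
    · change u (ee p) 2 + (p.2.2 + rr p.2.2 + gg p.1 p.2.2) =
        p.2.2 + rr p.2.2 + (gg p.1 p.2.2 + u ![p.1, p.2.1, p.2.2] 2)
      have : ee p = ![p.1, p.2.1, p.2.2] := rfl
      rw [this]
      ring

end Pool.Agent.Helper867.Smale
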