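import Pool.Agent.Helper867.Smale.TripDef
import Pool.Agent.Helper867.Smale.L_sys1_of_near
import Pool.Agent.Helper867.Smale.L_kink
import Pool.Agent.Helper867.Smale.L_kink_cl
import Pool.Agent.Helper867.Smale.L_consts1
import Pool.Agent.Helper867.Smale.L_control_leaf
import Pool.Agent.Helper867.Smale.L_sep_centres
import Pool.Agent.Helper867.Smale.L_leaf_window
import Pool.Agent.Helper867.Smale.L_exists_leaf1
import Pool.Agent.Helper867.Smale.L_trip_build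
import Pool.Agent.Helper867.Smale.L_stage_build

set_option autoImplicit false

open Set Filter Topology

namespace Pool.Agent.Helper867.Smale

theorem perturb_core_aux_mono {F G : (Fin 3 → ℝ) → (Fin 3 → ℝ)} {a b : ℝ} (h : Cl F G a)
    (hab : a ≤ b) : Cl F G b :=
  ⟨fun p => (h.1 p).trans hab, fun p q => (h.2 p q).trans
    (mul_le_mul_of_nonneg_right hab (norm_nonneg _))⟩

theorem perturb_core_aux_trans {F G H : (Fin 3 → ℝ) → (Fin 3 → ℝ)} {a b : ℝ} (h : Cl G H a)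
    (h' : Cl H F b) : Cl G F (a + b) := by
  constructor
  · intro p
    have e : G p - F p = (G p - H p) + (H p - F p) := by abel
    rw [e]
    exact (norm_add_le _ _).trans (add_le_add (h.1 p) (h'.1 p))
  · intro p q
    have e : (G p - F p) - (G q - F q) = ((G p - H p) - (G q - H q)) +
        ((H p - F p) - (H q - F q)) := by abel
    rw [e, add_mul]
    exact (norm_add_le _ _).trans (add_le_add (h.2 p q) (h'.2 p q))

theorem perturb_core_aux_ee {p q : ℝ × ℝ × ℝ} (h : ee p = ee q) : p = q := by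
  have h0 := congrFun h 0
  have h1 := congrFun h 1
  have h2 := congrFun h 2
  exact Prod.ext h0 (Prod.ext h1 h2)

theorem perturb_core_aux_succ (S : Sys1) (p : ℝ × ℝ × ℝ) (n : ℕ) :
    S.orb p (n + 1) = S.step (S.orb p n) := Function.iterate_succ_apply' S.step n p

theorem perturb_core (H : (Fin 3 → ℝ) → (Fin 3 → ℝ)) (hH : ContDiff ℝ 2 H) (εH δ M : ℝ)
    (hδ : 0 < δ) (hεδ : εH + δ < ep) (hcl : Cl H F0 εH)
    (hper : ∀ (p : Fin 3 → ℝ) (m : Fin 3 → ℤ),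
      H (p + fun i => (m i : ℝ)) - F0 (p + fun i => (m i : ℝ)) = H p - F0 p)
    (h2 : ∀ p, ‖iteratedFDeriv ℝ 2 (fun q => H q - F0 q) p‖ ≤ M)
    (hstab : ∀ G, ContDiff ℝ 1 G →
      (∀ (p : Fin 3 → ℝ) (m : Fin 3 → ℤ), pr (G (p + fun i => (m i : ℝ))) = pr (G p)) →
      Cl G H δ → ∃ g : Dyn 1, IsLift 1 G g.1)
    (ω0 : ℕ → Fin 4) (n0 : ℕ) (η0 η κ : ℝ) (hκ : 0 < κ)
    (hpre : ∀ S : Sys1, (∀ p, ‖H (ee p) - ee (S.step p)‖ ≤ δ) → Pre S ω0 n0 η0 κ)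
    (hη : 0 < η) (hηη : η ≤ η0) (hη0 : η0 ≤ nu / 2) :
    ∃ (g : Dyn 1) (G : (Fin 3 → ℝ) → (Fin 3 → ℝ)) (S : Sys1), IsLift 1 G g.1 ∧ Cl G H δ ∧
      (∀ p, G (ee p) = ee (S.step p)) ∧ Stage S ω0 n0 η0 η := by
  have hεH : 0 ≤ εH := (norm_nonneg _).trans (hcl.1 0)
  have hclep : Cl H F0 ep := perturb_core_aux_mono hcl (by linarith)
  have hM0 : 0 ≤ M := (norm_nonneg _).trans (h2 0)
  obtain ⟨C, hC, hkink⟩ := kink
  obtain ⟨ε, hε, hε1, hεC⟩ : ∃ ε : ℝ, 0 < ε ∧ ε ≤ 1 / 1000 ∧ ε * C ≤ δ := by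
    refine ⟨min (1 / 1000) (δ / C), lt_min (by norm_num) (by positivity), min_le_left _ _, ?_⟩
    rw [← le_div_iff₀ hC]
    exact min_le_right _ _
  obtain ⟨t, ϱ, τ, B, P, D, nc, ht, htη, ht2, hB, hP1, hbig1, hbig2, hnD, hPD, hϱ, hϱ4, hϱ2, hW,
    hϱn, hτ, hτ2⟩ := consts1 n0 η κ ε (M + 2) hη hκ hε (by linarith)
  obtain ⟨n1, hn1⟩ : ∃ n1, n1 = n0 + nc := ⟨_, rfl⟩
  obtain ⟨n2, hn2⟩ : ∃ n2, n2 = n1 + P := ⟨_, rfl⟩
  have e10 : n1 - n0 = nc := by omega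
  have e21 : n2 - n1 = P := by omega
  have e2 : n0 + nc + P = n2 := by omega
  have h01 : n0 ≤ n1 := by omega
  have h12 : n1 < n2 := by omega
  rw [← e10] at hW hϱn
  rw [← e21] at hbig1 hbig2 hPD
  rw [e2] at hτ2
  obtain ⟨S1, hS1⟩ := sys1_of_near H hH.continuous hclep
  have hpre1 : Pre S1 ω0 n0 η0 κ := hpre S1 (fun p => by
    rw [hS1 p, sub_self, norm_zero]
    exact hδ.le)
  obtain ⟨ω, x, hag, hx1, hCc, hE, hxc1⟩ :=
    control_leaf S1 ω0 n0 n2 (h01.trans h12.le) η0 κ hκ hpre1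
  -- the dynamics of `H`
  have hH1 : ContDiff ℝ 1 H ∧
      (∀ (p : Fin 3 → ℝ) (m : Fin 3 → ℤ), pr (H (p + fun i => (m i : ℝ))) = pr (H p)) ∧
      Cl H H δ := by
    apply kink_cl H hH hper (fun _ => 0) contDiff_const (fun _ _ => rfl) C ε δ hC hε hεC
      (fun p => ⟨le_rfl, hC.le⟩) (fun p q => by
        rw [sub_self, abs_zero]
        positivity) H (fun p i => by
        by_cases hi : i = 2
        · rw [if_pos hi, hi]
          ring
        · rw [if_neg hi])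
  obtain ⟨g1, hg1⟩ := hstab H hH1.1 hH1.2.1 hH1.2.2
  have hgS1 : ∀ p, g1.1 (pr (ee p)) = pr (ee (S1.step p)) := by
    intro p
    rw [← hg1.2, hS1]
  have hsep1 : ∀ n m, n1 ≤ m → m < n2 → n ≠ m →
      ∃ i, 2 * ϱ < ‖((ee (S1.orb x n) i - ee (S1.orb x m) i : ℝ) : UnitAddCircle)‖ :=
    fun n m h1 h2 h3 => sep_centres g1.1 S1 hgS1 ω n0 n1 n2 D ϱ h01 hnD hPD hϱ hϱ2 hCc hE x x
      hx1.2.2 hx1.2.2 n m h1 h2 h3
  obtain ⟨ψ, hψ2, hψper, hψC, hψL, hψ0, hψW⟩ := hkink ϱ τ hϱ hϱ4 hτ (Finset.Ico n1 n2)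
    (fun n => ee (S1.orb x n)) (by
      intro n _ m hm hnm
      rw [Finset.mem_Ico] at hm
      exact hsep1 n m hm.1 hm.2 hnm)
  have hψx : ∀ n, ψ (ee (S1.orb x n)) = 0 := by
    intro n
    by_cases hn : n ∈ Finset.Ico n1 n2
    · have h := (hψW n hn (ee (S1.orb x n)) (fun i => by
        rw [sub_self, abs_zero]
        positivity)).2
      rw [sub_self, abs_zero] at h
      exact le_antisymm h (hψC _).1
    · apply hψ0
      intro m hm
      have hnm : n ≠ m := by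
        rintro rfl
        exact hn hm
      rw [Finset.mem_Ico] at hm
      obtain ⟨i, hi⟩ := hsep1 n m hm.1 hm.2 hnm
      exact ⟨i, by linarith⟩
  obtain ⟨G, hGdef⟩ : ∃ G : (Fin 3 → ℝ) → (Fin 3 → ℝ), G = fun p i =>
    if i = 2 then H p 2 - ε * ψ p else H p i := ⟨_, rfl⟩
  have hG : ∀ p i, G p i = if i = 2 then H p 2 - ε * ψ p else H p i := by
    intro p i
    rw [hGdef]
  obtain ⟨hG1, hGper, hGcl⟩ := kink_cl H hH hper ψ hψ2 hψper C ε δ hC hε hεC hψC hψL G hG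
  obtain ⟨g, hg⟩ := hstab G hG1 hGper hGcl
  obtain ⟨S, hS⟩ := sys1_of_near G hG1.continuous
    (perturb_core_aux_mono (perturb_core_aux_trans hGcl hcl) (by linarith))
  have hgS : ∀ p, g.1 (pr (ee p)) = pr (ee (S.step p)) := by
    intro p
    rw [← hg.2, hS]
  have horb : ∀ n, S.orb x n = S1.orb x n := by
    intro n
    induction n with
    | zero => rfl
    | succ n ih =>
      rw [perturb_core_aux_succ, perturb_core_aux_succ, ih]
      apply perturb_core_aux_ee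
      rw [← hS, ← hS1]
      funext i
      rw [hG]
      by_cases hi : i = 2
      · rw [if_pos hi, hψx n, hi]
        ring
      · rw [if_neg hi]
  have hx : Leaf S ω 0 0 x := by
    refine ⟨hx1.1, hx1.2.1, fun n => ?_⟩
    rw [horb]
    exact hx1.2.2 n
  have hpreS : Pre S ω0 n0 η0 κ := hpre S (fun p => by
    rw [← hS p, norm_sub_rev]
    exact hGcl.1 _)
  obtain ⟨ay, hay⟩ := exists_leaf1 S ω 0 r0 (by norm_num)
  obtain ⟨az, haz⟩ := exists_leaf1 S ω 0 (-t) (by norm_num)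
  obtain ⟨y, hydef⟩ : ∃ y : ℝ × ℝ × ℝ, y = (ay, 0, r0) := ⟨_, rfl⟩
  obtain ⟨z, hzdef⟩ : ∃ z : ℝ × ℝ × ℝ, z = (az, 0, -t) := ⟨_, rfl⟩
  rw [← hydef] at hay
  rw [← hzdef] at haz
  have hy : Leaf S ω 0 r0 y := ⟨by rw [hydef], by rw [hydef], hay⟩
  have hz : Leaf S ω 0 (-t) z := ⟨by rw [hzdef], by rw [hzdef], haz⟩
  have hxc : ∀ n, n0 < n → |(S.orb x n).2.2| ≤ 18 / 10 * nu := by
    intro n hn
    rw [horb]
    exact hxc1 n hn
  have hout : ∀ q : ℝ × ℝ × ℝ, (∀ k, |(S.orb q k).1 - arc ω k| ≤ dd) →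
      ∀ n, ¬ (n1 ≤ n ∧ n < n2) → ψ (ee (S.orb q n)) = 0 := by
    intro q hq n hn
    apply hψ0
    intro m hm
    rw [Finset.mem_Ico] at hm
    have hnm : n ≠ m := by
      rintro rfl
      exact hn hm
    obtain ⟨i, hi⟩ := sep_centres g.1 S hgS ω n0 n1 n2 D ϱ h01 hnD hPD hϱ hϱ2 hCc hE x q
      hx.2.2 hq n m hm.1 hm.2 hnm
    rw [horb] at hi
    exact ⟨i, by linarith⟩
  have hwin := fun n hn1 hn2 => leaf_window S ω0 ω n0 n1 n2 η0 κ ϱ τ t h01 h12.le hκ hη0 hpreS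
    hag hCc x y z hx hy hz ht ht2 hxc hϱn hτ2 n hn1 hn2
  have hin : ∀ n, n1 ≤ n → n < n2 → ψ (ee (S.orb x n)) = 0 ∧
      17 / 20 * ((S.orb y n).2.2 - (S.orb x n).2.2) ≤ ψ (ee (S.orb y n)) ∧
      ψ (ee (S.orb y n)) ≤ (S.orb y n).2.2 - (S.orb x n).2.2 ∧
      17 / 20 * ((S.orb x n).2.2 - (S.orb z n).2.2) ≤ ψ (ee (S.orb z n)) ∧
      ψ (ee (S.orb z n)) ≤ (S.orb x n).2.2 - (S.orb z n).2.2 := by
    intro n hn1' hn2'
    obtain ⟨w1, w2, w3, w4⟩ := hwin n hn1' hn2'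
    have hmem : n ∈ Finset.Ico n1 n2 := Finset.mem_Ico.2 ⟨hn1', hn2'⟩
    have k1 := hψW n hmem (ee (S.orb y n)) (by rw [← horb]; exact w1)
    have k2 := hψW n hmem (ee (S.orb z n)) (by rw [← horb]; exact w2)
    have e1 : |ee (S.orb y n) 2 - ee (S1.orb x n) 2| = (S.orb y n).2.2 - (S.orb x n).2.2 := by
      rw [← horb]
      exact abs_of_nonneg (by show 0 ≤ (S.orb y n).2.2 - (S.orb x n).2.2; linarith)
    have e2 : |ee (S.orb z n) 2 - ee (S1.orb x n) 2| = (S.orb x n).2.2 - (S.orb z n).2.2 := by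
      rw [← horb, abs_sub_comm]
      exact abs_of_nonneg (by show 0 ≤ (S.orb x n).2.2 - (S.orb z n).2.2; linarith)
    rw [e1] at k1
    rw [e2] at k2
    refine ⟨by rw [horb]; exact hψx n, ?_, k1.2, ?_, k2.2⟩
    · linarith [k1.1]
    · linarith [k2.1]
  obtain ⟨e, he⟩ : ∃ e : ℕ → ℝ, ∀ n, e n = if n1 ≤ n ∧ n < n2 then 2 * ε else 0 :=
    ⟨fun n => if n1 ≤ n ∧ n < n2 then 2 * ε else 0, fun n => rfl⟩
  have hdd : dd ≤ 1 / 2 := by
    unfold dd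
    norm_num
  have hyx : ∀ n, |(S.orb y n).1 - (S.orb x n).1| ≤ 1 := by
    intro n
    have h1 := abs_le.1 (hy.2.2 n)
    have h2 := abs_le.1 (hx.2.2 n)
    rw [abs_le]
    constructor <;> linarith [h1.1, h1.2, h2.1, h2.2]
  have hxz : ∀ n, |(S.orb x n).1 - (S.orb z n).1| ≤ 1 := by
    intro n
    have h1 := abs_le.1 (hz.2.2 n)
    have h2 := abs_le.1 (hx.2.2 n)
    rw [abs_le]
    constructor <;> linarith [h1.1, h1.2, h2.1, h2.2]
  have hr0 : 0 < r0 := by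
    unfold r0
    norm_num
  have htb := fun T => trip_build H hH hclep M hM0 h2 ψ ε hε S (fun p => by
      rw [← hS p]
      funext i
      exact hG (ee p) i) n1 n2 T e he x y z hyx hxz (by rw [hy.1, hx.1])
    (by rw [hx.2.1, hy.2.1]; exact hr0) (by rw [hz.1, hx.1])
    (by rw [hx.2.1, hz.2.1]; linarith)
    (fun n hn => ⟨hout x hx.2.2 n hn, hout y hy.2.2 n hn, hout z hz.2.2 n hn⟩) hin
  refine ⟨g, G, S, hg, hGcl, hS, ?_⟩
  exact stage_build S ω0 ω n0 n1 n2 B η0 η κ t ε (M + 2) e hκ hpreS hη hηη hη0 hag h01 h12 hCc hE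
    x y z hx hy hz ht htη ht2 hxc (by linarith) hε hε1 he _ _ _ _ _ _ rfl rfl rfl rfl rfl rfl
    (fun T => (htb T).1) ((htb 0).2 _ _ _ _ _ _ rfl rfl rfl rfl rfl rfl) hW hB hbig1 hbig2

end Pool.Agent.Helper867.Smale
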