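import Pool.Agent.Helper867.Smale.TripDef

set_option autoImplicit false

open Set Filter Topology

namespace Pool.Agent.Helper867.Smale

theorem leaf_cont_aux_mx {a b c M : ℝ} (ha : |a| ≤ M) (hb : |b| ≤ M) (hc : |c| ≤ M) :
    mx a b c ≤ M := max_le ha (max_le hb hc)

theorem leaf_cont_aux_step (S S' : Sys1) (δ : ℝ) (hd : SCl S S' δ) (P P' : ℝ × ℝ × ℝ) :
    |((S.step P).1 - (S'.step P').1) - (NN * (P.1 - P'.1) - (P.2.1 - P'.2.1))| ≤
      ep * mx (P.1 - P'.1) (P.2.1 - P'.2.1) (P.2.2 - P'.2.2) + δ ∧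
    |((S.step P).2.1 - (S'.step P').2.1) - (P.1 - P'.1)| ≤
      ep * mx (P.1 - P'.1) (P.2.1 - P'.2.1) (P.2.2 - P'.2.2) + δ ∧
    |((S.step P).2.2 - (S'.step P').2.2) - (P.2.2 - P'.2.2)| ≤
      |P.2.2 - P'.2.2| / 20 + dl * mx (P.1 - P'.1) (P.2.1 - P'.2.1) (P.2.2 - P'.2.2) + δ := by
  obtain ⟨d1, d2, d3⟩ := hd P'
  have l1 := S.lip1 P.1 P.2.1 P.2.2 P'.1 P'.2.1 P'.2.2
  have l2 := S.lip2 P.1 P.2.1 P.2.2 P'.1 P'.2.1 P'.2.2
  have l3 := S.lipg P.1 P.2.1 P.2.2 P'.1 P'.2.1 P'.2.2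
  have l4 := S.lipr P.2.2 P'.2.2
  rw [abs_le] at d1 d2 d3 l1 l2 l3 l4
  simp only [Sys1.step] at d1 d2 d3 ⊢
  refine ⟨?_, ?_, ?_⟩ <;> rw [abs_le] <;> constructor <;>
    linarith [d1.1, d1.2, d2.1, d2.2, d3.1, d3.2, l1.1, l1.2, l2.1, l2.2, l3.1, l3.2, l4.1, l4.2]

theorem leaf_cont (S S' : Sys1) (δ : ℝ) (hδ : 0 ≤ δ) (hd : SCl S S' δ) (ω : ℕ → Fin 4) (b c : ℝ)
    (p p' : ℝ × ℝ × ℝ) (hp : Leaf S ω b c p) (hp' : Leaf S' ω b c p') (n : ℕ) :
    |(S.orb p n).1 - (S'.orb p' n).1| ≤ (NN + 2) ^ n * δ ∧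
    |(S.orb p n).2.1 - (S'.orb p' n).2.1| ≤ (NN + 2) ^ n * δ ∧
    |(S.orb p n).2.2 - (S'.orb p' n).2.2| ≤ (NN + 2) ^ n * δ := by
  have hNN : NN = 10 ^ 8 := rfl
  have hep : ep = 1 / 10 ^ 20 := rfl
  have hdl : dl = 1 / 10 ^ 5 := rfl
  set α : ℕ → ℝ := fun n => (S.orb p n).1 - (S'.orb p' n).1 with hα
  set σ : ℕ → ℝ := fun n => (S.orb p n).2.1 - (S'.orb p' n).2.1 with hσ
  set γ : ℕ → ℝ := fun n => (S.orb p n).2.2 - (S'.orb p' n).2.2 with hγ
  have hst : ∀ n, |α (n+1) - (NN * α n - σ n)| ≤ ep * mx (α n) (σ n) (γ n) + δ ∧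
      |σ (n+1) - α n| ≤ ep * mx (α n) (σ n) (γ n) + δ ∧
      |γ (n+1) - γ n| ≤ |γ n| / 20 + dl * mx (α n) (σ n) (γ n) + δ := by
    intro n
    have e1 : S.orb p (n+1) = S.step (S.orb p n) := Function.iterate_succ_apply' _ _ _
    have e2 : S'.orb p' (n+1) = S'.step (S'.orb p' n) := Function.iterate_succ_apply' _ _ _
    simp only [hα, hσ, hγ, e1, e2]
    exact leaf_cont_aux_step S S' δ hd _ _
  have hσ0 : σ 0 = 0 := by
    show p.2.1 - p'.2.1 = 0
    rw [hp.1, hp'.1, sub_self]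
  have hγ0 : γ 0 = 0 := by
    show p.2.2 - p'.2.2 = 0
    rw [hp.2.1, hp'.2.1, sub_self]
  have hαb : ∀ n, |α n| ≤ 2 * dd := by
    intro n
    have h1 := abs_le.mp (hp.2.2 n)
    have h2 := abs_le.mp (hp'.2.2 n)
    rw [abs_le]
    simp only [hα]
    constructor <;> linarith [h1.1, h1.2, h2.1, h2.2]
  have h0 : |α 0| ≤ δ := by
    by_contra hc
    push Not at hc
    have hind : ∀ n, |σ n| ≤ |α n| ∧ |γ n| ≤ |α n| ∧ δ < |α n| ∧ 2 ^ n * |α 0| ≤ |α n| := by
      intro n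
      induction n with
      | zero =>
        rw [hσ0, hγ0, abs_zero]
        exact ⟨abs_nonneg _, abs_nonneg _, hc, by simp⟩
      | succ n ih =>
        obtain ⟨i1, i2, i3, i4⟩ := ih
        obtain ⟨s1, s2, s3⟩ := hst n
        have hm : mx (α n) (σ n) (γ n) ≤ |α n| := leaf_cont_aux_mx le_rfl i1 i2
        have hA : 0 < |α n| := lt_of_le_of_lt hδ i3
        have hem : ep * mx (α n) (σ n) (γ n) ≤ |α n| / 10 := by
          rw [hep]; nlinarith
        have hdm : dl * mx (α n) (σ n) (γ n) ≤ |α n| / 10 := by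
          rw [hdl]; nlinarith
        have e1 : |α (n+1)| ≥ |NN * α n - σ n| - |α (n+1) - (NN * α n - σ n)| := by
          have := abs_sub_abs_le_abs_sub (NN * α n - σ n) (α (n+1))
          rw [abs_sub_comm (NN * α n - σ n) (α (n+1))] at this
          linarith
        have e2 : |NN * α n - σ n| ≥ NN * |α n| - |σ n| := by
          have := abs_sub_abs_le_abs_sub (NN * α n) (σ n)
          have hn : |NN * α n| = NN * |α n| := by
            rw [abs_mul, abs_of_pos (by rw [hNN]; norm_num)]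
          rw [hn] at this
          linarith
        have e3 : |σ (n+1)| ≤ |α n| + |σ (n+1) - α n| := by
          have := abs_add_le (α n) (σ (n+1) - α n)
          rw [add_sub_cancel] at this
          exact this
        have e4 : |γ (n+1)| ≤ |γ n| + |γ (n+1) - γ n| := by
          have := abs_add_le (γ n) (γ (n+1) - γ n)
          rw [add_sub_cancel] at this
          exact this
        have e5 : 10 * |α n| ≤ |α (n+1)| := by
          have hn2 : NN * |α n| = 10 ^ 8 * |α n| := by rw [hNN]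
          linarith
        refine ⟨by linarith, by linarith, by linarith, ?_⟩
        rw [pow_succ]
        linarith
    have hpos : 0 < |α 0| := lt_of_le_of_lt hδ hc
    obtain ⟨n, hn⟩ := pow_unbounded_of_one_lt (2 * dd / |α 0|) (show (1:ℝ) < 2 by norm_num)
    rw [div_lt_iff₀ hpos] at hn
    linarith [(hind n).2.2.2, hαb n]
  have hfin : ∀ n, |α n| ≤ (NN + 2) ^ n * δ ∧ |σ n| ≤ (NN + 2) ^ n * δ / 2 ∧
      |γ n| ≤ (NN + 2) ^ n * δ / 2 := by
    intro n
    induction n with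
    | zero =>
      rw [hσ0, hγ0, abs_zero]
      simp only [pow_zero, one_mul]
      exact ⟨h0, by linarith, by linarith⟩
    | succ n ih =>
      obtain ⟨i1, i2, i3⟩ := ih
      obtain ⟨s1, s2, s3⟩ := hst n
      have hX1 : δ ≤ (NN + 2) ^ n * δ := by
        have : (1:ℝ) ≤ (NN + 2) ^ n := one_le_pow₀ (by rw [hNN]; norm_num)
        nlinarith
      have hpe : (NN + 2) ^ (n+1) * δ = (NN + 2) * ((NN + 2) ^ n * δ) := by ring
      rw [hpe]
      set X := (NN + 2) ^ n * δ with hX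
      have hX0 : 0 ≤ X := hδ.trans hX1
      have hm : mx (α n) (σ n) (γ n) ≤ X :=
        leaf_cont_aux_mx i1 (i2.trans (by linarith)) (i3.trans (by linarith))
      have hem : ep * mx (α n) (σ n) (γ n) ≤ X / 10 := by
        rw [hep]; nlinarith
      have hdm : dl * mx (α n) (σ n) (γ n) ≤ X / 10 := by
        rw [hdl]; nlinarith
      have e1 : |α (n+1)| ≤ NN * |α n| + |σ n| + |α (n+1) - (NN * α n - σ n)| := by
        have t1 := abs_add_le (NN * α n - σ n) (α (n+1) - (NN * α n - σ n))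
        rw [add_sub_cancel] at t1
        have t2 := abs_sub (NN * α n) (σ n)
        have hn : |NN * α n| = NN * |α n| := by
          rw [abs_mul, abs_of_pos (by rw [hNN]; norm_num)]
        rw [hn] at t2
        linarith
      have e3 : |σ (n+1)| ≤ |α n| + |σ (n+1) - α n| := by
        have := abs_add_le (α n) (σ (n+1) - α n)
        rw [add_sub_cancel] at this
        exact this
      have e4 : |γ (n+1)| ≤ |γ n| + |γ (n+1) - γ n| := by
        have := abs_add_le (γ n) (γ (n+1) - γ n)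
        rw [add_sub_cancel] at this
        exact this
      have e5 : NN * |α n| ≤ NN * X := by
        have : (0:ℝ) ≤ NN := by rw [hNN]; norm_num
        exact mul_le_mul_of_nonneg_left i1 this
      have e6 : 10 * X ≤ NN * X := by
        rw [hNN]; nlinarith
      refine ⟨by linarith, by linarith, by linarith⟩
  obtain ⟨f1, f2, f3⟩ := hfin n
  have hX0 : 0 ≤ (NN + 2) ^ n * δ := (abs_nonneg _).trans f1
  exact ⟨f1, f2.trans (by linarith), f3.trans (by linarith)⟩

end Pool.Agent.Helper867.Smale
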