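import Pool.Agent.Helper867.Smale.TripDef
import Pool.Agent.Helper867.Smale.L_leaf_cont
import Pool.Agent.Helper867.Smale.L_exists_leaf1

set_option autoImplicit false

open Set Filter Topology

namespace Pool.Agent.Helper867.Smale

theorem pre_open (S : Sys1) (ω0 : ℕ → Fin 4) (n0 : ℕ) (η0 κ : ℝ) (hκ : 0 < κ)
    (h : Pre S ω0 n0 η0 κ) : ∃ δ : ℝ, 0 < δ ∧ ∀ S', SCl S S' δ → Pre S' ω0 n0 η0 (κ / 2) := by
  have hN : (1 : ℝ) ≤ NN + 2 := by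
    unfold NN
    norm_num
  have hpos : (0 : ℝ) < (NN + 2) ^ n0 := by positivity
  refine ⟨κ / (8 * (NN + 2) ^ n0), by positivity, ?_⟩
  intro S' hS ω' hag x' y' hx' hy'
  obtain ⟨a, ha⟩ := exists_leaf1 S ω' 0 0 (by norm_num)
  obtain ⟨a', ha'⟩ := exists_leaf1 S ω' 0 r0 (by norm_num)
  have hx : Leaf S ω' 0 0 (a, 0, 0) := ⟨rfl, rfl, ha⟩
  have hy : Leaf S ω' 0 r0 (a', 0, r0) := ⟨rfl, rfl, ha'⟩
  obtain ⟨h1, h2⟩ := h ω' hag _ _ hx hy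
  have hδ0 : 0 ≤ κ / (8 * (NN + 2) ^ n0) := by positivity
  have hb : ∀ i ≤ n0, (NN + 2) ^ i * (κ / (8 * (NN + 2) ^ n0)) ≤ κ / 8 := by
    intro i hi
    have e1 : (NN + 2) ^ i ≤ (NN + 2) ^ n0 := pow_le_pow_right₀ hN hi
    calc (NN + 2) ^ i * (κ / (8 * (NN + 2) ^ n0)) ≤ (NN + 2) ^ n0 * (κ / (8 * (NN + 2) ^ n0)) :=
          mul_le_mul_of_nonneg_right e1 hδ0
      _ = κ / 8 := by
        field_simp
  refine ⟨?_, ?_⟩
  · intro i hi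
    have k1 := (leaf_cont S S' _ hδ0 hS ω' 0 0 _ _ hx hx' i).2.2.trans (hb i hi)
    have k2 := h1 i hi
    rw [abs_le] at k1 k2 ⊢
    constructor <;> linarith [k1.1, k1.2, k2.1, k2.2]
  · have k1 := (leaf_cont S S' _ hδ0 hS ω' 0 0 _ _ hx hx' n0).2.2.trans (hb n0 le_rfl)
    have k2 := (leaf_cont S S' _ hδ0 hS ω' 0 r0 _ _ hy hy' n0).2.2.trans (hb n0 le_rfl)
    rw [abs_le] at k1 k2
    linarith [k1.1, k1.2, k2.1, k2.2]

end Pool.Agent.Helper867.Smale
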