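import Pool.Agent.Helper867.Smale.TripDef
import Pool.Agent.Helper867.Smale.L_perturb_core
import Pool.Agent.Helper867.Smale.L_mollify
import Pool.Agent.Helper867.Smale.L_sys1_of_near
import Pool.Agent.Helper867.Smale.L_lift_periodic
import Pool.Agent.Helper867.Smale.L_dyn_pert
import Pool.Agent.Helper867.Smale.L_pre_open
import Pool.Agent.Helper867.Smale.L_F0_contDiff
import Pool.Agent.Helper867.Smale.L_F0_periodic
import Pool.Agent.Helper867.Smale.L_pr_eq_iff

set_option autoImplicit false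

open Set Filter Topology

namespace Pool.Agent.Helper867.Smale

theorem perturb_aux_trans {F G H : (Fin 3 → ℝ) → (Fin 3 → ℝ)} {a b : ℝ} (h1 : Cl F G a)
    (h2 : Cl G H b) : Cl F H (a + b) := by
  constructor
  · intro p
    have e : F p - H p = (F p - G p) + (G p - H p) := by abel
    rw [e]
    exact (norm_add_le _ _).trans (add_le_add (h1.1 p) (h2.1 p))
  · intro p q
    have e : F p - H p - (F q - H q) = ((F p - G p) - (F q - G q)) + ((G p - H p) - (G q - H q)) := by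
      abel
    rw [e, add_mul]
    exact (norm_add_le _ _).trans (add_le_add (h1.2 p q) (h2.2 p q))

theorem perturb_aux_mono {F G : (Fin 3 → ℝ) → (Fin 3 → ℝ)} {a b : ℝ} (h1 : Cl F G a)
    (h2 : a ≤ b) : Cl F G b :=
  ⟨fun p => (h1.1 p).trans h2, fun p q =>
    (h1.2 p q).trans (mul_le_mul_of_nonneg_right h2 (norm_nonneg _))⟩

theorem perturb_aux_pr (p : Fin 3 → ℝ) (m : Fin 3 → ℤ) : pr (p + fun i => (m i : ℝ)) = pr p := by
  symm
  rw [pr_eq_iff]
  intro i
  exact ⟨m i, rfl⟩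

theorem perturb_aux_coord (x y : ℝ × ℝ × ℝ) (δ : ℝ) (h : ‖ee x - ee y‖ ≤ δ) :
    |x.1 - y.1| ≤ δ ∧ |x.2.1 - y.2.1| ≤ δ ∧ |x.2.2 - y.2.2| ≤ δ := by
  refine ⟨?_, ?_, ?_⟩
  · have := norm_le_pi_norm (ee x - ee y) 0
    have e : (ee x - ee y) 0 = x.1 - y.1 := by simp [ee]
    rw [e, Real.norm_eq_abs] at this
    exact this.trans h
  · have := norm_le_pi_norm (ee x - ee y) 1
    have e : (ee x - ee y) 1 = x.2.1 - y.2.1 := by simp [ee]
    rw [e, Real.norm_eq_abs] at this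
    exact this.trans h
  · have := norm_le_pi_norm (ee x - ee y) 2
    have e : (ee x - ee y) 2 = x.2.2 - y.2.2 := by simp [ee]
    rw [e, Real.norm_eq_abs] at this
    exact this.trans h

theorem perturb (f : Dyn 1) (F : (Fin 3 → ℝ) → (Fin 3 → ℝ)) (hF : IsLift 1 F f.1) (ε1 : ℝ)
    (hε1 : ε1 < ep) (hcl : Cl F F0 ε1) (S : Sys1) (hS : ∀ p, F (ee p) = ee (S.step p))
    (ω0 : ℕ → Fin 4) (n0 : ℕ) (η0 η κ : ℝ) (hκ : 0 < κ) (hpre : Pre S ω0 n0 η0 κ) (hη : 0 < η)
    (hηη : η ≤ η0) (hη0 : η0 ≤ nu / 2) (δ : ℝ) (hδ : 0 < δ) :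
    ∃ (g : Dyn 1) (G : (Fin 3 → ℝ) → (Fin 3 → ℝ)) (ε2 : ℝ) (S' : Sys1), IsLift 1 G g.1 ∧
      Cl G F δ ∧ ε2 < ep ∧ Cl G F0 ε2 ∧ (∀ p, G (ee p) = ee (S'.step p)) ∧
      Stage S' ω0 n0 η0 η := by
  obtain ⟨δp, hδp, hopen⟩ := pre_open S ω0 n0 η0 κ hκ hpre
  obtain ⟨ε0, hε0, hdyn⟩ := dyn_pert f F hF
  have hε10 : 0 ≤ ε1 := (norm_nonneg _).trans (hcl.1 0)
  have hF1 : ContDiff ℝ 1 F := by
    have := hF.1
    exact_mod_cast this
  have hF01 : ContDiff ℝ 1 F0 := F0_contDiff.of_le (by exact_mod_cast le_top)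
  have hF02 : ContDiff ℝ 2 F0 := F0_contDiff.of_le
    (show ((2 : ℕ∞) : WithTop ℕ∞) ≤ ((⊤ : ℕ∞) : WithTop ℕ∞) from WithTop.coe_le_coe.mpr le_top)
  obtain ⟨d, hd, hd1, hd2, hd3, hd4⟩ : ∃ d : ℝ, 0 < d ∧ 4 * d ≤ δ ∧ 4 * d ≤ δp ∧ 4 * d ≤ ε0 ∧
      4 * d ≤ ep - ε1 := by
    refine ⟨min (min δ δp) (min ε0 (ep - ε1)) / 4, ?_, ?_, ?_, ?_, ?_⟩
    · have : 0 < min (min δ δp) (min ε0 (ep - ε1)) :=
        lt_min (lt_min hδ hδp) (lt_min hε0 (by linarith))
      linarith
    · have : min (min δ δp) (min ε0 (ep - ε1)) ≤ δ := (min_le_left _ _).trans (min_le_left _ _)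
      linarith
    · have : min (min δ δp) (min ε0 (ep - ε1)) ≤ δp := (min_le_left _ _).trans (min_le_right _ _)
      linarith
    · have : min (min δ δp) (min ε0 (ep - ε1)) ≤ ε0 := (min_le_right _ _).trans (min_le_left _ _)
      linarith
    · have : min (min δ δp) (min ε0 (ep - ε1)) ≤ ep - ε1 :=
        (min_le_right _ _).trans (min_le_right _ _)
      linarith
  have hprF : ∀ (p : Fin 3 → ℝ) (m : Fin 3 → ℤ), pr (F (p + fun i => (m i : ℝ))) = pr (F p) := by
    intro p m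
    rw [hF.2, hF.2, perturb_aux_pr]
  have hper := lift_periodic F hF1.continuous (perturb_aux_mono hcl hε1.le) hprF
  obtain ⟨v, hv, hvper, hvcl, M, hM⟩ := mollify (fun p => F p - F0 p) (hF1.sub hF01)
    (fun p m => (hper p m).1) d hd
  have hH2 : ContDiff ℝ 2 (fun p => F0 p + v p) := hF02.add hv
  have hHF : Cl (fun p => F0 p + v p) F d := by
    constructor
    · intro p
      have e : F0 p + v p - F p = v p - (F p - F0 p) := by abel
      change ‖F0 p + v p - F p‖ ≤ d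
      rw [e]
      exact hvcl.1 p
    · intro p q
      have e : F0 p + v p - F p - (F0 q + v q - F q)
          = (v p - (F p - F0 p)) - (v q - (F q - F0 q)) := by abel
      change ‖F0 p + v p - F p - (F0 q + v q - F q)‖ ≤ d * ‖p - q‖
      rw [e]
      exact hvcl.2 p q
  have hHF0 : Cl (fun p => F0 p + v p) F0 (ε1 + d) := by
    rw [add_comm ε1 d]
    exact perturb_aux_trans hHF hcl
  have hHper : ∀ (p : Fin 3 → ℝ) (m : Fin 3 → ℤ),
      (fun p => F0 p + v p) (p + fun i => (m i : ℝ)) - F0 (p + fun i => (m i : ℝ))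
        = (fun p => F0 p + v p) p - F0 p := by
    intro p m
    change F0 (p + fun i => (m i : ℝ)) + v (p + fun i => (m i : ℝ))
      - F0 (p + fun i => (m i : ℝ)) = F0 p + v p - F0 p
    rw [hvper p m]
    abel
  have hH2' : ∀ p, ‖iteratedFDeriv ℝ 2 (fun q => (fun p => F0 p + v p) q - F0 q) p‖ ≤ M := by
    have e : (fun q => (fun p => F0 p + v p) q - F0 q) = v := by
      funext q
      change F0 q + v q - F0 q = v q
      abel
    rw [e]
    exact hM
  obtain ⟨g, G, S', hG, hGH, hGS, hst⟩ := perturb_core (fun p => F0 p + v p) hH2 (ε1 + d) d M hd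
    (by linarith) hHF0 hHper hH2'
    (fun G hG hGper hGH => hdyn G hG hGper
      (perturb_aux_mono (perturb_aux_trans hGH hHF) (by linarith)))
    ω0 n0 η0 η (κ / 2) (by linarith)
    (by
      intro S' hS'
      apply hopen S'
      intro p
      apply perturb_aux_coord
      have e : ee (S.step p) - ee (S'.step p)
          = -((fun p => F0 p + v p) (ee p) - F (ee p))
            + ((fun p => F0 p + v p) (ee p) - ee (S'.step p)) := by
        rw [← hS p]; abel
      rw [e]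
      have h1 := hHF.1 (ee p)
      have h2 := hS' p
      have h3 := norm_add_le (-((fun p => F0 p + v p) (ee p) - F (ee p)))
        ((fun p => F0 p + v p) (ee p) - ee (S'.step p))
      rw [norm_neg] at h3
      linarith)
    hη hηη hη0
  refine ⟨g, G, d + (ε1 + d), S', hG, ?_, by linarith, perturb_aux_trans hGH hHF0, hGS, hst⟩
  exact perturb_aux_mono (perturb_aux_trans hGH hHF) (by linarith)

end Pool.Agent.Helper867.Smale
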