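import Pool.Agent.Helper867.Smale.TripDef
import Pool.Agent.Helper867.Smale.L_leaf_cont
import Pool.Agent.Helper867.Smale.L_exists_leaf1

set_option autoImplicit false

open Set Filter Topology

namespace Pool.Agent.Helper867.Smale

theorem stage_open (S : Sys1) (ω0 : ℕ → Fin 4) (n0 : ℕ) (η0 η : ℝ)
    (h : Stage S ω0 n0 η0 η) : ∃ δ : ℝ, 0 < δ ∧ ∀ S', SCl S S' δ → Stage S' ω0 n0 η0 η := by
  obtain ⟨ω, n1, t, κ, hAg, hn, ht, htη, hκ, H⟩ := h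
  have hN : (1 : ℝ) ≤ NN + 2 := by unfold NN; norm_num
  have hN0 : (0 : ℝ) < NN + 2 := by linarith
  have hpow : 0 < (NN + 2) ^ n1 := pow_pos hN0 n1
  obtain ⟨δ, hδd⟩ : ∃ δ : ℝ, δ = κ / (16 * (NN + 2) ^ n1) := ⟨_, rfl⟩
  have hδ : 0 < δ := by rw [hδd]; positivity
  have hδ2 : ∀ i ≤ n1, (NN + 2) ^ i * δ ≤ κ / 16 := by
    intro i hi
    have h1 : (NN + 2) ^ i ≤ (NN + 2) ^ n1 := pow_le_pow_right₀ hN hi
    calc (NN + 2) ^ i * δ ≤ (NN + 2) ^ n1 * δ := mul_le_mul_of_nonneg_right h1 hδ.le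
      _ = κ / 16 := by rw [hδd]; field_simp
  refine ⟨δ, hδ, ?_⟩
  intro S' hS
  refine ⟨ω, n1, t, κ / 2, hAg, hn, ht, htη, half_pos hκ, ?_⟩
  intro ω' hω' x' y' z' hx' hy' hz'
  have h0 : |(0 : ℝ)| ≤ 1 / 2 := by norm_num
  obtain ⟨ax, hax⟩ := exists_leaf1 S ω' 0 0 h0
  obtain ⟨ay, hay⟩ := exists_leaf1 S ω' 0 r0 h0
  obtain ⟨az, haz⟩ := exists_leaf1 S ω' 0 (-t) h0
  have hx : Leaf S ω' 0 0 (ax, 0, 0) := ⟨rfl, rfl, hax⟩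
  have hy : Leaf S ω' 0 r0 (ay, 0, r0) := ⟨rfl, rfl, hay⟩
  have hz : Leaf S ω' 0 (-t) (az, 0, -t) := ⟨rfl, rfl, haz⟩
  have cx : ∀ i ≤ n1, |(S.orb (ax, 0, 0) i).2.2 - (S'.orb x' i).2.2| ≤ κ / 16 := fun i hi =>
    (leaf_cont S S' δ hδ.le hS ω' 0 0 _ _ hx hx' i).2.2.trans (hδ2 i hi)
  have cy : ∀ i ≤ n1, |(S.orb (ay, 0, r0) i).2.2 - (S'.orb y' i).2.2| ≤ κ / 16 := fun i hi =>
    (leaf_cont S S' δ hδ.le hS ω' 0 r0 _ _ hy hy' i).2.2.trans (hδ2 i hi)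
  have cz : ∀ i ≤ n1, |(S.orb (az, 0, -t) i).2.2 - (S'.orb z' i).2.2| ≤ κ / 16 := fun i hi =>
    (leaf_cont S S' δ hδ.le hS ω' 0 (-t) _ _ hz hz' i).2.2.trans (hδ2 i hi)
  obtain ⟨h1, h2, h3, i, hi, h4⟩ := H ω' hω' _ _ _ hx hy hz
  refine ⟨?_, ?_, ?_, i, hi, ?_⟩
  · intro i hi
    have e1 := abs_le.mp (cx i hi)
    have e2 := abs_le.mp (h1 i hi)
    rw [abs_le]
    constructor
    · linarith [e1.1, e1.2, e2.1, e2.2]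
    · linarith [e1.1, e1.2, e2.1, e2.2]
  · intro i hi0 hi
    have e1 := abs_le.mp (cx i hi)
    have e2 := abs_le.mp (cy i hi)
    have e3 := h2 i hi0 hi
    linarith [e1.1, e1.2, e2.1, e2.2]
  · have e1 := abs_le.mp (cx n1 le_rfl)
    have e2 := abs_le.mp (cy n1 le_rfl)
    linarith [e1.1, e1.2, e2.1, e2.2]
  · have e1 := abs_le.mp (cz i hi)
    linarith [e1.1, e1.2]

end Pool.Agent.Helper867.Smale
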