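import Pool.Agent.Helper867.Smale.Base

set_option autoImplicit false

open Set Filter Topology

namespace Pool.Agent.Helper867.Smale

theorem deriv_dir_aux_lim {k : ℕ} (Φ : (Fin k → ℝ) → (Fin 3 → ℝ)) (q0 : Fin k → ℝ)
    (hΦ : DifferentiableAt ℝ Φ q0) (v : Fin k → ℝ) (j : Fin 3) :
    Tendsto (fun t : ℝ => t⁻¹ * (Φ (q0 + t • v) j - Φ q0 j)) (𝓝[>] 0)
      (𝓝 (fderiv ℝ Φ q0 v j)) := by
  have h1 : HasDerivAt (fun t : ℝ => q0 + t • v) v 0 := by
    have := ((hasDerivAt_id (0 : ℝ)).smul_const v).const_add q0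
    simpa using this
  have h2 : HasDerivAt (fun t : ℝ => Φ (q0 + t • v)) (fderiv ℝ Φ q0 v) 0 := by
    have h3 : HasFDerivAt Φ (fderiv ℝ Φ q0) (q0 + (0 : ℝ) • v) := by
      simpa using hΦ.hasFDerivAt
    exact h3.comp_hasDerivAt (0 : ℝ) h1
  have h4 := (hasDerivAt_pi.1 h2 j).tendsto_slope_zero_right
  simpa using h4

theorem deriv_dir_aux_path {k : ℕ} (q0 v : Fin k → ℝ) :
    Tendsto (fun t : ℝ => q0 + t • v) (𝓝[>] 0) (𝓝 q0) := by
  have : Continuous fun t : ℝ => q0 + t • v := by fun_prop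
  have h := this.tendsto (0 : ℝ)
  simp only [zero_smul, add_zero] at h
  exact h.mono_left nhdsWithin_le_nhds

theorem deriv_dir {k : ℕ} (hk : 2 ≤ k) (Φ : (Fin k → ℝ) → (Fin 3 → ℝ)) (q0 : Fin k → ℝ)
    (hΦ : DifferentiableAt ℝ Φ q0) (hinj : Function.Injective (fderiv ℝ Φ q0))
    (hcone : ∀ᶠ q in 𝓝 q0,
      |Φ q 0 - Φ q0 0| ≤ 3 / NN * max |Φ q 1 - Φ q0 1| |Φ q 2 - Φ q0 2|) :
    ∃ᶠ q in 𝓝 q0, 0 < Φ q0 2 - Φ q 2 ∧ |Φ q0 1 - Φ q 1| ≤ r0 * (Φ q0 2 - Φ q 2) := by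
  classical
  set A := fderiv ℝ Φ q0 with hA
  have hcone' : ∀ v, |A v 0| ≤ 3 / NN * max |A v 1| |A v 2| := by
    intro v
    have l0 := (deriv_dir_aux_lim Φ q0 hΦ v 0).abs
    have l1 := (deriv_dir_aux_lim Φ q0 hΦ v 1).abs
    have l2 := (deriv_dir_aux_lim Φ q0 hΦ v 2).abs
    have l3 := (l1.max l2).const_mul (3 / NN)
    refine le_of_tendsto_of_tendsto l0 l3 ?_
    have h1 := (deriv_dir_aux_path q0 v).eventually hcone
    filter_upwards [h1, self_mem_nhdsWithin] with t ht ht0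
    have ht0' : (0 : ℝ) < t := ht0
    have hi : 0 < t⁻¹ := inv_pos.2 ht0'
    rw [abs_mul, abs_mul, abs_mul, abs_of_pos hi, ← mul_max_of_nonneg _ _ hi.le]
    calc t⁻¹ * |Φ (q0 + t • v) 0 - Φ q0 0| ≤ t⁻¹ * (3 / NN * max |Φ (q0 + t • v) 1 - Φ q0 1|
          |Φ (q0 + t • v) 2 - Φ q0 2|) := mul_le_mul_of_nonneg_left ht hi.le
      _ = 3 / NN * (t⁻¹ * max |Φ (q0 + t • v) 1 - Φ q0 1| |Φ (q0 + t • v) 2 - Φ q0 2|) := by ring
  set B : (Fin k → ℝ) →ₗ[ℝ] (Fin 2 → ℝ) := LinearMap.pi (fun i : Fin 2 =>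
    (LinearMap.proj (if i = 0 then (1 : Fin 3) else 2)) ∘ₗ (A : (Fin k → ℝ) →ₗ[ℝ] (Fin 3 → ℝ)))
    with hB
  have hB0 : ∀ v, B v 0 = A v 1 := fun v => rfl
  have hB1 : ∀ v, B v 1 = A v 2 := fun v => rfl
  have hBinj : Function.Injective B := by
    rw [injective_iff_map_eq_zero]
    intro v hv
    have h1 : A v 1 = 0 := by rw [← hB0, hv]; rfl
    have h2 : A v 2 = 0 := by rw [← hB1, hv]; rfl
    have h0 : A v 0 = 0 := by
      have := hcone' v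
      rw [h1, h2] at this
      simpa using this
    have hz : A v = 0 := by
      ext j
      fin_cases j
      · exact h0
      · exact h1
      · exact h2
    have := hinj (a₁ := v) (a₂ := 0) (by rw [hz, map_zero])
    exact this
  have hk2 : k = 2 := by
    have := LinearMap.finrank_le_finrank_of_injective hBinj
    simp at this
    omega
  have hsurj : Function.Surjective B := by
    apply (LinearMap.injective_iff_surjective_of_finrank_eq_finrank _).1 hBinj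
    simp [hk2]
  obtain ⟨v, hv⟩ := hsurj ![0, -1]
  have hv1 : A v 1 = 0 := by rw [← hB0, hv]; rfl
  have hv2 : A v 2 = -1 := by rw [← hB1, hv]; rfl
  have l1 := (deriv_dir_aux_lim Φ q0 hΦ v 1).abs
  have l2 := deriv_dir_aux_lim Φ q0 hΦ v 2
  rw [← hA, hv1, abs_zero] at l1
  rw [← hA, hv2] at l2
  have hr0 : 0 < r0 := by unfold r0; norm_num
  have e1 := l1.eventually (gt_mem_nhds (show (0 : ℝ) < r0 / 2 by linarith))
  have e2 := l2.eventually (gt_mem_nhds (show (-1 : ℝ) < -(1 / 2) by norm_num))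
  have hev : ∀ᶠ t in 𝓝[>] (0 : ℝ), 0 < Φ q0 2 - Φ (q0 + t • v) 2 ∧
      |Φ q0 1 - Φ (q0 + t • v) 1| ≤ r0 * (Φ q0 2 - Φ (q0 + t • v) 2) := by
    filter_upwards [e1, e2, self_mem_nhdsWithin] with t h1 h2 ht0
    have ht0' : (0 : ℝ) < t := ht0
    have hi : 0 < t⁻¹ := inv_pos.2 ht0'
    rw [abs_mul, abs_of_pos hi, inv_mul_lt_iff₀ ht0'] at h1
    rw [inv_mul_lt_iff₀ ht0'] at h2
    have h3 : t / 2 < Φ q0 2 - Φ (q0 + t • v) 2 := by linarith
    refine ⟨by linarith, ?_⟩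
    rw [abs_sub_comm]
    have h4 : t * (r0 / 2) ≤ r0 * (Φ q0 2 - Φ (q0 + t • v) 2) := by nlinarith
    linarith
  exact (deriv_dir_aux_path q0 v).frequently hev.frequently

end Pool.Agent.Helper867.Smale
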