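import Pool.Agent.Helper867.Smale.Base

set_option autoImplicit false

open Set Filter Topology

namespace Pool.Agent.Helper867.Smale

theorem dim_low {k : ℕ} (hk : k < 2) (Φ : (Fin k → ℝ) → (Fin 3 → ℝ)) (hΦ : ContDiff ℝ 1 Φ)
    (s t u v : ℝ) (hst : s < t) (huv : u < v) :
    ¬ ∀ b ∈ Ioo s t, ∀ c ∈ Ioo u v, ∃ q : Fin k → ℝ, ∃ m1 m2 : ℤ,
      Φ q 1 = b + m1 ∧ Φ q 2 = c + m2 := by
  intro hcon
  let Ψ : ℤ × ℤ → (Fin k → ℝ) → ℝ × ℝ := fun m q => (Φ q 1 - m.1, Φ q 2 - m.2)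
  have hΨ : ∀ m, ContDiff ℝ 1 (Ψ m) := by
    intro m
    have h1 : ContDiff ℝ 1 (fun q => Φ q 1) := contDiff_pi.1 hΦ 1
    have h2 : ContDiff ℝ 1 (fun q => Φ q 2) := contDiff_pi.1 hΦ 2
    exact (h1.sub contDiff_const).prodMk (h2.sub contDiff_const)
  have hsub : Ioo s t ×ˢ Ioo u v ⊆ ⋃ m : ℤ × ℤ, range (Ψ m) := by
    rintro ⟨b, c⟩ ⟨hb, hc⟩
    obtain ⟨q, m1, m2, h1, h2⟩ := hcon b hb c hc
    refine mem_iUnion.2 ⟨(m1, m2), q, ?_⟩
    show (Φ q 1 - m1, Φ q 2 - m2) = (b, c)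
    rw [h1, h2]
    simp
  have h1 : dimH (Ioo s t ×ˢ Ioo u v) ≤ (k : ENNReal) := by
    refine (dimH_mono hsub).trans ?_
    rw [dimH_iUnion]
    refine iSup_le fun m => ?_
    have := (hΨ m).dimH_range_le
    simpa using this
  have h2 : dimH (Ioo s t ×ˢ Ioo u v) = Module.finrank ℝ (ℝ × ℝ) := by
    refine Real.dimH_of_nonempty_interior ?_
    rw [(isOpen_Ioo.prod isOpen_Ioo).interior_eq]
    exact ⟨((s + t) / 2, (u + v) / 2), ⟨by constructor <;> simp only <;> linarith,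
      by constructor <;> simp only <;> linarith⟩⟩
  rw [h2] at h1
  have h3 : Module.finrank ℝ (ℝ × ℝ) = 2 := by simp
  rw [h3] at h1
  have h4 : 2 ≤ k := by exact_mod_cast h1
  omega

end Pool.Agent.Helper867.Smale
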