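import Pool.Agent.Helper867.Smale.TripDef
import Pool.Agent.Helper867.Smale.L_pair_center
import Pool.Agent.Helper867.Smale.L_orb_pair1
import Pool.Agent.Helper867.Smale.L_exists_leaf1

set_option autoImplicit false

open Set Filter Topology

namespace Pool.Agent.Helper867.Smale

theorem left_trap1_aux_succ (S : Sys1) (p : ℝ × ℝ × ℝ) (n : ℕ) :
    (S.orb p (n + 1)).2.2 = (S.orb p n).2.2 + S.r (S.orb p n).2.2 +
      S.g (S.orb p n).1 (S.orb p n).2.1 (S.orb p n).2.2 := by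
  unfold Sys1.orb
  rw [Function.iterate_succ_apply']
  rfl

theorem left_trap1_aux_barrier (S : Sys1) (p : ℝ × ℝ × ℝ) (n : ℕ)
    (h1 : -(1 / 4) ≤ (S.orb p n).2.2) (h2 : (S.orb p n).2.2 ≤ 2 * nu) :
    -(1 / 4) ≤ (S.orb p (n + 1)).2.2 := by
  rw [left_trap1_aux_succ]
  have hg := abs_le.1 (S.bg (S.orb p n).1 (S.orb p n).2.1 (S.orb p n).2.2)
  rcases le_or_gt (S.orb p n).2.2 (-(1 / 200)) with h | h
  · have := (S.trap _ h1 h).1
    linarith [hg.1]
  · have h3 := abs_le.1 (S.smallr 0 (by unfold nu; norm_num))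
    have h4 := S.lipr (S.orb p n).2.2 0
    rw [sub_zero] at h4
    have h5 : |(S.orb p n).2.2| ≤ 1 / 200 :=
      abs_le.2 ⟨h.le, by unfold nu at h2; linarith⟩
    have h7 := abs_le.1 h4
    have hg1 := hg.1
    have h31 := h3.1
    have h71 := h7.1
    unfold nu at hg1 h31
    linarith

theorem left_trap1_aux_trap (S : Sys1) (p : ℝ × ℝ × ℝ) (n : ℕ)
    (h1 : -(1 / 4) ≤ (S.orb p n).2.2) (h2 : (S.orb p n).2.2 ≤ -(1 / 200)) :
    (S.orb p (n + 1)).2.2 ≤ -(1 / 200) := by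
  rw [left_trap1_aux_succ]
  have hg := abs_le.1 (S.bg (S.orb p n).1 (S.orb p n).2.1 (S.orb p n).2.2)
  have := (S.trap _ h1 h2).2
  linarith [hg.2]

theorem left_trap1 (S : Sys1) (ω : ℕ → Fin 4) (x : ℝ × ℝ × ℝ) (hx : Leaf S ω 0 0 x)
    (hxc : ∀ n, |(S.orb x n).2.2| ≤ 2 * nu)
    (hZ : ∀ s : ℝ, 0 < s → ∃ t, 0 < t ∧ t < s ∧ ∃ z, Leaf S ω 0 (-t) z ∧
      ∃ i, (S.orb z i).2.2 ≤ -(1 / 200))
    (z : ℝ × ℝ × ℝ) (hz : ∀ n, |(S.orb x n).1 - (S.orb z n).1| ≤ 1 / 2)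
    (hz1 : |x.2.1 - z.2.1| ≤ r0 * (x.2.2 - z.2.2)) (hz2 : 0 < x.2.2 - z.2.2)
    (hz3 : x.2.2 - z.2.2 < 1 / 400) :
    ∃ n0, ∀ n, n0 ≤ n → -(1 / 4) ≤ (S.orb z n).2.2 ∧ (S.orb z n).2.2 ≤ -(1 / 200) := by
  obtain ⟨hxb, hxc0, hxa⟩ := hx
  rw [hxb, hxc0] at hz1
  rw [hxc0] at hz2 hz3
  obtain ⟨t, ht0, hts, Z, ⟨hZb, hZc, hZa⟩, i, hi⟩ := hZ (min (-z.2.2 / 2) (1 / 1000))
    (lt_min (by linarith) (by norm_num))
  have ht1 : t < -z.2.2 / 2 := hts.trans_le (min_le_left _ _)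
  have ht2 : t < 1 / 1000 := hts.trans_le (min_le_right _ _)
  have o0 : ∀ p, S.orb p 0 = p := fun p => rfl
  -- pair z -> Z
  have hzZ : ∀ n, (S.orb z n).2.2 < (S.orb Z n).2.2 := by
    intro n
    have h := pair_center _ _ _ (orb_pair1 S z Z) ?_ ?_ ?_ n
    · linarith [h.1]
    · intro n
      have h1 := abs_le.1 (hZa n)
      have h2 := abs_le.1 (hxa n)
      have h3 := abs_le.1 (hz n)
      unfold dd at h1 h2
      rw [abs_le]
      constructor <;> linarith [h1.1, h1.2, h2.1, h2.2, h3.1, h3.2]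
    · simp only [o0, hZb, hZc]
      refine hz1.trans ?_
      unfold r0
      linarith
    · simp only [o0, hZc]
      linarith
  have hZx : ∀ n, (S.orb Z n).2.2 < (S.orb x n).2.2 := by
    intro n
    have h := pair_center _ _ _ (orb_pair1 S Z x) ?_ ?_ ?_ n
    · linarith [h.1]
    · intro n
      have h1 := abs_le.1 (hZa n)
      have h2 := abs_le.1 (hxa n)
      unfold dd at h1 h2
      rw [abs_le]
      constructor <;> linarith [h1.1, h1.2, h2.1, h2.2]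
    · simp only [o0, hZb, hZc, hxb, hxc0]
      simpa using ht0.le
    · simp only [o0, hZc, hxc0]
      linarith
  have hZ2 : ∀ n, (S.orb Z n).2.2 ≤ 2 * nu := fun n =>
    (hZx n).le.trans ((le_abs_self _).trans (hxc n))
  have hz2' : ∀ n, (S.orb z n).2.2 ≤ 2 * nu := fun n => (hzZ n).le.trans (hZ2 n)
  have hZ4 : ∀ n, -(1 / 4) ≤ (S.orb Z n).2.2 := by
    intro n
    induction n with
    | zero => rw [o0, hZc]; linarith
    | succ n ih => exact left_trap1_aux_barrier S Z n ih (hZ2 n)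
  have hz4 : ∀ n, -(1 / 4) ≤ (S.orb z n).2.2 := by
    intro n
    induction n with
    | zero => rw [o0]; linarith
    | succ n ih => exact left_trap1_aux_barrier S z n ih (hz2' n)
  have hZ5 : ∀ n, i ≤ n → (S.orb Z n).2.2 ≤ -(1 / 200) := by
    intro n hn
    induction n, hn using Nat.le_induction with
    | base => exact hi
    | succ n hn ih => exact left_trap1_aux_trap S Z n (hZ4 n) ih
  exact ⟨i, fun n hn => ⟨hz4 n, (hzZ n).le.trans (hZ5 n hn)⟩⟩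

end Pool.Agent.Helper867.Smale
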