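import Pool.Agent.Helper867.Smale.Base1
import Pool.Agent.Helper867.Smale.L_pair_center
import Pool.Agent.Helper867.Smale.L_orb_pair1

set_option autoImplicit false

open Set Filter Topology

namespace Pool.Agent.Helper867.Smale

theorem right_conv1 (S : Sys1) (x y z : ℝ × ℝ × ℝ)
    (hy : ∀ n, |(S.orb y n).1 - (S.orb x n).1| ≤ 1 / 2)
    (hz : ∀ n, |(S.orb z n).1 - (S.orb x n).1| ≤ 1 / 2)
    (hy1 : y.2.1 = x.2.1) (hy2 : y.2.2 - x.2.2 = r0)
    (hR : Tendsto (fun n => (S.orb y n).2.2 - (S.orb x n).2.2) atTop (𝓝 0))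
    (hz1 : |z.2.1 - x.2.1| ≤ r0 / 10) (hz2 : r0 / 4 < z.2.2 - x.2.2) (hz3 : z.2.2 - x.2.2 < r0 / 2) :
    Tendsto (fun n => (S.orb z n).1 - (S.orb x n).1) atTop (𝓝 0) ∧
    Tendsto (fun n => (S.orb z n).2.1 - (S.orb x n).2.1) atTop (𝓝 0) ∧
    Tendsto (fun n => (S.orb z n).2.2 - (S.orb x n).2.2) atTop (𝓝 0) := by
  have hr : (0 : ℝ) < r0 := by unfold r0; norm_num
  have hz0 : S.orb z 0 = z := rfl
  have hy0 : S.orb y 0 = y := rfl
  have hx0 : S.orb x 0 = x := rfl
  have A := pair_center _ _ _ (orb_pair1 S x z)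
    (fun n => (hz n).trans (by norm_num))
    (by
      simp only [hz0, hx0]
      refine hz1.trans ?_
      linarith)
    (by
      simp only [hz0, hx0]
      linarith)
  have B := pair_center _ _ _ (orb_pair1 S z y)
    (fun n => by
      have h1 := hy n
      have h2 := hz n
      rw [abs_le] at h1 h2 ⊢
      constructor <;> linarith [h1.1, h1.2, h2.1, h2.2])
    (by
      simp only [hz0, hy0]
      rw [hy1, abs_sub_comm]
      refine hz1.trans ?_
      linarith)
    (by
      simp only [hz0, hy0]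
      linarith)
  have hg : Tendsto (fun n => (S.orb z n).2.2 - (S.orb x n).2.2) atTop (𝓝 0) := by
    refine squeeze_zero (fun n => (A n).1.le) (fun n => ?_) hR
    have := (B n).1
    linarith
  refine ⟨?_, ?_, hg⟩
  · refine squeeze_zero_norm (fun n => ?_) hg
    rw [Real.norm_eq_abs]
    refine ((A n).2.2.1).trans ?_
    have h1 := (A n).1
    have h2 : (3 : ℝ) / NN ≤ 1 := by unfold NN; norm_num
    nlinarith
  · refine squeeze_zero_norm (fun n => ?_) hg
    rw [Real.norm_eq_abs]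
    exact (A n).2.1

end Pool.Agent.Helper867.Smale
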