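import Pool.Agent.Helper867.Smale.TripDef
import Pool.Agent.Helper867.Smale.L_pair_center
import Pool.Agent.Helper867.Smale.L_near_spec
import Pool.Agent.Helper867.Smale.L_exists_leaf1
import Pool.Agent.Helper867.Smale.L_orb_pair1
import Pool.Agent.Helper867.Smale.L_left_trap1
import Pool.Agent.Helper867.Smale.L_right_conv1
import Pool.Agent.Helper867.Smale.L_path_lemma1
import Pool.Agent.Helper867.Smale.L_deriv_dir
import Pool.Agent.Helper867.Smale.L_dim_low
import Pool.Agent.Helper867.Smale.L_pr_eq_iff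
import Pool.Agent.Helper867.Smale.L_dist_pr
import Pool.Agent.Helper867.Smale.L_dist_pr_le

set_option autoImplicit false

open Set Filter Topology

namespace Pool.Agent.Helper867.Smale

theorem iter_pr1 (f : T3 → T3) (S : Sys1) (hS : ∀ p, f (pr (ee p)) = pr (ee (S.step p)))
    (p : ℝ × ℝ × ℝ) (n : ℕ) : f^[n] (pr (ee p)) = pr (ee (S.orb p n)) := by
  induction n with
  | zero => rfl
  | succ n ih =>
    rw [Function.iterate_succ_apply', ih, hS]
    congr 2
    exact (Function.iterate_succ_apply' _ _ _).symm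

theorem ee_mk1 (p : Fin 3 → ℝ) : ee (p 0, p 1, p 2) = p := by
  ext i; fin_cases i <;> rfl

theorem not_cell1 (r : ℕ∞) (hr : 1 ≤ r) (f : T3 → T3) (S : Sys1)
    (hS : ∀ p, f (pr (ee p)) = pr (ee (S.step p))) (ω : ℕ → Fin 4) (x y : ℝ × ℝ × ℝ)
    (hxl : Leaf S ω 0 0 x) (hyl : Leaf S ω 0 r0 y) (hxc : ∀ n, |(S.orb x n).2.2| ≤ 2 * nu)
    (hR0 : Tendsto (fun n => (S.orb y n).2.2 - (S.orb x n).2.2) atTop (𝓝 0))
    (hZ : ∀ s : ℝ, 0 < s → ∃ t, 0 < t ∧ t < s ∧ ∃ z, Leaf S ω 0 (-t) z ∧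
      ∃ i, (S.orb z i).2.2 ≤ -(1 / 200)) : ∃ x, ¬ IsCell r (stableSet f x) := by
  have hnu : (0:ℝ) < nu := by unfold nu; norm_num
  have hr0 : (0:ℝ) < r0 := by unfold r0; norm_num
  obtain ⟨hx1, hx2, hx⟩ := hxl
  obtain ⟨hy1, hy2, hy⟩ := hyl
  have hdd1 : 2 * dd ≤ 1 / 2 := by unfold dd; norm_num
  have hxy : ∀ n, |(S.orb y n).1 - (S.orb x n).1| ≤ 1 / 2 := by
    intro n
    have h1 := hx n
    have h2 := hy n
    rw [abs_le] at *
    constructor <;> linarith [h1.1, h1.2, h2.1, h2.2]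
  refine ⟨pr (ee x), ?_⟩
  rintro ⟨k, Φ, hΦ, himm, hinj, hrange⟩
  have hΦ1 : ContDiff ℝ 1 Φ := hΦ.of_le (by exact_mod_cast hr)
  by_cases hk : k < 2
  · -- low dimension
    refine dim_low hk Φ hΦ1 (-(r0 / 10)) (r0 / 10) (r0 / 4) (r0 / 2) (by linarith) (by linarith) ?_
    intro b hb c hc
    have hr01 : r0 / 10 ≤ 1 / 2 := by unfold r0; norm_num
    obtain ⟨a, ha⟩ := exists_leaf1 S ω b c (by
      rw [abs_le]; constructor <;> linarith [hb.1, hb.2])
    have hz : ∀ n, |(S.orb (a, b, c) n).1 - (S.orb x n).1| ≤ 1 / 2 := by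
      intro n
      have h1 := hx n
      have h2 := ha n
      rw [abs_le] at *
      constructor <;> linarith [h1.1, h1.2, h2.1, h2.2]
    have hconv := right_conv1 S x y (a, b, c) hxy hz (by rw [hy1, hx1]) (by rw [hy2, hx2]; ring) hR0
      (by rw [hx1]; simp only [sub_zero]; rw [abs_le]; constructor <;> linarith [hb.1, hb.2])
      (by rw [hx2]; simp only [sub_zero]; exact hc.1) (by rw [hx2]; simp only [sub_zero]; exact hc.2)
    have hmem : pr (ee (a, b, c)) ∈ stableSet f (pr (ee x)) := by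
      have h3 : Tendsto (fun n => dist (ee (S.orb x n)) (ee (S.orb (a, b, c) n))) atTop (𝓝 0) := by
        have hs : Tendsto (fun n => |(S.orb (a, b, c) n).1 - (S.orb x n).1| +
            |(S.orb (a, b, c) n).2.1 - (S.orb x n).2.1| +
            |(S.orb (a, b, c) n).2.2 - (S.orb x n).2.2|) atTop (𝓝 0) := by
          have := (hconv.1.abs.add hconv.2.1.abs).add hconv.2.2.abs
          simpa using this
        refine squeeze_zero (fun n => dist_nonneg) (fun n => ?_) hs
        rw [dist_pi_le_iff (by positivity)]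
        intro i
        rw [dist_comm, Real.dist_eq]
        fin_cases i <;> simp [ee] <;> nlinarith [abs_nonneg ((S.orb (a, b, c) n).1 - (S.orb x n).1),
          abs_nonneg ((S.orb (a, b, c) n).2.1 - (S.orb x n).2.1),
          abs_nonneg ((S.orb (a, b, c) n).2.2 - (S.orb x n).2.2)]
      show Tendsto _ _ _
      refine squeeze_zero (fun n => dist_nonneg) (fun n => ?_) h3
      rw [iter_pr1 f S hS, iter_pr1 f S hS]
      exact dist_pr_le _ _
    rw [← hrange] at hmem
    obtain ⟨q, hq⟩ := hmem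
    have hq' := (pr_eq_iff _ _).1 hq
    obtain ⟨m1, hm1⟩ := hq' 1
    obtain ⟨m2, hm2⟩ := hq' 2
    refine ⟨q, -m1, -m2, ?_, ?_⟩
    · have : ee (a, b, c) 1 = b := rfl
      rw [this] at hm1
      push_cast; linarith
    · have : ee (a, b, c) 2 = c := rfl
      rw [this] at hm2
      push_cast; linarith
  · -- high dimension
    push Not at hk
    have hxmem : pr (ee x) ∈ stableSet f (pr (ee x)) := by
      show Tendsto _ _ _
      simp
    rw [← hrange] at hxmem
    obtain ⟨q0, hq0⟩ := hxmem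
    have hq0' := (pr_eq_iff _ _).1 hq0
    choose m hm using hq0'
    set Ψ : (Fin k → ℝ) → (Fin 3 → ℝ) := fun q => Φ q + fun i => (m i : ℝ) with hΨ
    have hΨ0 : Ψ q0 = ee x := by
      ext i; simp only [hΨ, Pi.add_apply]; exact (hm i).symm
    have hΨc : Continuous Ψ := hΦ1.continuous.add continuous_const
    have hΨd : DifferentiableAt ℝ Ψ q0 :=
      ((hΦ1.differentiable (by norm_num)) q0).add_const _
    have hΨf : fderiv ℝ Ψ q0 = fderiv ℝ Φ q0 := fderiv_add_const _
    have hΨpr : ∀ q, pr (Ψ q) = pr (Φ q) := by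
      intro q
      rw [eq_comm, pr_eq_iff]
      intro i
      exact ⟨m i, rfl⟩
    have hΨmem : ∀ q, pr (Ψ q) ∈ stableSet f (pr (ee x)) := by
      intro q
      rw [hΨpr, ← hrange]
      exact ⟨q, rfl⟩
    obtain ⟨ρ, hρ, hball⟩ := Metric.continuousAt_iff.1 (hΨc.continuousAt (x := q0)) (1 / 400)
      (by norm_num)
    have hcoord : ∀ q, dist q q0 < ρ → ∀ i, |Ψ q i - ee x i| < 1 / 400 := by
      intro q hq i
      have := hball hq
      rw [hΨ0] at this
      calc |Ψ q i - ee x i| = dist (Ψ q i) (ee x i) := (Real.dist_eq _ _).symm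
        _ ≤ dist (Ψ q) (ee x) := dist_le_pi_dist _ _ i
        _ < 1 / 400 := this
    have hleaf : ∀ q, dist q q0 < ρ → ∀ n,
        |(S.orb (Ψ q 0, Ψ q 1, Ψ q 2) n).1 - (S.orb x n).1| ≤ 1 / 2 := by
      intro q hq
      set ζ : ℝ → ℝ × ℝ × ℝ := fun t =>
        (Ψ (q0 + t • (q - q0)) 0, Ψ (q0 + t • (q - q0)) 1, Ψ (q0 + t • (q - q0)) 2) with hζ
      have hcont : Continuous fun t : ℝ => Ψ (q0 + t • (q - q0)) := by fun_prop
      have hζc : Continuous ζ := by
        have h0 := (continuous_apply (0 : Fin 3)).comp hcont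
        have h1 := (continuous_apply (1 : Fin 3)).comp hcont
        have h2 := (continuous_apply (2 : Fin 3)).comp hcont
        exact h0.prodMk (h1.prodMk h2)
      have hd : ∀ t ∈ Icc (0:ℝ) 1, dist (q0 + t • (q - q0)) q0 < ρ := by
        intro t ht
        rw [dist_eq_norm] at hq ⊢
        rw [add_sub_cancel_left, norm_smul]
        have : ‖t‖ ≤ 1 := by rw [Real.norm_eq_abs, abs_le]; constructor <;> linarith [ht.1, ht.2]
        calc ‖t‖ * ‖q - q0‖ ≤ 1 * ‖q - q0‖ := by gcongr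
          _ < ρ := by rw [one_mul]; exact hq
      have h0' : ζ 0 = x := by
        simp only [hζ, zero_smul, add_zero, hΨ0]; rfl
      have key := path_lemma1 S ω x hx ζ hζc.continuousOn h0' (by
          intro t ht
          have h1 := hcoord _ (hd t ht) 0
          have h2 := hcoord _ (hd t ht) 1
          constructor
          · exact h1.le.trans (by norm_num)
          · exact h2.le.trans (by norm_num)) (by
          intro t ht
          have hm' := hΨmem (q0 + t • (q - q0))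
          have hm2 : Tendsto (fun n : ℕ => dist (f^[n] (pr (ee x)))
            (f^[n] (pr (Ψ (q0 + t • (q - q0)))))) atTop (𝓝 0) := hm'
          refine squeeze_zero (fun n => norm_nonneg _) (fun n => ?_) hm2
          have e1 : Ψ (q0 + t • (q - q0)) = ee (ζ t) := (ee_mk1 _).symm
          have e2 := dist_pr (ee (S.orb (ζ t) n)) (ee (S.orb x n)) 0
          rw [← iter_pr1 f S hS, ← iter_pr1 f S hS, ← e1, dist_comm] at e2
          exact e2)
      intro n
      have := key n 1 (by constructor <;> norm_num)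
      simpa [hζ] using this
    have hcone : ∀ᶠ q in 𝓝 q0, |Ψ q 0 - Ψ q0 0| ≤
        3 / NN * max |Ψ q 1 - Ψ q0 1| |Ψ q 2 - Ψ q0 2| := by
      filter_upwards [Metric.ball_mem_nhds q0 hρ] with q hq
      have h1 := hleaf q hq
      have := pair_small _ _ _ (orb_pair1 S x (Ψ q 0, Ψ q 1, Ψ q 2))
        (fun n => (h1 n).trans (by norm_num)) 0
      rw [hΨ0]
      exact this
    have hfreq := deriv_dir hk Ψ q0 hΨd (by rw [hΨf]; exact himm q0) hcone
    obtain ⟨q, ⟨hqa, hqb⟩, hqc⟩ := (hfreq.and_eventually (Metric.ball_mem_nhds q0 hρ)).exists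
    have hqc' : dist q q0 < ρ := hqc
    rw [hΨ0] at hqa hqb
    have hz3 := hcoord q hqc' 2
    have ee2 : ee x 2 = x.2.2 := rfl
    have ee1 : ee x 1 = x.2.1 := rfl
    rw [ee2] at hqa hqb hz3
    rw [ee1] at hqb
    obtain ⟨n0, hn0⟩ := left_trap1 S ω x ⟨hx1, hx2, hx⟩ hxc hZ (Ψ q 0, Ψ q 1, Ψ q 2)
      (fun n => by
        have := hleaf q hqc' n
        rw [abs_sub_comm]
        exact this)
      hqb hqa (by
        have := abs_lt.1 hz3
        show x.2.2 - Ψ q 2 < 1 / 400
        linarith [this.1])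
    have hm' := hΨmem q
    have hm2 : Tendsto (fun n : ℕ => dist (f^[n] (pr (ee x))) (f^[n] (pr (Ψ q)))) atTop (𝓝 0) := hm'
    obtain ⟨n, hn, hnn⟩ := ((hm2.eventually (gt_mem_nhds (show (0:ℝ) < 1 / 400 by norm_num))).and
      (eventually_ge_atTop n0)).exists
    have e1 : Ψ q = ee (Ψ q 0, Ψ q 1, Ψ q 2) := (ee_mk1 _).symm
    rw [e1, iter_pr1 f S hS, iter_pr1 f S hS] at hn
    have hn' := lt_of_le_of_lt (dist_pr _ _ 2) hn
    have t1 := hn0 n hnn
    have t2 := abs_le.1 (hxc n)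
    have hnu2 : 2 * nu ≤ 1 / 1000 := by unfold nu; norm_num
    have e3 : (ee (S.orb x n) 2 - ee (S.orb (Ψ q 0, Ψ q 1, Ψ q 2) n) 2 : ℝ)
      = (S.orb x n).2.2 - (S.orb (Ψ q 0, Ψ q 1, Ψ q 2) n).2.2 := rfl
    rw [e3] at hn'
    set d := (S.orb x n).2.2 - (S.orb (Ψ q 0, Ψ q 1, Ψ q 2) n).2.2 with hd
    have hd1 : 1 / 400 ≤ d := by linarith [t1.2, t2.1]
    have hd2 : d ≤ 1 / 2 := by linarith [t1.1, t2.2]
    have hnorm : ‖((d : ℝ) : UnitAddCircle)‖ = |d| := by
      rw [AddCircle.norm_coe_eq_abs_iff]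
      · rw [abs_of_nonneg (by linarith), abs_of_pos (by norm_num : (0:ℝ) < 1)]; exact hd2
      · norm_num
    rw [hnorm, abs_of_nonneg (by linarith)] at hn'
    linarith

end Pool.Agent.Helper867.Smale
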