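import Pool.Agent.Helper867.Smale.TripDef
import Pool.Agent.Helper867.Smale.NotCell1
import Pool.Agent.Helper867.Smale.L_pair_center
import Pool.Agent.Helper867.Smale.L_exists_leaf1
import Pool.Agent.Helper867.Smale.L_orb_pair1
import Pool.Agent.Helper867.Smale.L_stage_open
import Pool.Agent.Helper867.Smale.L_open_of_cl
import Pool.Agent.Helper867.Smale.L_nbhd_cl
import Pool.Agent.Helper867.Smale.L_sys1_of_near
import Pool.Agent.Helper867.Smale.L_exists_f0
import Pool.Agent.Helper867.Smale.L_lift_unique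
import Pool.Agent.Helper867.Smale.L_perturb

set_option autoImplicit false

open Set Filter Topology

namespace Pool.Agent.Helper867.Smale

theorem bg_cl_mono {F G : (Fin 3 → ℝ) → (Fin 3 → ℝ)} {a b : ℝ} (h : Cl F G a) (hab : a ≤ b) :
    Cl F G b :=
  ⟨fun p => (h.1 p).trans hab, fun p q => (h.2 p q).trans
    (mul_le_mul_of_nonneg_right hab (norm_nonneg _))⟩

theorem bg_cl_trans {F G H : (Fin 3 → ℝ) → (Fin 3 → ℝ)} {a b : ℝ} (h1 : Cl F G a)
    (h2 : Cl G H b) : Cl F H (a + b) := by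
  constructor
  · intro p
    have e : F p - H p = (F p - G p) + (G p - H p) := by abel
    rw [e]
    exact (norm_add_le _ _).trans (add_le_add (h1.1 p) (h2.1 p))
  · intro p q
    have e : F p - H p - (F q - H q) = ((F p - G p) - (F q - G q)) + ((G p - H p) - (G q - H q)) := by
      abel
    rw [e, add_mul]
    exact (norm_add_le _ _).trans (add_le_add (h1.2 p q) (h2.2 p q))

theorem bg_scl {F G : (Fin 3 → ℝ) → (Fin 3 → ℝ)} {S S' : Sys1} {δ : ℝ}
    (hF : ∀ p, F (ee p) = ee (S.step p)) (hG : ∀ p, G (ee p) = ee (S'.step p)) (h : Cl G F δ) :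
    SCl S S' δ := by
  intro p
  have h1 : ∀ i, |ee (S.step p) i - ee (S'.step p) i| ≤ δ := by
    intro i
    have h2 := (norm_le_pi_norm (G (ee p) - F (ee p)) i).trans (h.1 (ee p))
    rw [hF, hG, Pi.sub_apply, Real.norm_eq_abs, abs_sub_comm] at h2
    exact h2
  exact ⟨h1 0, h1 1, h1 2⟩

theorem bg_lift_eq (f : Dyn 1) (F G : (Fin 3 → ℝ) → (Fin 3 → ℝ)) (hF : IsLift 1 F f.1)
    (hG : IsLift 1 G f.1) (a b : ℝ) (ha : a < ep) (hb : b < ep) (h1 : Cl F F0 a) (h2 : Cl G F0 b) :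
    F = G := by
  obtain ⟨m, hm⟩ := lift_unique F G hF.1.continuous hG.1.continuous
    (fun p => by rw [hF.2, hG.2])
  have hm0 : ∀ i, m i = 0 := by
    intro i
    have e1 := (norm_le_pi_norm (F 0 - F0 0) i).trans (h1.1 0)
    have e2 := (norm_le_pi_norm (G 0 - F0 0) i).trans (h2.1 0)
    rw [Pi.sub_apply, Real.norm_eq_abs] at e1 e2
    have e3 := hm 0 i
    have e4 : |(m i : ℝ)| < 1 := by
      have : (m i : ℝ) = (F 0 i - F0 0 i) - (G 0 i - F0 0 i) := by linarith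
      rw [this]
      have h5 : ep = 1 / 10 ^ 20 := rfl
      rw [h5] at ha hb
      have h6 := abs_le.1 e1
      have h7 := abs_le.1 e2
      rw [abs_lt]
      constructor
      · norm_num at ha hb ⊢; linarith [h6.1, h6.2, h7.1, h7.2]
      · norm_num at ha hb ⊢; linarith [h6.1, h6.2, h7.1, h7.2]
    have e5 : |m i| < 1 := by exact_mod_cast e4
    exact Int.abs_lt_one_iff.1 e5
  funext p
  ext i
  rw [hm p i, hm0 i]
  simp

/-- infinite extension of a finite word -/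
def ext (w : List (Fin 4)) : ℕ → Fin 4 := fun n => w.getD n 0

/-- sizes -/
noncomputable def et0 (j : ℕ) : ℝ := 2 * r0 / 2 ^ j

/-- maps for which the stage number `j` can be carried out from the word `w` -/
def Aset (w : List (Fin 4)) (j : ℕ) : Set (Dyn 1) :=
  {f | ∃ (F : (Fin 3 → ℝ) → (Fin 3 → ℝ)) (ε1 : ℝ) (S : Sys1), IsLift 1 F f.1 ∧ ε1 < ep ∧
    Cl F F0 ε1 ∧ (∀ p, F (ee p) = ee (S.step p)) ∧
    Stage S (ext w) w.length (et0 j) (et0 (j + 1))}

theorem Aset_open (w : List (Fin 4)) (j : ℕ) : IsOpen (Aset w j) := by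
  apply open_of_cl
  rintro f ⟨F, ε1, S, hF, hε1, hcl, hS, hst⟩
  obtain ⟨δ, hδ, hδS⟩ := stage_open S _ _ _ _ hst
  refine ⟨F, hF, min δ ((ep - ε1) / 2), lt_min hδ (by linarith), ?_⟩
  intro g G hG hGF
  have h1 : Cl G F ((ep - ε1) / 2) := bg_cl_mono hGF (min_le_right _ _)
  have h2 := bg_cl_trans h1 hcl
  obtain ⟨S', hS'⟩ := sys1_of_near G hG.1.continuous (bg_cl_mono h2 (by linarith))
  exact ⟨G, _, S', hG, by linarith, h2, hS', hδS S' (bg_scl hS hS' (bg_cl_mono hGF (min_le_left _ _)))⟩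

/-- the residual set -/
def Res : Set (Dyn 1) := ⋂ w : List (Fin 4), ⋂ j : ℕ, (Aset w j ∪ (closure (Aset w j))ᶜ)

theorem Res_residual : Res ∈ residual (Dyn 1) := by
  unfold Res
  rw [countable_iInter_mem]
  intro w
  rw [countable_iInter_mem]
  intro j
  apply residual_of_dense_open
  · exact (Aset_open w j).union isClosed_closure.isOpen_compl
  · intro x
    rw [closure_union]
    by_cases hx : x ∈ closure (Aset w j)
    · exact Or.inl hx
    · exact Or.inr (subset_closure hx)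

theorem et0_pos (j : ℕ) : 0 < et0 j := by
  unfold et0 r0; positivity

theorem et0_succ (j : ℕ) : et0 (j + 1) ≤ et0 j := by
  have : et0 (j + 1) = et0 j / 2 := by unfold et0; rw [pow_succ]; field_simp
  rw [this]
  linarith [et0_pos j]

theorem et0_le (j : ℕ) : et0 j ≤ nu / 2 := by
  induction j with
  | zero => unfold et0 r0 nu; norm_num
  | succ j ih => exact (et0_succ j).trans ih

theorem bg_step (f : Dyn 1) (hf : f ∈ Res) (F : (Fin 3 → ℝ) → (Fin 3 → ℝ)) (ε1 : ℝ) (S : Sys1)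
    (hF : IsLift 1 F f.1) (hε1 : ε1 < ep) (hcl : Cl F F0 ε1) (hS : ∀ p, F (ee p) = ee (S.step p))
    (w : List (Fin 4)) (j : ℕ) (κ : ℝ) (hκ : 0 < κ) (hpre : Pre S (ext w) w.length (et0 j) κ) :
    Stage S (ext w) w.length (et0 j) (et0 (j + 1)) := by
  have h1 : f ∈ Aset w j ∪ (closure (Aset w j))ᶜ := by
    have := mem_iInter.1 hf w
    exact mem_iInter.1 this j
  rcases h1 with h1 | h1
  · obtain ⟨F', ε', S', hF', hε', hcl', hS', hst⟩ := h1
    have hFF : F' = F := bg_lift_eq f F' F hF' hF _ _ hε' hε1 hcl' hcl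
    obtain ⟨δ, hδ, hδS⟩ := stage_open S' _ _ _ _ hst
    apply hδS S
    refine bg_scl hS' hS ?_
    rw [hFF]
    constructor
    · intro p; simp [hδ.le]
    · intro p q
      simp only [sub_self, norm_zero]
      positivity
  · exfalso
    obtain ⟨δ, hδ, hδO⟩ := nbhd_cl f F hF _ isClosed_closure.isOpen_compl h1
    obtain ⟨g, G, ε2, S', hG, hGF, hε2, hGF0, hGS, hst⟩ := perturb f F hF ε1 hε1 hcl S hS (ext w)
      w.length (et0 j) (et0 (j + 1)) κ hκ hpre (et0_pos _) (et0_succ j) (et0_le j) δ hδ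
    exact hδO g G hG hGF (subset_closure ⟨G, ε2, S', hG, hε2, hGF0, hGS, hst⟩)

/-- a state of the construction -/
def StOK (S : Sys1) (s : ℕ × List (Fin 4) × ℝ) : Prop :=
  0 < s.2.2 ∧ Pre S (ext s.2.1) s.2.1.length (et0 s.1) s.2.2

/-- the passage from one state to the next -/
def StRel (S : Sys1) (s s' : ℕ × List (Fin 4) × ℝ) : Prop :=
  s'.1 = s.1 + 1 ∧ s.2.1.length < s'.2.1.length ∧ (∀ k < s.2.1.length, ext s.2.1 k = ext s'.2.1 k) ∧
  ∃ t, 0 < t ∧ t < et0 (s.1 + 1) ∧ ∀ ω', Agree s'.2.1.length (ext s'.2.1) ω' → ∀ x y z,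
    Leaf S ω' 0 0 x → Leaf S ω' 0 r0 y → Leaf S ω' 0 (-t) z →
      (∀ i ≤ s'.2.1.length, |(S.orb x i).2.2| ≤ 2 * nu) ∧
      (∀ i, s.2.1.length ≤ i → i ≤ s'.2.1.length → (S.orb y i).2.2 - (S.orb x i).2.2 ≤ 2 * et0 s.1) ∧
      ∃ i, (S.orb z i).2.2 ≤ -(1 / 200)

theorem bg_next (f : Dyn 1) (hf : f ∈ Res) (F : (Fin 3 → ℝ) → (Fin 3 → ℝ)) (ε1 : ℝ) (S : Sys1)
    (hF : IsLift 1 F f.1) (hε1 : ε1 < ep) (hcl : Cl F F0 ε1) (hS : ∀ p, F (ee p) = ee (S.step p))
    (s : ℕ × List (Fin 4) × ℝ) (hs : StOK S s) : ∃ s', StOK S s' ∧ StRel S s s' := by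
  obtain ⟨j, w, κ⟩ := s
  obtain ⟨hκ, hpre⟩ := hs
  obtain ⟨ω, n1, t, κ', hag, hn, ht, htη, hκ', hall⟩ := bg_step f hf F ε1 S hF hε1 hcl hS w j κ hκ hpre
  set w' : List (Fin 4) := List.ofFn (fun i : Fin n1 => ω i) with hw'
  have hlen : w'.length = n1 := by simp [hw']
  have hext : ∀ k < n1, ext w' k = ω k := by
    intro k hk
    unfold ext
    rw [List.getD_eq_getElem _ _ (by rw [hlen]; exact hk)]
    simp [hw']
  have hagree : ∀ ω', Agree n1 (ext w') ω' → Agree n1 ω ω' := by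
    intro ω' h k hk
    rw [← hext k hk]; exact h k hk
  have hb0 : |(0:ℝ)| ≤ 1 / 2 := by norm_num
  refine ⟨(j + 1, w', κ'), ⟨hκ', ?_⟩, rfl, by rw [hlen]; exact hn, ?_, t, ht, htη, ?_⟩
  · intro ω' hω' x y hx hy
    simp only [hlen] at hω' ⊢
    obtain ⟨a, ha⟩ := exists_leaf1 S ω' 0 (-t) hb0
    obtain ⟨h1, h2, h3, h4⟩ := hall ω' (hagree ω' hω') x y (a, 0, -t) hx hy ⟨rfl, rfl, ha⟩
    exact ⟨h1, h3⟩
  · intro k hk
    rw [hext k (lt_trans hk hn)]
    exact hag k hk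
  · intro ω' hω' x y z hx hy hz
    simp only [hlen] at hω' ⊢
    obtain ⟨h1, h2, h3, i, hi, h4⟩ := hall ω' (hagree ω' hω') x y z hx hy hz
    exact ⟨fun i hi => (h1 i hi).trans (by linarith), fun i hi hi' => (h2 i hi hi').trans (by linarith),
      i, h4.trans (by linarith)⟩

theorem bad_of_res (f : Dyn 1) (hf : f ∈ Res) (F : (Fin 3 → ℝ) → (Fin 3 → ℝ)) (ε1 : ℝ)
    (hF : IsLift 1 F f.1) (hε1 : ε1 < ep) (hcl : Cl F F0 ε1) : ¬ PropC 1 f := by
  obtain ⟨S, hS⟩ := sys1_of_near F hF.1.continuous (bg_cl_mono hcl hε1.le)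
  have hr0 : 0 < r0 := by unfold r0; norm_num
  have hnu : 0 < nu := by unfold nu; norm_num
  -- initial state
  have hs0 : StOK S (0, [], r0 / 2) := by
    refine ⟨by simp only; linarith, ?_⟩
    intro ω' _ x y hx hy
    simp only [List.length_nil, nonpos_iff_eq_zero, forall_eq]
    have e1 : (S.orb x 0) = x := rfl
    have e2 : (S.orb y 0) = y := rfl
    rw [e1, e2, hx.2.1, hy.2.1]
    unfold et0
    constructor
    · rw [abs_zero]; unfold nu r0; norm_num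
    · rw [pow_zero]; linarith
  choose! nx hnx1 hnx2 using bg_next f hf F ε1 S hF hε1 hcl hS
  set st : ℕ → ℕ × List (Fin 4) × ℝ := fun n => nx^[n] (0, [], r0 / 2) with hst
  have hst0 : st 0 = (0, [], r0 / 2) := rfl
  have hsts : ∀ n, st (n + 1) = nx (st n) := fun n => Function.iterate_succ_apply' _ _ _
  have hok : ∀ n, StOK S (st n) := by
    intro n
    induction n with
    | zero => exact hs0
    | succ n ih => rw [hsts]; exact hnx1 _ ih
  have hrel : ∀ n, StRel S (st n) (st (n + 1)) := by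
    intro n; rw [hsts]; exact hnx2 _ (hok n)
  have hlev : ∀ n, (st n).1 = n := by
    intro n
    induction n with
    | zero => rfl
    | succ n ih => rw [(hrel n).1, ih]
  set len : ℕ → ℕ := fun n => (st n).2.1.length with hlen
  have hlens : ∀ n, len n < len (n + 1) := fun n => (hrel n).2.1
  have hmono : StrictMono len := strictMono_nat_of_lt_succ hlens
  have hlen_ge : ∀ n, n ≤ len n := hmono.id_le
  have hcompat : ∀ m n, m ≤ n → ∀ k < len m, ext (st m).2.1 k = ext (st n).2.1 k := by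
    intro m n hmn
    induction n, hmn using Nat.le_induction with
    | base => intro k _; rfl
    | succ n hmn ih =>
      intro k hk
      rw [ih k hk]
      exact (hrel n).2.2.1 k (lt_of_lt_of_le hk (hmono.monotone hmn))
  set ω : ℕ → Fin 4 := fun k => ext (st (k + 1)).2.1 k with hω
  have hag : ∀ n, Agree (len n) (ext (st n).2.1) ω := by
    intro n k hk
    show ext (st n).2.1 k = ext (st (k + 1)).2.1 k
    rcases le_total n (k + 1) with h | h
    · exact hcompat n (k + 1) h k hk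
    · exact (hcompat (k + 1) n h k (lt_of_lt_of_le (Nat.lt_succ_self k) (hlen_ge (k + 1)))).symm
  have hb0 : |(0:ℝ)| ≤ 1 / 2 := by norm_num
  obtain ⟨ax, hax⟩ := exists_leaf1 S ω 0 0 hb0
  obtain ⟨ay, hay⟩ := exists_leaf1 S ω 0 r0 hb0
  have hxl : Leaf S ω 0 0 (ax, 0, 0) := ⟨rfl, rfl, hax⟩
  have hyl : Leaf S ω 0 r0 (ay, 0, r0) := ⟨rfl, rfl, hay⟩
  have hstage : ∀ n, ∃ t, 0 < t ∧ t < et0 (n + 1) ∧ ∀ z, Leaf S ω 0 (-t) z →
      (∀ i ≤ len (n + 1), |(S.orb (ax, 0, 0) i).2.2| ≤ 2 * nu) ∧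
      (∀ i, len n ≤ i → i ≤ len (n + 1) →
        (S.orb (ay, 0, r0) i).2.2 - (S.orb (ax, 0, 0) i).2.2 ≤ 2 * et0 n) ∧
      ∃ i, (S.orb z i).2.2 ≤ -(1 / 200) := by
    intro n
    obtain ⟨_, _, _, t, ht, htη, hall⟩ := hrel n
    rw [hlev n] at htη hall
    exact ⟨t, ht, htη, fun z hz => hall ω (hag (n + 1)) _ _ z hxl hyl hz⟩
  have hxc : ∀ n, |(S.orb (ax, 0, 0) n).2.2| ≤ 2 * nu := by
    intro n
    obtain ⟨t, ht, htη, hall⟩ := hstage n
    obtain ⟨az, haz⟩ := exists_leaf1 S ω 0 (-t) hb0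
    exact (hall (az, 0, -t) ⟨rfl, rfl, haz⟩).1 n ((hlen_ge n).trans (hlens n).le)
  have het : Antitone et0 := antitone_nat_of_succ_le et0_succ
  have hRb : ∀ n i, len n ≤ i → (S.orb (ay, 0, r0) i).2.2 - (S.orb (ax, 0, 0) i).2.2 ≤ 2 * et0 n := by
    intro n i hi
    -- find the level of i
    obtain ⟨m, hm1, hm2⟩ : ∃ m, len m ≤ i ∧ i < len (m + 1) := by
      have hex : ∃ m, i < len (m + 1) := ⟨i, lt_of_lt_of_le (Nat.lt_succ_self i) (hlen_ge (i + 1))⟩
      refine ⟨Nat.find hex, ?_, Nat.find_spec hex⟩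
      rcases Nat.eq_zero_or_pos (Nat.find hex) with h | h
      · rw [h]; show len 0 ≤ i; simp [hlen, hst0]
      · have h2 := Nat.find_min hex (Nat.sub_lt h Nat.one_pos)
        rw [Nat.sub_add_cancel h] at h2
        exact not_lt.1 h2
    have hnm : n ≤ m := by
      by_contra hcon
      push Not at hcon
      have : len (m + 1) ≤ len n := hmono.monotone hcon
      omega
    obtain ⟨t, ht, htη, hall⟩ := hstage m
    obtain ⟨az, haz⟩ := exists_leaf1 S ω 0 (-t) hb0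
    have h3 := (hall (az, 0, -t) ⟨rfl, rfl, haz⟩).2.1 i hm1 hm2.le
    have h4 := het hnm
    linarith
  have hRpos : ∀ n, 0 < (S.orb (ay, 0, r0) n).2.2 - (S.orb (ax, 0, 0) n).2.2 := by
    intro n
    refine (pair_center _ _ _ (orb_pair1 S (ax, 0, 0) (ay, 0, r0)) ?_ ?_ ?_ n).1
    · intro k
      have h1 := abs_le.1 (hax k)
      have h2 := abs_le.1 (hay k)
      have h3 : dd ≤ 1 / 2 := by unfold dd; norm_num
      rw [abs_le]
      constructor <;> linarith [h1.1, h1.2, h2.1, h2.2]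
    · show |(0:ℝ) - 0| ≤ r0 - 0
      rw [sub_self, abs_zero, sub_zero]; exact hr0.le
    · show 0 < r0 - 0
      rw [sub_zero]; exact hr0
  have het0 : Tendsto (fun n => 2 * et0 n) atTop (𝓝 0) := by
    have h1 : Tendsto (fun n : ℕ => ((1:ℝ) / 2) ^ n) atTop (𝓝 0) :=
      tendsto_pow_atTop_nhds_zero_of_lt_one (by norm_num) (by norm_num)
    have h2 := h1.const_mul (4 * r0)
    rw [mul_zero] at h2
    refine h2.congr (fun n => ?_)
    unfold et0
    rw [one_div, inv_pow]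
    ring
  have hR0 : Tendsto (fun n => (S.orb (ay, 0, r0) n).2.2 - (S.orb (ax, 0, 0) n).2.2) atTop (𝓝 0) := by
    rw [Metric.tendsto_atTop]
    intro e he
    obtain ⟨n, hn⟩ := (het0.eventually (gt_mem_nhds he)).exists
    refine ⟨len n, fun i hi => ?_⟩
    rw [Real.dist_eq, sub_zero, abs_of_pos (hRpos i)]
    exact lt_of_le_of_lt (hRb n i hi) hn
  have hZ : ∀ s : ℝ, 0 < s → ∃ t, 0 < t ∧ t < s ∧ ∃ z, Leaf S ω 0 (-t) z ∧
      ∃ i, (S.orb z i).2.2 ≤ -(1 / 200) := by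
    intro s hs
    obtain ⟨n, hn⟩ := (het0.eventually (gt_mem_nhds hs)).exists
    obtain ⟨t, ht, htη, hall⟩ := hstage n
    obtain ⟨az, haz⟩ := exists_leaf1 S ω 0 (-t) hb0
    have h5 := et0_succ n
    have h6 := et0_pos n
    exact ⟨t, ht, by linarith, (az, 0, -t), ⟨rfl, rfl, haz⟩, (hall (az, 0, -t) ⟨rfl, rfl, haz⟩).2.2⟩
  obtain ⟨x, hx⟩ := not_cell1 1 le_rfl f.1 S (fun p => by rw [← hS, hF.2]) ω _ _ hxl hyl hxc hR0 hZ
  exact fun hC => hx (hC x)

theorem bad_generic : ∃ U : Set (Dyn 1), IsOpen U ∧ U.Nonempty ∧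
    ∃ R ∈ residual (Dyn 1), ∀ f ∈ U ∩ R, ¬ PropC 1 f := by
  refine ⟨{f | ∃ (F : (Fin 3 → ℝ) → (Fin 3 → ℝ)) (ε1 : ℝ), IsLift 1 F f.1 ∧ ε1 < ep ∧ Cl F F0 ε1},
    ?_, ?_, Res, Res_residual, ?_⟩
  · apply open_of_cl
    rintro f ⟨F, ε1, hF, hε1, hcl⟩
    refine ⟨F, hF, (ep - ε1) / 2, by linarith, ?_⟩
    intro g G hG hGF
    exact ⟨G, _, hG, by linarith, bg_cl_trans hGF hcl⟩
  · obtain ⟨f0, hf0, G0, hG0⟩ := exists_f0
    refine ⟨⟨f0, ⟨F0, hf0 1⟩, ⟨G0, hG0 1⟩⟩, F0, 0, hf0 1, by unfold ep; norm_num, ?_, ?_⟩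
    · intro p; simp
    · intro p q; simp
  · rintro f ⟨⟨F, ε1, hF, hε1, hcl⟩, hf⟩
    exact bad_of_res f hf F ε1 hF hε1 hcl

end Pool.Agent.Helper867.Smale
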