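import Mathlib

set_option autoImplicit false

/-! Shared definitions: stable sets of diffeomorphisms of the 3-torus (MP_62114c_an). -/

open Set Filter Topology

namespace Pool.Agent.Helper867.Smale

/-! ### numerical constants -/

/-- expansion constant -/
noncomputable def NN : ℝ := 10 ^ 8
/-- size of the control term -/
noncomputable def nu : ℝ := 1 / 10 ^ 8
/-- size of the C^2 perturbation -/
noncomputable def ep : ℝ := 1 / 10 ^ 20
/-- C^2 bound of the central coupling -/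
noncomputable def dl : ℝ := 1 / 10 ^ 5
/-- half length of the arcs -/
noncomputable def dd : ℝ := 1 / 10 ^ 6
/-- concavity constant -/
noncomputable def et : ℝ := 1 / 10 ^ 3
/-- initial central distance -/
noncomputable def r0 : ℝ := 1 / 10 ^ 9

/-- maximum of three absolute values -/
noncomputable def mx (a b c : ℝ) : ℝ := max |a| (max |b| |c|)

/-- centres of the four control arcs -/
noncomputable def aT : Fin 4 → ℝ := ![0, 1 / 2, 1 / 6, 1 / 3]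

/-- The lifted system, in coordinates (a, b, c): a linear hyperbolic part in (a, b) and a central
coordinate c, with small perturbations h1, h2 and a small central coupling g. -/
structure Sys where
  h1 : ℝ → ℝ → ℝ → ℝ
  h2 : ℝ → ℝ → ℝ → ℝ
  g : ℝ → ℝ → ℝ → ℝ
  r : ℝ → ℝ
  cont1 : Continuous fun p : ℝ × ℝ × ℝ => h1 p.1 p.2.1 p.2.2
  cont2 : Continuous fun p : ℝ × ℝ × ℝ => h2 p.1 p.2.1 p.2.2
  contg : Continuous fun p : ℝ × ℝ × ℝ => g p.1 p.2.1 p.2.2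
  contr : Continuous r
  b1 : ∀ a b c, |h1 a b c| ≤ ep
  b2 : ∀ a b c, |h2 a b c| ≤ ep
  bg : ∀ a b c, |g a b c| ≤ 3 * nu
  lip1 : ∀ a b c a' b' c', |h1 a b c - h1 a' b' c'| ≤ ep * mx (a - a') (b - b') (c - c')
  lip2 : ∀ a b c a' b' c', |h2 a b c - h2 a' b' c'| ≤ ep * mx (a - a') (b - b') (c - c')
  lipg : ∀ a b c a' b' c', |g a b c - g a' b' c'| ≤ dl * mx (a - a') (b - b') (c - c')
  lipr : ∀ c c', |r c - r c'| ≤ |c - c'| / 20
  trip1 : ∀ a b c αy σy R αz σz L, 0 < R → 0 < L → |αy| ≤ R → |σy| ≤ R → |αz| ≤ L → |σz| ≤ L →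
    |(h1 a b c - h1 (a - αz) (b - σz) (c - L)) / L - (h1 (a + αy) (b + σy) (c + R) - h1 a b c) / R|
      ≤ ep * (|αz / L - αy / R| + |σz / L - σy / R| + (L + R))
  trip2 : ∀ a b c αy σy R αz σz L, 0 < R → 0 < L → |αy| ≤ R → |σy| ≤ R → |αz| ≤ L → |σz| ≤ L →
    |(h2 a b c - h2 (a - αz) (b - σz) (c - L)) / L - (h2 (a + αy) (b + σy) (c + R) - h2 a b c) / R|
      ≤ ep * (|αz / L - αy / R| + |σz / L - σy / R| + (L + R))
  tripg : ∀ a b c αy σy R αz σz L, 0 < R → 0 < L → |αy| ≤ R → |σy| ≤ R → |αz| ≤ L → |σz| ≤ L →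
    |(g a b c - g (a - αz) (b - σz) (c - L)) / L - (g (a + αy) (b + σy) (c + R) - g a b c) / R|
      ≤ dl * (|αz / L - αy / R| + |σz / L - σy / R| + (L + R))
  tripr : ∀ c R L, 0 < R → 0 < L →
    |(r c - r (c - L)) / L - (r (c + R) - r c) / R| ≤ L + R
  concr : ∀ c R L, 0 < R → 0 < L → -(1 / 200) ≤ c - L → c + R ≤ 1 / 200 →
    et * (L + R) ≤ (r c - r (c - L)) / L - (r (c + R) - r c) / R
  smallr : ∀ c, |c| ≤ 2 * nu → |r c| ≤ nu / 10
  trap : ∀ c, -(1 / 4) ≤ c → c ≤ -(1 / 200) →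
    -(1 / 4) ≤ c + r c - 3 * nu ∧ c + r c + 3 * nu ≤ -(1 / 200)
  signP : ∀ (i : Fin 4) (m : ℤ) a b c, (i = 0 ∨ i = 2) → |a - (aT i + m)| ≤ dd → |c| ≤ 2 * nu →
    nu / 3 ≤ g a b c ∧ g a b c ≤ 11 / 10 * nu
  signN : ∀ (i : Fin 4) (m : ℤ) a b c, (i = 1 ∨ i = 3) → |a - (aT i + m)| ≤ dd → |c| ≤ 2 * nu →
    -(11 / 10 * nu) ≤ g a b c ∧ g a b c ≤ -(nu / 3)
  rateE : ∀ (i : Fin 4) (m : ℤ) a b c α σ R, (i = 0 ∨ i = 1) → |a - (aT i + m)| ≤ dd →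
    |c| ≤ 2 * nu → 0 < R → R ≤ nu → |α| ≤ 3 / NN * R → |σ| ≤ R →
    nu * R ≤ (r (c + R) + g (a + α) (b + σ) (c + R)) - (r c + g a b c) ∧
      (r (c + R) + g (a + α) (b + σ) (c + R)) - (r c + g a b c) ≤ 8 * nu * R
  rateC : ∀ (i : Fin 4) (m : ℤ) a b c α σ R, (i = 2 ∨ i = 3) → |a - (aT i + m)| ≤ dd →
    |c| ≤ 2 * nu → 0 < R → R ≤ nu → |α| ≤ 3 / NN * R → |σ| ≤ R →
    -(8 * nu * R) ≤ (r (c + R) + g (a + α) (b + σ) (c + R)) - (r c + g a b c) ∧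
      (r (c + R) + g (a + α) (b + σ) (c + R)) - (r c + g a b c) ≤ -(nu * R)

/-- one step of the lifted system -/
noncomputable def Sys.step (S : Sys) (p : ℝ × ℝ × ℝ) : ℝ × ℝ × ℝ :=
  (NN * p.1 - p.2.1 + S.h1 p.1 p.2.1 p.2.2,
    p.1 + S.h2 p.1 p.2.1 p.2.2,
    p.2.2 + S.r p.2.2 + S.g p.1 p.2.1 p.2.2)

/-- orbit of the lifted system -/
noncomputable def Sys.orb (S : Sys) (p : ℝ × ℝ × ℝ) (n : ℕ) : ℝ × ℝ × ℝ := S.step^[n] p

/-- inequalities satisfied by the difference of two orbits -/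
structure PairSeq (α σ γ : ℕ → ℝ) : Prop where
  h1 : ∀ n, |α (n + 1) - (NN * α n - σ n)| ≤ ep * mx (α n) (σ n) (γ n)
  h2 : ∀ n, |σ (n + 1) - α n| ≤ ep * mx (α n) (σ n) (γ n)
  h3 : ∀ n, |γ (n + 1) - γ n| ≤ |γ n| / 20 + dl * mx (α n) (σ n) (γ n)

/-- `difference of slopes` in the unstable direction -/
noncomputable def Dif (αy R αz L : ℕ → ℝ) (n : ℕ) : ℝ := |αz n / L n - αy n / R n|

/-- inequalities satisfied by a triple of orbits z < x < y ordered along the centre;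
y - x = (αy, σy, R) and x - z = (αz, σz, L) -/
structure TripSeq (αy σy R αz σz L : ℕ → ℝ) : Prop where
  Rpos : ∀ n, 0 < R n
  Lpos : ∀ n, 0 < L n
  ay : ∀ n, |αy n| ≤ 3 / NN * R n
  az : ∀ n, |αz n| ≤ 3 / NN * L n
  sy : ∀ n, |σy n| ≤ R n
  sz : ∀ n, |σz n| ≤ L n
  Ry : ∀ n, 9 / 10 * R n ≤ R (n + 1) ∧ R (n + 1) ≤ 11 / 10 * R n
  Lz : ∀ n, 9 / 10 * L n ≤ L (n + 1) ∧ L (n + 1) ≤ 11 / 10 * L n
  e1y : ∀ n, |αy (n + 1) - (NN * αy n - σy n)| ≤ ep * R n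
  e1z : ∀ n, |αz (n + 1) - (NN * αz n - σz n)| ≤ ep * L n
  e2y : ∀ n, |σy (n + 1) - αy n| ≤ ep * R n
  e2z : ∀ n, |σz (n + 1) - αz n| ≤ ep * L n
  t1 : ∀ n, |(αz (n + 1) - (NN * αz n - σz n)) / L n - (αy (n + 1) - (NN * αy n - σy n)) / R n|
    ≤ ep * (Dif αy R αz L n + Dif σy R σz L n + (L n + R n))
  t2 : ∀ n, |(σz (n + 1) - αz n) / L n - (σy (n + 1) - αy n) / R n|
    ≤ ep * (Dif αy R αz L n + Dif σy R σz L n + (L n + R n))
  t3 : ∀ n, |(L (n + 1) - L n) / L n - (R (n + 1) - R n) / R n|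
    ≤ (L n + R n) + dl * (Dif αy R αz L n + Dif σy R σz L n + (L n + R n))

/-- the point of `aT i + ℤ` nearest to `t` -/
noncomputable def near (i : Fin 4) (t : ℝ) : ℝ := aT i + round (t - aT i)

/-- pair of consecutive arc centres for a type sequence -/
noncomputable def arcP (ω : ℕ → Fin 4) : ℕ → ℝ × ℝ
  | 0 => (0, aT (ω 0))
  | n + 1 => ((arcP ω n).2, near (ω (n + 1)) (NN * (arcP ω n).2 - (arcP ω n).1))

/-- arc centres for a type sequence -/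
noncomputable def arc (ω : ℕ → Fin 4) (n : ℕ) : ℝ := (arcP ω n).2

end Pool.Agent.Helper867.Smale
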