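import Pool.Agent.Helper867.Smale.Defs2

set_option autoImplicit false

/-! The C^1 version of the lifted systems. -/

open Set Filter Topology

namespace Pool.Agent.Helper867.Smale

/-- `F - G` is bounded by `δ` and Lipschitz with constant `δ` -/
def Cl (F G : (Fin 3 → ℝ) → (Fin 3 → ℝ)) (δ : ℝ) : Prop :=
  (∀ p, ‖F p - G p‖ ≤ δ) ∧ ∀ p q, ‖(F p - G p) - (F q - G q)‖ ≤ δ * ‖p - q‖

/-- The lifted system, C^1 version. -/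
structure Sys1 where
  h1 : ℝ → ℝ → ℝ → ℝ
  h2 : ℝ → ℝ → ℝ → ℝ
  g : ℝ → ℝ → ℝ → ℝ
  r : ℝ → ℝ
  cont1 : Continuous fun p : ℝ × ℝ × ℝ => h1 p.1 p.2.1 p.2.2
  cont2 : Continuous fun p : ℝ × ℝ × ℝ => h2 p.1 p.2.1 p.2.2
  contg : Continuous fun p : ℝ × ℝ × ℝ => g p.1 p.2.1 p.2.2
  contr : Continuous r
  b1 : ∀ a b c, |h1 a b c| ≤ ep
  b2 : ∀ a b c, |h2 a b c| ≤ ep
  bg : ∀ a b c, |g a b c| ≤ 3 * nu
  lip1 : ∀ a b c a' b' c', |h1 a b c - h1 a' b' c'| ≤ ep * mx (a - a') (b - b') (c - c')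
  lip2 : ∀ a b c a' b' c', |h2 a b c - h2 a' b' c'| ≤ ep * mx (a - a') (b - b') (c - c')
  lipg : ∀ a b c a' b' c', |g a b c - g a' b' c'| ≤ dl * mx (a - a') (b - b') (c - c')
  lipr : ∀ c c', |r c - r c'| ≤ |c - c'| / 20
  smallr : ∀ c, |c| ≤ 2 * nu → |r c| ≤ nu / 10
  trap : ∀ c, -(1 / 4) ≤ c → c ≤ -(1 / 200) →
    -(1 / 4) ≤ c + r c - 3 * nu ∧ c + r c + 3 * nu ≤ -(1 / 200)
  signP : ∀ (i : Fin 4) (m : ℤ) a b c, (i = 0 ∨ i = 2) → |a - (aT i + m)| ≤ dd → |c| ≤ 2 * nu →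
    nu / 3 ≤ g a b c ∧ g a b c ≤ 11 / 10 * nu
  signN : ∀ (i : Fin 4) (m : ℤ) a b c, (i = 1 ∨ i = 3) → |a - (aT i + m)| ≤ dd → |c| ≤ 2 * nu →
    -(11 / 10 * nu) ≤ g a b c ∧ g a b c ≤ -(nu / 3)
  rateE : ∀ (i : Fin 4) (m : ℤ) a b c α σ R, (i = 0 ∨ i = 1) → |a - (aT i + m)| ≤ dd →
    |c| ≤ 2 * nu → 0 < R → R ≤ nu → |α| ≤ 3 / NN * R → |σ| ≤ R →
    nu * R ≤ (r (c + R) + g (a + α) (b + σ) (c + R)) - (r c + g a b c) ∧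
      (r (c + R) + g (a + α) (b + σ) (c + R)) - (r c + g a b c) ≤ 8 * nu * R
  rateC : ∀ (i : Fin 4) (m : ℤ) a b c α σ R, (i = 2 ∨ i = 3) → |a - (aT i + m)| ≤ dd →
    |c| ≤ 2 * nu → 0 < R → R ≤ nu → |α| ≤ 3 / NN * R → |σ| ≤ R →
    -(8 * nu * R) ≤ (r (c + R) + g (a + α) (b + σ) (c + R)) - (r c + g a b c) ∧
      (r (c + R) + g (a + α) (b + σ) (c + R)) - (r c + g a b c) ≤ -(nu * R)
  rateEL : ∀ (i : Fin 4) (m : ℤ) a b c α σ L, (i = 0 ∨ i = 1) → |a - (aT i + m)| ≤ dd →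
    |c| ≤ 2 * nu → 0 < L → L ≤ 1 / 150 → |α| ≤ 3 / NN * L → |σ| ≤ L →
    nu * L ≤ (r c + g a b c) - (r (c - L) + g (a - α) (b - σ) (c - L))
  rateCL : ∀ (i : Fin 4) (m : ℤ) a b c α σ L, (i = 2 ∨ i = 3) → |a - (aT i + m)| ≤ dd →
    |c| ≤ 2 * nu → 0 < L → L ≤ nu → |α| ≤ 3 / NN * L → |σ| ≤ L →
    -(8 * nu * L) ≤ (r c + g a b c) - (r (c - L) + g (a - α) (b - σ) (c - L)) ∧
      (r c + g a b c) - (r (c - L) + g (a - α) (b - σ) (c - L)) ≤ -(nu * L)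

/-- one step of the lifted system -/
noncomputable def Sys1.step (S : Sys1) (p : ℝ × ℝ × ℝ) : ℝ × ℝ × ℝ :=
  (NN * p.1 - p.2.1 + S.h1 p.1 p.2.1 p.2.2,
    p.1 + S.h2 p.1 p.2.1 p.2.2,
    p.2.2 + S.r p.2.2 + S.g p.1 p.2.1 p.2.2)

/-- orbit of the lifted system -/
noncomputable def Sys1.orb (S : Sys1) (p : ℝ × ℝ × ℝ) (n : ℕ) : ℝ × ℝ × ℝ := S.step^[n] p

end Pool.Agent.Helper867.Smale
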