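import Pool.Agent.Helper867.Smale.Torus
import Pool.Agent.Helper867.Smale.NearDef
import Pool.Agent.Helper867.Smale.L_pr_eq_iff
import Pool.Agent.Helper867.Smale.L_lift_unique

set_option autoImplicit false

open Set Filter Topology

namespace Pool.Agent.Helper867.Smale

theorem dyn_limit_aux_step (r : ℕ∞) (f g : Dyn r) (k : ℕ) (hkr : (k : ℕ∞) ≤ r) (δ : ℝ)
    (hn : Near r f g k δ) (F : (Fin 3 → ℝ) → (Fin 3 → ℝ)) (hF : IsLift r F f.1) :
    ∃ G, IsLift r G g.1 ∧ ∀ j ≤ k, ∀ p,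
      ‖iteratedFDeriv ℝ j G p - iteratedFDeriv ℝ j F p‖ ≤ δ := by
  obtain ⟨A, B, hA, hB, hAB⟩ := hn
  obtain ⟨m, hm⟩ := lift_unique F A hF.1.continuous hA.1.continuous (fun p => by
    rw [hF.2, hA.2])
  let c : Fin 3 → ℝ := fun i => (m i : ℝ)
  have hFA : F = A + fun _ => c := by
    funext p i
    exact hm p i
  refine ⟨B + fun _ => c, ⟨hB.1.add contDiff_const, fun p => ?_⟩, fun j hj p => ?_⟩
  · rw [← hB.2 p]
    exact ((pr_eq_iff (B p) (B p + c)).2 fun i => ⟨m i, rfl⟩).symm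
  · have hjr : (j : ℕ∞) ≤ r := le_trans (by exact_mod_cast hj) hkr
    have hjr' : (j : WithTop ℕ∞) ≤ r := by exact_mod_cast hjr
    have e1 : iteratedFDeriv ℝ j (B + fun _ => c) p =
        iteratedFDeriv ℝ j B p + iteratedFDeriv ℝ j (fun _ => c) p :=
      iteratedFDeriv_add_apply (hB.1.of_le hjr').contDiffAt contDiff_const.contDiffAt
    have e2 : iteratedFDeriv ℝ j (A + fun _ => c) p =
        iteratedFDeriv ℝ j A p + iteratedFDeriv ℝ j (fun _ => c) p :=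
      iteratedFDeriv_add_apply (hA.1.of_le hjr').contDiffAt contDiff_const.contDiffAt
    rw [hFA, e1, e2, add_sub_add_right_eq_sub]
    exact hAB j hj p

theorem dyn_limit_aux_geo (δ : ℕ → ℝ) (hδ0 : ∀ n, 0 < δ n)
    (hδ : ∀ n, δ (n + 1) ≤ δ n / 2) (N n : ℕ) : δ (n + N) ≤ δ N * (1 / 2) ^ n := by
  induction n with
  | zero => simp
  | succ n ih =>
    have := hδ (n + N)
    have e : n + 1 + N = n + N + 1 := by ring
    rw [e, pow_succ]
    linarith

theorem dyn_limit_aux_sum (δ : ℕ → ℝ) (hδ0 : ∀ n, 0 < δ n)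
    (hδ : ∀ n, δ (n + 1) ≤ δ n / 2) (N : ℕ) :
    Summable (fun n => δ (n + N)) ∧ ∑' n, δ (n + N) ≤ 2 * δ N := by
  have hg : HasSum (fun n : ℕ => δ N * (1 / 2 : ℝ) ^ n) (δ N * 2) := by
    exact hasSum_geometric_two.mul_left (δ N)
  have hs : Summable (fun n => δ (n + N)) :=
    Summable.of_nonneg_of_le (fun n => (hδ0 _).le) (fun n => dyn_limit_aux_geo δ hδ0 hδ N n)
      hg.summable
  refine ⟨hs, ?_⟩
  have := hs.tsum_le_tsum (fun n => dyn_limit_aux_geo δ hδ0 hδ N n) hg.summable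
  rw [hg.tsum_eq] at this
  linarith

theorem dyn_limit_aux_pr : Continuous pr :=
  continuous_pi fun i => (AddCircle.continuous_mk' (1 : ℝ)).comp (continuous_apply i)

theorem dyn_limit (r : ℕ∞) (hr : 1 ≤ r) (f : ℕ → Dyn r) (k : ℕ → ℕ) (δ : ℕ → ℝ)
    (hk : Monotone k) (hk0 : 1 ≤ k 0) (hkr : ∀ n, (k n : ℕ∞) ≤ r)
    (hkc : ∀ j : ℕ, (j : ℕ∞) ≤ r → ∃ n, j ≤ k n) (hδ0 : ∀ n, 0 < δ n)
    (hδ : ∀ n, δ (n + 1) ≤ δ n / 2) (hnear : ∀ n, Near r (f n) (f (n + 1)) (k n) (δ n))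
    (ε0 : ℝ) (hstab : ∀ H F, IsLift r F (f 0).1 → ContDiff ℝ r H →
      (∀ (p : Fin 3 → ℝ) (m : Fin 3 → ℤ), pr (H (p + fun i => (m i : ℝ))) = pr (H p)) →
      (∀ p, ‖H p - F p‖ ≤ 1 / 4) → (∀ p, ‖fderiv ℝ H p - fderiv ℝ F p‖ ≤ ε0) →
      ∃ h : Dyn r, IsLift r H h.1)
    (hε0 : 2 * δ 0 ≤ ε0) (hq : 2 * δ 0 ≤ 1 / 4) :
    ∃ g : Dyn r, ∀ n, Near r (f n) g (k n) (2 * δ n) := by
  -- lifts
  obtain ⟨F, hF, hFd⟩ : ∃ F : ℕ → (Fin 3 → ℝ) → (Fin 3 → ℝ), (∀ n, IsLift r (F n) (f n).1) ∧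
      ∀ n, ∀ j ≤ k n, ∀ p,
        ‖iteratedFDeriv ℝ j (F (n + 1)) p - iteratedFDeriv ℝ j (F n) p‖ ≤ δ n := by
    have step : ∀ (n : ℕ) (F : {F // IsLift r F (f n).1}),
        ∃ G : {G // IsLift r G (f (n + 1)).1}, ∀ j ≤ k n, ∀ p,
          ‖iteratedFDeriv ℝ j G.1 p - iteratedFDeriv ℝ j F.1 p‖ ≤ δ n := by
      intro n F
      obtain ⟨G, hG, hG2⟩ := dyn_limit_aux_step r (f n) (f (n + 1)) (k n) (hkr n) (δ n) (hnear n)
        F.1 F.2
      exact ⟨⟨G, hG⟩, hG2⟩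
    choose S hS using step
    obtain ⟨F0, hF0⟩ := (f 0).2.1
    let Fs : ∀ n, {F // IsLift r F (f n).1} := fun n =>
      Nat.rec (motive := fun n => {F // IsLift r F (f n).1}) ⟨F0, hF0⟩ (fun n F => S n F) n
    exact ⟨fun n => (Fs n).1, fun n => (Fs n).2, fun n => hS n (Fs n)⟩
  set u : ℕ → (Fin 3 → ℝ) → (Fin 3 → ℝ) := fun n p => F (n + 1) p - F n p with hu
  have hcast : ∀ {a b : ℕ∞}, a ≤ b → (a : WithTop ℕ∞) ≤ (b : WithTop ℕ∞) := fun h => by
    exact_mod_cast h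
  have hcu : ∀ n, ContDiff ℝ r (u n) := fun n => (hF (n + 1)).1.sub (hF n).1
  have hdu : ∀ n, ∀ j ≤ k n, ∀ p, ‖iteratedFDeriv ℝ j (u n) p‖ ≤ δ n := by
    intro n j hj p
    have hjr : (j : ℕ∞) ≤ r := le_trans (by exact_mod_cast hj) (hkr n)
    have e : iteratedFDeriv ℝ j (u n) p =
        iteratedFDeriv ℝ j (F (n + 1)) p - iteratedFDeriv ℝ j (F n) p :=
      iteratedFDeriv_sub_apply ((hF (n + 1)).1.of_le (hcast hjr)).contDiffAt
        ((hF n).1.of_le (hcast hjr)).contDiffAt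
    rw [e]
    exact hFd n j hj p
  -- tails
  set T : ℕ → (Fin 3 → ℝ) → (Fin 3 → ℝ) := fun N p => ∑' n, u (n + N) p with hT
  have hduN : ∀ N n j, j ≤ k N → ∀ p, ‖iteratedFDeriv ℝ j (u (n + N)) p‖ ≤ δ (n + N) :=
    fun N n j hj p => hdu (n + N) j (hj.trans (hk (Nat.le_add_left _ _))) p
  have hTc : ∀ N, ContDiff ℝ (k N : ℕ∞) (T N) := by
    intro N
    apply contDiff_tsum (v := fun _ n => δ (n + N))
    · exact fun n => (hcu (n + N)).of_le (hcast (hkr N))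
    · exact fun _ _ => (dyn_limit_aux_sum δ hδ0 hδ N).1
    · intro j n p hj
      exact hduN N n j (by exact_mod_cast hj) p
  have hTd : ∀ N j, j ≤ k N → ∀ p, ‖iteratedFDeriv ℝ j (T N) p‖ ≤ 2 * δ N := by
    intro N j hj p
    have e := iteratedFDeriv_tsum_apply (𝕜 := ℝ) (N := (k N : ℕ∞)) (f := fun n => u (n + N))
      (v := fun _ n => δ (n + N)) (fun n => (hcu (n + N)).of_le (hcast (hkr N)))
      (fun _ _ => (dyn_limit_aux_sum δ hδ0 hδ N).1)
      (fun j n p hj => hduN N n j (by exact_mod_cast hj) p) (k := j) (by exact_mod_cast hj) p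
    have e' : iteratedFDeriv ℝ j (T N) p = ∑' n, iteratedFDeriv ℝ j (u (n + N)) p := e
    rw [e']
    exact (tsum_of_norm_bounded (dyn_limit_aux_sum δ hδ0 hδ N).1.hasSum
      (fun n => hduN N n j hj p)).trans (dyn_limit_aux_sum δ hδ0 hδ N).2
  have hTn : ∀ N p, ‖T N p‖ ≤ 2 * δ N := by
    intro N p
    have := hTd N 0 (Nat.zero_le _) p
    rwa [norm_iteratedFDeriv_zero] at this
  -- the limit
  set H : (Fin 3 → ℝ) → (Fin 3 → ℝ) := fun p => F 0 p + ∑' n, u n p with hH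
  have hHN : ∀ N, H = F N + T N := by
    intro N
    funext p
    have hs : Summable (fun n => u n p) := by
      refine Summable.of_norm_bounded (g := fun n => δ (n + 0))
        (dyn_limit_aux_sum δ hδ0 hδ 0).1 fun n => ?_
      have := hdu n 0 (Nat.zero_le _) p
      rwa [norm_iteratedFDeriv_zero] at this
    have h1 := hs.sum_add_tsum_nat_add N
    have h2 : ∑ i ∈ Finset.range N, u i p = F N p - F 0 p := by
      simp only [hu]
      exact Finset.sum_range_sub (fun n => F n p) N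
    show F 0 p + ∑' n, u n p = F N p + ∑' n, u (n + N) p
    rw [← h1, h2]
    abel
  have hHr : ContDiff ℝ r H := by
    rw [contDiff_iff_forall_nat_le]
    intro m hm
    obtain ⟨n, hn⟩ := hkc m hm
    have h1 : ContDiff ℝ (k n : ℕ∞) H := by
      rw [hHN n]
      exact ((hF n).1.of_le (hcast (hkr n))).add (hTc n)
    exact h1.of_le (by exact_mod_cast hn)
  have hHd : ∀ N j, j ≤ k N → ∀ p,
      ‖iteratedFDeriv ℝ j H p - iteratedFDeriv ℝ j (F N) p‖ ≤ 2 * δ N := by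
    intro N j hj p
    have hjr : (j : ℕ∞) ≤ r := le_trans (by exact_mod_cast hj) (hkr N)
    have hjk : (j : ℕ∞) ≤ (k N : ℕ∞) := by exact_mod_cast hj
    have e : iteratedFDeriv ℝ j (F N + T N) p =
        iteratedFDeriv ℝ j (F N) p + iteratedFDeriv ℝ j (T N) p :=
      iteratedFDeriv_add_apply ((hF N).1.of_le (hcast hjr)).contDiffAt
        ((hTc N).of_le (hcast hjk)).contDiffAt
    rw [hHN N, e, add_sub_cancel_left]
    exact hTd N j hj p
  have hsub : ∀ N p, H p - F N p = T N p := by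
    intro N p
    rw [hHN N]
    simp
  have hlim : ∀ p, Tendsto (fun n => F n p) atTop (𝓝 (H p)) := by
    intro p
    rw [tendsto_iff_norm_sub_tendsto_zero]
    have hδlim : Tendsto (fun n => 2 * δ n) atTop (𝓝 0) := by
      have := (dyn_limit_aux_sum δ hδ0 hδ 0).1.tendsto_atTop_zero
      simpa using this.const_mul 2
    refine squeeze_zero (fun n => norm_nonneg _) (fun n => ?_) hδlim
    rw [norm_sub_rev, hsub]
    exact hTn n p
  have hper : ∀ (p : Fin 3 → ℝ) (m : Fin 3 → ℤ),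
      pr (H (p + fun i => (m i : ℝ))) = pr (H p) := by
    intro p m
    have h1 := (dyn_limit_aux_pr.tendsto _).comp (hlim (p + fun i => (m i : ℝ)))
    have h2 := (dyn_limit_aux_pr.tendsto _).comp (hlim p)
    have e : (pr ∘ fun n => F n (p + fun i => (m i : ℝ))) = pr ∘ fun n => F n p := by
      funext n
      show pr (F n (p + fun i => (m i : ℝ))) = pr (F n p)
      rw [(hF n).2, (hF n).2]
      congr 1
      exact ((pr_eq_iff p (p + fun i => (m i : ℝ))).2 fun i => ⟨m i, rfl⟩).symm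
    rw [e] at h1
    exact tendsto_nhds_unique h1 h2
  obtain ⟨g, hg⟩ := hstab H (F 0) (hF 0) hHr hper (fun p => by
    rw [hsub]; exact (hTn 0 p).trans hq) (fun p => by
    have h1r : (1 : WithTop ℕ∞) ≤ r := by exact_mod_cast hr
    have hd1 : DifferentiableAt ℝ (F 0) p :=
      (hF 0).1.differentiable (by
        intro h
        rw [h] at h1r
        simp at h1r) p
    have hd2 : DifferentiableAt ℝ (T 0) p := by
      refine (hTc 0).differentiable ?_ p
      intro h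
      have : k 0 = 0 := by exact_mod_cast h
      omega
    have e : fderiv ℝ H p = fderiv ℝ (F 0) p + fderiv ℝ (T 0) p := by
      rw [hHN 0]
      exact fderiv_add hd1 hd2
    rw [e, add_sub_cancel_left, ← norm_iteratedFDeriv_one]
    exact (hTd 0 1 hk0 p).trans hε0)
  exact ⟨g, fun n => ⟨F n, H, hF n, hg, fun j hj p => hHd n j hj p⟩⟩

end Pool.Agent.Helper867.Smale
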