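import Pool.Agent.Helper867.Smale.Torus
import Pool.Agent.Helper867.Smale.NearDef
import Pool.Agent.Helper867.Smale.L_near_symm
import Pool.Agent.Helper867.Smale.L_near_triangle
import Pool.Agent.Helper867.Smale.L_near_self
import Pool.Agent.Helper867.Smale.L_ball_basis
import Pool.Agent.Helper867.Smale.L_dyn_stab
import Pool.Agent.Helper867.Smale.L_dyn_limit

set_option autoImplicit false

open Set Filter Topology

namespace Pool.Agent.Helper867.Smale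

theorem baireSpace_dyn_aux_max (r : ℕ∞) (a b : ℕ) (ha : (a : ℕ∞) ≤ r) (hb : (b : ℕ∞) ≤ r) :
    ((max a b : ℕ) : ℕ∞) ≤ r := by
  rcases max_choice a b with h | h <;> rw [h] <;> assumption

theorem baireSpace_dyn_aux_m (r : ℕ∞) (n : ℕ) :
    ∃ m : ℕ, (m : ℕ∞) ≤ r ∧ ∀ j ≤ n, (j : ℕ∞) ≤ r → j ≤ m := by
  by_cases h : (n : ℕ∞) ≤ r
  · exact ⟨n, h, fun j hj _ => hj⟩
  · push Not at h
    lift r to ℕ using h.ne_top
    exact ⟨r, le_rfl, fun j _ hj => by exact_mod_cast hj⟩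

theorem baireSpace_dyn_aux_open (r : ℕ∞) (f : Dyn r) (k : ℕ) (ε : ℝ) (hk : (k : ℕ∞) ≤ r)
    (hε : 0 < ε) : IsOpen (ckBall r f k ε) :=
  TopologicalSpace.isOpen_generateFrom_of_mem ⟨f, k, ε, hk, hε, rfl⟩

theorem baireSpace_dyn_aux_step (r : ℕ∞) (hr : 1 ≤ r) (W : Set (Dyn r)) (hW : IsOpen W) (f : Dyn r)
    (hf : f ∈ W) (k0 : ℕ) (hk0 : (k0 : ℕ∞) ≤ r) (δ0 : ℝ) (hδ0 : 0 < δ0) (n : ℕ) :
    ∃ (k : ℕ) (δ : ℝ), (k : ℕ∞) ≤ r ∧ 0 < δ ∧ k0 ≤ k ∧ 1 ≤ k ∧ δ ≤ δ0 ∧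
      (∀ j ≤ n, (j : ℕ∞) ≤ r → j ≤ k) ∧ ∀ g, Near r f g k (2 * δ) → g ∈ W := by
  obtain ⟨kk, ε, hkk, hε, hsub⟩ := ball_basis r W hW f hf
  obtain ⟨m, hm, hmj⟩ := baireSpace_dyn_aux_m r n
  have hδ : 0 < min δ0 (ε / 4) := lt_min hδ0 (by positivity)
  refine ⟨max (max k0 kk) (max 1 m), min δ0 (ε / 4), ?_, hδ, ?_, ?_, min_le_left _ _, ?_, ?_⟩
  · exact baireSpace_dyn_aux_max r _ _ (baireSpace_dyn_aux_max r _ _ hk0 hkk)
      (baireSpace_dyn_aux_max r _ _ (by exact_mod_cast hr) hm)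
  · exact le_max_of_le_left (le_max_left _ _)
  · exact le_max_of_le_right (le_max_left _ _)
  · exact fun j hj hjr => (hmj j hj hjr).trans (le_max_of_le_right (le_max_right _ _))
  · rintro g ⟨F, G, hF, hG, hFG⟩
    refine hsub ⟨F, G, hF, hG, 2 * min δ0 (ε / 4), ?_, fun j hj p => hFG j ?_ p⟩
    · have := min_le_right δ0 (ε / 4)
      linarith
    · exact hj.trans (le_max_of_le_left (le_max_right _ _))

theorem baireSpace_dyn (r : ℕ∞) (hr : 1 ≤ r) : BaireSpace (Dyn r) := by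
  refine ⟨fun U hUo hUd => ?_⟩
  rw [dense_iff_inter_open]
  intro V hVo hVn
  -- the initial data
  obtain ⟨f0, hf0V, hf0U⟩ := (hUd 0).inter_open_nonempty V hVo hVn
  obtain ⟨ε0, hε0, hstab⟩ := dyn_stab r hr f0
  obtain ⟨k0, δ0, hk0r, hδ0, -, hk01, hδ0m, -, hW0⟩ := baireSpace_dyn_aux_step r hr (V ∩ U 0)
    (hVo.inter (hUo 0)) f0 ⟨hf0V, hf0U⟩ 0 (by simp) (min (1 / 8) (ε0 / 2))
    (lt_min (by norm_num) (by positivity)) 0
  -- the step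
  let St := {s : Dyn r × ℕ × ℝ // (s.2.1 : ℕ∞) ≤ r ∧ 0 < s.2.2}
  have hstep : ∀ (n : ℕ) (s : St), ∃ s' : St, s.1.2.1 ≤ s'.1.2.1 ∧ s'.1.2.2 ≤ s.1.2.2 / 2 ∧
      (∀ j ≤ n + 1, (j : ℕ∞) ≤ r → j ≤ s'.1.2.1) ∧ Near r s.1.1 s'.1.1 s.1.2.1 s.1.2.2 ∧
      ∀ g, Near r s'.1.1 g s'.1.2.1 (2 * s'.1.2.2) → g ∈ U (n + 1) := by
    rintro n ⟨⟨f, k, δ⟩, hk, hδ⟩
    have hk' : (k : ℕ∞) ≤ r := hk
    have hδ' : (0 : ℝ) < δ := hδ
    have hfm : f ∈ ckBall r f k δ := by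
      obtain ⟨F, G, hF, hG, hFG⟩ := near_self r f k
      exact ⟨F, G, hF, hG, 0, hδ', hFG⟩
    obtain ⟨f', hf'1, hf'2⟩ := (hUd (n + 1)).inter_open_nonempty _
      (baireSpace_dyn_aux_open r f k δ hk' hδ') ⟨f, hfm⟩
    obtain ⟨k', δ', hk'r, hδ'0, hkk', -, hδδ', hj, hW⟩ := baireSpace_dyn_aux_step r hr (U (n + 1))
      (hUo _) f' hf'2 k hk' (δ / 2) (by positivity) (n + 1)
    refine ⟨⟨⟨f', k', δ'⟩, hk'r, hδ'0⟩, hkk', hδδ', hj, ?_, hW⟩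
    obtain ⟨F, G, hF, hG, ε', hε', hFG⟩ := hf'1
    exact ⟨F, G, hF, hG, fun j hj p => (hFG j hj p).trans hε'.le⟩
  choose nx h1 h2 h3 h4 h5 using hstep
  let s : ℕ → St := fun n => Nat.rec ⟨⟨f0, k0, δ0⟩, hk0r, hδ0⟩ (fun n s => nx n s) n
  have hs0 : s 0 = ⟨⟨f0, k0, δ0⟩, hk0r, hδ0⟩ := rfl
  have hss : ∀ n, s (n + 1) = nx n (s n) := fun n => rfl
  have hδ08 : δ0 ≤ 1 / 8 := hδ0m.trans (min_le_left _ _)
  have hδ0e : δ0 ≤ ε0 / 2 := hδ0m.trans (min_le_right _ _)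
  obtain ⟨g, hg⟩ := dyn_limit r hr (fun n => (s n).1.1) (fun n => (s n).1.2.1)
    (fun n => (s n).1.2.2) (monotone_nat_of_le_succ fun n => by
      change (s n).1.2.1 ≤ (s (n + 1)).1.2.1
      rw [hss]
      exact h1 n (s n))
    hk01 (fun n => (s n).2.1)
    (fun j hj => by
      refine ⟨j, ?_⟩
      rcases j with _ | m
      · exact Nat.zero_le _
      · change m + 1 ≤ (s (m + 1)).1.2.1
        rw [hss]
        exact h3 m (s m) (m + 1) le_rfl hj)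
    (fun n => (s n).2.2)
    (fun n => by
      change (s (n + 1)).1.2.2 ≤ (s n).1.2.2 / 2
      rw [hss]
      exact h2 n (s n))
    (fun n => by
      change Near r (s n).1.1 (s (n + 1)).1.1 (s n).1.2.1 (s n).1.2.2
      rw [hss]
      exact h4 n (s n))
    ε0 hstab
    (by
      change 2 * δ0 ≤ ε0
      linarith)
    (by
      change 2 * δ0 ≤ 1 / 4
      linarith)
  have hg0 : g ∈ V ∩ U 0 := hW0 g (hg 0)
  refine ⟨g, hg0.1, Set.mem_iInter.2 fun n => ?_⟩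
  rcases n with _ | n
  · exact hg0.2
  · have h6 := hg (n + 1)
    change Near r (s (n + 1)).1.1 g (s (n + 1)).1.2.1 (2 * (s (n + 1)).1.2.2) at h6
    rw [hss] at h6
    exact h5 n (s n) g h6

end Pool.Agent.Helper867.Smale
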