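import Pool.Agent.Helper867.Smale.Base
import Pool.Agent.Helper867.Smale.Torus
import Pool.Agent.Helper867.Smale.Defs2

set_option autoImplicit false

open Set Filter Topology

namespace Pool.Agent.Helper867.Smale

theorem c2_trip_aux1 (u : (Fin 3 → ℝ) → (Fin 3 → ℝ)) (hu : ContDiff ℝ 2 u) (K : ℝ)
    (h1 : ∀ p, ‖iteratedFDeriv ℝ 1 u p‖ ≤ K) (h2 : ∀ p, ‖iteratedFDeriv ℝ 2 u p‖ ≤ K) :
    (∀ p, ‖fderiv ℝ u p‖ ≤ K) ∧ (∀ p q, ‖u p - u q‖ ≤ K * ‖p - q‖) ∧
    (∀ x v, ‖u (x + v) - u x - fderiv ℝ u x v‖ ≤ K * ‖v‖ * ‖v‖) := by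
  have hK : 0 ≤ K := le_trans (norm_nonneg _) (h1 0)
  have hd : Differentiable ℝ u := hu.differentiable (by norm_num)
  have hD1 : ContDiff ℝ 1 (fderiv ℝ u) := hu.fderiv_right (by norm_num)
  have hdd : Differentiable ℝ (fderiv ℝ u) := hD1.differentiable (by norm_num)
  have hA : ∀ p, ‖fderiv ℝ u p‖ ≤ K := by
    intro p
    have := h1 p
    rwa [show (1:ℕ) = 0 + 1 from rfl, ← norm_iteratedFDeriv_fderiv, norm_iteratedFDeriv_zero] at this
  have hB : ∀ p, ‖fderiv ℝ (fderiv ℝ u) p‖ ≤ K := by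
    intro p
    have := h2 p
    rwa [show (2:ℕ) = (0 + 1) + 1 from rfl, ← norm_iteratedFDeriv_fderiv,
      ← norm_iteratedFDeriv_fderiv, norm_iteratedFDeriv_zero] at this
  have hL : ∀ p q, ‖u p - u q‖ ≤ K * ‖p - q‖ := by
    intro p q
    exact Convex.norm_image_sub_le_of_norm_fderiv_le (s := Set.univ) (fun x _ => hd x)
      (fun x _ => hA x) convex_univ (Set.mem_univ q) (Set.mem_univ p)
  have hL2 : ∀ p q, ‖fderiv ℝ u p - fderiv ℝ u q‖ ≤ K * ‖p - q‖ := by
    intro p q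
    exact Convex.norm_image_sub_le_of_norm_fderiv_le (s := Set.univ) (fun x _ => hdd x)
      (fun x _ => hB x) convex_univ (Set.mem_univ q) (Set.mem_univ p)
  refine ⟨hA, hL, ?_⟩
  intro x v
  have key := Convex.norm_image_sub_le_of_norm_fderiv_le' (f := u) (φ := fderiv ℝ u x)
    (C := K * ‖v‖) (s := Metric.closedBall x ‖v‖) (x := x) (y := x + v) (fun y _ => hd y)
    (fun y hy => by
      refine le_trans (hL2 y x) ?_
      rw [Metric.mem_closedBall, dist_eq_norm] at hy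
      exact mul_le_mul_of_nonneg_left hy hK)
    (convex_closedBall x ‖v‖) (Metric.mem_closedBall_self (norm_nonneg v))
    (by rw [Metric.mem_closedBall, dist_eq_norm]; simp)
  have e : x + v - x = v := by abel
  rw [e] at key
  exact key

theorem c2_trip_aux2 (p q r M : ℝ) (hM : 0 ≤ M) (hp : |p| ≤ M) (hq : |q| ≤ M) (hr : |r| ≤ M) :
    ‖(![p, q, r] : Fin 3 → ℝ)‖ ≤ M := by
  rw [pi_norm_le_iff_of_nonneg hM]
  intro i
  fin_cases i <;> simpa using by assumption

/-- C^2 small vector functions satisfy the three-point inequality -/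
theorem c2_trip (u : (Fin 3 → ℝ) → (Fin 3 → ℝ)) (hu : ContDiff ℝ 2 u) (K : ℝ) (hK : 0 ≤ K)
    (h1 : ∀ p, ‖iteratedFDeriv ℝ 1 u p‖ ≤ K) (h2 : ∀ p, ‖iteratedFDeriv ℝ 2 u p‖ ≤ K) :
    (∀ p q, ‖u p - u q‖ ≤ K * ‖p - q‖) ∧
    ∀ (i : Fin 3) (a b c αy σy R αz σz L : ℝ), 0 < R → 0 < L → |αy| ≤ R → |σy| ≤ R →
      |αz| ≤ L → |σz| ≤ L →
      |(u ![a, b, c] i - u ![a - αz, b - σz, c - L] i) / L
          - (u ![a + αy, b + σy, c + R] i - u ![a, b, c] i) / R|
        ≤ K * (|αz / L - αy / R| + |σz / L - σy / R| + (L + R)) := by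
  obtain ⟨hA, hL, hR⟩ := c2_trip_aux1 u hu K h1 h2
  refine ⟨hL, ?_⟩
  intro i a b c αy σy R αz σz L hRpos hLpos hαy hσy hαz hσz
  set x : Fin 3 → ℝ := ![a, b, c] with hx
  set D := fderiv ℝ u x with hD
  have ey : (![a + αy, b + σy, c + R] : Fin 3 → ℝ) = x + ![αy, σy, R] := by
    rw [hx]; ext j; fin_cases j <;> simp
  have ez : (![a - αz, b - σz, c - L] : Fin 3 → ℝ) = x + (-![αz, σz, L]) := by
    rw [hx]; ext j; fin_cases j <;> simp [sub_eq_add_neg]
  have ny : ‖(![αy, σy, R] : Fin 3 → ℝ)‖ ≤ R :=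
    c2_trip_aux2 _ _ _ _ hRpos.le hαy hσy (by rw [abs_of_pos hRpos])
  have nz : ‖(-![αz, σz, L] : Fin 3 → ℝ)‖ ≤ L := by
    rw [norm_neg]
    exact c2_trip_aux2 _ _ _ _ hLpos.le hαz hσz (by rw [abs_of_pos hLpos])
  have ry := hR x ![αy, σy, R]
  have rz := hR x (-![αz, σz, L])
  rw [← ey] at ry
  rw [← ez] at rz
  have ry' : |u ![a + αy, b + σy, c + R] i - u x i - D ![αy, σy, R] i| ≤ K * R * R := by
    have h := norm_le_pi_norm (u ![a + αy, b + σy, c + R] - u x - D ![αy, σy, R]) i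
    simp only [Pi.sub_apply, Real.norm_eq_abs] at h
    refine le_trans h (le_trans ry ?_)
    exact mul_le_mul (mul_le_mul_of_nonneg_left ny hK) ny (norm_nonneg _) (by positivity)
  have rz' : |u ![a - αz, b - σz, c - L] i - u x i - D (-![αz, σz, L]) i| ≤ K * L * L := by
    have h := norm_le_pi_norm (u ![a - αz, b - σz, c - L] - u x - D (-![αz, σz, L])) i
    simp only [Pi.sub_apply, Real.norm_eq_abs] at h
    refine le_trans h (le_trans rz ?_)
    exact mul_le_mul (mul_le_mul_of_nonneg_left nz hK) nz (norm_nonneg _) (by positivity)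
  have hw : (![αz / L - αy / R, σz / L - σy / R, 0] : Fin 3 → ℝ)
      = L⁻¹ • ![αz, σz, L] - R⁻¹ • ![αy, σy, R] := by
    ext j
    fin_cases j
    · simp [div_eq_inv_mul]
    · simp [div_eq_inv_mul]
    · simp [hRpos.ne', hLpos.ne']
  have hDw : D ![αz / L - αy / R, σz / L - σy / R, 0] i
      = L⁻¹ * D ![αz, σz, L] i - R⁻¹ * D ![αy, σy, R] i := by
    rw [hw, map_sub, map_smul, map_smul]
    simp
  have hDn : |D ![αz / L - αy / R, σz / L - σy / R, 0] i|
      ≤ K * (|αz / L - αy / R| + |σz / L - σy / R|) := by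
    have h := norm_le_pi_norm (D ![αz / L - αy / R, σz / L - σy / R, 0]) i
    rw [Real.norm_eq_abs] at h
    refine le_trans h (le_trans (D.le_opNorm _) ?_)
    refine mul_le_mul (hA x) ?_ (norm_nonneg _) hK
    have p1 := abs_nonneg (αz / L - αy / R)
    have p2 := abs_nonneg (σz / L - σy / R)
    exact c2_trip_aux2 _ _ _ _ (by positivity) (by linarith) (by linarith)
      (by rw [abs_zero]; positivity)
  have hneg : D (-![αz, σz, L]) i = - D ![αz, σz, L] i := by
    rw [map_neg]; rfl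
  rw [hneg] at rz'
  set A := u ![a + αy, b + σy, c + R] i - u x i - D ![αy, σy, R] i with hAdef
  set B := u ![a - αz, b - σz, c - L] i - u x i - - D ![αz, σz, L] i with hBdef
  have hid : (u x i - u ![a - αz, b - σz, c - L] i) / L
          - (u ![a + αy, b + σy, c + R] i - u x i) / R
      = D ![αz / L - αy / R, σz / L - σy / R, 0] i + (- B / L - A / R) := by
    rw [hDw, hAdef, hBdef]
    field_simp
    ring
  rw [hid]
  have hBL : |B / L| ≤ K * L := by
    rw [abs_div, abs_of_pos hLpos, div_le_iff₀ hLpos]; exact rz'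
  have hAR : |A / R| ≤ K * R := by
    rw [abs_div, abs_of_pos hRpos, div_le_iff₀ hRpos]; exact ry'
  have t1 := abs_add_le (D ![αz / L - αy / R, σz / L - σy / R, 0] i) (- B / L - A / R)
  have t2 := abs_sub (- B / L) (A / R)
  have t3 : |- B / L| = |B / L| := by rw [neg_div, abs_neg]
  calc _ ≤ |D ![αz / L - αy / R, σz / L - σy / R, 0] i| + |- B / L - A / R| := t1
    _ ≤ K * (|αz / L - αy / R| + |σz / L - σy / R|) + (K * L + K * R) := by
      refine add_le_add hDn ?_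
      rw [t3] at t2
      exact le_trans t2 (add_le_add hBL hAR)
    _ = _ := by ring

end Pool.Agent.Helper867.Smale
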