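import Pool.Agent.Helper867.Smale.TripDef

set_option autoImplicit false

open Set Filter Topology

namespace Pool.Agent.Helper867.Smale

theorem c2_trip2_aux_fd (u : (Fin 3 → ℝ) → (Fin 3 → ℝ)) (K1 : ℝ) (hK1 : 0 ≤ K1)
    (h1 : ∀ p q, ‖u p - u q‖ ≤ K1 * ‖p - q‖) (p : Fin 3 → ℝ) : ‖fderiv ℝ u p‖ ≤ K1 := by
  have hl : LipschitzWith ⟨K1, hK1⟩ u := LipschitzWith.of_dist_le_mul (fun p q => by
    rw [dist_eq_norm, dist_eq_norm]
    exact h1 p q)
  exact norm_fderiv_le_of_lipschitz ℝ hl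

theorem c2_trip2_aux_fd2 (u : (Fin 3 → ℝ) → (Fin 3 → ℝ)) (hu : ContDiff ℝ 2 u) (K2 : ℝ)
    (h2 : ∀ p, ‖iteratedFDeriv ℝ 2 u p‖ ≤ K2) (p q : Fin 3 → ℝ) :
    ‖fderiv ℝ u p - fderiv ℝ u q‖ ≤ K2 * ‖p - q‖ := by
  have hd : Differentiable ℝ (fderiv ℝ u) :=
    (hu.fderiv_right (m := 1) (by norm_num)).differentiable (by norm_num)
  have hb : ∀ x, ‖fderiv ℝ (fderiv ℝ u) x‖ ≤ K2 := by
    intro x
    rw [← norm_iteratedFDeriv_one, norm_iteratedFDeriv_fderiv]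
    exact h2 x
  exact (convex_univ).norm_image_sub_le_of_norm_fderiv_le (𝕜 := ℝ) (fun x _ => hd x)
    (fun x _ => hb x) (mem_univ q) (mem_univ p)

theorem c2_trip2_aux_norm (a b c C : ℝ) (ha : |a| ≤ C) (hb : |b| ≤ C) (hc : |c| ≤ C) :
    ‖(![a, b, c] : Fin 3 → ℝ)‖ ≤ C := by
  rw [pi_norm_le_iff_of_nonneg ((abs_nonneg a).trans ha)]
  intro i
  fin_cases i
  · simpa using ha
  · simpa using hb
  · simpa using hc

theorem c2_trip2_aux_main (u : (Fin 3 → ℝ) → (Fin 3 → ℝ)) (hu : ContDiff ℝ 2 u) (K1 K2 : ℝ)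
    (hK1 : 0 ≤ K1) (hK2 : 0 ≤ K2) (h1 : ∀ p q, ‖u p - u q‖ ≤ K1 * ‖p - q‖)
    (h2 : ∀ p, ‖iteratedFDeriv ℝ 2 u p‖ ≤ K2) (x vy vz : Fin 3 → ℝ) (R L D : ℝ) (hR : 0 < R)
    (hL : 0 < L) (hy : ‖vy‖ ≤ R) (hz : ‖vz‖ ≤ L) (hD : ‖(1 / L) • vz - (1 / R) • vy‖ ≤ D) :
    ‖(1 / L) • (u x - u (x - vz)) - (1 / R) • (u (x + vy) - u x)‖ ≤ K1 * D + K2 * (L + R) := by
  have hdiff : Differentiable ℝ u := hu.differentiable (by norm_num)
  have hder : ∀ s : ℝ, HasDerivAt (fun s : ℝ => (1 / L) • (u x - u (x - s • vz)) -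
      (1 / R) • (u (x + s • vy) - u x))
      ((1 / L) • (-(fderiv ℝ u (x - s • vz) (-vz))) - (1 / R) • (fderiv ℝ u (x + s • vy) vy)) s := by
    intro s
    have e1 : HasDerivAt (fun s : ℝ => x - s • vz) (-vz) s := by
      have := ((hasDerivAt_id s).smul_const vz).const_sub x
      simpa using this
    have e2 : HasDerivAt (fun s : ℝ => x + s • vy) vy s := by
      have := ((hasDerivAt_id s).smul_const vy).const_add x
      simpa using this
    have e3 := (hdiff (x - s • vz)).hasFDerivAt.comp_hasDerivAt s e1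
    have e4 := (hdiff (x + s • vy)).hasFDerivAt.comp_hasDerivAt s e2
    exact ((e3.const_sub (u x)).const_smul (1 / L)).sub ((e4.sub_const (u x)).const_smul (1 / R))
  have hbound : ∀ s ∈ Ico (0 : ℝ) 1,
      ‖(1 / L) • (-(fderiv ℝ u (x - s • vz) (-vz))) - (1 / R) • (fderiv ℝ u (x + s • vy) vy)‖ ≤
        K1 * D + K2 * (L + R) := by
    intro s hs
    have e5 : (1 / L) • (-(fderiv ℝ u (x - s • vz) (-vz))) - (1 / R) • (fderiv ℝ u (x + s • vy) vy) =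
        fderiv ℝ u (x - s • vz) ((1 / L) • vz - (1 / R) • vy) +
          (fderiv ℝ u (x - s • vz) - fderiv ℝ u (x + s • vy)) ((1 / R) • vy) := by
      rw [map_neg, neg_neg, map_sub, map_smul, map_smul, ContinuousLinearMap.sub_apply, map_smul,
        map_smul]
      abel
    rw [e5]
    have e6 : ‖fderiv ℝ u (x - s • vz) ((1 / L) • vz - (1 / R) • vy)‖ ≤ K1 * D :=
      (ContinuousLinearMap.le_opNorm _ _).trans
        (mul_le_mul (c2_trip2_aux_fd u K1 hK1 h1 _) hD (norm_nonneg _) hK1)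
    have e7 : ‖(1 / R) • vy‖ ≤ 1 := by
      rw [norm_smul, Real.norm_eq_abs, abs_of_pos (by positivity), one_div,
        inv_mul_le_iff₀ hR, mul_one]
      exact hy
    have e8 : ‖(x - s • vz) - (x + s • vy)‖ ≤ L + R := by
      have e9 : (x - s • vz) - (x + s • vy) = -(s • (vz + vy)) := by
        rw [smul_add]; abel
      rw [e9, norm_neg, norm_smul, Real.norm_eq_abs, abs_of_nonneg hs.1]
      calc s * ‖vz + vy‖ ≤ 1 * ‖vz + vy‖ :=
            mul_le_mul_of_nonneg_right hs.2.le (norm_nonneg _)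
        _ = ‖vz + vy‖ := one_mul _
        _ ≤ ‖vz‖ + ‖vy‖ := norm_add_le _ _
        _ ≤ L + R := add_le_add hz hy
    have e10 : ‖(fderiv ℝ u (x - s • vz) - fderiv ℝ u (x + s • vy)) ((1 / R) • vy)‖ ≤
        K2 * (L + R) := by
      refine (ContinuousLinearMap.le_opNorm _ _).trans ?_
      calc ‖fderiv ℝ u (x - s • vz) - fderiv ℝ u (x + s • vy)‖ * ‖(1 / R) • vy‖
          ≤ (K2 * (L + R)) * 1 := by
            apply mul_le_mul _ e7 (norm_nonneg _) (by positivity)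
            exact (c2_trip2_aux_fd2 u hu K2 h2 _ _).trans (mul_le_mul_of_nonneg_left e8 hK2)
        _ = K2 * (L + R) := mul_one _
    exact (norm_add_le _ _).trans (add_le_add e6 e10)
  have hfin := norm_image_sub_le_of_norm_deriv_le_segment_01'
    (fun s _ => (hder s).hasDerivWithinAt) hbound
  simpa using hfin

theorem c2_trip2 (u : (Fin 3 → ℝ) → (Fin 3 → ℝ)) (hu : ContDiff ℝ 2 u) (K1 K2 : ℝ) (hK1 : 0 ≤ K1)
    (hK2 : 0 ≤ K2) (h1 : ∀ p q, ‖u p - u q‖ ≤ K1 * ‖p - q‖)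
    (h2 : ∀ p, ‖iteratedFDeriv ℝ 2 u p‖ ≤ K2) :
    ∀ (i : Fin 3) (a b c αy σy R αz σz L : ℝ), 0 < R → 0 < L → |αy| ≤ R → |σy| ≤ R →
      |αz| ≤ L → |σz| ≤ L →
      |(u ![a, b, c] i - u ![a - αz, b - σz, c - L] i) / L
          - (u ![a + αy, b + σy, c + R] i - u ![a, b, c] i) / R|
        ≤ K1 * (|αz / L - αy / R| + |σz / L - σy / R|) + K2 * (L + R) := by
  intro i a b c αy σy R αz σz L hR hL hay hsy haz hsz
  have hx1 : (![a - αz, b - σz, c - L] : Fin 3 → ℝ) = ![a, b, c] - ![αz, σz, L] := by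
    funext j
    fin_cases j <;> simp
  have hx2 : (![a + αy, b + σy, c + R] : Fin 3 → ℝ) = ![a, b, c] + ![αy, σy, R] := by
    funext j
    fin_cases j <;> simp
  have hy : ‖(![αy, σy, R] : Fin 3 → ℝ)‖ ≤ R :=
    c2_trip2_aux_norm _ _ _ _ hay hsy (by rw [abs_of_pos hR])
  have hz : ‖(![αz, σz, L] : Fin 3 → ℝ)‖ ≤ L :=
    c2_trip2_aux_norm _ _ _ _ haz hsz (by rw [abs_of_pos hL])
  have hD : ‖(1 / L) • (![αz, σz, L] : Fin 3 → ℝ) - (1 / R) • (![αy, σy, R] : Fin 3 → ℝ)‖ ≤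
      |αz / L - αy / R| + |σz / L - σy / R| := by
    have e : (1 / L) • (![αz, σz, L] : Fin 3 → ℝ) - (1 / R) • (![αy, σy, R] : Fin 3 → ℝ) =
        ![αz / L - αy / R, σz / L - σy / R, 0] := by
      have hR' := hR.ne'
      have hL' := hL.ne'
      funext j
      fin_cases j
      · simp; ring
      · simp; ring
      · simp [hR', hL']
    rw [e]
    apply c2_trip2_aux_norm
    · linarith [abs_nonneg (σz / L - σy / R)]
    · linarith [abs_nonneg (αz / L - αy / R)]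
    · rw [abs_zero]; positivity
  have h := c2_trip2_aux_main u hu K1 K2 hK1 hK2 h1 h2 ![a, b, c] ![αy, σy, R] ![αz, σz, L] R L _
    hR hL hy hz hD
  rw [← hx1, ← hx2] at h
  refine le_trans ?_ h
  have h3 := norm_le_pi_norm ((1 / L) • (u ![a, b, c] - u ![a - αz, b - σz, c - L]) -
    (1 / R) • (u ![a + αy, b + σy, c + R] - u ![a, b, c])) i
  refine le_trans (le_of_eq ?_) h3
  rw [Real.norm_eq_abs]
  congr 1
  simp only [Pi.sub_apply, Pi.smul_apply, smul_eq_mul]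
  ring

end Pool.Agent.Helper867.Smale
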