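import Pool.Agent.Helper867.Smale.Base

set_option autoImplicit false

open Set Filter Topology

namespace Pool.Agent.Helper867.Smale

/-- position in the logarithmic scale -/
def control_auxj (n : ℕ) : ℕ := Nat.log (4 * 10 ^ 16) (n + 1)

/-- the index at which the central distance is measured -/
def control_auxk (n : ℕ) : ℕ := n - 1 - control_auxj n

theorem control_aux_j_le (n : ℕ) (hn : 1 ≤ n) : control_auxj n ≤ n - 1 := by
  unfold control_auxj
  have h1 : (4 * 10 ^ 16) ^ (Nat.log (4 * 10 ^ 16) (n + 1)) ≤ n + 1 :=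
    Nat.pow_log_le_self _ (by omega)
  set j := Nat.log (4 * 10 ^ 16) (n + 1) with hj
  by_contra hcon
  have h2 : n ≤ j := by omega
  have h3 : (4 * 10 ^ 16) ^ n ≤ (4 * 10 ^ 16) ^ j := Nat.pow_le_pow_right (by norm_num) h2
  have h4 : 4 ^ n ≤ (4 * 10 ^ 16) ^ n := Nat.pow_le_pow_left (by norm_num) n
  have h5 : ∀ m : ℕ, 1 ≤ m → m + 1 < 4 ^ m := by
    intro m hm
    induction m, hm using Nat.le_induction with
    | base => norm_num
    | succ m hm ih => rw [pow_succ]; omega
  have h6 := h5 n hn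
  omega

theorem control_aux_j_mono {m n : ℕ} (h : m ≤ n) : control_auxj m ≤ control_auxj n := by
  unfold control_auxj
  exact Nat.log_mono_right (by omega)

theorem control_aux_j_pow (n : ℕ) : (4 * 10 ^ 16 : ℝ) ^ (control_auxj n) ≤ (n : ℝ) + 1 := by
  have h1 : (4 * 10 ^ 16) ^ (Nat.log (4 * 10 ^ 16) (n + 1)) ≤ n + 1 :=
    Nat.pow_log_le_self _ (by omega)
  have h3 : ((4 * 10 ^ 16 : ℕ) : ℝ) = (4 * 10 ^ 16 : ℝ) := by norm_num
  unfold control_auxj
  rw [← h3]
  exact_mod_cast h1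

theorem control_aux_j_tendsto : Tendsto control_auxj atTop atTop := by
  rw [tendsto_atTop]
  intro b
  filter_upwards [eventually_ge_atTop ((4 * 10 ^ 16) ^ b)] with n hn
  unfold control_auxj
  exact Nat.le_log_of_pow_le (by norm_num) (by omega)

theorem control_aux_lim (ρ b : ℕ → ℝ) (θ : ℝ) (hθ0 : 0 ≤ θ) (hθ1 : θ < 1)
    (hpos : ∀ n, 0 ≤ ρ n) (hb : Tendsto b atTop (𝓝 0))
    (h : ∀ n, ρ (n + 1) ≤ max (θ * ρ n) (b n)) : Tendsto ρ atTop (𝓝 0) := by
  rw [Metric.tendsto_atTop]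
  intro ε hε
  have hb' := (Metric.tendsto_atTop.1 hb) (ε / 2) (by linarith)
  obtain ⟨N, hN⟩ := hb'
  have h1 : ∀ m, ρ (N + m) ≤ max (θ ^ m * ρ N) (ε / 2) := by
    intro m
    induction m with
    | zero => simp
    | succ m ih =>
      have h2 := h (N + m)
      have h3 := hN (N + m) (by omega)
      rw [Real.dist_eq, sub_zero] at h3
      have h4 : b (N + m) ≤ ε / 2 := le_trans (le_abs_self _) h3.le
      have h5 : θ * ρ (N + m) ≤ max (θ ^ (m + 1) * ρ N) (ε / 2) := by
        rcases le_max_iff.1 ih with h6 | h6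
        · apply le_max_of_le_left
          calc θ * ρ (N + m) ≤ θ * (θ ^ m * ρ N) := mul_le_mul_of_nonneg_left h6 hθ0
            _ = θ ^ (m + 1) * ρ N := by ring
        · apply le_max_of_le_right
          calc θ * ρ (N + m) ≤ 1 * (ε / 2) :=
                mul_le_mul hθ1.le h6 (hpos _) (by norm_num)
            _ = ε / 2 := by ring
      calc ρ (N + (m + 1)) = ρ (N + m + 1) := by ring_nf
        _ ≤ max (θ * ρ (N + m)) (b (N + m)) := h2
        _ ≤ _ := max_le h5 (le_max_of_le_right h4)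
  have h2 : Tendsto (fun m : ℕ => θ ^ m * ρ N) atTop (𝓝 0) := by
    have := (tendsto_pow_atTop_nhds_zero_of_lt_one hθ0 hθ1).mul_const (ρ N)
    simpa using this
  obtain ⟨M, hM⟩ := (Metric.tendsto_atTop.1 h2) ε hε
  refine ⟨N + M, fun n hn => ?_⟩
  have h3 := h1 (n - N)
  have h4 : N + (n - N) = n := by omega
  rw [h4] at h3
  have h5 := hM (n - N) (by omega)
  rw [Real.dist_eq, sub_zero] at h5
  rw [Real.dist_eq, sub_zero, abs_of_nonneg (hpos n)]
  refine lt_of_le_of_lt h3 (max_lt (lt_of_le_of_lt (le_abs_self _) h5) (by linarith))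

theorem control_aux_core (a ρ ca cr : ℕ → ℝ) (t : ℕ → Fin 4)
    (ha0 : a 0 = 0) (hρ0 : ρ 0 = r0) (hpos : ∀ n, 0 < ρ n)
    (hc : ∀ n, |a n - ca n| ≤ nu / 100)
    (hr : ∀ n, |ρ (control_auxk n) - cr n| ≤ 4 * dd * dl / (NN - 2) ^ (control_auxj n))
    (hcr0 : cr 0 = r0)
    (ht : ∀ n, t n = if 0 ≤ ca n then
        (if 8 * dd * dl / (NN - 2) ^ (control_auxj n) ≤ cr n then 3 else 1) else
        (if 8 * dd * dl / (NN - 2) ^ (control_auxj n) ≤ cr n then 2 else 0))
    (hP : ∀ n, |a n| ≤ 2 * nu → (t n = 0 ∨ t n = 2) →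
      nu / 3 - nu / 10 ≤ a (n + 1) - a n ∧ a (n + 1) - a n ≤ 11 / 10 * nu + nu / 10)
    (hN : ∀ n, |a n| ≤ 2 * nu → (t n = 1 ∨ t n = 3) →
      nu / 3 - nu / 10 ≤ a n - a (n + 1) ∧ a n - a (n + 1) ≤ 11 / 10 * nu + nu / 10)
    (hE : ∀ n, |a n| ≤ 2 * nu → ρ n ≤ nu → (t n = 0 ∨ t n = 1) →
      (1 + nu) * ρ n ≤ ρ (n + 1) ∧ ρ (n + 1) ≤ (1 + 8 * nu) * ρ n)
    (hC : ∀ n, |a n| ≤ 2 * nu → ρ n ≤ nu → (t n = 2 ∨ t n = 3) →
      (1 - 8 * nu) * ρ n ≤ ρ (n + 1) ∧ ρ (n + 1) ≤ (1 - nu) * ρ n) :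
    (∀ n, |a n| ≤ 2 * nu) ∧ (∀ n, ρ n ≤ nu) ∧ Tendsto ρ atTop (𝓝 0) ∧
      ∀ n : ℕ, 1 / 10 ^ 22 ≤ (ρ n) ^ 2 * ((n : ℝ) + 1) := by
  have hnu : 0 < nu := by unfold nu; norm_num
  -- position
  have hA : ∀ n, |a n| ≤ 2 * nu := by
    intro n
    induction n with
    | zero => rw [ha0]; simp; linarith
    | succ n ih =>
      have h1 := abs_le.1 (hc n)
      have h2 := abs_le.1 ih
      rw [abs_le]
      by_cases hpos' : 0 ≤ ca n
      · have ht' : t n = 1 ∨ t n = 3 := by
          rw [ht n, if_pos hpos']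
          split_ifs
          · right; rfl
          · left; rfl
        have h3 := hN n ih ht'
        constructor <;> linarith
      · have ht' : t n = 0 ∨ t n = 2 := by
          rw [ht n, if_neg hpos']
          split_ifs
          · right; rfl
          · left; rfl
        have h3 := hP n ih ht'
        push Not at hpos'
        constructor <;> linarith
  -- types
  have htE : ∀ n, ¬ (8 * dd * dl / (NN - 2) ^ (control_auxj n) ≤ cr n) → (t n = 0 ∨ t n = 1) := by
    intro n hn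
    rw [ht n, if_neg hn, if_neg hn]
    split_ifs
    · right; rfl
    · left; rfl
  have htC : ∀ n, (8 * dd * dl / (NN - 2) ^ (control_auxj n) ≤ cr n) → (t n = 2 ∨ t n = 3) := by
    intro n hn
    rw [ht n, if_pos hn, if_pos hn]
    split_ifs
    · right; rfl
    · left; rfl
  -- growth bounds
  have hgr : ∀ n, ρ n ≤ nu → (1 - 8 * nu) * ρ n ≤ ρ (n + 1) ∧ ρ (n + 1) ≤ (1 + 8 * nu) * ρ n := by
    intro n hn
    have hp := hpos n
    have h0 : 0 < nu * ρ n := mul_pos hnu hp
    by_cases h : (8 * dd * dl / (NN - 2) ^ (control_auxj n) ≤ cr n)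
    · have h1 := hC n (hA n) hn (htC n h)
      constructor
      · exact h1.1
      · nlinarith [h1.2]
    · have h1 := hE n (hA n) hn (htE n h)
      constructor
      · nlinarith [h1.1]
      · exact h1.2
  have h1m : (0 : ℝ) < 1 - 8 * nu := by unfold nu; norm_num
  have h1p : (0 : ℝ) < 1 + 8 * nu := by unfold nu; norm_num
  have hgrk : ∀ k m, (∀ i, k ≤ i → i < k + m → ρ i ≤ nu) →
      (1 - 8 * nu) ^ m * ρ k ≤ ρ (k + m) ∧ ρ (k + m) ≤ (1 + 8 * nu) ^ m * ρ k := by
    intro k m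
    induction m with
    | zero => intro _; simp
    | succ m ih =>
      intro hi
      have h1 := ih (fun i h1 h2 => hi i h1 (by omega))
      have h2 := hgr (k + m) (hi (k + m) (by omega) (by omega))
      constructor
      · calc (1 - 8 * nu) ^ (m + 1) * ρ k = (1 - 8 * nu) * ((1 - 8 * nu) ^ m * ρ k) := by ring
          _ ≤ (1 - 8 * nu) * ρ (k + m) := mul_le_mul_of_nonneg_left h1.1 h1m.le
          _ ≤ ρ (k + m + 1) := h2.1
      · calc ρ (k + m + 1) ≤ (1 + 8 * nu) * ρ (k + m) := h2.2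
          _ ≤ (1 + 8 * nu) * ((1 + 8 * nu) ^ m * ρ k) := mul_le_mul_of_nonneg_left h1.2 h1p.le
          _ = (1 + 8 * nu) ^ (m + 1) * ρ k := by ring
  -- the two barriers
  set Q : ℝ := 1 / (NN - 2) with hQ
  have hQ0 : 0 < Q := by rw [hQ]; unfold NN; norm_num
  have hQ1 : Q ≤ 1 / 10 ^ 7 := by rw [hQ]; unfold NN; norm_num
  have hQ2 : 1 / (10 ^ 8) ≤ Q := by rw [hQ]; unfold NN; norm_num
  set E : ℝ := 8 * dd * dl with hE0
  have hEv : E = 8 / 10 ^ 11 := by rw [hE0]; unfold dd dl; norm_num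
  have hdiv : ∀ j : ℕ, 8 * dd * dl / (NN - 2) ^ j = E * Q ^ j := by
    intro j
    rw [hE0, hQ, one_div, inv_pow]; rfl
  have hdiv2 : ∀ j : ℕ, 4 * dd * dl / (NN - 2) ^ j = E / 2 * Q ^ j := by
    intro j
    rw [hE0, hQ, one_div, inv_pow, div_eq_mul_inv]; ring
  let up : ℕ → ℝ := fun j => 3 / 2 * E * Q ^ j * (1 + 8 * nu) ^ (j + 2)
  let low : ℕ → ℝ := fun j => E / 2 * Q ^ j * (1 - 8 * nu) ^ (j + 2)
  have hup : ∀ j, up j = 3 / 2 * E * (1 + 8 * nu) ^ 2 * (Q * (1 + 8 * nu)) ^ j := by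
    intro j
    show 3 / 2 * E * Q ^ j * (1 + 8 * nu) ^ (j + 2) = _
    rw [mul_pow, pow_add]; ring
  have hlow : ∀ j, low j = E / 2 * (1 - 8 * nu) ^ 2 * (Q * (1 - 8 * nu)) ^ j := by
    intro j
    show E / 2 * Q ^ j * (1 - 8 * nu) ^ (j + 2) = _
    rw [mul_pow, pow_add]; ring
  have hE0pos : 0 < E := by rw [hEv]; norm_num
  have hQp : Q * (1 + 8 * nu) ≤ 1 / 2 := by
    have : (1 + 8 * nu) ≤ 2 := by unfold nu; norm_num
    nlinarith
  have hQp0 : 0 ≤ Q * (1 + 8 * nu) := mul_nonneg hQ0.le h1p.le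
  have hQm0 : 0 ≤ Q * (1 - 8 * nu) := mul_nonneg hQ0.le h1m.le
  have hQm : Q * (1 - 8 * nu) ≤ 1 := by
    have : (1 - 8 * nu) ≤ 1 := by linarith
    nlinarith
  have hupnu : ∀ j, up j ≤ nu := by
    intro j
    rw [hup]
    have h1 : (Q * (1 + 8 * nu)) ^ j ≤ 1 := pow_le_one₀ hQp0 (by linarith)
    have h2 : 3 / 2 * E * (1 + 8 * nu) ^ 2 ≤ nu := by rw [hEv]; unfold nu; norm_num
    have h3 : 0 ≤ 3 / 2 * E * (1 + 8 * nu) ^ 2 := by positivity
    calc _ ≤ 3 / 2 * E * (1 + 8 * nu) ^ 2 * 1 := mul_le_mul_of_nonneg_left h1 h3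
      _ ≤ nu := by linarith
  have huplim : Tendsto (fun n => up (control_auxj n)) atTop (𝓝 0) := by
    have h1 : Tendsto (fun j : ℕ => 3 / 2 * E * (1 + 8 * nu) ^ 2 * (Q * (1 + 8 * nu)) ^ j)
        atTop (𝓝 (3 / 2 * E * (1 + 8 * nu) ^ 2 * 0)) :=
      (tendsto_pow_atTop_nhds_zero_of_lt_one hQp0 (by linarith)).const_mul _
    rw [mul_zero] at h1
    have h2 := h1.comp control_aux_j_tendsto
    refine h2.congr (fun n => ?_)
    show _ = up (control_auxj n)
    rw [hup]; rfl
  have hlowanti : ∀ i j, i ≤ j → low j ≤ low i := by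
    intro i j hij
    rw [hlow, hlow]
    have h1 : (Q * (1 - 8 * nu)) ^ j ≤ (Q * (1 - 8 * nu)) ^ i := pow_le_pow_of_le_one hQm0 hQm hij
    exact mul_le_mul_of_nonneg_left h1 (by positivity)
  have hlow0 : low 0 ≤ (1 - 8 * nu) * r0 := by
    rw [hlow, hEv, pow_zero]; unfold nu r0; norm_num
  -- main induction
  have hmain : ∀ n, ρ n ≤ nu ∧ low (control_auxj n) ≤ ρ n ∧
      (1 ≤ n → ρ n ≤ max ((1 - nu) * ρ (n - 1)) (up (control_auxj (n - 1)))) := by
    intro n
    induction n using Nat.strong_induction_on with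
    | _ n ih =>
    rcases n with _ | n
    · have hj0 : control_auxj 0 = 0 := by unfold control_auxj; simp
      refine ⟨?_, ?_, ?_⟩
      · rw [hρ0]; unfold r0 nu; norm_num
      · rw [hj0, hρ0]
        refine hlow0.trans ?_
        unfold nu r0; norm_num
      · intro h; omega
    · have ihn := ih n (by omega)
      have hle : ∀ i, i ≤ n → ρ i ≤ nu := fun i hi => (ih i (by omega)).1
      simp only [Nat.add_sub_cancel]
      by_cases h : (8 * dd * dl / (NN - 2) ^ (control_auxj n) ≤ cr n)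
      · -- contracting
        have h1 := hC n (hA n) ihn.1 (htC n h)
        have h2 : ρ (n + 1) ≤ ρ n := by
          have := mul_pos hnu (hpos n)
          nlinarith [h1.2]
        refine ⟨h2.trans ihn.1, ?_, fun _ => le_max_of_le_left h1.2⟩
        refine le_trans (hlowanti _ _ (control_aux_j_mono (Nat.le_succ n))) ?_
        rcases Nat.eq_zero_or_pos n with hn0 | hn0
        · subst hn0
          have hj0 : control_auxj 0 = 0 := by unfold control_auxj; simp
          rw [hj0]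
          rw [hρ0] at h1
          exact hlow0.trans h1.1
        · have hj := control_aux_j_le n hn0
          have hk : control_auxk n + (control_auxj n + 2) = n + 1 := by
            unfold control_auxk; omega
          have h3 := abs_le.1 (hr n)
          rw [hdiv2] at h3
          rw [hdiv] at h
          have h4 : E / 2 * Q ^ (control_auxj n) ≤ ρ (control_auxk n) := by linarith [h3.1]
          have h5 := (hgrk (control_auxk n) (control_auxj n + 2)
            (fun i _ hi => hle i (by omega))).1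
          rw [hk] at h5
          calc low (control_auxj n)
              = (1 - 8 * nu) ^ (control_auxj n + 2) * (E / 2 * Q ^ (control_auxj n)) := by
                show E / 2 * Q ^ _ * (1 - 8 * nu) ^ (_ + 2) = _
                ring
            _ ≤ (1 - 8 * nu) ^ (control_auxj n + 2) * ρ (control_auxk n) :=
                mul_le_mul_of_nonneg_left h4 (by positivity)
            _ ≤ _ := h5
      · -- expanding
        have h1 := hE n (hA n) ihn.1 (htE n h)
        have hn0 : 1 ≤ n := by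
          rcases Nat.eq_zero_or_pos n with hn0 | hn0
          · exfalso
            subst hn0
            apply h
            have hj0 : control_auxj 0 = 0 := by unfold control_auxj; simp
            rw [hj0, hcr0, pow_zero]
            unfold dd dl r0; norm_num
          · exact hn0
        have hj := control_aux_j_le n hn0
        have hk : control_auxk n + (control_auxj n + 2) = n + 1 := by
          unfold control_auxk; omega
        have h3 := abs_le.1 (hr n)
        rw [hdiv2] at h3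
        rw [hdiv] at h
        push Not at h
        have h4 : ρ (control_auxk n) ≤ 3 / 2 * E * Q ^ (control_auxj n) := by
          linarith [h3.2]
        have h5 := (hgrk (control_auxk n) (control_auxj n + 2)
            (fun i _ hi => hle i (by omega))).2
        rw [hk] at h5
        have h6 : ρ (n + 1) ≤ up (control_auxj n) := by
          calc ρ (n + 1) ≤ (1 + 8 * nu) ^ (control_auxj n + 2) * ρ (control_auxk n) := h5
            _ ≤ (1 + 8 * nu) ^ (control_auxj n + 2) * (3 / 2 * E * Q ^ (control_auxj n)) :=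
              mul_le_mul_of_nonneg_left h4 (by positivity)
            _ = up (control_auxj n) := by
              show _ = 3 / 2 * E * Q ^ _ * (1 + 8 * nu) ^ (_ + 2)
              ring
        refine ⟨h6.trans (hupnu _), ?_, fun _ => le_max_of_le_right h6⟩
        refine le_trans (hlowanti _ _ (control_aux_j_mono (Nat.le_succ n))) ?_
        refine le_trans ihn.2.1 ?_
        have := mul_pos hnu (hpos n)
        nlinarith [h1.1]
  refine ⟨hA, fun n => (hmain n).1, ?_, ?_⟩
  · refine control_aux_lim ρ (fun n => up (control_auxj n)) (1 - nu) ?_ (by linarith)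
      (fun n => (hpos n).le) huplim ?_
    · unfold nu; norm_num
    · intro n
      have := (hmain (n + 1)).2.2 (by omega)
      simpa using this
  · intro n
    have h1 := (hmain n).2.1
    have h2 := control_aux_j_pow n
    set j := control_auxj n with hj
    have h3 : E / 4 * (1 / (2 * 10 ^ 8)) ^ j ≤ low j := by
      rw [hlow]
      have h4 : (1 / (2 * 10 ^ 8)) ^ j ≤ (Q * (1 - 8 * nu)) ^ j := by
        apply pow_le_pow_left₀ (by norm_num)
        have : (1 / 2 : ℝ) ≤ 1 - 8 * nu := by unfold nu; norm_num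
        nlinarith
      have h5 : E / 4 ≤ E / 2 * (1 - 8 * nu) ^ 2 := by
        rw [hEv]; unfold nu; norm_num
      exact mul_le_mul h5 h4 (by positivity) (by positivity)
    have h6 : E / 4 * (1 / (2 * 10 ^ 8)) ^ j ≤ ρ n := h3.trans h1
    have h7 : 0 ≤ E / 4 * (1 / (2 * 10 ^ 8)) ^ j := by positivity
    have h8 : (E / 4 * (1 / (2 * 10 ^ 8)) ^ j) ^ 2 ≤ (ρ n) ^ 2 := pow_le_pow_left₀ h7 h6 2
    have h9 : (E / 4 * (1 / (2 * 10 ^ 8)) ^ j) ^ 2 * (4 * 10 ^ 16 : ℝ) ^ j = (E / 4) ^ 2 := by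
      rw [mul_pow, ← pow_mul, mul_comm j 2, pow_mul, mul_assoc, ← mul_pow]
      norm_num
    calc (1 : ℝ) / 10 ^ 22 ≤ (E / 4) ^ 2 := by rw [hEv]; norm_num
      _ = (E / 4 * (1 / (2 * 10 ^ 8)) ^ j) ^ 2 * (4 * 10 ^ 16 : ℝ) ^ j := h9.symm
      _ ≤ (ρ n) ^ 2 * ((n : ℝ) + 1) := mul_le_mul h8 h2 (by positivity) (by positivity)

open Classical in
/-- the decision at time n -/
noncomputable def control_auxdec (cX R : (ℕ → Fin 4) → ℕ → ℝ) (n : ℕ) (w : ℕ → Fin 4) : Fin 4 :=
  if 0 ≤ cX w n then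
    (if 8 * dd * dl / (NN - 2) ^ (control_auxj n) ≤ R w (control_auxk n) then 3 else 1) else
    (if 8 * dd * dl / (NN - 2) ^ (control_auxj n) ≤ R w (control_auxk n) then 2 else 0)

/-- prefixes of the control sequence -/
noncomputable def control_auxpref (cX R : (ℕ → Fin 4) → ℕ → ℝ) : ℕ → (ℕ → Fin 4)
  | 0 => fun _ => 0
  | n + 1 => Function.update (control_auxpref cX R n) n
      (control_auxdec cX R n (control_auxpref cX R n))

theorem control_aux_agree (cX R : (ℕ → Fin 4) → ℕ → ℝ) (n k : ℕ) (h : k < n) :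
    control_auxpref cX R (k + 1) k = control_auxpref cX R n k := by
  induction n with
  | zero => omega
  | succ n ih =>
    rcases Nat.lt_succ_iff_lt_or_eq.1 h with h1 | h1
    · rw [ih h1]
      show _ = Function.update (control_auxpref cX R n) n _ k
      rw [Function.update_of_ne (by omega)]
    · subst h1; rfl

theorem control (cX R : (ℕ → Fin 4) → ℕ → ℝ)
    (h0 : ∀ ω, cX ω 0 = 0) (hR0 : ∀ ω, R ω 0 = r0) (hRpos : ∀ ω n, 0 < R ω n)
    (hc : ∀ ω ω' n, (∀ k < n, ω k = ω' k) → |cX ω n - cX ω' n| ≤ nu / 100)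
    (hR : ∀ ω ω' n, (∀ k < n, ω k = ω' k) →
      ∀ k < n, |R ω k - R ω' k| ≤ 4 * dd * dl / (NN - 2) ^ (n - 1 - k))
    (hP : ∀ ω n, |cX ω n| ≤ 2 * nu → (ω n = 0 ∨ ω n = 2) →
      nu / 3 - nu / 10 ≤ cX ω (n + 1) - cX ω n ∧ cX ω (n + 1) - cX ω n ≤ 11 / 10 * nu + nu / 10)
    (hN : ∀ ω n, |cX ω n| ≤ 2 * nu → (ω n = 1 ∨ ω n = 3) →
      nu / 3 - nu / 10 ≤ cX ω n - cX ω (n + 1) ∧ cX ω n - cX ω (n + 1) ≤ 11 / 10 * nu + nu / 10)
    (hE : ∀ ω n, |cX ω n| ≤ 2 * nu → R ω n ≤ nu → (ω n = 0 ∨ ω n = 1) →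
      (1 + nu) * R ω n ≤ R ω (n + 1) ∧ R ω (n + 1) ≤ (1 + 8 * nu) * R ω n)
    (hC : ∀ ω n, |cX ω n| ≤ 2 * nu → R ω n ≤ nu → (ω n = 2 ∨ ω n = 3) →
      (1 - 8 * nu) * R ω n ≤ R ω (n + 1) ∧ R ω (n + 1) ≤ (1 - nu) * R ω n) :
    ∃ ω, (∀ n, |cX ω n| ≤ 2 * nu) ∧ (∀ n, R ω n ≤ nu) ∧ Tendsto (R ω) atTop (𝓝 0) ∧
      ∀ n : ℕ, 1 / 10 ^ 22 ≤ (R ω n) ^ 2 * ((n : ℝ) + 1) := by
  classical
  let ω : ℕ → Fin 4 := fun k => control_auxpref cX R (k + 1) k
  have hag : ∀ n, ∀ k < n, ω k = control_auxpref cX R n k := fun n k hk =>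
    control_aux_agree cX R n k hk
  have hω : ∀ n, ω n = control_auxdec cX R n (control_auxpref cX R n) := by
    intro n
    show Function.update (control_auxpref cX R n) n _ n = _
    rw [Function.update_self]
  refine ⟨ω, ?_⟩
  refine control_aux_core (cX ω) (R ω) (fun n => cX (control_auxpref cX R n) n)
    (fun n => R (control_auxpref cX R n) (control_auxk n)) ω (h0 ω) (hR0 ω) (hRpos ω)
    (fun n => hc ω _ n (hag n)) ?_ ?_ ?_ (hP ω) (hN ω) (hE ω) (hC ω)
  · intro n
    rcases Nat.eq_zero_or_pos n with hn | hn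
    · subst hn
      have hk0 : control_auxk 0 = 0 := by unfold control_auxk; simp
      have hj0 : control_auxj 0 = 0 := by unfold control_auxj; simp
      simp only [hk0, hj0]
      rw [hR0, hR0, sub_self, abs_zero, pow_zero]
      unfold dd dl; norm_num
    · have hj := control_aux_j_le n hn
      have hk : n - 1 - control_auxk n = control_auxj n := by unfold control_auxk; omega
      have := hR ω (control_auxpref cX R n) n (hag n) (control_auxk n)
        (by unfold control_auxk; omega)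
      rw [hk] at this
      exact this
  · show R _ (control_auxk 0) = r0
    have hk0 : control_auxk 0 = 0 := by unfold control_auxk; simp
    rw [hk0, hR0]
  · intro n
    rw [hω n]
    unfold control_auxdec
    rfl

end Pool.Agent.Helper867.Smale
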