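import Pool.Agent.Helper867.Smale.Base

set_option autoImplicit false

open Set Filter Topology

namespace Pool.Agent.Helper867.Smale

theorem crossing_aux_sub (φ : ℝ → ℝ) (s t lo hi : ℝ) (hst : s ≤ t)
    (hφ : ContinuousOn φ (Icc s t)) (h1 : φ s ≤ lo) (h2 : hi ≤ φ t) (h3 : lo ≤ hi) :
    ∃ s1 t1, s ≤ s1 ∧ s1 ≤ t1 ∧ t1 ≤ t ∧ φ s1 = lo ∧ φ t1 = hi ∧
      ∀ τ ∈ Icc s1 t1, lo ≤ φ τ ∧ φ τ ≤ hi := by
  have hc1 : IsCompact (Icc s t ∩ φ ⁻¹' {lo}) :=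
    isCompact_Icc.of_isClosed_subset (hφ.preimage_isClosed_of_isClosed isClosed_Icc
      isClosed_singleton) inter_subset_left
  have hn1 : (Icc s t ∩ φ ⁻¹' {lo}).Nonempty := by
    obtain ⟨x, hx, hx2⟩ := intermediate_value_Icc hst hφ ⟨h1, h3.trans h2⟩
    exact ⟨x, hx, hx2⟩
  obtain ⟨s1, ⟨hs1, hs1φ⟩, hs1max⟩ := hc1.exists_isGreatest hn1
  have hs1φ' : φ s1 = lo := hs1φ
  have hφ1 : ContinuousOn φ (Icc s1 t) := hφ.mono (Icc_subset_Icc_left hs1.1)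
  have hge : ∀ τ ∈ Icc s1 t, lo ≤ φ τ := by
    intro τ hτ
    by_contra hcon
    have hcon' := not_le.1 hcon
    obtain ⟨x, hx, hx2⟩ := intermediate_value_Icc hτ.2
      (hφ1.mono (Icc_subset_Icc_left hτ.1)) ⟨hcon'.le, h3.trans h2⟩
    have hx3 : x ≤ s1 := hs1max ⟨⟨hs1.1.trans (hτ.1.trans hx.1), hx.2⟩, hx2⟩
    have hx4 : τ = s1 := le_antisymm (hx.1.trans hx3) hτ.1
    rw [hx4, hs1φ'] at hcon'
    exact lt_irrefl _ hcon'
  have hc2 : IsCompact (Icc s1 t ∩ φ ⁻¹' {hi}) :=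
    isCompact_Icc.of_isClosed_subset (hφ1.preimage_isClosed_of_isClosed isClosed_Icc
      isClosed_singleton) inter_subset_left
  have hn2 : (Icc s1 t ∩ φ ⁻¹' {hi}).Nonempty := by
    obtain ⟨x, hx, hx2⟩ := intermediate_value_Icc hs1.2 hφ1 ⟨by rw [hs1φ']; exact h3, h2⟩
    exact ⟨x, hx, hx2⟩
  obtain ⟨t1, ⟨ht1, ht1φ⟩, ht1min⟩ := hc2.exists_isLeast hn2
  have ht1φ' : φ t1 = hi := ht1φ
  refine ⟨s1, t1, hs1.1, ht1.1, ht1.2, hs1φ', ht1φ', fun τ hτ => ⟨hge τ ⟨hτ.1, hτ.2.trans ht1.2⟩, ?_⟩⟩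
  by_contra hcon
  have hcon' := not_le.1 hcon
  obtain ⟨x, hx, hx2⟩ := intermediate_value_Icc hτ.1
    (hφ1.mono (Icc_subset_Icc_right (hτ.2.trans ht1.2))) ⟨by rw [hs1φ']; exact h3, hcon'.le⟩
  have hx3 : t1 ≤ x := ht1min ⟨⟨hx.1, hx.2.trans (hτ.2.trans ht1.2)⟩, hx2⟩
  have hx4 : τ = t1 := le_antisymm hτ.2 (hx3.trans hx.2)
  rw [hx4, ht1φ'] at hcon'
  exact lt_irrefl _ hcon'

theorem crossing_aux_cont_step (S : Sys) : Continuous S.step := by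
  have h1 := S.cont1
  have h2 := S.cont2
  have h3 := S.contg
  have h4 := S.contr
  unfold Sys.step
  have h5 : Continuous fun p : ℝ × ℝ × ℝ => S.r p.2.2 := h4.comp (by fun_prop)
  refine Continuous.prodMk (Continuous.add (by fun_prop) h1) (Continuous.prodMk
    (Continuous.add (by fun_prop) h2) (Continuous.add (Continuous.add (by fun_prop) h5) h3))

theorem crossing_aux_cont (S : Sys) (n : ℕ) : Continuous fun p => S.orb p n := by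
  unfold Sys.orb
  exact (crossing_aux_cont_step S).iterate n

theorem crossing_aux_succ1 (S : Sys) (p : ℝ × ℝ × ℝ) (n : ℕ) :
    |(S.orb p (n + 1)).1 - (NN * (S.orb p n).1 - (S.orb p n).2.1)| ≤ ep := by
  have h : S.orb p (n + 1) = S.step (S.orb p n) := by
    unfold Sys.orb
    rw [Function.iterate_succ_apply']
  rw [h]
  show |NN * (S.orb p n).1 - (S.orb p n).2.1 + S.h1 _ _ _ - _| ≤ ep
  rw [add_sub_cancel_left]
  exact S.b1 _ _ _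

theorem crossing_aux_succ2 (S : Sys) (p : ℝ × ℝ × ℝ) (n : ℕ) :
    |(S.orb p (n + 1)).2.1 - (S.orb p n).1| ≤ ep := by
  have h : S.orb p (n + 1) = S.step (S.orb p n) := by
    unfold Sys.orb
    rw [Function.iterate_succ_apply']
  rw [h]
  show |(S.orb p n).1 + S.h2 _ _ _ - _| ≤ ep
  rw [add_sub_cancel_left]
  exact S.b2 _ _ _

/-- the reference value for the second coordinate -/
noncomputable def crossing_aux_bet (m : ℕ) (A : ℕ → ℝ) (β : ℝ) : ℕ → ℝ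
  | 0 => β
  | k + 1 => A (m + k)

/-- the state of the construction -/
def crossing_aux_P (S : Sys) (ζ : ℝ → ℝ × ℝ × ℝ) (s t : ℝ) (m : ℕ) (A : ℕ → ℝ) (β : ℝ) (k : ℕ)
    (p q : ℝ) : Prop :=
  s ≤ p ∧ p ≤ q ∧ q ≤ t ∧ (S.orb (ζ p) (m + k)).1 = A (m + k) - dd ∧
    (S.orb (ζ q) (m + k)).1 = A (m + k) + dd ∧
    ∀ τ ∈ Icc p q, |(S.orb (ζ τ) (m + k)).1 - A (m + k)| ≤ dd ∧
      |(S.orb (ζ τ) (m + k)).2.1 - crossing_aux_bet m A β k| ≤ 1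

theorem crossing_aux_dd : NN * dd = 100 ∧ 0 < dd ∧ dd ≤ 1 / 10 ∧ 0 < ep ∧ ep ≤ 1 / 10 := by
  unfold NN dd ep
  norm_num

theorem crossing_aux_step (S : Sys) (ζ : ℝ → ℝ × ℝ × ℝ) (s t : ℝ)
    (hζ : ContinuousOn ζ (Icc s t)) (m : ℕ) (A : ℕ → ℝ) (β : ℝ)
    (hβ : ∀ k, |A (m + k + 1) - (NN * A (m + k) - crossing_aux_bet m A β k)| ≤ 2)
    (k : ℕ) (p q : ℝ) (hP : crossing_aux_P S ζ s t m A β k p q) :
    ∃ p' q', p ≤ p' ∧ q' ≤ q ∧ crossing_aux_P S ζ s t m A β (k + 1) p' q' := by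
  obtain ⟨h1, h2, h3, h4, h5, h6⟩ := hP
  obtain ⟨c1, c2, c3, c4, c5⟩ := crossing_aux_dd
  have hcont : ContinuousOn (fun τ => (S.orb (ζ τ) (m + k + 1)).1) (Icc p q) := by
    have ha : Continuous fun x => (S.orb x (m + k + 1)).1 :=
      continuous_fst.comp (crossing_aux_cont S (m + k + 1))
    exact ha.comp_continuousOn (hζ.mono (Icc_subset_Icc h1 h3))
  have hβk := abs_le.1 (hβ k)
  have hlo : (S.orb (ζ p) (m + k + 1)).1 ≤ A (m + k + 1) - dd := by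
    have e1 := abs_le.1 (crossing_aux_succ1 S (ζ p) (m + k))
    have e2 := abs_le.1 (h6 p ⟨le_rfl, h2⟩).2
    rw [h4, mul_sub, c1] at e1
    linarith [e1.2, e2.1, hβk.1]
  have hhi : A (m + k + 1) + dd ≤ (S.orb (ζ q) (m + k + 1)).1 := by
    have e1 := abs_le.1 (crossing_aux_succ1 S (ζ q) (m + k))
    have e2 := abs_le.1 (h6 q ⟨h2, le_rfl⟩).2
    rw [h5, mul_add, c1] at e1
    linarith [e1.1, e2.2, hβk.2]
  obtain ⟨p', q', h7, h8, h9, h10, h11, h12⟩ := crossing_aux_sub _ p q _ _ h2 hcont hlo hhi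
    (by linarith)
  refine ⟨p', q', h7, h9, h1.trans h7, h8, h9.trans h3, h10, h11, fun τ hτ => ⟨?_, ?_⟩⟩
  · obtain ⟨e1, e2⟩ := h12 τ hτ
    show |(S.orb (ζ τ) (m + k + 1)).1 - A (m + k + 1)| ≤ dd
    exact abs_le.2 ⟨by linarith, by linarith⟩
  · show |(S.orb (ζ τ) (m + k + 1)).2.1 - A (m + k)| ≤ 1
    have e1 := abs_le.1 (crossing_aux_succ2 S (ζ τ) (m + k))
    have e2 := abs_le.1 (h6 τ ⟨h7.trans hτ.1, hτ.2.trans h9⟩).1
    exact abs_le.2 ⟨by linarith [e1.1, e2.1], by linarith [e1.2, e2.2]⟩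

theorem crossing (S : Sys) (ζ : ℝ → ℝ × ℝ × ℝ) (s t : ℝ) (hst : s ≤ t)
    (hζ : ContinuousOn ζ (Icc s t)) (m : ℕ) (A : ℕ → ℝ) (β : ℝ)
    (hb : ∀ τ ∈ Icc s t, |(S.orb (ζ τ) m).2.1 - β| ≤ 1)
    (hA1 : |A (m + 1) - (NN * A m - β)| ≤ 2)
    (hA : ∀ k, m ≤ k → |A (k + 2) - (NN * A (k + 1) - A k)| ≤ 2)
    (hs : (S.orb (ζ s) m).1 ≤ A m - dd) (ht : A m + dd ≤ (S.orb (ζ t) m).1) :
    ∃ τ ∈ Icc s t, ∀ k, m ≤ k → |(S.orb (ζ τ) k).1 - A k| ≤ dd := by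
  obtain ⟨c1, c2, c3, c4, c5⟩ := crossing_aux_dd
  have hβ : ∀ k, |A (m + k + 1) - (NN * A (m + k) - crossing_aux_bet m A β k)| ≤ 2 := by
    intro k
    cases k with
    | zero => exact hA1
    | succ k => exact hA (m + k) (Nat.le_add_right m k)
  obtain ⟨p0, q0, h0⟩ : ∃ p0 q0, crossing_aux_P S ζ s t m A β 0 p0 q0 := by
    have hcont : ContinuousOn (fun τ => (S.orb (ζ τ) m).1) (Icc s t) := by
      have ha : Continuous fun x => (S.orb x m).1 :=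
        continuous_fst.comp (crossing_aux_cont S m)
      exact ha.comp_continuousOn hζ
    obtain ⟨p', q', h7, h8, h9, h10, h11, h12⟩ := crossing_aux_sub _ s t _ _ hst hcont hs ht
      (by linarith)
    refine ⟨p', q', h7, h8, h9, h10, h11, fun τ hτ => ⟨?_, ?_⟩⟩
    · obtain ⟨e1, e2⟩ := h12 τ hτ
      show |(S.orb (ζ τ) m).1 - A m| ≤ dd
      exact abs_le.2 ⟨by linarith, by linarith⟩
    · exact hb τ ⟨h7.trans hτ.1, hτ.2.trans h9⟩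
  have hstep := crossing_aux_step S ζ s t hζ m A β hβ
  choose! F G hF1 hG1 hFG using hstep
  let I : ℕ → ℝ × ℝ := fun n => Nat.rec (p0, q0) (fun k x => (F k x.1 x.2, G k x.1 x.2)) n
  have hI : ∀ k, crossing_aux_P S ζ s t m A β k (I k).1 (I k).2 := by
    intro k
    induction k with
    | zero => exact h0
    | succ k ih => exact hFG k _ _ ih
  obtain ⟨τ, hτ⟩ := IsCompact.nonempty_iInter_of_sequence_nonempty_isCompact_isClosed
    (fun k => Icc (I k).1 (I k).2)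
    (fun k => Icc_subset_Icc (hF1 k _ _ (hI k)) (hG1 k _ _ (hI k)))
    (fun k => nonempty_Icc.2 (hI k).2.1) isCompact_Icc (fun k => isClosed_Icc)
  rw [mem_iInter] at hτ
  refine ⟨τ, ⟨(hI 0).1.trans (hτ 0).1, (hτ 0).2.trans (hI 0).2.2.1⟩, fun k hk => ?_⟩
  obtain ⟨i, rfl⟩ := Nat.exists_eq_add_of_le hk
  exact ((hI i).2.2.2.2.2 τ (hτ i)).1

end Pool.Agent.Helper867.Smale
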