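import Pool.Agent.Helper867.Smale.Base
import Pool.Agent.Helper867.Smale.L_pair_center
import Pool.Agent.Helper867.Smale.L_orb_pair

set_option autoImplicit false

open Set Filter Topology

namespace Pool.Agent.Helper867.Smale

theorem orb_trip_aux1 (S : Sys) (X Y Z : ℝ × ℝ × ℝ) (hR : 0 < Y.2.2 - X.2.2)
    (hL : 0 < X.2.2 - Z.2.2) (ay : |Y.1 - X.1| ≤ Y.2.2 - X.2.2)
    (sy : |Y.2.1 - X.2.1| ≤ Y.2.2 - X.2.2)
    (az : |X.1 - Z.1| ≤ X.2.2 - Z.2.2) (sz : |X.2.1 - Z.2.1| ≤ X.2.2 - Z.2.2) :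
    |(((S.step X).1 - (S.step Z).1) - (NN * (X.1 - Z.1) - (X.2.1 - Z.2.1))) / (X.2.2 - Z.2.2)
      - (((S.step Y).1 - (S.step X).1) - (NN * (Y.1 - X.1) - (Y.2.1 - X.2.1))) / (Y.2.2 - X.2.2)|
    ≤ ep * (|(X.1 - Z.1) / (X.2.2 - Z.2.2) - (Y.1 - X.1) / (Y.2.2 - X.2.2)|
      + |(X.2.1 - Z.2.1) / (X.2.2 - Z.2.2) - (Y.2.1 - X.2.1) / (Y.2.2 - X.2.2)|
      + ((X.2.2 - Z.2.2) + (Y.2.2 - X.2.2))) := by
  obtain ⟨x1, x2, x3⟩ := X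
  obtain ⟨y1, y2, y3⟩ := Y
  obtain ⟨z1, z2, z3⟩ := Z
  have h := S.trip1 x1 x2 x3 (y1 - x1) (y2 - x2) (y3 - x3) (x1 - z1) (x2 - z2) (x3 - z3)
    hR hL ay sy az sz
  simp only [add_sub_cancel, sub_sub_cancel] at h
  have e1 : ((S.step (x1, x2, x3)).1 - (S.step (z1, z2, z3)).1)
      - (NN * (x1 - z1) - (x2 - z2)) = S.h1 x1 x2 x3 - S.h1 z1 z2 z3 := by
    simp only [Sys.step]
    ring
  have e2 : ((S.step (y1, y2, y3)).1 - (S.step (x1, x2, x3)).1)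
      - (NN * (y1 - x1) - (y2 - x2)) = S.h1 y1 y2 y3 - S.h1 x1 x2 x3 := by
    simp only [Sys.step]
    ring
  simp only at e1 e2 ⊢
  rw [e1, e2]
  exact h

theorem orb_trip_aux2 (S : Sys) (X Y Z : ℝ × ℝ × ℝ) (hR : 0 < Y.2.2 - X.2.2)
    (hL : 0 < X.2.2 - Z.2.2) (ay : |Y.1 - X.1| ≤ Y.2.2 - X.2.2)
    (sy : |Y.2.1 - X.2.1| ≤ Y.2.2 - X.2.2)
    (az : |X.1 - Z.1| ≤ X.2.2 - Z.2.2) (sz : |X.2.1 - Z.2.1| ≤ X.2.2 - Z.2.2) :
    |(((S.step X).2.1 - (S.step Z).2.1) - (X.1 - Z.1)) / (X.2.2 - Z.2.2)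
      - (((S.step Y).2.1 - (S.step X).2.1) - (Y.1 - X.1)) / (Y.2.2 - X.2.2)|
    ≤ ep * (|(X.1 - Z.1) / (X.2.2 - Z.2.2) - (Y.1 - X.1) / (Y.2.2 - X.2.2)|
      + |(X.2.1 - Z.2.1) / (X.2.2 - Z.2.2) - (Y.2.1 - X.2.1) / (Y.2.2 - X.2.2)|
      + ((X.2.2 - Z.2.2) + (Y.2.2 - X.2.2))) := by
  obtain ⟨x1, x2, x3⟩ := X
  obtain ⟨y1, y2, y3⟩ := Y
  obtain ⟨z1, z2, z3⟩ := Z
  have h := S.trip2 x1 x2 x3 (y1 - x1) (y2 - x2) (y3 - x3) (x1 - z1) (x2 - z2) (x3 - z3)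
    hR hL ay sy az sz
  simp only [add_sub_cancel, sub_sub_cancel] at h
  have e1 : ((S.step (x1, x2, x3)).2.1 - (S.step (z1, z2, z3)).2.1)
      - (x1 - z1) = S.h2 x1 x2 x3 - S.h2 z1 z2 z3 := by
    simp only [Sys.step]
    ring
  have e2 : ((S.step (y1, y2, y3)).2.1 - (S.step (x1, x2, x3)).2.1)
      - (y1 - x1) = S.h2 y1 y2 y3 - S.h2 x1 x2 x3 := by
    simp only [Sys.step]
    ring
  simp only at e1 e2 ⊢
  rw [e1, e2]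
  exact h

theorem orb_trip_aux3 (S : Sys) (X Y Z : ℝ × ℝ × ℝ) (hR : 0 < Y.2.2 - X.2.2)
    (hL : 0 < X.2.2 - Z.2.2) (ay : |Y.1 - X.1| ≤ Y.2.2 - X.2.2)
    (sy : |Y.2.1 - X.2.1| ≤ Y.2.2 - X.2.2)
    (az : |X.1 - Z.1| ≤ X.2.2 - Z.2.2) (sz : |X.2.1 - Z.2.1| ≤ X.2.2 - Z.2.2) :
    |(((S.step X).2.2 - (S.step Z).2.2) - (X.2.2 - Z.2.2)) / (X.2.2 - Z.2.2)
      - (((S.step Y).2.2 - (S.step X).2.2) - (Y.2.2 - X.2.2)) / (Y.2.2 - X.2.2)|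
    ≤ ((X.2.2 - Z.2.2) + (Y.2.2 - X.2.2))
      + dl * (|(X.1 - Z.1) / (X.2.2 - Z.2.2) - (Y.1 - X.1) / (Y.2.2 - X.2.2)|
      + |(X.2.1 - Z.2.1) / (X.2.2 - Z.2.2) - (Y.2.1 - X.2.1) / (Y.2.2 - X.2.2)|
      + ((X.2.2 - Z.2.2) + (Y.2.2 - X.2.2))) := by
  obtain ⟨x1, x2, x3⟩ := X
  obtain ⟨y1, y2, y3⟩ := Y
  obtain ⟨z1, z2, z3⟩ := Z
  have h := S.tripg x1 x2 x3 (y1 - x1) (y2 - x2) (y3 - x3) (x1 - z1) (x2 - z2) (x3 - z3)
    hR hL ay sy az sz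
  have h' := S.tripr x3 (y3 - x3) (x3 - z3) hR hL
  simp only [add_sub_cancel, sub_sub_cancel] at h h'
  have e1 : ((S.step (x1, x2, x3)).2.2 - (S.step (z1, z2, z3)).2.2)
      - (x3 - z3) = (S.r x3 - S.r z3) + (S.g x1 x2 x3 - S.g z1 z2 z3) := by
    simp only [Sys.step]
    ring
  have e2 : ((S.step (y1, y2, y3)).2.2 - (S.step (x1, x2, x3)).2.2)
      - (y3 - x3) = (S.r y3 - S.r x3) + (S.g y1 y2 y3 - S.g x1 x2 x3) := by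
    simp only [Sys.step]
    ring
  simp only at e1 e2 ⊢
  rw [e1, e2]
  have e3 : ((S.r x3 - S.r z3) + (S.g x1 x2 x3 - S.g z1 z2 z3)) / (x3 - z3)
      - ((S.r y3 - S.r x3) + (S.g y1 y2 y3 - S.g x1 x2 x3)) / (y3 - x3)
      = ((S.r x3 - S.r z3) / (x3 - z3) - (S.r y3 - S.r x3) / (y3 - x3))
        + ((S.g x1 x2 x3 - S.g z1 z2 z3) / (x3 - z3)
          - (S.g y1 y2 y3 - S.g x1 x2 x3) / (y3 - x3)) := by
    rw [add_div, add_div]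
    ring
  rw [e3]
  exact (abs_add_le _ _).trans (add_le_add h' h)

theorem orb_trip_aux_mx {a b c : ℝ} (hc : 0 < c) (ha : |a| ≤ c) (hb : |b| ≤ c) : mx a b c ≤ c := by
  unfold mx
  rw [abs_of_pos hc]
  exact max_le ha (max_le hb le_rfl)

theorem orb_trip_aux_NN {R : ℝ} (hR : 0 < R) {a : ℝ} (h : |a| ≤ 3 / NN * R) : |a| ≤ R := by
  refine h.trans ?_
  have h1 : (3 : ℝ) / NN ≤ 1 := by
    unfold NN
    norm_num
  calc 3 / NN * R ≤ 1 * R := mul_le_mul_of_nonneg_right h1 hR.le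
    _ = R := one_mul R

theorem orb_trip_aux_succ (S : Sys) (p : ℝ × ℝ × ℝ) (n : ℕ) :
    S.orb p (n + 1) = S.step (S.orb p n) := by
  unfold Sys.orb
  rw [Function.iterate_succ_apply']

theorem orb_trip (S : Sys) (x y z : ℝ × ℝ × ℝ)
    (hy : ∀ n, |(S.orb y n).1 - (S.orb x n).1| ≤ 1) (hz : ∀ n, |(S.orb x n).1 - (S.orb z n).1| ≤ 1)
    (hy1 : |y.2.1 - x.2.1| ≤ y.2.2 - x.2.2) (hy2 : 0 < y.2.2 - x.2.2)
    (hz1 : |x.2.1 - z.2.1| ≤ x.2.2 - z.2.2) (hz2 : 0 < x.2.2 - z.2.2) :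
    TripSeq (fun n => (S.orb y n).1 - (S.orb x n).1) (fun n => (S.orb y n).2.1 - (S.orb x n).2.1)
      (fun n => (S.orb y n).2.2 - (S.orb x n).2.2) (fun n => (S.orb x n).1 - (S.orb z n).1)
      (fun n => (S.orb x n).2.1 - (S.orb z n).2.1) (fun n => (S.orb x n).2.2 - (S.orb z n).2.2) := by
  have hep : 0 ≤ ep := by unfold ep; norm_num
  have opy := orb_pair S x y
  have opz := orb_pair S z x
  have py := pair_center _ _ _ opy hy hy1 hy2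
  have pz := pair_center _ _ _ opz hz hz1 hz2
  constructor
  · intro n; exact (py n).1
  · intro n; exact (pz n).1
  · intro n; exact (py n).2.2.1
  · intro n; exact (pz n).2.2.1
  · intro n; exact (py n).2.1
  · intro n; exact (pz n).2.1
  · intro n; exact (py n).2.2.2
  · intro n; exact (pz n).2.2.2
  · intro n
    exact (opy.h1 n).trans (mul_le_mul_of_nonneg_left (orb_trip_aux_mx (py n).1
      (orb_trip_aux_NN (py n).1 (py n).2.2.1) (py n).2.1) hep)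
  · intro n
    exact (opz.h1 n).trans (mul_le_mul_of_nonneg_left (orb_trip_aux_mx (pz n).1
      (orb_trip_aux_NN (pz n).1 (pz n).2.2.1) (pz n).2.1) hep)
  · intro n
    exact (opy.h2 n).trans (mul_le_mul_of_nonneg_left (orb_trip_aux_mx (py n).1
      (orb_trip_aux_NN (py n).1 (py n).2.2.1) (py n).2.1) hep)
  · intro n
    exact (opz.h2 n).trans (mul_le_mul_of_nonneg_left (orb_trip_aux_mx (pz n).1
      (orb_trip_aux_NN (pz n).1 (pz n).2.2.1) (pz n).2.1) hep)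
  · intro n
    simp only [Dif, orb_trip_aux_succ]
    exact orb_trip_aux1 S _ _ _ (py n).1 (pz n).1 (orb_trip_aux_NN (py n).1 (py n).2.2.1)
      (py n).2.1 (orb_trip_aux_NN (pz n).1 (pz n).2.2.1) (pz n).2.1
  · intro n
    simp only [Dif, orb_trip_aux_succ]
    exact orb_trip_aux2 S _ _ _ (py n).1 (pz n).1 (orb_trip_aux_NN (py n).1 (py n).2.2.1)
      (py n).2.1 (orb_trip_aux_NN (pz n).1 (pz n).2.2.1) (pz n).2.1
  · intro n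
    simp only [Dif, orb_trip_aux_succ]
    exact orb_trip_aux3 S _ _ _ (py n).1 (pz n).1 (orb_trip_aux_NN (py n).1 (py n).2.2.1)
      (py n).2.1 (orb_trip_aux_NN (pz n).1 (pz n).2.2.1) (pz n).2.1

end Pool.Agent.Helper867.Smale
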