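import Pool.Agent.Helper867.Smale.Base

set_option autoImplicit false

open Set Filter Topology

namespace Pool.Agent.Helper867.Smale

theorem ratio_blowup_aux1 (u : ℝ) (h0 : 0 ≤ u) (h1 : u ≤ 1) : u / 2 ≤ Real.log (1 + u) := by
  have h := Real.le_log_one_add_of_nonneg h0
  refine le_trans ?_ h
  rw [div_le_div_iff₀ (by norm_num) (by linarith)]
  nlinarith

theorem ratio_blowup_aux2 (R L : ℕ → ℝ) (hR : ∀ n, 0 < R n) (hL : ∀ n, 0 < L n)
    (hR1 : ∀ n, R n ≤ 1)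
    (hg : ∀ n, L n / R n * (1 + et / 2 * R n) ≤ L (n + 1) / R (n + 1)) (n : ℕ) :
    Real.log (L 0 / R 0) + et / 4 * ∑ m ∈ Finset.range n, R m ≤ Real.log (L n / R n) := by
  have het : et = 1 / 10 ^ 3 := rfl
  induction n with
  | zero => simp
  | succ n ih =>
    rw [Finset.sum_range_succ]
    have hu0 : 0 ≤ et / 2 * R n := by
      have := hR n
      rw [het]
      positivity
    have hu1 : et / 2 * R n ≤ 1 := by
      have h1 := hR1 n
      have h2 := hR n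
      rw [het]
      linarith
    have hρ : 0 < L n / R n := div_pos (hL n) (hR n)
    have h1 := Real.log_le_log (mul_pos hρ (by linarith)) (hg n)
    rw [Real.log_mul hρ.ne' (by linarith)] at h1
    have h2 := ratio_blowup_aux1 _ hu0 hu1
    have h3 : et / 4 * (∑ m ∈ Finset.range n, R m + R n) =
        et / 4 * ∑ m ∈ Finset.range n, R m + et / 2 * R n / 2 := by ring
    rw [h3]
    linarith

theorem ratio_blowup_aux3 (R : ℕ → ℝ) (hR : ∀ n, 0 < R n)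
    (hlow : ∀ n : ℕ, 1 / 10 ^ 22 ≤ (R n) ^ 2 * ((n : ℝ) + 1)) (j : ℝ) (hj : 1 ≤ j) (m : ℕ)
    (hm : (m : ℝ) + 1 ≤ j ^ 2) : 1 / 10 ^ 11 / j ≤ R m := by
  have h1 := hlow m
  have h2 : 1 / 10 ^ 22 ≤ (R m) ^ 2 * j ^ 2 :=
    h1.trans (mul_le_mul_of_nonneg_left hm (sq_nonneg _))
  have h3 : (1 / 10 ^ 11 : ℝ) ^ 2 ≤ (R m * j) ^ 2 := by
    rw [mul_pow]
    refine le_trans (le_of_eq ?_) h2
    norm_num
  have hj0 : 0 < j := by linarith
  have h4 : (1 / 10 ^ 11 : ℝ) ≤ R m * j :=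
    (pow_le_pow_iff_left₀ (by norm_num) (mul_pos (hR m) hj0).le (by norm_num)).mp h3
  rwa [div_le_iff₀ hj0]

theorem ratio_blowup (R L : ℕ → ℝ) (hR : ∀ n, 0 < R n) (hL : ∀ n, 0 < L n) (hR1 : ∀ n, R n ≤ 1)
    (hlow : ∀ n : ℕ, 1 / 10 ^ 22 ≤ (R n) ^ 2 * ((n : ℝ) + 1))
    (hg : ∀ n, L n / R n * (1 + et / 2 * R n) ≤ L (n + 1) / R (n + 1)) : ∃ n, 1 ≤ L n := by
  by_contra hcon
  push Not at hcon
  have key : ∀ j : ℕ, 1 ≤ j → Real.log (L 0 / R 0) + 1 / 10 ^ 15 * (j : ℝ) ^ 2 ≤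
      Real.log (2 * 10 ^ 11) + 2 * (j : ℝ) := by
    intro j hj
    have hjR : (1 : ℝ) ≤ (j : ℝ) := by exact_mod_cast hj
    have hj2 : (1 : ℝ) ≤ (j : ℝ) ^ 2 := one_le_pow₀ hjR
    have h1 := ratio_blowup_aux2 R L hR hL hR1 hg (j ^ 4)
    have h2 : (1 / 10 ^ 11 : ℝ) * (j : ℝ) ^ 2 ≤ ∑ m ∈ Finset.range (j ^ 4), R m := by
      have h3 : ∀ m ∈ Finset.range (j ^ 4), (1 / 10 ^ 11 : ℝ) / (j : ℝ) ^ 2 ≤ R m := by
        intro m hm
        rw [Finset.mem_range] at hm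
        apply ratio_blowup_aux3 R hR hlow _ hj2 m
        have h5 : m + 1 ≤ j ^ 4 := hm
        have h6 : ((m : ℝ) + 1) ≤ (j : ℝ) ^ 4 := by exact_mod_cast h5
        refine h6.trans (le_of_eq ?_)
        ring
      have h4 := Finset.card_nsmul_le_sum _ _ _ h3
      rw [Finset.card_range, nsmul_eq_mul] at h4
      refine le_trans (le_of_eq ?_) h4
      push_cast
      have : (j : ℝ) ≠ 0 := by positivity
      field_simp
    have hnlow : (1 / 10 ^ 11 : ℝ) / ((j : ℝ) ^ 2 + 1) ≤ R (j ^ 4) := by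
      apply ratio_blowup_aux3 R hR hlow _ (by linarith) (j ^ 4)
      push_cast
      nlinarith
    have hup : L (j ^ 4) / R (j ^ 4) ≤ 2 * 10 ^ 11 * (j : ℝ) ^ 2 := by
      rw [div_le_iff₀ (hR _)]
      have h7 : (1 : ℝ) ≤ (2 * 10 ^ 11 * (j : ℝ) ^ 2) * (1 / 10 ^ 11 / ((j : ℝ) ^ 2 + 1)) := by
        have h8 : (2 * 10 ^ 11 * (j : ℝ) ^ 2) * (1 / 10 ^ 11 / ((j : ℝ) ^ 2 + 1)) =
            2 * (j : ℝ) ^ 2 / ((j : ℝ) ^ 2 + 1) := by
          field_simp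
        rw [h8, le_div_iff₀ (by linarith)]
        linarith
      have h9 : (2 * 10 ^ 11 * (j : ℝ) ^ 2) * (1 / 10 ^ 11 / ((j : ℝ) ^ 2 + 1)) ≤
          (2 * 10 ^ 11 * (j : ℝ) ^ 2) * R (j ^ 4) :=
        mul_le_mul_of_nonneg_left hnlow (by positivity)
      have h10 := hcon (j ^ 4)
      linarith
    have h11 := Real.log_le_log (div_pos (hL _) (hR _)) hup
    rw [Real.log_mul (by norm_num) (by positivity), Real.log_pow] at h11
    have h12 : Real.log (j : ℝ) ≤ (j : ℝ) := Real.log_le_self (by linarith)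
    have h13 : et / 4 * ((1 / 10 ^ 11 : ℝ) * (j : ℝ) ^ 2) ≤
        et / 4 * ∑ m ∈ Finset.range (j ^ 4), R m := by
      apply mul_le_mul_of_nonneg_left h2
      unfold et
      norm_num
    have h14 : 1 / 10 ^ 15 * (j : ℝ) ^ 2 ≤ et / 4 * ((1 / 10 ^ 11 : ℝ) * (j : ℝ) ^ 2) := by
      unfold et
      nlinarith
    push_cast at h11
    linarith
  -- choose `j` large
  set B : ℝ := |Real.log (2 * 10 ^ 11) - Real.log (L 0 / R 0)| with hB
  obtain ⟨j, hj⟩ := exists_nat_gt ((10 : ℝ) ^ 15 * (B + 3))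
  have hB0 : 0 ≤ B := abs_nonneg _
  have hj1 : (1 : ℝ) ≤ (j : ℝ) := by nlinarith
  have h1 := key j (by exact_mod_cast hj1)
  have h2 : Real.log (2 * 10 ^ 11) - Real.log (L 0 / R 0) ≤ B := le_abs_self _
  have h3 : B + 3 ≤ 1 / 10 ^ 15 * (j : ℝ) := by
    have : (10 : ℝ) ^ 15 * (B + 3) < (j : ℝ) := hj
    norm_num at this ⊢
    linarith
  have h4 : (B + 3) * (j : ℝ) ≤ 1 / 10 ^ 15 * (j : ℝ) ^ 2 := by
    have := mul_le_mul_of_nonneg_right h3 (by linarith : (0 : ℝ) ≤ (j : ℝ))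
    refine this.trans (le_of_eq ?_)
    ring
  have h5 : B ≤ B * (j : ℝ) := by nlinarith
  nlinarith

end Pool.Agent.Helper867.Smale
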