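import Pool.Agent.Helper867.Smale.Base

set_option autoImplicit false

open Set Filter Topology

namespace Pool.Agent.Helper867.Smale

theorem trip_growth (R L R' L' D1 D2 : ℝ) (hR : 0 < R) (hL : 0 < L)
    (hR' : 9 / 10 * R ≤ R' ∧ R' ≤ 11 / 10 * R) (hL' : 9 / 10 * L ≤ L' ∧ L' ≤ 11 / 10 * L)
    (hD1 : D1 ≤ L + R) (hD2 : D2 ≤ L + R)
    (h : et * (L + R) - dl * (D1 + D2 + (L + R)) ≤ (L' - L) / L - (R' - R) / R) :
    L / R * (1 + et / 2 * R) ≤ L' / R' := by
  have het : et = 1 / 10 ^ 3 := rfl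
  have hdl : dl = 1 / 10 ^ 5 := rfl
  obtain ⟨x, hx⟩ : ∃ x : ℝ, L' = x * L := ⟨L' / L, by field_simp⟩
  obtain ⟨y, hy⟩ : ∃ y : ℝ, R' = y * R := ⟨R' / R, by field_simp⟩
  subst hx
  subst hy
  have hx1 : (x * L - L) / L = x - 1 := by field_simp
  have hy1 : (y * R - R) / R = y - 1 := by field_simp
  rw [hx1, hy1] at h
  have hyl : 9 / 10 ≤ y := le_of_mul_le_mul_right hR'.1 hR
  have hyu : y ≤ 11 / 10 := le_of_mul_le_mul_right hR'.2 hR
  have h2 : y + 97 / 100 * et * (L + R) ≤ x := by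
    rw [het] at h ⊢
    rw [hdl] at h
    linarith
  have hy0 : 0 < y := by linarith
  have hkey : (1 + et / 2 * R) * y ≤ x := by
    have h3 : et / 2 * R * y ≤ et / 2 * R * (11 / 10) := by
      apply mul_le_mul_of_nonneg_left hyu
      rw [het]; positivity
    rw [het] at h2 h3 ⊢
    nlinarith
  have h4 : x * L / (y * R) = L / R * (x / y) := by field_simp
  rw [h4]
  apply mul_le_mul_of_nonneg_left _ (by positivity)
  rw [le_div_iff₀ hy0]
  exact hkey

end Pool.Agent.Helper867.Smale
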