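import Pool.Agent.Helper867.Smale.Base

set_option autoImplicit false

open Set Filter Topology

namespace Pool.Agent.Helper867.Smale

theorem trip_slopes_aux_q (Xy Xz Gy Gz : ℝ) (hy : 9 / 10 ≤ Gy) (hz : 9 / 10 ≤ Gz)
    (hz' : Gz ≤ 11 / 10) :
    |Xz / Gz - Xy / Gy| ≤ 10 / 9 * |Xz - Xy| + 100 / 81 * (|Xy| * |Gz - Gy|) ∧
      10 / 11 * |Xz - Xy| - 100 / 81 * (|Xy| * |Gz - Gy|) ≤ |Xz / Gz - Xy / Gy| := by
  have hy0 : 0 < Gy := by linarith
  have hz0 : 0 < Gz := by linarith
  have e : Xz / Gz - Xy / Gy = (Xz - Xy) / Gz - Xy * (Gz - Gy) / (Gz * Gy) := by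
    field_simp
    ring
  have h1 : |(Xz - Xy) / Gz| ≤ 10 / 9 * |Xz - Xy| := by
    rw [abs_div, abs_of_pos hz0, div_le_iff₀ hz0]
    nlinarith [abs_nonneg (Xz - Xy)]
  have h2 : 10 / 11 * |Xz - Xy| ≤ |(Xz - Xy) / Gz| := by
    rw [abs_div, abs_of_pos hz0, le_div_iff₀ hz0]
    nlinarith [abs_nonneg (Xz - Xy)]
  have h3 : |Xy * (Gz - Gy) / (Gz * Gy)| ≤ 100 / 81 * (|Xy| * |Gz - Gy|) := by
    rw [abs_div, abs_mul, abs_of_pos (mul_pos hz0 hy0), div_le_iff₀ (mul_pos hz0 hy0)]
    have h4 : (81 : ℝ) / 100 ≤ Gz * Gy := by nlinarith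
    have h5 : 0 ≤ |Xy| * |Gz - Gy| := by positivity
    nlinarith
  rw [e]
  constructor
  · have := abs_sub ((Xz - Xy) / Gz) (Xy * (Gz - Gy) / (Gz * Gy))
    linarith
  · have := abs_sub_abs_le_abs_sub ((Xz - Xy) / Gz) (Xy * (Gz - Gy) / (Gz * Gy))
    linarith

theorem trip_slopes_aux_step (αy σy R αz σz L : ℕ → ℝ) (h : TripSeq αy σy R αz σz L) (n : ℕ) :
    (10 / 11 * (NN * Dif αy R αz L n - Dif σy R σz L n -
        ep * (Dif αy R αz L n + Dif σy R σz L n + (L n + R n))) -
      500 / 81 * ((L n + R n) + dl * (Dif αy R αz L n + Dif σy R σz L n + (L n + R n))) ≤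
        Dif αy R αz L (n + 1)) ∧
    (Dif σy R σz L (n + 1) ≤ 10 / 9 * (Dif αy R αz L n +
        ep * (Dif αy R αz L n + Dif σy R σz L n + (L n + R n))) +
      100 / 81 * ((3 / NN + ep) *
        ((L n + R n) + dl * (Dif αy R αz L n + Dif σy R σz L n + (L n + R n))))) := by
  have hR := h.Rpos n
  have hL := h.Lpos n
  have hR' := h.Rpos (n + 1)
  have hL' := h.Lpos (n + 1)
  have hGy : 9 / 10 ≤ R (n + 1) / R n := by rw [le_div_iff₀ hR]; exact (h.Ry n).1
  have hGz : 9 / 10 ≤ L (n + 1) / L n := by rw [le_div_iff₀ hL]; exact (h.Lz n).1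
  have hGz' : L (n + 1) / L n ≤ 11 / 10 := by rw [div_le_iff₀ hL]; exact (h.Lz n).2
  have hG : |L (n + 1) / L n - R (n + 1) / R n| ≤
      (L n + R n) + dl * (Dif αy R αz L n + Dif σy R σz L n + (L n + R n)) := by
    have h1 := h.t3 n
    have h2 : (L (n + 1) - L n) / L n - (R (n + 1) - R n) / R n =
        L (n + 1) / L n - R (n + 1) / R n := by
      field_simp
      ring
    rwa [h2] at h1
  have hep : 0 ≤ ep := by unfold ep; positivity
  have hNN : 0 < NN := by unfold NN; positivity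
  have hAy : |αy n / R n| ≤ 3 / NN := by
    rw [abs_div, abs_of_pos hR, div_le_iff₀ hR]; exact h.ay n
  have hBy : |σy n / R n| ≤ 1 := by
    rw [abs_div, abs_of_pos hR, div_le_iff₀ hR, one_mul]; exact h.sy n
  have hE1y : |(αy (n + 1) - (NN * αy n - σy n)) / R n| ≤ ep := by
    rw [abs_div, abs_of_pos hR, div_le_iff₀ hR]; exact h.e1y n
  have hE2y : |(σy (n + 1) - αy n) / R n| ≤ ep := by
    rw [abs_div, abs_of_pos hR, div_le_iff₀ hR]; exact h.e2y n
  -- the X part
  have hXy : αy (n + 1) / R n = NN * (αy n / R n) - σy n / R n +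
      (αy (n + 1) - (NN * αy n - σy n)) / R n := by
    field_simp
    ring
  have hXz : αz (n + 1) / L n = NN * (αz n / L n) - σz n / L n +
      (αz (n + 1) - (NN * αz n - σz n)) / L n := by
    field_simp
    ring
  have hYy : σy (n + 1) / R n = αy n / R n + (σy (n + 1) - αy n) / R n := by
    field_simp
    ring
  have hYz : σz (n + 1) / L n = αz n / L n + (σz (n + 1) - αz n) / L n := by
    field_simp
    ring
  have hXyb : |αy (n + 1) / R n| ≤ 5 := by
    rw [hXy]
    have h1 : |NN * (αy n / R n)| ≤ 3 := by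
      rw [abs_mul, abs_of_pos hNN]
      calc NN * |αy n / R n| ≤ NN * (3 / NN) := mul_le_mul_of_nonneg_left hAy hNN.le
        _ = 3 := by field_simp
    have h2 := abs_add_le (NN * (αy n / R n) - σy n / R n)
      ((αy (n + 1) - (NN * αy n - σy n)) / R n)
    have h3 := abs_sub (NN * (αy n / R n)) (σy n / R n)
    have h4 : ep ≤ 1 := by unfold ep; norm_num
    linarith
  have hYyb : |σy (n + 1) / R n| ≤ 3 / NN + ep := by
    rw [hYy]
    have h2 := abs_add_le (αy n / R n) ((σy (n + 1) - αy n) / R n)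
    linarith
  have hXdiff : NN * Dif αy R αz L n - Dif σy R σz L n -
      ep * (Dif αy R αz L n + Dif σy R σz L n + (L n + R n)) ≤
      |αz (n + 1) / L n - αy (n + 1) / R n| := by
    have h1 := h.t1 n
    have h2 : αz (n + 1) / L n - αy (n + 1) / R n = NN * (αz n / L n - αy n / R n) -
        ((σz n / L n - σy n / R n) - ((αz (n + 1) - (NN * αz n - σz n)) / L n -
          (αy (n + 1) - (NN * αy n - σy n)) / R n)) := by
      rw [hXy, hXz]; ring
    have h3 := abs_sub_abs_le_abs_sub (NN * (αz n / L n - αy n / R n))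
      ((σz n / L n - σy n / R n) - ((αz (n + 1) - (NN * αz n - σz n)) / L n -
          (αy (n + 1) - (NN * αy n - σy n)) / R n))
    rw [← h2, abs_mul, abs_of_pos hNN] at h3
    have h4 := abs_sub (σz n / L n - σy n / R n) ((αz (n + 1) - (NN * αz n - σz n)) / L n -
          (αy (n + 1) - (NN * αy n - σy n)) / R n)
    have h5 : Dif αy R αz L n = |αz n / L n - αy n / R n| := rfl
    have h6 : Dif σy R σz L n = |σz n / L n - σy n / R n| := rfl
    rw [← h6] at h4
    rw [← h5] at h3
    linarith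
  have hYdiff : |σz (n + 1) / L n - σy (n + 1) / R n| ≤ Dif αy R αz L n +
      ep * (Dif αy R αz L n + Dif σy R σz L n + (L n + R n)) := by
    have h1 := h.t2 n
    have h2 : σz (n + 1) / L n - σy (n + 1) / R n = (αz n / L n - αy n / R n) +
        ((σz (n + 1) - αz n) / L n - (σy (n + 1) - αy n) / R n) := by
      rw [hYy, hYz]; ring
    have h3 := abs_add_le (αz n / L n - αy n / R n)
        ((σz (n + 1) - αz n) / L n - (σy (n + 1) - αy n) / R n)
    rw [← h2] at h3
    have h5 : Dif αy R αz L n = |αz n / L n - αy n / R n| := rfl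
    rw [← h5] at h3
    linarith
  have hDu' : Dif αy R αz L (n + 1) =
      |(αz (n + 1) / L n) / (L (n + 1) / L n) - (αy (n + 1) / R n) / (R (n + 1) / R n)| := by
    unfold Dif
    congr 1
    field_simp
  have hDs' : Dif σy R σz L (n + 1) =
      |(σz (n + 1) / L n) / (L (n + 1) / L n) - (σy (n + 1) / R n) / (R (n + 1) / R n)| := by
    unfold Dif
    congr 1
    field_simp
  have q1 := (trip_slopes_aux_q (αy (n + 1) / R n) (αz (n + 1) / L n) (R (n + 1) / R n)
    (L (n + 1) / L n) hGy hGz hGz').2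
  have q2 := (trip_slopes_aux_q (σy (n + 1) / R n) (σz (n + 1) / L n) (R (n + 1) / R n)
    (L (n + 1) / L n) hGy hGz hGz').1
  rw [← hDu'] at q1
  rw [← hDs'] at q2
  have m1 : |αy (n + 1) / R n| * |L (n + 1) / L n - R (n + 1) / R n| ≤
      5 * ((L n + R n) + dl * (Dif αy R αz L n + Dif σy R σz L n + (L n + R n))) :=
    mul_le_mul hXyb hG (abs_nonneg _) (by norm_num)
  have m2 : |σy (n + 1) / R n| * |L (n + 1) / L n - R (n + 1) / R n| ≤
      (3 / NN + ep) * ((L n + R n) + dl * (Dif αy R αz L n + Dif σy R σz L n + (L n + R n))) :=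
    mul_le_mul hYyb hG (abs_nonneg _) (by positivity)
  constructor
  · linarith
  · linarith

theorem trip_slopes_aux_one (αy σy R αz σz L : ℕ → ℝ) (h : TripSeq αy σy R αz σz L) (n : ℕ) :
    Dif αy R αz L n ≤ (L n + R n) / 2 + 5 / NN * Dif σy R σz L n := by
  by_contra hn
  push Not at hn
  have hDs0 : ∀ k, 0 ≤ Dif σy R σz L k := fun k => abs_nonneg _
  have hW0 : ∀ k, 0 < L k + R k := fun k => add_pos (h.Lpos k) (h.Rpos k)
  have key : ∀ k, (L (n + k) + R (n + k)) / 2 + 5 / NN * Dif σy R σz L (n + k) <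
        Dif αy R αz L (n + k) ∧ (NN / 2) ^ k * Dif αy R αz L n ≤ Dif αy R αz L (n + k) := by
    intro k
    induction k with
    | zero => exact ⟨hn, by simp⟩
    | succ k ih =>
      obtain ⟨ih1, ih2⟩ := ih
      obtain ⟨s1, s2⟩ := trip_slopes_aux_step αy σy R αz σz L h (n + k)
      have hw1 := (h.Ry (n + k)).2
      have hw2 := (h.Lz (n + k)).2
      have hD := hDs0 (n + k)
      have hW := hW0 (n + k)
      have e : n + (k + 1) = n + k + 1 := rfl
      rw [e]
      have hstep : NN / 2 * Dif αy R αz L (n + k) ≤ Dif αy R αz L (n + k + 1) := by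
        unfold NN ep dl at *
        norm_num at *
        linarith
      refine ⟨?_, ?_⟩
      · unfold NN ep dl at *
        norm_num at *
        linarith
      · rw [pow_succ]
        have hNN : 0 ≤ NN / 2 := by unfold NN; positivity
        calc (NN / 2) ^ k * (NN / 2) * Dif αy R αz L n =
            NN / 2 * ((NN / 2) ^ k * Dif αy R αz L n) := by ring
          _ ≤ NN / 2 * Dif αy R αz L (n + k) := mul_le_mul_of_nonneg_left ih2 hNN
          _ ≤ _ := hstep
  have hpos : 0 < Dif αy R αz L n := by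
    have h1 := hDs0 n
    have h2 := hW0 n
    have h3 : 0 ≤ 5 / NN * Dif σy R σz L n := by
      have : 0 < NN := by unfold NN; positivity
      positivity
    linarith
  have hub : ∀ k, Dif αy R αz L k ≤ 1 := by
    intro k
    have hR := h.Rpos k
    have hL := h.Lpos k
    have h1 : |αy k / R k| ≤ 3 / NN := by
      rw [abs_div, abs_of_pos hR, div_le_iff₀ hR]; exact h.ay k
    have h2 : |αz k / L k| ≤ 3 / NN := by
      rw [abs_div, abs_of_pos hL, div_le_iff₀ hL]; exact h.az k
    have h3 := abs_sub (αz k / L k) (αy k / R k)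
    have h4 : 3 / NN ≤ 1 / 2 := by unfold NN; norm_num
    unfold Dif
    linarith
  have h2k : ∀ k : ℕ, (k : ℝ) ≤ (NN / 2) ^ k := by
    intro k
    have h1 : (k : ℝ) ≤ 2 ^ k := by
      exact_mod_cast Nat.lt_two_pow_self.le
    refine h1.trans ?_
    apply pow_le_pow_left₀ (by norm_num)
    unfold NN; norm_num
  obtain ⟨k, hk⟩ := exists_nat_gt (1 / Dif αy R αz L n)
  have h1 := (key k).2
  have h3 := hub (n + k)
  have h4 := h2k k
  rw [div_lt_iff₀ hpos] at hk
  have h5 : (k : ℝ) * Dif αy R αz L n ≤ (NN / 2) ^ k * Dif αy R αz L n :=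
    mul_le_mul_of_nonneg_right h4 hpos.le
  linarith

theorem trip_slopes (αy σy R αz σz L : ℕ → ℝ) (h : TripSeq αy σy R αz σz L)
    (h0 : Dif σy R σz L 0 ≤ L 0 + R 0) (n : ℕ) :
    Dif αy R αz L n ≤ L n + R n ∧ Dif σy R σz L n ≤ L n + R n := by
  have hs : ∀ k, Dif σy R σz L k ≤ L k + R k := by
    intro k
    induction k with
    | zero => exact h0
    | succ k ih =>
      obtain ⟨s1, s2⟩ := trip_slopes_aux_step αy σy R αz σz L h k
      have s3 := trip_slopes_aux_one αy σy R αz σz L h k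
      have hw1 := (h.Ry k).1
      have hw2 := (h.Lz k).1
      have hR := h.Rpos k
      have hL := h.Lpos k
      have hD : 0 ≤ Dif σy R σz L k := abs_nonneg _
      clear s1
      unfold NN ep dl at *
      norm_num at *
      linarith
  refine ⟨?_, hs n⟩
  have s3 := trip_slopes_aux_one αy σy R αz σz L h n
  have s4 := hs n
  have hR := h.Rpos n
  have hL := h.Lpos n
  have hD : 0 ≤ Dif σy R σz L n := abs_nonneg _
  unfold NN at s3
  norm_num at s3
  linarith

end Pool.Agent.Helper867.Smale
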