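import Pool.Agent.Helper867.Smale.Base
import Pool.Agent.Helper867.Smale.L_trip_slopes
import Pool.Agent.Helper867.Smale.L_trip_growth
import Pool.Agent.Helper867.Smale.L_ratio_blowup
import Pool.Agent.Helper867.Smale.L_orb_trip

set_option autoImplicit false

open Set Filter Topology

namespace Pool.Agent.Helper867.Smale

theorem left_trap_aux_succ (S : Sys) (p : ℝ × ℝ × ℝ) (n : ℕ) :
    (S.orb p (n + 1)).2.2 = (S.orb p n).2.2 + S.r (S.orb p n).2.2 +
      S.g (S.orb p n).1 (S.orb p n).2.1 (S.orb p n).2.2 := by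
  unfold Sys.orb
  rw [Function.iterate_succ_apply']
  rfl

theorem left_trap (S : Sys) (x y z : ℝ × ℝ × ℝ)
    (hxc : ∀ n, |(S.orb x n).2.2| ≤ 2 * nu)
    (hy : ∀ n, |(S.orb y n).1 - (S.orb x n).1| ≤ 1) (hz : ∀ n, |(S.orb x n).1 - (S.orb z n).1| ≤ 1)
    (hy1 : y.2.1 = x.2.1) (hy2 : y.2.2 - x.2.2 = r0)
    (hR1 : ∀ n, (S.orb y n).2.2 - (S.orb x n).2.2 ≤ nu)
    (hR2 : ∀ n : ℕ, 1 / 10 ^ 22 ≤ ((S.orb y n).2.2 - (S.orb x n).2.2) ^ 2 * ((n : ℝ) + 1))
    (hz1 : |x.2.1 - z.2.1| ≤ r0 * (x.2.2 - z.2.2)) (hz2 : 0 < x.2.2 - z.2.2)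
    (hz3 : x.2.2 - z.2.2 < 1 / 400) :
    ∃ n0, ∀ n, n0 ≤ n → -(1 / 4) ≤ (S.orb z n).2.2 ∧ (S.orb z n).2.2 ≤ -(1 / 200) := by
  have hr0 : 0 < r0 := by unfold r0; norm_num
  have hr01 : r0 ≤ 1 := by unfold r0; norm_num
  have hnu : nu = 1 / 10 ^ 8 := rfl
  have T := orb_trip S x y z hy hz (by rw [hy1, sub_self, abs_zero, hy2]; exact hr0.le)
    (by rw [hy2]; exact hr0) (by nlinarith) hz2
  have hslopes := trip_slopes _ _ _ _ _ _ T (by
    show |(x.2.1 - z.2.1) / (x.2.2 - z.2.2) - (y.2.1 - x.2.1) / (y.2.2 - x.2.2)| ≤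
      (x.2.2 - z.2.2) + (y.2.2 - x.2.2)
    rw [hy1, sub_self, zero_div, sub_zero, abs_div, abs_of_pos hz2, hy2]
    have : |x.2.1 - z.2.1| / (x.2.2 - z.2.2) ≤ r0 := by
      rw [div_le_iff₀ hz2]; exact hz1
    linarith)
  have hLpos := T.Lpos
  have hRpos := T.Rpos
  have hex : ∃ n, (S.orb z n).2.2 ≤ -(1 / 200) := by
    by_contra hcon
    push Not at hcon
    have hg : ∀ n, ((S.orb x n).2.2 - (S.orb z n).2.2) / ((S.orb y n).2.2 - (S.orb x n).2.2) *
        (1 + et / 2 * ((S.orb y n).2.2 - (S.orb x n).2.2)) ≤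
        ((S.orb x (n + 1)).2.2 - (S.orb z (n + 1)).2.2) /
          ((S.orb y (n + 1)).2.2 - (S.orb x (n + 1)).2.2) := by
      intro n
      have hR := hRpos n
      have hL := hLpos n
      have hRn := hR1 n
      have hx := abs_le.1 (hxc n)
      have hc := S.concr (S.orb x n).2.2 ((S.orb y n).2.2 - (S.orb x n).2.2)
        ((S.orb x n).2.2 - (S.orb z n).2.2) hR hL (by linarith [hcon n])
        (by rw [hnu] at *; linarith [hx.2])
      have hNN : 3 / NN ≤ 1 := by unfold NN; norm_num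
      have hay := T.ay n
      have haz := T.az n
      have hgp := S.tripg (S.orb x n).1 (S.orb x n).2.1 (S.orb x n).2.2
        ((S.orb y n).1 - (S.orb x n).1) ((S.orb y n).2.1 - (S.orb x n).2.1)
        ((S.orb y n).2.2 - (S.orb x n).2.2) ((S.orb x n).1 - (S.orb z n).1)
        ((S.orb x n).2.1 - (S.orb z n).2.1) ((S.orb x n).2.2 - (S.orb z n).2.2) hR hL
        (hay.trans (by nlinarith)) (T.sy n) (haz.trans (by nlinarith)) (T.sz n)
      obtain ⟨hs1, hs2⟩ := hslopes n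
      have hRy := T.Ry n
      have hLz := T.Lz n
      refine trip_growth _ _ _ _ _ _ hR hL hRy hLz hs1 hs2 ?_
      have e1 : (S.orb x n).2.2 - ((S.orb x n).2.2 - (S.orb z n).2.2) = (S.orb z n).2.2 := by ring
      have e2 : (S.orb x n).2.2 + ((S.orb y n).2.2 - (S.orb x n).2.2) = (S.orb y n).2.2 := by ring
      have e3 : (S.orb x n).1 - ((S.orb x n).1 - (S.orb z n).1) = (S.orb z n).1 := by ring
      have e4 : (S.orb x n).1 + ((S.orb y n).1 - (S.orb x n).1) = (S.orb y n).1 := by ring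
      have e5 : (S.orb x n).2.1 - ((S.orb x n).2.1 - (S.orb z n).2.1) = (S.orb z n).2.1 := by ring
      have e6 : (S.orb x n).2.1 + ((S.orb y n).2.1 - (S.orb x n).2.1) = (S.orb y n).2.1 := by ring
      rw [e1, e2] at hc
      rw [e1, e2, e3, e4, e5, e6] at hgp
      have hx1 := left_trap_aux_succ S x n
      have hy1' := left_trap_aux_succ S y n
      have hz1' := left_trap_aux_succ S z n
      have e7 : (S.orb x (n + 1)).2.2 - (S.orb z (n + 1)).2.2 -
          ((S.orb x n).2.2 - (S.orb z n).2.2) =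
          (S.r (S.orb x n).2.2 - S.r (S.orb z n).2.2) +
          (S.g (S.orb x n).1 (S.orb x n).2.1 (S.orb x n).2.2 -
            S.g (S.orb z n).1 (S.orb z n).2.1 (S.orb z n).2.2) := by
        rw [hx1, hz1']; ring
      have e8 : (S.orb y (n + 1)).2.2 - (S.orb x (n + 1)).2.2 -
          ((S.orb y n).2.2 - (S.orb x n).2.2) =
          (S.r (S.orb y n).2.2 - S.r (S.orb x n).2.2) +
          (S.g (S.orb y n).1 (S.orb y n).2.1 (S.orb y n).2.2 -
            S.g (S.orb x n).1 (S.orb x n).2.1 (S.orb x n).2.2) := by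
        rw [hx1, hy1']; ring
      show et * (((S.orb x n).2.2 - (S.orb z n).2.2) + ((S.orb y n).2.2 - (S.orb x n).2.2)) -
        dl * (_ + _ + (((S.orb x n).2.2 - (S.orb z n).2.2) +
          ((S.orb y n).2.2 - (S.orb x n).2.2))) ≤
        ((S.orb x (n + 1)).2.2 - (S.orb z (n + 1)).2.2 -
          ((S.orb x n).2.2 - (S.orb z n).2.2)) / ((S.orb x n).2.2 - (S.orb z n).2.2) -
        ((S.orb y (n + 1)).2.2 - (S.orb x (n + 1)).2.2 -
          ((S.orb y n).2.2 - (S.orb x n).2.2)) / ((S.orb y n).2.2 - (S.orb x n).2.2)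
      rw [e7, e8, add_div, add_div]
      have h9 := (abs_le.1 hgp).1
      unfold Dif
      linarith
    obtain ⟨n, hn⟩ := ratio_blowup (fun n => (S.orb y n).2.2 - (S.orb x n).2.2)
      (fun n => (S.orb x n).2.2 - (S.orb z n).2.2) hRpos hLpos
      (fun n => (hR1 n).trans (by rw [hnu]; norm_num)) hR2 hg
    have h1 := hcon n
    have h2 := (abs_le.1 (hxc n)).2
    have h3 : (1:ℝ) ≤ (S.orb x n).2.2 - (S.orb z n).2.2 := hn
    rw [hnu] at h2
    norm_num at h2
    linarith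
  classical
  set n1 := Nat.find hex with hn1
  have hn1s := Nat.find_spec hex
  have hmin : ∀ m < n1, ¬ (S.orb z m).2.2 ≤ -(1 / 200) := fun m hm => Nat.find_min hex hm
  have h0 : n1 ≠ 0 := by
    intro h
    rw [← hn1, h] at hn1s
    have h1 : (S.orb z 0).2.2 = z.2.2 := rfl
    have h2 : (S.orb x 0).2.2 = x.2.2 := rfl
    have h3 := (abs_le.1 (hxc 0)).1
    rw [h1] at hn1s
    rw [h2, hnu] at h3
    norm_num at h3
    linarith
  obtain ⟨m, hm⟩ := Nat.exists_eq_succ_of_ne_zero h0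
  have hgb : ∀ n, |S.g (S.orb z n).1 (S.orb z n).2.1 (S.orb z n).2.2| ≤ 3 * nu := fun n => S.bg _ _ _
  have hbase : -(1 / 4) ≤ (S.orb z n1).2.2 := by
    have h1 := hmin m (by omega)
    push Not at h1
    have h2 := hLpos m
    have h2' : 0 < (S.orb x m).2.2 - (S.orb z m).2.2 := h2
    have h3 := (abs_le.1 (hxc m)).2
    have h4 := S.lipr (S.orb z m).2.2 0
    have h5 := S.smallr 0 (by rw [abs_zero, hnu]; norm_num)
    have h6 : |(S.orb z m).2.2| ≤ 1 / 200 := by
      rw [hnu] at h3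
      norm_num at h3
      rw [abs_le]; constructor <;> linarith
    rw [sub_zero] at h4
    have h7 := (abs_le.1 h4).1
    have h8 := (abs_le.1 h5).1
    have h9 := (abs_le.1 (hgb m)).1
    have h10 := left_trap_aux_succ S z m
    have h11 : n1 = m + 1 := hm
    rw [h11, h10]
    rw [hnu] at h8 h9
    norm_num at h8 h9
    linarith
  refine ⟨n1, fun n hn => ?_⟩
  induction n, hn using Nat.le_induction with
  | base => exact ⟨hbase, hn1s⟩
  | succ n hn ih =>
    obtain ⟨i1, i2⟩ := ih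
    obtain ⟨t1, t2⟩ := S.trap _ i1 i2
    have h9 := abs_le.1 (hgb n)
    rw [left_trap_aux_succ S z n]
    constructor
    · linarith [h9.1]
    · linarith [h9.2]

end Pool.Agent.Helper867.Smale
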