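import Pool.Agent.Helper867.Smale.Base
import Pool.Agent.Helper867.Smale.L_near_spec
import Pool.Agent.Helper867.Smale.L_crossing

set_option autoImplicit false

open Set Filter Topology

namespace Pool.Agent.Helper867.Smale

theorem path_lemma_aux_step_cont (S : Sys) : Continuous S.step := by
  unfold Sys.step
  refine Continuous.prodMk ?_ (Continuous.prodMk ?_ ?_)
  · exact ((continuous_const.mul continuous_fst).sub (continuous_fst.comp continuous_snd)).add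
      S.cont1
  · exact continuous_fst.add S.cont2
  · exact ((continuous_snd.comp continuous_snd).add
      (S.contr.comp (continuous_snd.comp continuous_snd))).add S.contg

theorem path_lemma_aux_orb_cont (S : Sys) (n : ℕ) : Continuous fun p => S.orb p n := by
  unfold Sys.orb
  exact (path_lemma_aux_step_cont S).iterate n

theorem path_lemma_aux_succ1 (S : Sys) (p : ℝ × ℝ × ℝ) (n : ℕ) :
    |(S.orb p (n + 1)).1 - (NN * (S.orb p n).1 - (S.orb p n).2.1)| ≤ ep := by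
  have h : S.orb p (n + 1) = S.step (S.orb p n) := by
    unfold Sys.orb
    rw [Function.iterate_succ_apply']
  rw [h]
  unfold Sys.step
  have := S.b1 (S.orb p n).1 (S.orb p n).2.1 (S.orb p n).2.2
  simpa using this

theorem path_lemma_aux_succ2 (S : Sys) (p : ℝ × ℝ × ℝ) (n : ℕ) :
    |(S.orb p (n + 1)).2.1 - (S.orb p n).1| ≤ ep := by
  have h : S.orb p (n + 1) = S.step (S.orb p n) := by
    unfold Sys.orb
    rw [Function.iterate_succ_apply']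
  rw [h]
  unfold Sys.step
  have := S.b2 (S.orb p n).1 (S.orb p n).2.1 (S.orb p n).2.2
  simpa using this

theorem path_lemma_aux_dist (i : Fin 4) (w : ℤ) : 1 / 4 ≤ |3 / 4 - aT i + (w : ℝ)| := by
  have hb : 1 / 4 ≤ 3 / 4 - aT i ∧ 3 / 4 - aT i ≤ 3 / 4 := by
    fin_cases i <;> simp [aT] <;> norm_num
  rcases le_or_gt 0 w with h | h
  · have h1 : (0 : ℝ) ≤ w := by exact_mod_cast h
    rw [le_abs]
    left
    linarith [hb.1]
  · have h1 : (w : ℝ) ≤ -1 := by exact_mod_cast (by omega : w ≤ -1)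
    rw [le_abs]
    right
    linarith [hb.2]

theorem path_lemma_aux_norm (i : Fin 4) (m m' : ℤ) (u v : ℝ) (hu : |u - (3 / 4 + m)| ≤ dd)
    (hv : |v - (aT i + m')| ≤ dd) : 1 / 8 ≤ ‖((u - v : ℝ) : UnitAddCircle)‖ := by
  rw [UnitAddCircle.norm_eq]
  have h1 := path_lemma_aux_dist i (m - m' - round (u - v))
  push_cast at h1
  have hdd : dd = 1 / 10 ^ 6 := rfl
  rw [hdd] at hu hv
  rw [abs_le] at hu hv
  rw [le_abs] at h1 ⊢
  rcases h1 with h1 | h1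
  · left
    linarith [hu.1, hu.2, hv.1, hv.2]
  · right
    linarith [hu.1, hu.2, hv.1, hv.2]

theorem path_lemma_aux_arc (ω : ℕ → Fin 4) (n : ℕ) : ∃ m : ℤ, arc ω n = aT (ω n) + m := by
  cases n with
  | zero => exact ⟨0, by simp [arc, arcP]⟩
  | succ n =>
    obtain ⟨m, hm⟩ := (near_spec (ω (n + 1)) (NN * (arcP ω n).2 - (arcP ω n).1)).2
    exact ⟨m, hm⟩

/-- sequences of points of `3 / 4 + ℤ` following the linear recursion -/
theorem path_lemma_aux_seq (n : ℕ) (m0 : ℤ) (β : ℝ) : ∃ A : ℕ → ℝ, A n = 3 / 4 + m0 ∧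
    |A (n + 1) - (NN * A n - β)| ≤ 2 ∧ (∀ k, n ≤ k → |A (k + 2) - (NN * A (k + 1) - A k)| ≤ 2) ∧
    ∀ k, n ≤ k → ∃ m : ℤ, A k = 3 / 4 + m := by
  have hrnd : ∀ t : ℝ, ∃ m : ℤ, |(3 / 4 + (m : ℝ)) - t| ≤ 2 := by
    intro t
    refine ⟨round (t - 3 / 4), ?_⟩
    have := abs_sub_round (t - 3 / 4)
    rw [abs_le] at this ⊢
    constructor <;> linarith [this.1, this.2]
  choose f hf using hrnd
  let B : ℕ → ℤ × ℤ := fun j => Nat.rec (motive := fun _ => ℤ × ℤ)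
    (m0, f (NN * (3 / 4 + (m0 : ℝ)) - β))
    (fun _ p => (p.2, f (NN * (3 / 4 + (p.2 : ℝ)) - (3 / 4 + (p.1 : ℝ))))) j
  have hB0 : B 0 = (m0, f (NN * (3 / 4 + (m0 : ℝ)) - β)) := rfl
  have hBs : ∀ j, B (j + 1) =
      ((B j).2, f (NN * (3 / 4 + ((B j).2 : ℝ)) - (3 / 4 + ((B j).1 : ℝ)))) := fun j => rfl
  refine ⟨fun k => 3 / 4 + ((B (k - n)).1 : ℝ), ?_, ?_, ?_, ?_⟩
  · simp only [Nat.sub_self, hB0]
  · simp only [Nat.sub_self, Nat.add_sub_cancel_left, hB0]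
    have e1 : (B 1).1 = (B 0).2 := congrArg Prod.fst (hBs 0)
    rw [e1, hB0]
    exact hf _
  · intro k hk
    obtain ⟨j, rfl⟩ := Nat.exists_eq_add_of_le hk
    have e1 : n + j + 2 - n = j + 1 + 1 := by omega
    have e2 : n + j + 1 - n = j + 1 := by omega
    have e3 : n + j - n = j := by omega
    simp only [e1, e2, e3]
    rw [hBs (j + 1), hBs j]
    exact hf _
  · intro k _
    exact ⟨_, rfl⟩

/-- contradiction from a path whose first coordinates are far apart at time `n + 1` -/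
theorem path_lemma_aux_final (S : Sys) (ω : ℕ → Fin 4) (x : ℝ × ℝ × ℝ)
    (hx : ∀ n, |(S.orb x n).1 - arc ω n| ≤ dd) (ζ : ℝ → ℝ × ℝ × ℝ) (T : ℝ) (hT : 0 ≤ T)
    (hζ : ContinuousOn ζ (Icc 0 T)) (n : ℕ) (β : ℝ)
    (hb : ∀ t ∈ Icc 0 T, |(S.orb (ζ t) n).2.1 - β| ≤ 1)
    (hfar : (S.orb (ζ 0) n).1 + 10 ≤ (S.orb (ζ T) n).1) :
    ∃ t ∈ Icc 0 T, ∀ k, n ≤ k → 1 / 8 ≤ ‖(((S.orb (ζ t) k).1 - (S.orb x k).1 : ℝ) :
      UnitAddCircle)‖ := by
  have hdd : dd = 1 / 10 ^ 6 := rfl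
  obtain ⟨A, hA0, hA1, hA2, hA3⟩ := path_lemma_aux_seq n
    (⌈(S.orb (ζ 0) n).1 + dd - 3 / 4⌉) β
  have hc1 := Int.le_ceil ((S.orb (ζ 0) n).1 + dd - 3 / 4)
  have hc2 := Int.ceil_lt_add_one ((S.orb (ζ 0) n).1 + dd - 3 / 4)
  obtain ⟨t, ht, hk⟩ := crossing S ζ 0 T hT hζ n A β hb hA1 hA2
    (by rw [hA0]; linarith) (by rw [hA0]; rw [hdd] at *; linarith)
  refine ⟨t, ht, fun k hkn => ?_⟩
  obtain ⟨m, hm⟩ := hA3 k hkn
  obtain ⟨m', hm'⟩ := path_lemma_aux_arc ω k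
  have h1 := hk k hkn
  rw [hm] at h1
  have h2 := hx k
  rw [hm'] at h2
  exact path_lemma_aux_norm (ω k) m m' _ _ h1 h2

theorem path_lemma (S : Sys) (ω : ℕ → Fin 4) (x : ℝ × ℝ × ℝ)
    (hx : ∀ n, |(S.orb x n).1 - arc ω n| ≤ dd) (ζ : ℝ → ℝ × ℝ × ℝ)
    (hζ : ContinuousOn ζ (Icc 0 1)) (h0 : ζ 0 = x)
    (hs : ∀ t ∈ Icc (0 : ℝ) 1, |(ζ t).1 - x.1| ≤ 1 / 10 ∧ |(ζ t).2.1 - x.2.1| ≤ 1 / 10)
    (hconv : ∀ t ∈ Icc (0 : ℝ) 1,
      Tendsto (fun n => ‖(((S.orb (ζ t) n).1 - (S.orb x n).1 : ℝ) : UnitAddCircle)‖) atTop (𝓝 0)) :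
    ∀ n, ∀ t ∈ Icc (0 : ℝ) 1, |(S.orb (ζ t) n).1 - (S.orb x n).1| ≤ 1 / 2 := by
  have hNN : NN = 10 ^ 8 := rfl
  have hep : ep = 1 / 10 ^ 20 := rfl
  by_contra hcon
  push Not at hcon
  classical
  have hex : ∃ n, ∃ t ∈ Icc (0 : ℝ) 1, 1 / 2 < |(S.orb (ζ t) n).1 - (S.orb x n).1| := hcon
  obtain ⟨n, hn, hmin⟩ : ∃ n, (∃ t ∈ Icc (0 : ℝ) 1, 1 / 2 < |(S.orb (ζ t) n).1 - (S.orb x n).1|) ∧
      ∀ m < n, ∀ t ∈ Icc (0 : ℝ) 1, |(S.orb (ζ t) m).1 - (S.orb x m).1| ≤ 1 / 2 := by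
    refine ⟨Nat.find hex, Nat.find_spec hex, fun m hm t ht => ?_⟩
    by_contra h
    push Not at h
    exact Nat.find_min hex hm ⟨t, ht, h⟩
  have hn1 : 1 ≤ n := by
    rcases Nat.eq_zero_or_pos n with h | h
    · exfalso
      subst h
      obtain ⟨t, ht, h1⟩ := hn
      have h2 := (hs t ht).1
      have h3 : S.orb (ζ t) 0 = ζ t := rfl
      have h4 : S.orb x 0 = x := rfl
      rw [h3, h4] at h1
      linarith
    · exact h
  obtain ⟨p, rfl⟩ : ∃ p, n = p + 1 := ⟨n - 1, by omega⟩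
  -- the distance at time `n`
  set φ : ℝ → ℝ := fun t => |(S.orb (ζ t) (p + 1)).1 - (S.orb x (p + 1)).1| with hφ
  have hφc : ContinuousOn φ (Icc 0 1) := by
    have h1 : ContinuousOn (fun t => S.orb (ζ t) (p + 1)) (Icc 0 1) :=
      (path_lemma_aux_orb_cont S (p + 1)).comp_continuousOn hζ
    exact ((continuous_fst.comp_continuousOn h1).sub continuousOn_const).abs
  have hφ0 : φ 0 = 0 := by
    simp only [hφ, h0, sub_self, abs_zero]
  obtain ⟨t0, ht0, h0t⟩ := hn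
  obtain ⟨t1, ht1, ht1φ, hle⟩ : ∃ t1 ∈ Icc (0 : ℝ) 1, φ t1 = 1 / 2 ∧ ∀ t ∈ Icc 0 t1, φ t ≤ 1 / 2 := by
    have hcomp : IsCompact {t : ℝ | t ∈ Icc (0 : ℝ) 1 ∧ φ t ∈ Ici (1 / 2 : ℝ)} := by
      have : IsClosed (Icc (0 : ℝ) 1 ∩ φ ⁻¹' (Ici (1 / 2 : ℝ))) :=
        hφc.preimage_isClosed_of_isClosed isClosed_Icc isClosed_Ici
      exact isCompact_Icc.of_isClosed_subset this inter_subset_left
    obtain ⟨t1, ht1, hleast⟩ := hcomp.exists_isLeast ⟨t0, ht0, h0t.le⟩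
    have hlt : ∀ t, 0 ≤ t → t < t1 → φ t < 1 / 2 := by
      intro t h1 h2
      by_contra h3
      push Not at h3
      have := hleast (show t ∈ {t : ℝ | t ∈ Icc (0 : ℝ) 1 ∧ φ t ∈ Ici (1 / 2 : ℝ)} from
        ⟨⟨h1, h2.le.trans ht1.1.2⟩, h3⟩)
      linarith
    have heq : φ t1 = 1 / 2 := by
      refine le_antisymm ?_ ht1.2
      by_contra h3
      push Not at h3
      have hsub : Icc 0 t1 ⊆ Icc (0 : ℝ) 1 := Icc_subset_Icc le_rfl ht1.1.2
      have hivt := intermediate_value_Icc ht1.1.1 (hφc.mono hsub)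
      obtain ⟨t, ht, hφt⟩ := hivt (show (1 / 2 : ℝ) ∈ Icc (φ 0) (φ t1) from
        ⟨by rw [hφ0]; norm_num, h3.le⟩)
      rcases lt_or_eq_of_le ht.2 with h4 | h4
      · have := hlt t ht.1 h4
        linarith
      · rw [h4] at hφt
        linarith
    refine ⟨t1, ht1.1, heq, fun t ht => ?_⟩
    rcases lt_or_eq_of_le ht.2 with h4 | h4
    · exact (hlt t ht.1 h4).le
    · rw [h4, heq]
  have hsub : Icc 0 t1 ⊆ Icc (0 : ℝ) 1 := Icc_subset_Icc le_rfl ht1.2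
  -- second coordinate at time `n + 1`
  have hb : ∀ t ∈ Icc 0 t1, |(S.orb (ζ t) (p + 1 + 1)).2.1 - (S.orb x (p + 1)).1| ≤ 1 := by
    intro t ht
    have h1 := path_lemma_aux_succ2 S (ζ t) (p + 1)
    have h2 := hle t ht
    simp only [hφ] at h2
    rw [hep] at h1
    rw [abs_le] at h1 h2 ⊢
    constructor <;> linarith [h1.1, h1.2, h2.1, h2.2]
  -- first coordinate at time `n + 1`
  have e1 := path_lemma_aux_succ1 S (ζ t1) (p + 1)
  have e2 := path_lemma_aux_succ1 S x (p + 1)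
  have e3 := path_lemma_aux_succ2 S (ζ t1) p
  have e4 := path_lemma_aux_succ2 S x p
  have e5 := hmin p (by omega) t1 ht1
  rw [hep, abs_le] at e1 e2 e3 e4
  rw [abs_le] at e5
  rw [hNN] at e1 e2
  have hcase : (S.orb (ζ t1) (p + 1)).1 - (S.orb x (p + 1)).1 = 1 / 2 ∨
      (S.orb (ζ t1) (p + 1)).1 - (S.orb x (p + 1)).1 = -(1 / 2) := by
    have h1 : |(S.orb (ζ t1) (p + 1)).1 - (S.orb x (p + 1)).1| = 1 / 2 := ht1φ
    exact (abs_eq (by norm_num)).1 h1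
  have hcontra : ∀ t ∈ Icc (0 : ℝ) 1, (∀ k, p + 1 + 1 ≤ k →
      1 / 8 ≤ ‖(((S.orb (ζ t) k).1 - (S.orb x k).1 : ℝ) : UnitAddCircle)‖) → False := by
    intro t ht h
    have h1 := (hconv t ht).eventually (eventually_lt_nhds (show (0 : ℝ) < 1 / 8 by norm_num))
    obtain ⟨k, hk1, hk2⟩ := (h1.and (eventually_ge_atTop (p + 1 + 1))).exists
    have := h k hk2
    linarith
  rcases hcase with h | h
  · obtain ⟨t, ht, hk⟩ := path_lemma_aux_final S ω x hx ζ t1 ht1.1 (hζ.mono hsub) (p + 1 + 1)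
      (S.orb x (p + 1)).1 hb (by
        rw [h0]
        linarith [e1.1, e1.2, e2.1, e2.2, e3.1, e3.2, e4.1, e4.2, e5.1, e5.2])
    exact hcontra t (hsub ht) hk
  · have hmaps : MapsTo (fun τ : ℝ => t1 - τ) (Icc 0 t1) (Icc 0 t1) := by
      intro τ hτ
      exact ⟨by linarith [hτ.2], by linarith [hτ.1]⟩
    obtain ⟨t, ht, hk⟩ := path_lemma_aux_final S ω x hx (fun τ => ζ (t1 - τ)) t1 ht1.1
      ((hζ.mono hsub).comp (by fun_prop) hmaps) (p + 1 + 1)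
      (S.orb x (p + 1)).1 (fun t ht => hb _ (hmaps ht)) (by
        simp only [sub_zero, sub_self]
        rw [h0]
        linarith [e1.1, e1.2, e2.1, e2.2, e3.1, e3.2, e4.1, e4.2, e5.1, e5.2])
    exact hcontra (t1 - t) (hsub (hmaps ht)) hk

end Pool.Agent.Helper867.Smale
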