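import Pool.Agent.Helper867.Smale.Base
import Pool.Agent.Helper867.Smale.Torus
import Pool.Agent.Helper867.Smale.Defs2
import Pool.Agent.Helper867.Smale.L_rr_props
import Pool.Agent.Helper867.Smale.L_gg_props
import Pool.Agent.Helper867.Smale.L_gg_sign
import Pool.Agent.Helper867.Smale.L_gg_rate
import Pool.Agent.Helper867.Smale.L_c2_trip

set_option autoImplicit false

open Set Filter Topology

namespace Pool.Agent.Helper867.Smale

theorem sys_of_near_aux_F0 : ContDiff ℝ 2 F0 := by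
  unfold F0 rr gg
  rw [contDiff_pi]
  intro i
  fin_cases i
  · show ContDiff ℝ 2 (fun p : Fin 3 → ℝ => NN * p 0 - p 1)
    fun_prop
  · show ContDiff ℝ 2 (fun p : Fin 3 → ℝ => p 0)
    fun_prop
  · show ContDiff ℝ 2 (fun p : Fin 3 → ℝ => p 2 + 1 / 10 ^ 4 * (Real.cos (2 * Real.pi * p 2) - 1 -
      2 * Real.sin (2 * Real.pi * p 2) ^ 3) +
      nu * (Real.cos (2 * Real.pi * p 0) + Real.cos (4 * Real.pi * p 0) *
        Real.sin (2 * Real.pi * p 2)))
    fun_prop

theorem sys_of_near_aux_mx (a b c a' b' c' : ℝ) :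
    ‖(![a, b, c] : Fin 3 → ℝ) - ![a', b', c']‖ ≤ mx (a - a') (b - b') (c - c') := by
  have h0 : 0 ≤ mx (a - a') (b - b') (c - c') := (abs_nonneg _).trans (le_max_left _ _)
  rw [pi_norm_le_iff_of_nonneg h0]
  intro i
  rw [Real.norm_eq_abs]
  unfold mx
  fin_cases i
  · exact le_max_left _ _
  · exact (le_max_left _ _).trans (le_max_right _ _)
  · exact (le_max_right _ _).trans (le_max_right _ _)

theorem sys_of_near_aux_vec : Continuous fun p : ℝ × ℝ × ℝ => (![p.1, p.2.1, p.2.2] : Fin 3 → ℝ) := by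
  rw [continuous_pi_iff]
  intro i
  fin_cases i
  · exact continuous_fst
  · exact continuous_snd.fst
  · exact continuous_snd.snd

theorem sys_of_near_aux_comp (G : ℝ → ℝ → ℝ) (hG : Continuous fun p : ℝ × ℝ => G p.1 p.2) :
    Continuous fun p : ℝ × ℝ × ℝ => G p.1 p.2.2 :=
  hG.comp (continuous_fst.prodMk continuous_snd.snd)

theorem sys_of_near_aux_g (u : (Fin 3 → ℝ) → (Fin 3 → ℝ)) (huc' : Continuous u) :
    Continuous fun p : ℝ × ℝ × ℝ => gg p.1 p.2.2 + u ![p.1, p.2.1, p.2.2] 2 := by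
  have e1 : Continuous fun p : ℝ × ℝ × ℝ => gg p.1 p.2.2 := sys_of_near_aux_comp gg gg_props.1
  have e2 : Continuous fun p : ℝ × ℝ × ℝ => u ![p.1, p.2.1, p.2.2] 2 :=
    (continuous_apply 2).comp (huc'.comp sys_of_near_aux_vec)
  exact e1.add e2

theorem sys_of_near (F : (Fin 3 → ℝ) → (Fin 3 → ℝ)) (hF : ContDiff ℝ 2 F)
    (h : ∀ j ≤ 2, ∀ p, ‖iteratedFDeriv ℝ j F p - iteratedFDeriv ℝ j F0 p‖ ≤ ep) :
    ∃ S : Sys, ∀ p, F (ee p) = ee (S.step p) := by
  have hF0 := sys_of_near_aux_F0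
  set u : (Fin 3 → ℝ) → (Fin 3 → ℝ) := F - F0 with hu
  have huc : ContDiff ℝ 2 u := hF.sub hF0
  have hep : (0 : ℝ) ≤ ep := by unfold ep; norm_num
  have hit : ∀ j ≤ 2, ∀ p, ‖iteratedFDeriv ℝ j u p‖ ≤ ep := by
    intro j hj p
    have h1 : ContDiff ℝ j F := hF.of_le (by exact_mod_cast hj)
    have h2 : ContDiff ℝ j F0 := hF0.of_le (by exact_mod_cast hj)
    rw [hu, iteratedFDeriv_sub_apply h1.contDiffAt h2.contDiffAt]
    exact h j hj p
  have hn : ∀ p, ‖u p‖ ≤ ep := by
    intro p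
    have := hit 0 (by norm_num) p
    rwa [norm_iteratedFDeriv_zero] at this
  obtain ⟨hlip, htrip⟩ := c2_trip u huc ep hep (hit 1 (by norm_num)) (hit 2 le_rfl)
  have hni : ∀ p i, |u p i| ≤ ep := by
    intro p i
    have := norm_le_pi_norm (u p) i
    rw [Real.norm_eq_abs] at this
    exact this.trans (hn p)
  have hlipi : ∀ (i : Fin 3) a b c a' b' c', |u ![a, b, c] i - u ![a', b', c'] i| ≤
      ep * mx (a - a') (b - b') (c - c') := by
    intro i a b c a' b' c'
    have h1 := norm_le_pi_norm (u ![a, b, c] - u ![a', b', c']) i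
    rw [Real.norm_eq_abs, Pi.sub_apply] at h1
    refine h1.trans ((hlip _ _).trans ?_)
    exact mul_le_mul_of_nonneg_left (sys_of_near_aux_mx a b c a' b' c') hep
  have huc' : Continuous u := huc.continuous
  obtain ⟨hr0, hr1, hr2, hr3, hr4, hr5, hr6⟩ := rr_props
  obtain ⟨hg0, hg1, hg2, hg3⟩ := gg_props
  obtain ⟨hs1, hs2⟩ := gg_sign
  obtain ⟨hq1, hq2⟩ := gg_rate
  have hmx3 : ∀ α σ R : ℝ, 0 < R → |α| ≤ 3 / NN * R → |σ| ≤ R → mx α σ R ≤ R := by
    intro α σ R hR h1 h2
    unfold mx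
    refine max_le ?_ (max_le h2 (abs_of_pos hR).le)
    refine h1.trans ?_
    unfold NN
    nlinarith
  have hnu : nu = 1 / 10 ^ 8 := rfl
  have hepv : ep = 1 / 10 ^ 20 := rfl
  have hdl : dl = 1 / 10 ^ 5 := rfl
  have hudiff : ∀ a b c α σ R : ℝ, 0 < R → |α| ≤ 3 / NN * R → |σ| ≤ R →
      |u ![a + α, b + σ, c + R] 2 - u ![a, b, c] 2| ≤ ep * R := by
    intro a b c α σ R hR h1 h2
    refine (hlipi 2 (a + α) (b + σ) (c + R) a b c).trans ?_
    have e1 : a + α - a = α := by ring
    have e2 : b + σ - b = σ := by ring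
    have e3 : c + R - c = R := by ring
    rw [e1, e2, e3]
    exact mul_le_mul_of_nonneg_left (hmx3 α σ R hR h1 h2) hep
  refine ⟨{
    h1 := fun a b c => u ![a, b, c] 0
    h2 := fun a b c => u ![a, b, c] 1
    g := fun a b c => gg a c + u ![a, b, c] 2
    r := rr
    cont1 := (continuous_apply 0).comp (huc'.comp sys_of_near_aux_vec)
    cont2 := (continuous_apply 1).comp (huc'.comp sys_of_near_aux_vec)
    contg := sys_of_near_aux_g u huc'
    contr := hr0
    b1 := fun a b c => hni _ _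
    b2 := fun a b c => hni _ _
    bg := by
      intro a b c
      have e1 := hg1 a c
      have e2 := hni ![a, b, c] 2
      refine (abs_add_le _ _).trans ?_
      rw [hnu] at *
      rw [hepv] at e2
      linarith
    lip1 := fun a b c a' b' c' => hlipi 0 a b c a' b' c'
    lip2 := fun a b c a' b' c' => hlipi 1 a b c a' b' c'
    lipg := by
      intro a b c a' b' c'
      have e1 := hg2 a c a' c'
      have e2 := hlipi 2 a b c a' b' c'
      have e3 : max |a - a'| |c - c'| ≤ mx (a - a') (b - b') (c - c') := by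
        unfold mx
        exact max_le (le_max_left _ _) ((le_max_right _ _).trans (le_max_right _ _))
      have e4 : gg a c + u ![a, b, c] 2 - (gg a' c' + u ![a', b', c'] 2) =
          (gg a c - gg a' c') + (u ![a, b, c] 2 - u ![a', b', c'] 2) := by ring
      rw [e4]
      refine (abs_add_le _ _).trans ?_
      have e5 : 0 ≤ mx (a - a') (b - b') (c - c') := (abs_nonneg _).trans (le_max_left _ _)
      rw [hepv] at e2
      rw [hdl]
      linarith
    lipr := hr1
    trip1 := fun a b c αy σy R αz σz L h1 h2 h3 h4 h5 h6 =>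
      htrip 0 a b c αy σy R αz σz L h1 h2 h3 h4 h5 h6
    trip2 := fun a b c αy σy R αz σz L h1 h2 h3 h4 h5 h6 =>
      htrip 1 a b c αy σy R αz σz L h1 h2 h3 h4 h5 h6
    tripg := by
      intro a b c αy σy R αz σz L h1 h2 h3 h4 h5 h6
      have e1 := hg3 a c αy R αz L h1 h2 h3 h5
      have e2 := htrip 2 a b c αy σy R αz σz L h1 h2 h3 h4 h5 h6
      have e4 : (gg a c + u ![a, b, c] 2 - (gg (a - αz) (c - L) + u ![a - αz, b - σz, c - L] 2)) / L
          - (gg (a + αy) (c + R) + u ![a + αy, b + σy, c + R] 2 - (gg a c + u ![a, b, c] 2)) / R =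
          ((gg a c - gg (a - αz) (c - L)) / L - (gg (a + αy) (c + R) - gg a c) / R) +
          ((u ![a, b, c] 2 - u ![a - αz, b - σz, c - L] 2) / L
          - (u ![a + αy, b + σy, c + R] 2 - u ![a, b, c] 2) / R) := by ring
      rw [e4]
      refine (abs_add_le _ _).trans ?_
      rw [hepv] at e2
      rw [hdl]
      have e5 : 0 ≤ |αz / L - αy / R| := abs_nonneg _
      have e6 : 0 ≤ |σz / L - σy / R| := abs_nonneg _
      linarith
    tripr := hr2
    concr := hr3
    smallr := hr4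
    trap := hr5
    signP := by
      intro i m a b c hi ha hc
      obtain ⟨e1, e2⟩ := hs1 i m a c hi ha hc
      have e3 := abs_le.1 (hni ![a, b, c] 2)
      rw [hepv] at e3
      rw [hnu] at e1 e2 ⊢
      constructor <;> linarith [e3.1, e3.2]
    signN := by
      intro i m a b c hi ha hc
      obtain ⟨e1, e2⟩ := hs2 i m a c hi ha hc
      have e3 := abs_le.1 (hni ![a, b, c] 2)
      rw [hepv] at e3
      rw [hnu] at e1 e2 ⊢
      constructor <;> linarith [e3.1, e3.2]
    rateE := by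
      intro i m a b c α σ R hi ha hc hR hR1 hα hσ
      obtain ⟨e1, e2⟩ := hq1 i m a c α R hi ha hc hR hR1 hα
      have e3 := abs_le.1 (hudiff a b c α σ R hR hα hσ)
      have hc' := abs_le.1 hc
      have hnupos : (0 : ℝ) < nu := by rw [hnu]; norm_num
      have e4 := hr6 (c + R) c (abs_le.2 ⟨by linarith [hc'.1], by linarith [hc'.2]⟩)
        (abs_le.2 ⟨by linarith [hc'.1], by linarith [hc'.2]⟩)
      have e5 : c + R - c = R := by ring
      rw [e5, abs_of_pos hR] at e4
      have e6 := abs_le.1 e4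
      rw [hepv] at e3
      rw [hnu] at e1 e2 e6 ⊢
      constructor <;> linarith [e3.1, e3.2, e6.1, e6.2]
    rateC := by
      intro i m a b c α σ R hi ha hc hR hR1 hα hσ
      obtain ⟨e1, e2⟩ := hq2 i m a c α R hi ha hc hR hR1 hα
      have e3 := abs_le.1 (hudiff a b c α σ R hR hα hσ)
      have hc' := abs_le.1 hc
      have hnupos : (0 : ℝ) < nu := by rw [hnu]; norm_num
      have e4 := hr6 (c + R) c (abs_le.2 ⟨by linarith [hc'.1], by linarith [hc'.2]⟩)
        (abs_le.2 ⟨by linarith [hc'.1], by linarith [hc'.2]⟩)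
      have e5 : c + R - c = R := by ring
      rw [e5, abs_of_pos hR] at e4
      have e6 := abs_le.1 e4
      rw [hepv] at e3
      rw [hnu] at e1 e2 e6 ⊢
      constructor <;> linarith [e3.1, e3.2, e6.1, e6.2] }, ?_⟩
  intro p
  obtain ⟨a, b, c⟩ := p
  have hFu : ∀ q i, F q i = F0 q i + u q i := by
    intro q i
    rw [hu, Pi.sub_apply, Pi.sub_apply]; ring
  ext i
  rw [hFu]
  unfold ee Sys.step F0
  fin_cases i
  · simp
  · simp
  · simp
    ring

end Pool.Agent.Helper867.Smale
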