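import Pool.Agent.Helper867.Smale.TripDef
import Pool.Agent.Helper867.Smale.L_rr_props
import Pool.Agent.Helper867.Smale.L_gg_props
import Pool.Agent.Helper867.Smale.L_c2_trip2
import Pool.Agent.Helper867.Smale.L_F0_contDiff

set_option autoImplicit false

open Set Filter Topology

namespace Pool.Agent.Helper867.Smale

theorem trip_step (H : (Fin 3 → ℝ) → (Fin 3 → ℝ)) (hH : ContDiff ℝ 2 H) (hcl : Cl H F0 ep)
    (M : ℝ) (hM : 0 ≤ M) (h2 : ∀ p, ‖iteratedFDeriv ℝ 2 (fun q => H q - F0 q) p‖ ≤ M)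
    (a b c αy σy R αz σz L : ℝ) (hR : 0 < R) (hL : 0 < L) (h3 : |αy| ≤ R) (h4 : |σy| ≤ R)
    (h5 : |αz| ≤ L) (h6 : |σz| ≤ L) :
    |((H ![a, b, c] 0 - H ![a - αz, b - σz, c - L] 0) - (NN * αz - σz)) / L
        - ((H ![a + αy, b + σy, c + R] 0 - H ![a, b, c] 0) - (NN * αy - σy)) / R|
      ≤ ep * (|αz / L - αy / R| + |σz / L - σy / R|) + (M + 2) * (L + R) ∧
    |((H ![a, b, c] 1 - H ![a - αz, b - σz, c - L] 1) - αz) / L
        - ((H ![a + αy, b + σy, c + R] 1 - H ![a, b, c] 1) - αy) / R|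
      ≤ ep * (|αz / L - αy / R| + |σz / L - σy / R|) + (M + 2) * (L + R) ∧
    |((H ![a, b, c] 2 - H ![a - αz, b - σz, c - L] 2) - L) / L
        - ((H ![a + αy, b + σy, c + R] 2 - H ![a, b, c] 2) - R) / R|
      ≤ dl * (|αz / L - αy / R| + |σz / L - σy / R|) + (M + 2) * (L + R) := by
  have hu : ContDiff ℝ 2 (fun q => H q - F0 q) := by
    have h20 : (2 : WithTop ℕ∞) ≤ ((⊤ : ℕ∞) : WithTop ℕ∞) := by
      have : ((2 : ℕ∞) : WithTop ℕ∞) ≤ ((⊤ : ℕ∞) : WithTop ℕ∞) := WithTop.coe_le_coe.2 le_top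
      exact this
    exact hH.sub (F0_contDiff.of_le h20)
  have hep : (0:ℝ) ≤ ep := by unfold ep; positivity
  have key := c2_trip2 (fun q => H q - F0 q) hu ep M hep hM hcl.2 h2
  have k0 := key 0 a b c αy σy R αz σz L hR hL h3 h4 h5 h6
  have k1 := key 1 a b c αy σy R αz σz L hR hL h3 h4 h5 h6
  have k2 := key 2 a b c αy σy R αz σz L hR hL h3 h4 h5 h6
  have f0 : ∀ x y z : ℝ, F0 ![x, y, z] 0 = NN * x - y := fun x y z => by simp [F0]
  have f1 : ∀ x y z : ℝ, F0 ![x, y, z] 1 = x := fun x y z => by simp [F0]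
  have f2 : ∀ x y z : ℝ, F0 ![x, y, z] 2 = z + rr z + gg x z := fun x y z => by simp [F0]
  simp only [Pi.sub_apply, f0, f1, f2] at k0 k1 k2
  have hLR : 0 ≤ L + R := by positivity
  have hD : 0 ≤ |αz / L - αy / R| := abs_nonneg _
  have hD' : 0 ≤ |σz / L - σy / R| := abs_nonneg _
  refine ⟨?_, ?_, ?_⟩
  · have e : ((H ![a, b, c] 0 - H ![a - αz, b - σz, c - L] 0) - (NN * αz - σz)) / L
        - ((H ![a + αy, b + σy, c + R] 0 - H ![a, b, c] 0) - (NN * αy - σy)) / R
      = (H ![a, b, c] 0 - (NN * a - b)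
            - (H ![a - αz, b - σz, c - L] 0 - (NN * (a - αz) - (b - σz)))) / L
          - (H ![a + αy, b + σy, c + R] 0 - (NN * (a + αy) - (b + σy))
            - (H ![a, b, c] 0 - (NN * a - b))) / R := by ring
    rw [e]
    refine k0.trans ?_
    nlinarith
  · have e : ((H ![a, b, c] 1 - H ![a - αz, b - σz, c - L] 1) - αz) / L
        - ((H ![a + αy, b + σy, c + R] 1 - H ![a, b, c] 1) - αy) / R
      = (H ![a, b, c] 1 - a - (H ![a - αz, b - σz, c - L] 1 - (a - αz))) / L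
          - (H ![a + αy, b + σy, c + R] 1 - (a + αy) - (H ![a, b, c] 1 - a)) / R := by ring
    rw [e]
    refine k1.trans ?_
    nlinarith
  · have r3 := rr_props.2.2.1 c R L hR hL
    have g3 := gg_props.2.2.2 a c αy R αz L hR hL h3 h5
    have e : ((H ![a, b, c] 2 - H ![a - αz, b - σz, c - L] 2) - L) / L
        - ((H ![a + αy, b + σy, c + R] 2 - H ![a, b, c] 2) - R) / R
      = (((H ![a, b, c] 2 - (c + rr c + gg a c)
            - (H ![a - αz, b - σz, c - L] 2
              - (c - L + rr (c - L) + gg (a - αz) (c - L)))) / L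
          - (H ![a + αy, b + σy, c + R] 2 - (c + R + rr (c + R) + gg (a + αy) (c + R))
            - (H ![a, b, c] 2 - (c + rr c + gg a c))) / R)
          + ((rr c - rr (c - L)) / L - (rr (c + R) - rr c) / R))
          + ((gg a c - gg (a - αz) (c - L)) / L - (gg (a + αy) (c + R) - gg a c) / R) := by
      ring
    rw [e]
    refine (abs_add_le _ _).trans ((add_le_add ((abs_add_le _ _).trans (add_le_add k2 r3)) g3).trans ?_)
    have h9 : ep + 9 / 10 ^ 6 ≤ dl := by unfold ep dl; norm_num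
    have hdl : ep ≤ dl := by unfold ep dl; norm_num
    nlinarith [mul_le_mul_of_nonneg_right h9 hD, mul_le_mul_of_nonneg_right hdl hD',
      mul_nonneg hM hLR]

end Pool.Agent.Helper867.Smale
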