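import Pool.Agent.Helper867.Smale.TripDef
import Pool.Agent.Helper867.Smale.L_trip_step
import Pool.Agent.Helper867.Smale.L_pair_center
import Pool.Agent.Helper867.Smale.L_orb_pair1

set_option autoImplicit false

open Set Filter Topology

namespace Pool.Agent.Helper867.Smale

theorem trip_build_aux_core (H : (Fin 3 → ℝ) → (Fin 3 → ℝ)) (hH : ContDiff ℝ 2 H) (hcl : Cl H F0 ep)
    (M : ℝ) (hM : 0 ≤ M) (h2 : ∀ p, ‖iteratedFDeriv ℝ 2 (fun q => H q - F0 q) p‖ ≤ M)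
    (ψ : (Fin 3 → ℝ) → ℝ) (ε : ℝ) (hε : 0 < ε) (S : Sys1)
    (hS : ∀ p, ee (S.step p) = fun i => if i = 2 then H (ee p) 2 - ε * ψ (ee p) else H (ee p) i)
    (n1 n2 T : ℕ) (e : ℕ → ℝ) (he : ∀ n, e n = if n1 ≤ n ∧ n < n2 then 2 * ε else 0)
    (x y z : ℝ × ℝ × ℝ)
    (hy : ∀ n, |(S.orb y n).1 - (S.orb x n).1| ≤ 1) (hz : ∀ n, |(S.orb x n).1 - (S.orb z n).1| ≤ 1)
    (hyb : y.2.1 = x.2.1) (hyc : x.2.2 < y.2.2) (hzb : z.2.1 = x.2.1) (hzc : z.2.2 < x.2.2)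
    (hout : ∀ n, ¬ (n1 ≤ n ∧ n < n2) →
      ψ (ee (S.orb x n)) = 0 ∧ ψ (ee (S.orb y n)) = 0 ∧ ψ (ee (S.orb z n)) = 0)
    (hin : ∀ n, n1 ≤ n → n < n2 → ψ (ee (S.orb x n)) = 0 ∧
      17 / 20 * ((S.orb y n).2.2 - (S.orb x n).2.2) ≤ ψ (ee (S.orb y n)) ∧
      ψ (ee (S.orb y n)) ≤ (S.orb y n).2.2 - (S.orb x n).2.2 ∧
      17 / 20 * ((S.orb x n).2.2 - (S.orb z n).2.2) ≤ ψ (ee (S.orb z n)) ∧
      ψ (ee (S.orb z n)) ≤ (S.orb x n).2.2 - (S.orb z n).2.2)
    (αy σy R αz σz L : ℕ → ℝ)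
    (hαy : αy = (fun n => (S.orb y n).1 - (S.orb x n).1))
    (hσy : σy = (fun n => (S.orb y n).2.1 - (S.orb x n).2.1))
    (hR : R = (fun n => (S.orb y n).2.2 - (S.orb x n).2.2))
    (hαz : αz = (fun n => (S.orb x n).1 - (S.orb z n).1))
    (hσz : σz = (fun n => (S.orb x n).2.1 - (S.orb z n).2.1))
    (hL : L = (fun n => (S.orb x n).2.2 - (S.orb z n).2.2)) :
    Trip1 (M + 2) e T αy σy R αz σz L ∧
      ∀ n, n1 ≤ n → n < n2 → 17 / 10 * ε - dl * (Dif αy R αz L n + Dif σy R σz L n)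
        - (M + 2) * (L n + R n) ≤ (L (n + 1) - L n) / L n - (R (n + 1) - R n) / R n := by
  have hPy : PairSeq αy σy R := by rw [hαy, hσy, hR]; exact orb_pair1 S x y
  have hPz : PairSeq αz σz L := by rw [hαz, hσz, hL]; exact orb_pair1 S z x
  have hcy := pair_center αy σy R hPy (by intro n; rw [hαy]; exact hy n)
    (by
      rw [hσy, hR]
      show |y.2.1 - x.2.1| ≤ y.2.2 - x.2.2
      rw [hyb, sub_self, abs_zero]; linarith)
    (by
      rw [hR]
      show 0 < y.2.2 - x.2.2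
      linarith)
  have hcz := pair_center αz σz L hPz (by intro n; rw [hαz]; exact hz n)
    (by
      rw [hσz, hL]
      show |x.2.1 - z.2.1| ≤ x.2.2 - z.2.2
      rw [hzb, sub_self, abs_zero]; linarith)
    (by
      rw [hL]
      show 0 < x.2.2 - z.2.2
      linarith)
  have hNN : (3 : ℝ) / NN ≤ 1 := by unfold NN; norm_num
  have hmxy : ∀ n, mx (αy n) (σy n) (R n) ≤ R n := by
    intro n
    obtain ⟨p1, p2, p3, -, -⟩ := hcy n
    unfold mx
    refine max_le ?_ (max_le p2 (abs_of_pos p1).le)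
    calc |αy n| ≤ 3 / NN * R n := p3
      _ ≤ 1 * R n := by gcongr
      _ = R n := one_mul _
  have hmxz : ∀ n, mx (αz n) (σz n) (L n) ≤ L n := by
    intro n
    obtain ⟨p1, p2, p3, -, -⟩ := hcz n
    unfold mx
    refine max_le ?_ (max_le p2 (abs_of_pos p1).le)
    calc |αz n| ≤ 3 / NN * L n := p3
      _ ≤ 1 * L n := by gcongr
      _ = L n := one_mul _
  have hep : (0 : ℝ) ≤ ep := by unfold ep; norm_num
  have horb : ∀ p n, S.orb p (n + 1) = S.step (S.orb p n) := by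
    intro p n
    unfold Sys1.orb
    rw [Function.iterate_succ_apply']
  have hs0 : ∀ p, (S.step p).1 = H (ee p) 0 := by
    intro p
    have h : ee (S.step p) 0 = H (ee p) 0 := by
      rw [hS p]; exact if_neg (by decide)
    exact h
  have hs1 : ∀ p, (S.step p).2.1 = H (ee p) 1 := by
    intro p
    have h : ee (S.step p) 1 = H (ee p) 1 := by
      rw [hS p]; exact if_neg (by decide)
    exact h
  have hs2 : ∀ p, (S.step p).2.2 = H (ee p) 2 - ε * ψ (ee p) := by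
    intro p
    have h : ee (S.step p) 2 = H (ee p) 2 - ε * ψ (ee p) := by
      rw [hS p]; exact if_pos rfl
    exact h
  have hstep : ∀ n,
      |((H (ee (S.orb x n)) 0 - H (ee (S.orb z n)) 0) - (NN * αz n - σz n)) / L n
          - ((H (ee (S.orb y n)) 0 - H (ee (S.orb x n)) 0) - (NN * αy n - σy n)) / R n|
        ≤ ep * (Dif αy R αz L n + Dif σy R σz L n) + (M + 2) * (L n + R n) ∧
      |((H (ee (S.orb x n)) 1 - H (ee (S.orb z n)) 1) - αz n) / L n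
          - ((H (ee (S.orb y n)) 1 - H (ee (S.orb x n)) 1) - αy n) / R n|
        ≤ ep * (Dif αy R αz L n + Dif σy R σz L n) + (M + 2) * (L n + R n) ∧
      |((H (ee (S.orb x n)) 2 - H (ee (S.orb z n)) 2) - L n) / L n
          - ((H (ee (S.orb y n)) 2 - H (ee (S.orb x n)) 2) - R n) / R n|
        ≤ dl * (Dif αy R αz L n + Dif σy R σz L n) + (M + 2) * (L n + R n) := by
    intro n
    obtain ⟨p1, p2, p3, -, -⟩ := hcy n
    obtain ⟨q1, q2, q3, -, -⟩ := hcz n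
    have p4 : |αy n| ≤ R n := (le_max_left _ _).trans (hmxy n)
    have q4 : |αz n| ≤ L n := (le_max_left _ _).trans (hmxz n)
    have key := trip_step H hH hcl M hM h2 (S.orb x n).1 (S.orb x n).2.1 (S.orb x n).2.2
      (αy n) (σy n) (R n) (αz n) (σz n) (L n) p1 q1 p4 p2 q4 q2
    have e1 : (![(S.orb x n).1, (S.orb x n).2.1, (S.orb x n).2.2] : Fin 3 → ℝ)
        = ee (S.orb x n) := rfl
    have e2 : (![(S.orb x n).1 + αy n, (S.orb x n).2.1 + σy n, (S.orb x n).2.2 + R n] : Fin 3 → ℝ)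
        = ee (S.orb y n) := by
      rw [hαy, hσy, hR]
      unfold ee
      simp only [add_sub_cancel]
    have e3 : (![(S.orb x n).1 - αz n, (S.orb x n).2.1 - σz n, (S.orb x n).2.2 - L n] : Fin 3 → ℝ)
        = ee (S.orb z n) := by
      rw [hαz, hσz, hL]
      unfold ee
      simp only [sub_sub_cancel]
    rw [e1, e2, e3] at key
    exact key
  have hαz1 : ∀ n, αz (n + 1) = H (ee (S.orb x n)) 0 - H (ee (S.orb z n)) 0 := by
    intro n
    rw [hαz]
    show (S.orb x (n + 1)).1 - (S.orb z (n + 1)).1 = _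
    rw [horb, horb, hs0, hs0]
  have hαy1 : ∀ n, αy (n + 1) = H (ee (S.orb y n)) 0 - H (ee (S.orb x n)) 0 := by
    intro n
    rw [hαy]
    show (S.orb y (n + 1)).1 - (S.orb x (n + 1)).1 = _
    rw [horb, horb, hs0, hs0]
  have hσz1 : ∀ n, σz (n + 1) = H (ee (S.orb x n)) 1 - H (ee (S.orb z n)) 1 := by
    intro n
    rw [hσz]
    show (S.orb x (n + 1)).2.1 - (S.orb z (n + 1)).2.1 = _
    rw [horb, horb, hs1, hs1]
  have hσy1 : ∀ n, σy (n + 1) = H (ee (S.orb y n)) 1 - H (ee (S.orb x n)) 1 := by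
    intro n
    rw [hσy]
    show (S.orb y (n + 1)).2.1 - (S.orb x (n + 1)).2.1 = _
    rw [horb, horb, hs1, hs1]
  have hL1 : ∀ n, L (n + 1) = (H (ee (S.orb x n)) 2 - ε * ψ (ee (S.orb x n)))
      - (H (ee (S.orb z n)) 2 - ε * ψ (ee (S.orb z n))) := by
    intro n
    rw [hL]
    show (S.orb x (n + 1)).2.2 - (S.orb z (n + 1)).2.2 = _
    rw [horb, horb, hs2, hs2]
  have hR1 : ∀ n, R (n + 1) = (H (ee (S.orb y n)) 2 - ε * ψ (ee (S.orb y n)))
      - (H (ee (S.orb x n)) 2 - ε * ψ (ee (S.orb x n))) := by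
    intro n
    rw [hR]
    show (S.orb y (n + 1)).2.2 - (S.orb x (n + 1)).2.2 = _
    rw [horb, horb, hs2, hs2]
  have hpsix : ∀ n, ψ (ee (S.orb x n)) = 0 := by
    intro n
    by_cases h : n1 ≤ n ∧ n < n2
    · exact (hin n h.1 h.2).1
    · exact (hout n h).1
  have hW : ∀ n, (L (n + 1) - L n) / L n - (R (n + 1) - R n) / R n
      = (((H (ee (S.orb x n)) 2 - H (ee (S.orb z n)) 2) - L n) / L n
          - ((H (ee (S.orb y n)) 2 - H (ee (S.orb x n)) 2) - R n) / R n)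
        + (ε * (ψ (ee (S.orb z n)) / L n) + ε * (ψ (ee (S.orb y n)) / R n)) := by
    intro n
    rw [hL1 n, hR1 n, hpsix n]
    ring
  have hwin : ∀ n, n1 ≤ n → n < n2 →
      17 / 10 * ε ≤ ε * (ψ (ee (S.orb z n)) / L n) + ε * (ψ (ee (S.orb y n)) / R n) ∧
      ε * (ψ (ee (S.orb z n)) / L n) + ε * (ψ (ee (S.orb y n)) / R n) ≤ 2 * ε := by
    intro n h1 h2
    obtain ⟨-, w1, w2, w3, w4⟩ := hin n h1 h2
    have p1 := (hcy n).1
    have q1 := (hcz n).1
    have hRn : (S.orb y n).2.2 - (S.orb x n).2.2 = R n := by rw [hR]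
    have hLn : (S.orb x n).2.2 - (S.orb z n).2.2 = L n := by rw [hL]
    rw [hRn] at w1 w2
    rw [hLn] at w3 w4
    have a1 : 17 / 20 ≤ ψ (ee (S.orb y n)) / R n := by rw [le_div_iff₀ p1]; exact w1
    have a2 : ψ (ee (S.orb y n)) / R n ≤ 1 := by rw [div_le_iff₀ p1]; linarith
    have a3 : 17 / 20 ≤ ψ (ee (S.orb z n)) / L n := by rw [le_div_iff₀ q1]; exact w3
    have a4 : ψ (ee (S.orb z n)) / L n ≤ 1 := by rw [div_le_iff₀ q1]; linarith
    have b1 := mul_le_mul_of_nonneg_left a1 hε.le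
    have b2 := mul_le_mul_of_nonneg_left a2 hε.le
    have b3 := mul_le_mul_of_nonneg_left a3 hε.le
    have b4 := mul_le_mul_of_nonneg_left a4 hε.le
    constructor <;> linarith
  refine ⟨?_, ?_⟩
  · refine
      { Rpos := fun n => (hcy n).1
        Lpos := fun n => (hcz n).1
        ay := fun n => (hcy n).2.2.1
        az := fun n => (hcz n).2.2.1
        sy := fun n => (hcy n).2.1
        sz := fun n => (hcz n).2.1
        Ry := fun n => (hcy n).2.2.2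
        Lz := fun n => (hcz n).2.2.2
        e2y := fun n => (hPy.h2 n).trans (mul_le_mul_of_nonneg_left (hmxy n) hep)
        e2z := fun n => (hPz.h2 n).trans (mul_le_mul_of_nonneg_left (hmxz n) hep)
        t1 := ?_
        t2 := ?_
        t3 := ?_ }
    · intro n _
      rw [hαz1 n, hαy1 n]
      exact (hstep n).1
    · intro n _
      rw [hσz1 n, hσy1 n]
      exact (hstep n).2.1
    · intro n _
      rw [hW n]
      have h3 := abs_le.mp (hstep n).2.2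
      rw [he n]
      by_cases h : n1 ≤ n ∧ n < n2
      · rw [if_pos h]
        have h4 := hwin n h.1 h.2
        rw [abs_le]
        constructor <;> linarith [h3.1, h3.2, h4.1, h4.2]
      · rw [if_neg h]
        obtain ⟨-, h5, h6⟩ := hout n h
        rw [h5, h6]
        rw [abs_le]
        simp only [zero_div, mul_zero, add_zero]
        exact h3
  · intro n h1 h2
    rw [hW n]
    have h3 := abs_le.mp (hstep n).2.2
    have h4 := hwin n h1 h2
    linarith [h3.1, h3.2, h4.1, h4.2]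

theorem trip_build (H : (Fin 3 → ℝ) → (Fin 3 → ℝ)) (hH : ContDiff ℝ 2 H) (hcl : Cl H F0 ep)
    (M : ℝ) (hM : 0 ≤ M) (h2 : ∀ p, ‖iteratedFDeriv ℝ 2 (fun q => H q - F0 q) p‖ ≤ M)
    (ψ : (Fin 3 → ℝ) → ℝ) (ε : ℝ) (hε : 0 < ε) (S : Sys1)
    (hS : ∀ p, ee (S.step p) = fun i => if i = 2 then H (ee p) 2 - ε * ψ (ee p) else H (ee p) i)
    (n1 n2 T : ℕ) (e : ℕ → ℝ) (he : ∀ n, e n = if n1 ≤ n ∧ n < n2 then 2 * ε else 0)
    (x y z : ℝ × ℝ × ℝ)
    (hy : ∀ n, |(S.orb y n).1 - (S.orb x n).1| ≤ 1) (hz : ∀ n, |(S.orb x n).1 - (S.orb z n).1| ≤ 1)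
    (hyb : y.2.1 = x.2.1) (hyc : x.2.2 < y.2.2) (hzb : z.2.1 = x.2.1) (hzc : z.2.2 < x.2.2)
    (hout : ∀ n, ¬ (n1 ≤ n ∧ n < n2) →
      ψ (ee (S.orb x n)) = 0 ∧ ψ (ee (S.orb y n)) = 0 ∧ ψ (ee (S.orb z n)) = 0)
    (hin : ∀ n, n1 ≤ n → n < n2 → ψ (ee (S.orb x n)) = 0 ∧
      17 / 20 * ((S.orb y n).2.2 - (S.orb x n).2.2) ≤ ψ (ee (S.orb y n)) ∧
      ψ (ee (S.orb y n)) ≤ (S.orb y n).2.2 - (S.orb x n).2.2 ∧
      17 / 20 * ((S.orb x n).2.2 - (S.orb z n).2.2) ≤ ψ (ee (S.orb z n)) ∧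
      ψ (ee (S.orb z n)) ≤ (S.orb x n).2.2 - (S.orb z n).2.2) :
    Trip1 (M + 2) e T
      (fun n => (S.orb y n).1 - (S.orb x n).1) (fun n => (S.orb y n).2.1 - (S.orb x n).2.1)
      (fun n => (S.orb y n).2.2 - (S.orb x n).2.2) (fun n => (S.orb x n).1 - (S.orb z n).1)
      (fun n => (S.orb x n).2.1 - (S.orb z n).2.1) (fun n => (S.orb x n).2.2 - (S.orb z n).2.2) ∧
    ∀ αy σy R αz σz L : ℕ → ℝ,
      αy = (fun n => (S.orb y n).1 - (S.orb x n).1) →
      σy = (fun n => (S.orb y n).2.1 - (S.orb x n).2.1) →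
      R = (fun n => (S.orb y n).2.2 - (S.orb x n).2.2) →
      αz = (fun n => (S.orb x n).1 - (S.orb z n).1) →
      σz = (fun n => (S.orb x n).2.1 - (S.orb z n).2.1) →
      L = (fun n => (S.orb x n).2.2 - (S.orb z n).2.2) →
      ∀ n, n1 ≤ n → n < n2 → 17 / 10 * ε - dl * (Dif αy R αz L n + Dif σy R σz L n)
        - (M + 2) * (L n + R n) ≤ (L (n + 1) - L n) / L n - (R (n + 1) - R n) / R n := by
  refine ⟨(trip_build_aux_core H hH hcl M hM h2 ψ ε hε S hS n1 n2 T e he x y z hy hz hyb hyc hzb hzc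
    hout hin _ _ _ _ _ _ rfl rfl rfl rfl rfl rfl).1, ?_⟩
  intro αy σy R αz σz L a1 a2 a3 a4 a5 a6
  exact (trip_build_aux_core H hH hcl M hM h2 ψ ε hε S hS n1 n2 T e he x y z hy hz hyb hyc hzb hzc
    hout hin _ _ _ _ _ _ a1 a2 a3 a4 a5 a6).2


end Pool.Agent.Helper867.Smale
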