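import Pool.Agent.Helper867.Smale.Defs2
import Pool.Agent.Helper867.Smale.L_pair_center
import Pool.Agent.Helper867.Smale.L_two_point
import Pool.Agent.Helper867.Smale.L_near_spec
import Pool.Agent.Helper867.Smale.L_exists_leaf
import Pool.Agent.Helper867.Smale.L_orb_pair
import Pool.Agent.Helper867.Smale.L_left_trap
import Pool.Agent.Helper867.Smale.L_right_conv
import Pool.Agent.Helper867.Smale.L_control
import Pool.Agent.Helper867.Smale.L_path_lemma
import Pool.Agent.Helper867.Smale.L_deriv_dir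
import Pool.Agent.Helper867.Smale.L_dim_low
import Pool.Agent.Helper867.Smale.L_pr_eq_iff
import Pool.Agent.Helper867.Smale.L_dist_pr
import Pool.Agent.Helper867.Smale.L_dist_pr_le

set_option autoImplicit false

open Set Filter Topology

namespace Pool.Agent.Helper867.Smale

theorem nc_pos : (0:ℝ) < nu ∧ (0:ℝ) < r0 ∧ (0:ℝ) < dd ∧ (0:ℝ) < dl ∧ (0:ℝ) < NN - 2 := by
  unfold nu r0 dd dl NN; norm_num

/-- the control lemma applied to the system -/
theorem nc_omega (S : Sys) : ∃ (ω : ℕ → Fin 4) (x y : ℝ × ℝ × ℝ),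
    (∀ n, |(S.orb x n).1 - arc ω n| ≤ dd) ∧ (∀ n, |(S.orb y n).1 - arc ω n| ≤ dd) ∧
    x.2.1 = 0 ∧ x.2.2 = 0 ∧ y.2.1 = 0 ∧ y.2.2 = r0 ∧
    (∀ n, |(S.orb x n).2.2| ≤ 2 * nu) ∧
    (∀ n, (S.orb y n).2.2 - (S.orb x n).2.2 ≤ nu) ∧
    Tendsto (fun n => (S.orb y n).2.2 - (S.orb x n).2.2) atTop (𝓝 0) ∧
    (∀ n : ℕ, 1 / 10 ^ 22 ≤ ((S.orb y n).2.2 - (S.orb x n).2.2) ^ 2 * ((n : ℝ) + 1)) := by
  obtain ⟨hnu, hr0, hdd, hdl, hNN⟩ := nc_pos
  have hex : ∀ (ω : ℕ → Fin 4) (c : ℝ), ∃ a : ℝ, ∀ n, |(S.orb (a, 0, c) n).1 - arc ω n| ≤ dd :=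
    fun ω c => exists_leaf S ω 0 c (by norm_num)
  choose lf hlf using hex
  have hdd1 : 2 * dd ≤ 1 := by unfold dd; norm_num
  have hpair : ∀ ω : ℕ → Fin 4, ∀ n,
      |(S.orb (lf ω r0, 0, r0) n).1 - (S.orb (lf ω 0, 0, 0) n).1| ≤ 1 := by
    intro ω n
    have h1 := hlf ω r0 n
    have h2 := hlf ω 0 n
    rw [abs_le] at *
    constructor <;> linarith [h1.1, h1.2, h2.1, h2.2]
  have hcen : ∀ ω : ℕ → Fin 4, ∀ n,
      0 < (S.orb (lf ω r0, 0, r0) n).2.2 - (S.orb (lf ω 0, 0, 0) n).2.2 ∧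
      |(S.orb (lf ω r0, 0, r0) n).2.1 - (S.orb (lf ω 0, 0, 0) n).2.1| ≤
        (S.orb (lf ω r0, 0, r0) n).2.2 - (S.orb (lf ω 0, 0, 0) n).2.2 ∧
      |(S.orb (lf ω r0, 0, r0) n).1 - (S.orb (lf ω 0, 0, 0) n).1| ≤
        3 / NN * ((S.orb (lf ω r0, 0, r0) n).2.2 - (S.orb (lf ω 0, 0, 0) n).2.2) := by
    intro ω n
    have := pair_center _ _ _ (orb_pair S (lf ω 0, 0, 0) (lf ω r0, 0, r0)) (hpair ω)
      (by simp [Sys.orb, hr0.le]) (by simp [Sys.orb, hr0]) n
    exact ⟨this.1, this.2.1, this.2.2.1⟩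
  -- two point estimate
  have htwo : ∀ (ω ω' : ℕ → Fin 4) (c : ℝ) (m : ℕ), (∀ k < m + 1, ω k = ω' k) →
      (∀ k ≤ m, |(S.orb (lf ω c, 0, c) k).2.2 - (S.orb (lf ω' c, 0, c) k).2.2|
        ≤ 2 * dd * dl / (NN - 2) ^ (m - k)) ∧
      |(S.orb (lf ω c, 0, c) (m + 1)).2.2 - (S.orb (lf ω' c, 0, c) (m + 1)).2.2| ≤ 5 * dd * dl := by
    intro ω ω' c m hag
    have harcP : ∀ k ≤ m, arcP ω k = arcP ω' k := by
      intro k
      induction k with
      | zero => intro _; simp [arcP, hag 0 (by omega)]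
      | succ k ih =>
        intro hk
        have := ih (by omega)
        simp only [arcP, this, hag (k + 1) (by omega)]
    refine two_point _ _ _ (orb_pair S (lf ω' c, 0, c) (lf ω c, 0, c)) (by simp [Sys.orb])
      (by simp [Sys.orb]) m ?_
    intro k hk
    have h1 := hlf ω c k
    have h2 := hlf ω' c k
    have h3 : arc ω k = arc ω' k := by simp only [arc, harcP k hk]
    rw [h3] at h1
    rw [abs_le] at *
    constructor <;> linarith [h1.1, h1.2, h2.1, h2.2]
  obtain ⟨ω, hω1, hω2, hω3, hω4⟩ := control (fun ω n => (S.orb (lf ω 0, 0, 0) n).2.2)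
    (fun ω n => (S.orb (lf ω r0, 0, r0) n).2.2 - (S.orb (lf ω 0, 0, 0) n).2.2)
    (by intro ω; simp [Sys.orb]) (by intro ω; simp [Sys.orb]) (fun ω n => (hcen ω n).1)
    (by
      intro ω ω' n hag
      cases n with
      | zero =>
        simp only [Sys.orb, Function.iterate_zero, id_eq, sub_self, abs_zero]
        exact div_nonneg hnu.le (by norm_num)
      | succ m =>
        refine (htwo ω ω' 0 m hag).2.trans ?_
        unfold dd dl nu; norm_num)
    (by
      intro ω ω' n hag k hk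
      cases n with
      | zero => omega
      | succ m =>
        have h1 := (htwo ω ω' 0 m hag).1 k (by omega)
        have h2 := (htwo ω ω' r0 m hag).1 k (by omega)
        have e1 : m + 1 - 1 - k = m - k := by omega
        simp only [e1]
        have e2 : 4 * dd * dl / (NN - 2) ^ (m - k) = 2 * dd * dl / (NN - 2) ^ (m - k) +
          2 * dd * dl / (NN - 2) ^ (m - k) := by ring
        rw [e2]
        rw [abs_le] at *
        constructor <;> linarith [h1.1, h1.2, h2.1, h2.2])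
    (by
      intro ω n hc hi
      obtain ⟨m, hm⟩ : ∃ m : ℤ, arc ω n = aT (ω n) + m := by
        cases n with
        | zero => exact ⟨0, by simp [arc, arcP]⟩
        | succ n => exact (near_spec _ _).2
      have ha := hlf ω 0 n
      rw [hm] at ha
      have hs := S.signP (ω n) m _ (S.orb (lf ω 0, 0, 0) n).2.1 _ hi ha hc
      have hr := abs_le.1 (S.smallr _ hc)
      have hstep : (S.orb (lf ω 0, 0, 0) (n + 1)) = S.step (S.orb (lf ω 0, 0, 0) n) :=
        Function.iterate_succ_apply' _ _ _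
      simp only [hstep, Sys.step]
      constructor <;> linarith [hs.1, hs.2, hr.1, hr.2])
    (by
      intro ω n hc hi
      obtain ⟨m, hm⟩ : ∃ m : ℤ, arc ω n = aT (ω n) + m := by
        cases n with
        | zero => exact ⟨0, by simp [arc, arcP]⟩
        | succ n => exact (near_spec _ _).2
      have ha := hlf ω 0 n
      rw [hm] at ha
      have hs := S.signN (ω n) m _ (S.orb (lf ω 0, 0, 0) n).2.1 _ hi ha hc
      have hr := abs_le.1 (S.smallr _ hc)
      have hstep : (S.orb (lf ω 0, 0, 0) (n + 1)) = S.step (S.orb (lf ω 0, 0, 0) n) :=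
        Function.iterate_succ_apply' _ _ _
      simp only [hstep, Sys.step]
      constructor <;> linarith [hs.1, hs.2, hr.1, hr.2])
    (by
      intro ω n hc hRn hi
      obtain ⟨m, hm⟩ : ∃ m : ℤ, arc ω n = aT (ω n) + m := by
        cases n with
        | zero => exact ⟨0, by simp [arc, arcP]⟩
        | succ n => exact (near_spec _ _).2
      have ha := hlf ω 0 n
      rw [hm] at ha
      obtain ⟨k1, k2, k3⟩ := hcen ω n
      have hs := S.rateE (ω n) m _ (S.orb (lf ω 0, 0, 0) n).2.1 _ _ _ _ hi ha hc k1 hRn k3 k2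
      have hstep : (S.orb (lf ω 0, 0, 0) (n + 1)) = S.step (S.orb (lf ω 0, 0, 0) n) :=
        Function.iterate_succ_apply' _ _ _
      have hstep' : (S.orb (lf ω r0, 0, r0) (n + 1)) = S.step (S.orb (lf ω r0, 0, r0) n) :=
        Function.iterate_succ_apply' _ _ _
      simp only [hstep, hstep', Sys.step]
      simp only [add_sub_cancel] at hs
      constructor <;> linarith [hs.1, hs.2])
    (by
      intro ω n hc hRn hi
      obtain ⟨m, hm⟩ : ∃ m : ℤ, arc ω n = aT (ω n) + m := by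
        cases n with
        | zero => exact ⟨0, by simp [arc, arcP]⟩
        | succ n => exact (near_spec _ _).2
      have ha := hlf ω 0 n
      rw [hm] at ha
      obtain ⟨k1, k2, k3⟩ := hcen ω n
      have hs := S.rateC (ω n) m _ (S.orb (lf ω 0, 0, 0) n).2.1 _ _ _ _ hi ha hc k1 hRn k3 k2
      have hstep : (S.orb (lf ω 0, 0, 0) (n + 1)) = S.step (S.orb (lf ω 0, 0, 0) n) :=
        Function.iterate_succ_apply' _ _ _
      have hstep' : (S.orb (lf ω r0, 0, r0) (n + 1)) = S.step (S.orb (lf ω r0, 0, r0) n) :=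
        Function.iterate_succ_apply' _ _ _
      simp only [hstep, hstep', Sys.step]
      simp only [add_sub_cancel] at hs
      constructor <;> linarith [hs.1, hs.2])
  exact ⟨ω, (lf ω 0, 0, 0), (lf ω r0, 0, r0), hlf ω 0, hlf ω r0, rfl, rfl, rfl, rfl, hω1, hω2,
    hω3, hω4⟩

theorem iter_pr (f : T3 → T3) (S : Sys) (hS : ∀ p, f (pr (ee p)) = pr (ee (S.step p)))
    (p : ℝ × ℝ × ℝ) (n : ℕ) : f^[n] (pr (ee p)) = pr (ee (S.orb p n)) := by
  induction n with
  | zero => rfl
  | succ n ih =>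
    rw [Function.iterate_succ_apply', ih, hS]
    congr 2
    exact (Function.iterate_succ_apply' _ _ _).symm

theorem ee_mk (p : Fin 3 → ℝ) : ee (p 0, p 1, p 2) = p := by
  ext i; fin_cases i <;> rfl

theorem not_cell (r : ℕ∞) (hr : 1 ≤ r) (f : T3 → T3) (S : Sys)
    (hS : ∀ p, f (pr (ee p)) = pr (ee (S.step p))) : ∃ x, ¬ IsCell r (stableSet f x) := by
  obtain ⟨hnu, hr0, hdd, hdl, hNN⟩ := nc_pos
  obtain ⟨ω, x, y, hx, hy, hx1, hx2, hy1, hy2, hxc, hR1, hR0, hR2⟩ := nc_omega S
  have hdd1 : 2 * dd ≤ 1 / 2 := by unfold dd; norm_num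
  have hxy : ∀ n, |(S.orb y n).1 - (S.orb x n).1| ≤ 1 / 2 := by
    intro n
    have h1 := hx n
    have h2 := hy n
    rw [abs_le] at *
    constructor <;> linarith [h1.1, h1.2, h2.1, h2.2]
  refine ⟨pr (ee x), ?_⟩
  rintro ⟨k, Φ, hΦ, himm, hinj, hrange⟩
  have hΦ1 : ContDiff ℝ 1 Φ := hΦ.of_le (by exact_mod_cast hr)
  by_cases hk : k < 2
  · -- low dimension
    refine dim_low hk Φ hΦ1 (-(r0 / 10)) (r0 / 10) (r0 / 4) (r0 / 2) (by linarith) (by linarith) ?_
    intro b hb c hc
    have hr01 : r0 / 10 ≤ 1 / 2 := by unfold r0; norm_num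
    obtain ⟨a, ha⟩ := exists_leaf S ω b c (by
      rw [abs_le]; constructor <;> linarith [hb.1, hb.2])
    have hz : ∀ n, |(S.orb (a, b, c) n).1 - (S.orb x n).1| ≤ 1 / 2 := by
      intro n
      have h1 := hx n
      have h2 := ha n
      rw [abs_le] at *
      constructor <;> linarith [h1.1, h1.2, h2.1, h2.2]
    have hconv := right_conv S x y (a, b, c) hxy hz (by rw [hy1, hx1]) (by rw [hy2, hx2]; ring) hR0
      (by rw [hx1]; simp only [sub_zero]; rw [abs_le]; constructor <;> linarith [hb.1, hb.2])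
      (by rw [hx2]; simp only [sub_zero]; exact hc.1) (by rw [hx2]; simp only [sub_zero]; exact hc.2)
    have hmem : pr (ee (a, b, c)) ∈ stableSet f (pr (ee x)) := by
      have h3 : Tendsto (fun n => dist (ee (S.orb x n)) (ee (S.orb (a, b, c) n))) atTop (𝓝 0) := by
        have hs : Tendsto (fun n => |(S.orb (a, b, c) n).1 - (S.orb x n).1| +
            |(S.orb (a, b, c) n).2.1 - (S.orb x n).2.1| +
            |(S.orb (a, b, c) n).2.2 - (S.orb x n).2.2|) atTop (𝓝 0) := by
          have := (hconv.1.abs.add hconv.2.1.abs).add hconv.2.2.abs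
          simpa using this
        refine squeeze_zero (fun n => dist_nonneg) (fun n => ?_) hs
        rw [dist_pi_le_iff (by positivity)]
        intro i
        rw [dist_comm, Real.dist_eq]
        fin_cases i <;> simp [ee] <;> nlinarith [abs_nonneg ((S.orb (a, b, c) n).1 - (S.orb x n).1),
          abs_nonneg ((S.orb (a, b, c) n).2.1 - (S.orb x n).2.1),
          abs_nonneg ((S.orb (a, b, c) n).2.2 - (S.orb x n).2.2)]
      show Tendsto _ _ _
      refine squeeze_zero (fun n => dist_nonneg) (fun n => ?_) h3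
      rw [iter_pr f S hS, iter_pr f S hS]
      exact dist_pr_le _ _
    rw [← hrange] at hmem
    obtain ⟨q, hq⟩ := hmem
    have hq' := (pr_eq_iff _ _).1 hq
    obtain ⟨m1, hm1⟩ := hq' 1
    obtain ⟨m2, hm2⟩ := hq' 2
    refine ⟨q, -m1, -m2, ?_, ?_⟩
    · have : ee (a, b, c) 1 = b := rfl
      rw [this] at hm1
      push_cast; linarith
    · have : ee (a, b, c) 2 = c := rfl
      rw [this] at hm2
      push_cast; linarith
  · -- high dimension
    push Not at hk
    have hxmem : pr (ee x) ∈ stableSet f (pr (ee x)) := by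
      show Tendsto _ _ _
      simp
    rw [← hrange] at hxmem
    obtain ⟨q0, hq0⟩ := hxmem
    have hq0' := (pr_eq_iff _ _).1 hq0
    choose m hm using hq0'
    set Ψ : (Fin k → ℝ) → (Fin 3 → ℝ) := fun q => Φ q + fun i => (m i : ℝ) with hΨ
    have hΨ0 : Ψ q0 = ee x := by
      ext i; simp only [hΨ, Pi.add_apply]; exact (hm i).symm
    have hΨc : Continuous Ψ := hΦ1.continuous.add continuous_const
    have hΨd : DifferentiableAt ℝ Ψ q0 :=
      ((hΦ1.differentiable (by norm_num)) q0).add_const _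
    have hΨf : fderiv ℝ Ψ q0 = fderiv ℝ Φ q0 := fderiv_add_const _
    have hΨpr : ∀ q, pr (Ψ q) = pr (Φ q) := by
      intro q
      rw [eq_comm, pr_eq_iff]
      intro i
      exact ⟨m i, rfl⟩
    have hΨmem : ∀ q, pr (Ψ q) ∈ stableSet f (pr (ee x)) := by
      intro q
      rw [hΨpr, ← hrange]
      exact ⟨q, rfl⟩
    obtain ⟨ρ, hρ, hball⟩ := Metric.continuousAt_iff.1 (hΨc.continuousAt (x := q0)) (1 / 400)
      (by norm_num)
    have hcoord : ∀ q, dist q q0 < ρ → ∀ i, |Ψ q i - ee x i| < 1 / 400 := by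
      intro q hq i
      have := hball hq
      rw [hΨ0] at this
      calc |Ψ q i - ee x i| = dist (Ψ q i) (ee x i) := (Real.dist_eq _ _).symm
        _ ≤ dist (Ψ q) (ee x) := dist_le_pi_dist _ _ i
        _ < 1 / 400 := this
    have hleaf : ∀ q, dist q q0 < ρ → ∀ n,
        |(S.orb (Ψ q 0, Ψ q 1, Ψ q 2) n).1 - (S.orb x n).1| ≤ 1 / 2 := by
      intro q hq
      set ζ : ℝ → ℝ × ℝ × ℝ := fun t =>
        (Ψ (q0 + t • (q - q0)) 0, Ψ (q0 + t • (q - q0)) 1, Ψ (q0 + t • (q - q0)) 2) with hζ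
      have hcont : Continuous fun t : ℝ => Ψ (q0 + t • (q - q0)) := by fun_prop
      have hζc : Continuous ζ := by
        have h0 := (continuous_apply (0 : Fin 3)).comp hcont
        have h1 := (continuous_apply (1 : Fin 3)).comp hcont
        have h2 := (continuous_apply (2 : Fin 3)).comp hcont
        exact h0.prodMk (h1.prodMk h2)
      have hd : ∀ t ∈ Icc (0:ℝ) 1, dist (q0 + t • (q - q0)) q0 < ρ := by
        intro t ht
        rw [dist_eq_norm] at hq ⊢
        rw [add_sub_cancel_left, norm_smul]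
        have : ‖t‖ ≤ 1 := by rw [Real.norm_eq_abs, abs_le]; constructor <;> linarith [ht.1, ht.2]
        calc ‖t‖ * ‖q - q0‖ ≤ 1 * ‖q - q0‖ := by gcongr
          _ < ρ := by rw [one_mul]; exact hq
      have h0' : ζ 0 = x := by
        simp only [hζ, zero_smul, add_zero, hΨ0]; rfl
      have key := path_lemma S ω x hx ζ hζc.continuousOn h0' (by
          intro t ht
          have h1 := hcoord _ (hd t ht) 0
          have h2 := hcoord _ (hd t ht) 1
          constructor
          · exact h1.le.trans (by norm_num)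
          · exact h2.le.trans (by norm_num)) (by
          intro t ht
          have hm' := hΨmem (q0 + t • (q - q0))
          have hm2 : Tendsto (fun n : ℕ => dist (f^[n] (pr (ee x)))
            (f^[n] (pr (Ψ (q0 + t • (q - q0)))))) atTop (𝓝 0) := hm'
          refine squeeze_zero (fun n => norm_nonneg _) (fun n => ?_) hm2
          have e1 : Ψ (q0 + t • (q - q0)) = ee (ζ t) := (ee_mk _).symm
          have e2 := dist_pr (ee (S.orb (ζ t) n)) (ee (S.orb x n)) 0
          rw [← iter_pr f S hS, ← iter_pr f S hS, ← e1, dist_comm] at e2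
          exact e2)
      intro n
      have := key n 1 (by constructor <;> norm_num)
      simpa [hζ] using this
    have hcone : ∀ᶠ q in 𝓝 q0, |Ψ q 0 - Ψ q0 0| ≤
        3 / NN * max |Ψ q 1 - Ψ q0 1| |Ψ q 2 - Ψ q0 2| := by
      filter_upwards [Metric.ball_mem_nhds q0 hρ] with q hq
      have h1 := hleaf q hq
      have := pair_small _ _ _ (orb_pair S x (Ψ q 0, Ψ q 1, Ψ q 2))
        (fun n => (h1 n).trans (by norm_num)) 0
      rw [hΨ0]
      exact this
    have hfreq := deriv_dir hk Ψ q0 hΨd (by rw [hΨf]; exact himm q0) hcone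
    obtain ⟨q, ⟨hqa, hqb⟩, hqc⟩ := (hfreq.and_eventually (Metric.ball_mem_nhds q0 hρ)).exists
    have hqc' : dist q q0 < ρ := hqc
    rw [hΨ0] at hqa hqb
    have hz3 := hcoord q hqc' 2
    have ee2 : ee x 2 = x.2.2 := rfl
    have ee1 : ee x 1 = x.2.1 := rfl
    rw [ee2] at hqa hqb hz3
    rw [ee1] at hqb
    obtain ⟨n0, hn0⟩ := left_trap S x y (Ψ q 0, Ψ q 1, Ψ q 2) hxc
      (fun n => (hxy n).trans (by norm_num))
      (fun n => by
        have := hleaf q hqc' n
        rw [abs_sub_comm]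
        exact this.trans (by norm_num))
      (by rw [hy1, hx1]) (by rw [hy2, hx2]; ring) hR1 hR2 hqb hqa (by
        have := abs_lt.1 hz3
        show x.2.2 - Ψ q 2 < 1 / 400
        linarith [this.1])
    have hm' := hΨmem q
    have hm2 : Tendsto (fun n : ℕ => dist (f^[n] (pr (ee x))) (f^[n] (pr (Ψ q)))) atTop (𝓝 0) := hm'
    obtain ⟨n, hn, hnn⟩ := ((hm2.eventually (gt_mem_nhds (show (0:ℝ) < 1 / 400 by norm_num))).and
      (eventually_ge_atTop n0)).exists
    have e1 : Ψ q = ee (Ψ q 0, Ψ q 1, Ψ q 2) := (ee_mk _).symm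
    rw [e1, iter_pr f S hS, iter_pr f S hS] at hn
    have hn' := lt_of_le_of_lt (dist_pr _ _ 2) hn
    have t1 := hn0 n hnn
    have t2 := abs_le.1 (hxc n)
    have hnu2 : 2 * nu ≤ 1 / 1000 := by unfold nu; norm_num
    have e3 : (ee (S.orb x n) 2 - ee (S.orb (Ψ q 0, Ψ q 1, Ψ q 2) n) 2 : ℝ)
      = (S.orb x n).2.2 - (S.orb (Ψ q 0, Ψ q 1, Ψ q 2) n).2.2 := rfl
    rw [e3] at hn'
    set d := (S.orb x n).2.2 - (S.orb (Ψ q 0, Ψ q 1, Ψ q 2) n).2.2 with hd
    have hd1 : 1 / 400 ≤ d := by linarith [t1.2, t2.1]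
    have hd2 : d ≤ 1 / 2 := by linarith [t1.1, t2.2]
    have hnorm : ‖((d : ℝ) : UnitAddCircle)‖ = |d| := by
      rw [AddCircle.norm_coe_eq_abs_iff]
      · rw [abs_of_nonneg (by linarith), abs_of_pos (by norm_num : (0:ℝ) < 1)]; exact hd2
      · norm_num
    rw [hnorm, abs_of_nonneg (by linarith)] at hn'
    linarith

end Pool.Agent.Helper867.Smale
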