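import Pool.Agent.Helper867.Smale.NotCell
import Pool.Agent.Helper867.Smale.L_sys_of_near
import Pool.Agent.Helper867.Smale.L_exists_f0
import Pool.Agent.Helper867.Smale.L_lift_unique

set_option autoImplicit false

open Set Filter Topology

namespace Pool.Agent.Helper867.Smale

theorem pr_sub_int (p : Fin 3 → ℝ) (m : Fin 3 → ℤ) : pr (p - fun i => (m i : ℝ)) = pr p := by
  rw [pr_eq_iff]
  intro i
  exact ⟨m i, by simp⟩

theorem open_bad (r : ℕ∞) (hr : 2 ≤ r) : ∃ U : Set (Dyn r), IsOpen U ∧ U.Nonempty ∧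
    ∀ f ∈ U, ¬ PropC r f := by
  obtain ⟨f0, hf0, G0, hG0⟩ := exists_f0
  have hr1 : (1 : ℕ∞) ≤ r := le_trans (by norm_num) hr
  let f : Dyn r := ⟨f0, ⟨F0, hf0 r⟩, ⟨G0, hG0 r⟩⟩
  have hep : (0:ℝ) < ep := by unfold ep; norm_num
  refine ⟨ckBall r f 2 ep, ?_, ⟨f, ?_⟩, ?_⟩
  · exact TopologicalSpace.isOpen_generateFrom_of_mem ⟨f, 2, ep, by exact_mod_cast hr, hep, rfl⟩
  · exact ⟨F0, F0, hf0 r, hf0 r, 0, hep, fun j _ p => by simp⟩
  · rintro g ⟨F, G, hF, hG, ε', hε', hFG⟩ hC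
    obtain ⟨m, hm⟩ := lift_unique F F0 hF.1.continuous (hf0 r).1.continuous
      (fun p => by rw [hF.2, (hf0 r).2])
    set c : Fin 3 → ℝ := fun i => (m i : ℝ) with hc
    have hFc : F = fun p => F0 p + c := by
      funext p; ext i; exact hm p i
    set G' : (Fin 3 → ℝ) → (Fin 3 → ℝ) := fun p => G p - c with hG'
    have h2r : (2 : WithTop ℕ∞) ≤ (r : WithTop ℕ∞) := by
      have : ((2 : ℕ∞) : WithTop ℕ∞) ≤ (r : WithTop ℕ∞) := WithTop.coe_le_coe.2 hr
      exact this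
    have hG2 : ContDiff ℝ 2 G := hG.1.of_le h2r
    have hF02 : ContDiff ℝ 2 F0 := (hf0 r).1.of_le h2r
    have hG'2 : ContDiff ℝ 2 G' := hG2.sub contDiff_const
    have hF2 : ContDiff ℝ 2 F := hF.1.of_le h2r
    have hdiff : (fun p => G' p - F0 p) = fun p => G p - F p := by
      funext p; simp only [hG', hFc]; abel
    obtain ⟨S, hS⟩ := sys_of_near G' hG'2 (by
      intro j hj p
      have hj2 : ((j : ℕ) : WithTop ℕ∞) ≤ 2 := by exact_mod_cast hj
      have e1 : iteratedFDeriv ℝ j G' p - iteratedFDeriv ℝ j F0 p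
          = iteratedFDeriv ℝ j (fun p => G' p - F0 p) p := by
        rw [← iteratedFDeriv_sub_apply (hG'2.contDiffAt.of_le hj2) (hF02.contDiffAt.of_le hj2)]
        rfl
      have e2 : iteratedFDeriv ℝ j G p - iteratedFDeriv ℝ j F p
          = iteratedFDeriv ℝ j (fun p => G p - F p) p := by
        rw [← iteratedFDeriv_sub_apply (hG2.contDiffAt.of_le hj2) (hF2.contDiffAt.of_le hj2)]
        rfl
      rw [e1, hdiff, ← e2]
      exact (hFG j hj p).trans hε'.le)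
    obtain ⟨x, hx⟩ := not_cell r hr1 g.1 S (fun p => by
      rw [← hS, ← hG.2 (ee p)]
      exact (pr_sub_int (G (ee p)) m).symm)
    exact hx (hC x)

end Pool.Agent.Helper867.Smale
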