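import Pool.Agent.Helper867.Smale.Base1

set_option autoImplicit false

open Set Filter Topology

namespace Pool.Agent.Helper867.Smale

/-- inequalities satisfied by a triple of orbits z < x < y up to time `T`, C^2 constant `M`,
forcing term `e` -/
structure Trip1 (M : ℝ) (e : ℕ → ℝ) (T : ℕ) (αy σy R αz σz L : ℕ → ℝ) : Prop where
  Rpos : ∀ n, 0 < R n
  Lpos : ∀ n, 0 < L n
  ay : ∀ n, |αy n| ≤ 3 / NN * R n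
  az : ∀ n, |αz n| ≤ 3 / NN * L n
  sy : ∀ n, |σy n| ≤ R n
  sz : ∀ n, |σz n| ≤ L n
  Ry : ∀ n, 9 / 10 * R n ≤ R (n + 1) ∧ R (n + 1) ≤ 11 / 10 * R n
  Lz : ∀ n, 9 / 10 * L n ≤ L (n + 1) ∧ L (n + 1) ≤ 11 / 10 * L n
  e2y : ∀ n, |σy (n + 1) - αy n| ≤ ep * R n
  e2z : ∀ n, |σz (n + 1) - αz n| ≤ ep * L n
  t1 : ∀ n, n < T →
    |(αz (n + 1) - (NN * αz n - σz n)) / L n - (αy (n + 1) - (NN * αy n - σy n)) / R n|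
      ≤ ep * (Dif αy R αz L n + Dif σy R σz L n) + M * (L n + R n)
  t2 : ∀ n, n < T → |(σz (n + 1) - αz n) / L n - (σy (n + 1) - αy n) / R n|
    ≤ ep * (Dif αy R αz L n + Dif σy R σz L n) + M * (L n + R n)
  t3 : ∀ n, n < T → |(L (n + 1) - L n) / L n - (R (n + 1) - R n) / R n|
    ≤ dl * (Dif αy R αz L n + Dif σy R σz L n) + M * (L n + R n) + e n

/-- `p` is the point of the leaf of `ω` with coordinates `b`, `c` -/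
def Leaf (S : Sys1) (ω : ℕ → Fin 4) (b c : ℝ) (p : ℝ × ℝ × ℝ) : Prop :=
  p.2.1 = b ∧ p.2.2 = c ∧ ∀ n, |(S.orb p n).1 - arc ω n| ≤ dd

/-- the words agree up to time `n` -/
def Agree (n : ℕ) (ω ω' : ℕ → Fin 4) : Prop := ∀ k < n, ω k = ω' k

/-- the steps of the two systems are `δ`-close -/
def SCl (S S' : Sys1) (δ : ℝ) : Prop :=
  ∀ p, |(S.step p).1 - (S'.step p).1| ≤ δ ∧ |(S.step p).2.1 - (S'.step p).2.1| ≤ δ ∧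
    |(S.step p).2.2 - (S'.step p).2.2| ≤ δ

/-- hypothesis at the beginning of a stage -/
def Pre (S : Sys1) (ω0 : ℕ → Fin 4) (n0 : ℕ) (η0 κ : ℝ) : Prop :=
  ∀ ω', Agree n0 ω0 ω' → ∀ x y, Leaf S ω' 0 0 x → Leaf S ω' 0 r0 y →
    (∀ i ≤ n0, |(S.orb x i).2.2| ≤ 2 * nu - κ) ∧ (S.orb y n0).2.2 - (S.orb x n0).2.2 ≤ η0 - κ

/-- a stage can be carried out -/
def Stage (S : Sys1) (ω0 : ℕ → Fin 4) (n0 : ℕ) (η0 η : ℝ) : Prop :=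
  ∃ (ω : ℕ → Fin 4) (n1 : ℕ) (t κ : ℝ), Agree n0 ω0 ω ∧ n0 < n1 ∧ 0 < t ∧ t < η ∧ 0 < κ ∧
    ∀ ω', Agree n1 ω ω' → ∀ x y z, Leaf S ω' 0 0 x → Leaf S ω' 0 r0 y → Leaf S ω' 0 (-t) z →
      (∀ i ≤ n1, |(S.orb x i).2.2| ≤ 2 * nu - κ) ∧
      (∀ i, n0 ≤ i → i ≤ n1 → (S.orb y i).2.2 - (S.orb x i).2.2 ≤ 2 * η0 - κ) ∧
      (S.orb y n1).2.2 - (S.orb x n1).2.2 ≤ η - κ ∧
      ∃ i ≤ n1, (S.orb z i).2.2 ≤ -(1 / 200) - κ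

end Pool.Agent.Helper867.Smale
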